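import Pool.Agent.Lib.MP_446dfa_ag.sig.Basic

set_option linter.all false

/-!
# Assembly: existence of the elements `σ_{2i+3}` of `grt₁`
-/

noncomputable section

namespace MP446S

open MP446 MP446Y MP446Z

universe u v w

attribute [local instance 100] LieRing.ofAssociativeRing

/-! ### From Banach algebras to arbitrary algebras -/

section Transfer

lemma transfer_aux (hT : SpecTRANSFER) {N : ℕ} {E : Type} [Ring E] [Algebra ℝ E]
    {I : Submodule ℝ E} (hI : Nil N I) {ι : Type} [Fintype ι] (x : ι → E) (hx : ∀ i, x i ∈ I) :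
    ∃ (E' : Type) (_ : NormedRing E') (_ : NormedAlgebra ℝ E') (_ : CompleteSpace E')
      (I' : Submodule ℝ E') (_ : Nil N I') (ρ : Algebra.adjoin ℝ (Set.range x) →ₐ[ℝ] E'),
      Function.Injective ρ ∧ ∀ y : Algebra.adjoin ℝ (Set.range x), (y : E) ∈ I → ρ y ∈ I' := by
  obtain ⟨d, ρ, hρ⟩ := hT N E I hI ι x hx
  letI : NormedRing (Matrix (Fin d) (Fin d) ℝ) := Matrix.linftyOpNormedRing
  letI : NormedAlgebra ℝ (Matrix (Fin d) (Fin d) ℝ) := Matrix.linftyOpNormedAlgebra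
  refine ⟨Matrix (Fin d) (Fin d) ℝ, inferInstance, inferInstance, FiniteDimensional.complete ℝ _,
    Submodule.map ρ.toLinearMap (Submodule.comap (Subalgebra.val _).toLinearMap I), ?_, ρ, hρ,
    fun y hy => ⟨y, hy, rfl⟩⟩
  refine ⟨?_, ?_⟩
  · rintro _ ⟨y, hy, rfl⟩ _ ⟨z, hz, rfl⟩
    exact ⟨y * z, hI.mul_mem _ hy _ hz, map_mul ρ y z⟩
  · intro l hl hN
    have key : ∀ l : List (Matrix (Fin d) (Fin d) ℝ), (∀ z ∈ l, z ∈ Submodule.map ρ.toLinearMap
        (Submodule.comap (Subalgebra.val (Algebra.adjoin ℝ (Set.range x))).toLinearMap I)) →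
        ∃ m : List (Algebra.adjoin ℝ (Set.range x)), m.length = l.length ∧
          (∀ y ∈ m, (y : E) ∈ I) ∧ l.prod = ρ m.prod := by
      intro l
      induction l with
      | nil => intro _; exact ⟨[], rfl, by simp, by simp⟩
      | cons a l ih =>
        intro hl
        obtain ⟨m, h1, h2, h3⟩ := ih (fun x hx => hl x (by simp [hx]))
        obtain ⟨y, hy, rfl⟩ := hl a (by simp)
        refine ⟨y :: m, by simp [h1], ?_, ?_⟩
        · intro z hz
          rcases List.mem_cons.1 hz with rfl | hz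
          · exact hy
          · exact h2 z hz
        · rw [List.prod_cons, List.prod_cons, map_mul, h3]
          rfl
    obtain ⟨m, h1, h2, h3⟩ := key l hl
    rw [h3]
    have h4 : m.prod = 0 := by
      apply Subtype.ext
      have h5 : ((m.prod : Algebra.adjoin ℝ (Set.range x)) : E) = (m.map Subtype.val).prod :=
        map_list_prod (Subalgebra.val _) m
      rw [h5]
      exact hI.prod_zero _ (by
        intro z hz
        obtain ⟨y, hy, rfl⟩ := List.mem_map.1 hz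
        exact h2 y hy) (by rw [List.length_map, h1, hN])
    rw [h4, map_zero]

lemma toGrL (hT : SpecTRANSFER) {N : ℕ} {P : AA ℝ} (h : GrLN N P) : GrL N P := by
  intro E _ _ I hI a b a' b' ha hb ha' hb' hc
  have hx : ∀ i, (![a, b, a', b'] : Fin 4 → E) i ∈ I := by
    intro i
    fin_cases i
    exacts [ha, hb, ha', hb']
  obtain ⟨E', _, _, _, I', hI', ρ, hρ, hρI⟩ := transfer_aux hT hI ![a, b, a', b'] hx
  let y : Fin 4 → Algebra.adjoin ℝ (Set.range ![a, b, a', b']) := fun i =>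
    ⟨![a, b, a', b'] i, Algebra.subset_adjoin ⟨i, rfl⟩⟩
  have hy : ∀ i j, (![a, b, a', b'] : Fin 4 → E) i * ![a, b, a', b'] j =
      ![a, b, a', b'] j * ![a, b, a', b'] i → ρ (y i) * ρ (y j) = ρ (y j) * ρ (y i) := by
    intro i j hij
    rw [← map_mul, ← map_mul]
    congr 1
    exact Subtype.ext hij
  have h1 := h E' I' hI' (ρ (y 0)) (ρ (y 1)) (ρ (y 2)) (ρ (y 3)) (hρI _ ha) (hρI _ hb)
    (hρI _ ha') (hρI _ hb') ⟨hy 0 2 hc.h1, hy 0 3 hc.h2, hy 1 2 hc.h3, hy 1 3 hc.h4⟩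
  rw [← map_add, ← map_add, ← map_EV, ← map_EV, ← map_EV, ← map_mul] at h1
  have h2 := congrArg (Subalgebra.val _) (hρ h1)
  rw [map_mul, map_EV, map_EV, map_EV] at h2
  exact h2

lemma toPG (hT : SpecTRANSFER) {N : ℕ} {P : AA ℝ} (h : PGN N P) : PG N P := by
  intro E _ _ I hI t ht htI
  obtain ⟨E', _, _, _, I', hI', ρ, hρ, hρI⟩ := transfer_aux hT hI
    (fun p : Fin 4 × Fin 4 => t p.1 p.2) (fun p => htI _ _)
  let y : Fin 4 → Fin 4 → Algebra.adjoin ℝ (Set.range (fun p : Fin 4 × Fin 4 => t p.1 p.2)) :=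
    fun i j => ⟨t i j, Algebra.subset_adjoin ⟨(i, j), rfl⟩⟩
  have hb : Braid (fun i j => ρ (y i j)) := by
    refine ⟨fun i j => ?_, fun i j k l h1 h2 h3 h4 h5 h6 => ?_, fun i j k h1 h2 h3 => ?_⟩
    · have : y i j = y j i := Subtype.ext (ht.symm i j)
      change ρ (y i j) = ρ (y j i)
      rw [this]
    · change ρ (y i j) * ρ (y k l) = ρ (y k l) * ρ (y i j)
      rw [← map_mul, ← map_mul]
      congr 1
      exact Subtype.ext (ht.comm i j k l h1 h2 h3 h4 h5 h6)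
    · change ρ (y i j) * (ρ (y i k) + ρ (y j k)) = (ρ (y i k) + ρ (y j k)) * ρ (y i j)
      rw [← map_add, ← map_mul, ← map_mul]
      congr 1
      exact Subtype.ext (ht.rel i j k h1 h2 h3)
  have h1 := h E' I' hI' (fun i j => ρ (y i j)) hb (fun i j => hρI _ (htI i j))
  simp only [← map_add, ← map_EV, ← map_mul] at h1
  have h2 := congrArg (Subalgebra.val _) (hρ h1)
  simp only [map_mul, map_EV] at h2
  exact h2

end Transfer

/-! ### The opposite solution -/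

section Opp

/-- `P(-x, -y)` -/
def opp (P : AA ℝ) : AA ℝ := EV (-lt ℝ 0) (-lt ℝ 1) P

lemma EV_opp {E : Type*} [Ring E] [Algebra ℝ E] (a b : E) (P : AA ℝ) :
    EV a b (opp P) = EV (-a) (-b) P := by
  unfold opp
  rw [EV_comp, map_neg, map_neg, EV_letter_zero, EV_letter_one]

lemma cf_opp (P : AA ℝ) (w : List (Fin 2)) : cf (opp P) w = (-1) ^ w.length * cf P w := by
  induction P using AA_lin with
  | how u =>
    have h : ∀ u : List (Fin 2), opp (ow ℝ u) = (-1 : ℝ) ^ u.length • ow ℝ u := by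
      intro u
      unfold opp
      rw [EV_ow]
      induction u with
      | nil => simp
      | cons i u ih =>
        rw [List.map_cons, List.prod_cons, ih, List.length_cons, ow_cons, pow_succ']
        have e : (![-lt ℝ 0, -lt ℝ 1] : Fin 2 → AA ℝ) i = -lt ℝ i := by
          fin_cases i <;> rfl
        rw [e, neg_mul, mul_smul_comm, neg_one_mul, neg_smul]
    rw [h, cf_smul, cf_ow]
    by_cases h2 : u = w
    · rw [if_pos h2, h2]
    · rw [if_neg h2, mul_zero, mul_zero]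
  | hadd X Y hX hY =>
    have : opp (X + Y) = opp X + opp Y := map_add _ _ _
    rw [this, cf_add, cf_add, hX, hY, mul_add]
  | hsmul c X hX =>
    have : opp (c • X) = c • opp X := map_smul _ _ _
    rw [this, cf_smul, cf_smul, hX]
    ring

lemma Good.opp {N : ℕ} {P : AA ℝ} (h : Good N P) : Good N (opp P) := by
  refine ⟨⟨?_, ?_⟩, ?_, ?_⟩
  · rw [cf_opp, h.norm.1]; simp
  · intro k h1 h2
    rw [cf_opp, h.norm.2 k h1 h2, mul_zero]
  · intro E _ _ I hI a b a' b' ha hb ha' hb' hc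
    rw [EV_opp, EV_opp, EV_opp, neg_add, neg_add]
    refine h.gl E I hI _ _ _ _ (I.neg_mem ha) (I.neg_mem hb) (I.neg_mem ha') (I.neg_mem hb') ?_
    exact ⟨by rw [neg_mul_neg, neg_mul_neg, hc.h1], by rw [neg_mul_neg, neg_mul_neg, hc.h2],
      by rw [neg_mul_neg, neg_mul_neg, hc.h3], by rw [neg_mul_neg, neg_mul_neg, hc.h4]⟩
  · intro E _ _ I hI t ht htI
    simp only [EV_opp, neg_add]
    refine h.pg E I hI (fun i j => -t i j) ?_ (fun i j => I.neg_mem (htI i j))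
    refine ⟨fun i j => ?_, fun i j k l h1 h2 h3 h4 h5 h6 => ?_, fun i j k h1 h2 h3 => ?_⟩
    · change -t i j = -t j i
      rw [ht.symm]
    · change -t i j * -t k l = -t k l * -t i j
      rw [neg_mul_neg, neg_mul_neg, ht.comm i j k l h1 h2 h3 h4 h5 h6]
    · change -t i j * (-t i k + -t j k) = (-t i k + -t j k) * -t i j
      rw [← neg_add, neg_mul_neg, neg_mul_neg, ht.rel i j k h1 h2 h3]

end Opp

/-! ### Successive correction -/

lemma xny_length (n : ℕ) : (xny n).length = n + 1 := by simp [xny]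

/-- the relations of `grt₁` from the pentagon equation in the family `ee` -/
lemma isGRT_of (hS4 : SpecS4.{u}) (hF1 : SpecF1.{u}) (hF2 : SpecF2.{u}) (hF3 : SpecF3.{u})
    {K : Type u} [Field K] [CharZero K] {n : ℕ} (hn : 3 ≤ n) {ψ : F2 K} (h : Hom n (assoc K ψ))
    (hP : PLt (ee K) (assoc K ψ)) : IsGRT ψ := by
  have hp := hS4 K n ψ (by omega) h hP
  exact ⟨hF1 K n ψ (by omega) h hp, hF2 K n ψ hn h hp, hF3 K n ψ hn h hp, hp⟩

section Corr

variable (hDIFF : SpecDIFF) (hDSW1 : SpecDSW1) (hDSW2 : SpecDSW2.{0}) (hMODEL : SpecMODEL.{0})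
  (hS4 : SpecS4.{0}) (hF1 : SpecF1.{0}) (hF2 : SpecF2.{0}) (hF3 : SpecF3.{0})

include hDIFF hDSW1 hDSW2 hMODEL hS4 hF1 hF2 hF3

/-- the lowest part of the difference of two solutions -/
lemma diff_part {N m : ℕ} (hm : 3 ≤ m) (hN : m + 1 ≤ N) {P P' : AA ℝ} (hP : Good N P)
    (hP' : Good N P') (hag : ∀ w : List (Fin 2), w.length < m → cf P w = cf P' w) :
    ∃ (Q : AA ℝ) (ψ : F2 ℝ), assoc ℝ ψ = Q ∧ Hom m Q ∧ Prim Q ∧ PLin Q ∧ Dyn Q = (m : ℝ) • Q ∧
      IsGRT ψ ∧ ∀ w : List (Fin 2), w.length = m → cf Q w = cf P' w - cf P w := by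
  obtain ⟨Q, hQ⟩ := exists_cf (k := ℝ) (fun w => if w.length = m then cf P' w - cf P w else 0)
    (wl (m + 1))
  have hQ2 : ∀ w : List (Fin 2), cf Q w = if w.length = m then cf P' w - cf P w else 0 := by
    intro w
    rw [hQ w]
    by_cases h : w.length = m
    · rw [if_pos ((mem_wl _ _).2 (by omega))]
    · rw [if_neg h]
      simp
  obtain ⟨h1, h2⟩ := hDIFF N m P P' Q (by omega) hN hP.norm.1 hP'.norm.1 hP.gl hP'.gl hP.pg hP'.pg
    hag hQ2
  have hH : Hom m Q := fun w hw => by rw [hQ2, if_neg hw]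
  have hD := hDSW1 m Q h1 hH
  obtain ⟨ψ, hψ⟩ := hDSW2 ℝ m Q (by omega) hD
  refine ⟨Q, ψ, hψ, hH, h1, h2, hD, ?_, fun w hw => by rw [hQ2, if_pos hw]⟩
  apply isGRT_of hS4 hF1 hF2 hF3 hm
  · rw [hψ]; exact hH
  · rw [hψ]
    exact h2 _ _ (hMODEL ℝ)

/-- one step of the correction -/
lemma corr_step (hG : SpecFLOWG) (hPf : SpecFLOWP) (hC : SpecFLOWC) {N m : ℕ} (hm : 3 ≤ m)
    (hN : m + 1 ≤ N) {P P' : AA ℝ} (hP : Good N P) (hP' : Good N P')
    (hag : ∀ w : List (Fin 2), w.length < m → cf P w = cf P' w) :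
    ∃ P'' : AA ℝ, Good N P'' ∧ (∀ w : List (Fin 2), w.length < m + 1 → cf P'' w = cf P' w) ∧
      ∀ k, k + 1 < N → k + 1 ≠ m → cf P'' (xny k) = cf P (xny k) := by
  obtain ⟨Q, ψ, h1, h2, h3, h4, h5, h6, h7⟩ :=
    diff_part hDIFF hDSW1 hDSW2 hMODEL hS4 hF1 hF2 hF3 hm hN hP hP' hag
  have hx : cf Q (List.replicate m 0) = 0 := by
    rw [h7 _ (by simp), hP.norm.2 m (by omega) (by omega), hP'.norm.2 m (by omega) (by omega),
      sub_zero]
  obtain ⟨c1, c2, c3, c4⟩ := hC N m P Q (by omega) (by omega) h2 hx hP.norm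
  refine ⟨flow N Q P, ⟨c1, hG N m P Q (by omega) h2 h3 hP.gl,
    hPf N m P Q ψ (by omega) h2 h1 h6 hP.pg⟩, ?_, ?_⟩
  · intro w hw
    by_cases hw2 : w.length = m
    · rw [c3 w hw2, h7 w hw2]
      ring
    · rw [c2 w (by omega)]
      exact hag w (by omega)
  · intro k hk hk2
    rw [c4 k hk, h2 _ (by rw [xny_length]; exact hk2), add_zero]

/-- real elements of odd degree -/
lemma real_sigma (hG : SpecFLOWG) (hPf : SpecFLOWP) (hC : SpecFLOWC) (hLIM : SpecLIM)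
    (hCOEF : SpecCOEF) (hKGL : SpecKGL) (hKPG : SpecKPG) (hT : SpecTRANSFER) (n : ℕ)
    (hn : 3 ≤ n) (hodd : Odd n) :
    ∃ Q : AA ℝ, Hom n Q ∧ Dyn Q = (n : ℝ) • Q ∧ PLt (ee ℝ) Q ∧ cf Q (xny (n - 1)) ≠ 0 := by
  obtain ⟨P, hP, -⟩ := hLIM (n + 1) (by omega)
  obtain ⟨c1, c2, c3⟩ := hCOEF (n + 1) P (by omega) hP
  have hgood : Good (n + 1) P := ⟨c1, toGrL hT (hKGL _ _ hP), toPG hT (hKPG _ _ (by omega) c1 hP)⟩
  have hopp := hgood.opp
  have key : ∀ m, 3 ≤ m → m ≤ n → ∃ P' : AA ℝ, Good (n + 1) P' ∧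
      (∀ w : List (Fin 2), w.length < m → cf P' w = cf (opp P) w) ∧
      cf P' (xny (n - 1)) = cf P (xny (n - 1)) := by
    intro m hm
    induction m, hm using Nat.le_induction with
    | base =>
      intro _
      refine ⟨P, hgood, ?_, rfl⟩
      intro w hw
      rw [cf_opp]
      rcases Nat.lt_or_ge w.length 2 with h1 | h1
      · rcases Nat.lt_or_ge w.length 1 with h2 | h2
        · have : w = [] := List.length_eq_zero_iff.1 (by omega)
          subst this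
          simp
        · obtain ⟨i, rfl⟩ := List.length_eq_one_iff.1 (by omega : w.length = 1)
          have h3 : cf P [i] = 0 := by
            fin_cases i
            · exact c1.2 1 le_rfl (by omega)
            · exact c2 (by omega)
          rw [h3, mul_zero]
      · have : w.length = 2 := by omega
        rw [this]
        norm_num
    | succ m hm ih =>
      intro hmn
      obtain ⟨P', g1, g2, g3⟩ := ih (by omega)
      obtain ⟨P'', k1, k2, k3⟩ := corr_step hDIFF hDSW1 hDSW2 hMODEL hS4 hF1 hF2 hF3 hG hPf hC hm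
        (by omega) g1 hopp g2
      exact ⟨P'', k1, k2, by rw [k3 (n - 1) (by omega) (by omega), g3]⟩
  obtain ⟨P', g1, g2, g3⟩ := key n hn le_rfl
  obtain ⟨Q, ψ, h1, h2, h3, h4, h5, h6, h7⟩ :=
    diff_part hDIFF hDSW1 hDSW2 hMODEL hS4 hF1 hF2 hF3 hn le_rfl g1 hopp g2
  refine ⟨Q, h2, h5, h4 _ _ (hMODEL ℝ), ?_⟩
  have hl : (xny (n - 1)).length = n := by rw [xny_length]; omega
  rw [h7 _ hl, cf_opp, g3, hl, hodd.neg_one_pow]
  have := c3 (n - 1) (by omega) (by omega)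
  intro h0
  linarith

end Corr

/-- **Existence of the elements `σ_{2i+3}` of `grt₁`.** -/
theorem specSIGMA (hDIFF : SpecDIFF) (hDSW1 : SpecDSW1) (hDSW2 : SpecDSW2.{0})
    (hMODEL : SpecMODEL.{0}) (hS4 : SpecS4.{0}) (hF1 : SpecF1.{0}) (hF2 : SpecF2.{0})
    (hF3 : SpecF3.{0}) (hG : SpecFLOWG) (hPf : SpecFLOWP) (hC : SpecFLOWC) (hLIM : SpecLIM)
    (hCOEF : SpecCOEF) (hKGL : SpecKGL) (hKPG : SpecKPG) (hT : SpecTRANSFER)
    (hDESC : SpecDESC.{u}) (hDSW2' : SpecDSW2.{u}) (hS4' : SpecS4.{u}) (hF1' : SpecF1.{u})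
    (hF2' : SpecF2.{u}) (hF3' : SpecF3.{u}) : SpecSIGMA.{u} := by
  intro K _ _ i
  have hn : 3 ≤ 2 * i + 3 := by omega
  obtain ⟨Q, h1, h2, h3, h4⟩ := real_sigma hDIFF hDSW1 hDSW2 hMODEL hS4 hF1 hF2 hF3 hG hPf hC
    hLIM hCOEF hKGL hKPG hT (2 * i + 3) hn ⟨i + 1, by ring⟩
  obtain ⟨Q', g1, g2, g3, g4⟩ := hDESC (2 * i + 3) Q (by omega) h1 h2 h3 h4 K
  obtain ⟨ψ, hψ⟩ := hDSW2' K (2 * i + 3) Q' (by omega) g2
  refine ⟨ψ, ?_, ?_, ?_⟩
  · apply isGRT_of hS4' hF1' hF2' hF3' hn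
    · rw [hψ]; exact g1
    · rw [hψ]; exact g3
  · intro w hw
    rw [coef_eq_cf, hψ]
    exact g1 w hw
  · rw [coef_eq_cf, hψ]
    exact g4

end MP446S
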