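import Pool.Agent.Lib.MP_446dfa_ag.sig.Spec

set_option linter.all false

/-!
# Module DEF: the deformation `t + ε d` satisfies the infinitesimal braid relations
-/

noncomputable section

namespace MP446S

open MP446 MP446Y MP446Z

namespace DEFM

attribute [local instance 100] LieRing.ofAssociativeRing

/-! ### Lie elements: antisymmetry, hexagon, central shifts -/

lemma ev_ev {L : Type} [LieRing L] [LieAlgebra ℝ L] (x y : L) (p q ψ : F2 ℝ) :
    ev x y (ev p q ψ) = ev (ev x y p) (ev x y q) ψ := by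
  have h : (ev x y).comp (ev p q) = (ev (ev x y p) (ev x y q) : F2 ℝ →ₗ⁅ℝ⁆ L) := by
    apply FreeLieAlgebra.hom_ext
    intro i
    fin_cases i
    · simp only [ev, LieHom.comp_apply, FreeLieAlgebra.lift_of_apply]
      rfl
    · simp only [ev, LieHom.comp_apply, FreeLieAlgebra.lift_of_apply]
      rfl
  exact LieHom.congr_fun h ψ

lemma ev_gA {L : Type} [LieRing L] [LieAlgebra ℝ L] (x y : L) : ev x y (gA ℝ) = x := by
  unfold ev gA
  rw [FreeLieAlgebra.lift_of_apply]; rfl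

lemma ev_gB {L : Type} [LieRing L] [LieAlgebra ℝ L] (x y : L) : ev x y (gB ℝ) = y := by
  unfold ev gB
  rw [FreeLieAlgebra.lift_of_apply]; rfl

lemma ev_gC {L : Type} [LieRing L] [LieAlgebra ℝ L] (x y : L) : ev x y (gC ℝ) = -x - y := by
  unfold gC
  rw [map_sub, map_neg, ev_gA, ev_gB]

variable {E : Type} [Ring E] [Algebra ℝ E]

/-- Lie polynomials without linear part are insensitive to central shifts -/
lemma shift_aux (ψ : F2 ℝ) : ∃ α : Fin 2 → ℝ, ∀ (E : Type) [Ring E] [Algebra ℝ E]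
    (x y z w : E), x * z = z * x → y * z = z * y → x * w = w * x → y * w = w * y → z * w = w * z →
    EV (x + z) (y + w) (assoc ℝ ψ) = EV x y (assoc ℝ ψ) + α 0 • z + α 1 • w := by
  induction ψ using F2_induction with
  | hA =>
    refine ⟨![1, 0], fun E _ _ x y z w _ _ _ _ _ => ?_⟩
    rw [assoc_gA, EV_lt_zero, EV_lt_zero]; simp
  | hB =>
    refine ⟨![0, 1], fun E _ _ x y z w _ _ _ _ _ => ?_⟩
    rw [assoc_gB, EV_lt_one, EV_lt_one]; simp
  | hadd a b ha hb =>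
    obtain ⟨α, h1⟩ := ha
    obtain ⟨β, h2⟩ := hb
    refine ⟨α + β, fun E _ _ x y z w e1 e2 e3 e4 e5 => ?_⟩
    rw [map_add, map_add, map_add, h1 E x y z w e1 e2 e3 e4 e5, h2 E x y z w e1 e2 e3 e4 e5,
      Pi.add_apply, Pi.add_apply, add_smul, add_smul]
    abel
  | hsmul c a ha =>
    obtain ⟨α, h1⟩ := ha
    refine ⟨c • α, fun E _ _ x y z w e1 e2 e3 e4 e5 => ?_⟩
    rw [map_smul, map_smul, map_smul, h1 E x y z w e1 e2 e3 e4 e5, Pi.smul_apply, Pi.smul_apply,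
      smul_add, smul_add, smul_assoc, smul_assoc]
  | hlie a b ha hb =>
    obtain ⟨α, h1⟩ := ha
    obtain ⟨β, h2⟩ := hb
    refine ⟨0, fun E _ _ x y z w e1 e2 e3 e4 e5 => ?_⟩
    rw [LieHom.map_lie, LieRing.of_associative_ring_bracket, map_sub, map_sub, map_mul, map_mul,
      map_mul, map_mul, h1 E x y z w e1 e2 e3 e4 e5, h2 E x y z w e1 e2 e3 e4 e5]
    have k1 := EV_commute (k := ℝ) e1 e2 (assoc ℝ a)
    have k2 := EV_commute (k := ℝ) e3 e4 (assoc ℝ a)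
    have k3 := EV_commute (k := ℝ) e1 e2 (assoc ℝ b)
    have k4 := EV_commute (k := ℝ) e3 e4 (assoc ℝ b)
    simp only [add_mul, mul_add, smul_mul_assoc, mul_smul_comm, Pi.zero_apply, zero_smul, k1, k2,
      k3, k4, e5, smul_add]
    module

/-- homogeneity -/
lemma EV_smul_hom (c : ℝ) (x y : E) (n : ℕ) (Q : AA ℝ) (hQ : Hom n Q) :
    EV (c • x) (c • y) Q = c ^ n • EV x y Q := by
  have key : ∀ w : List (Fin 2), (w.map ![c • x, c • y]).prod = c ^ w.length • (w.map ![x, y]).prod := by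
    intro w
    induction w with
    | nil => simp
    | cons i w ih =>
      rw [List.map_cons, List.prod_cons, ih, List.map_cons, List.prod_cons, List.length_cons]
      have : (![c • x, c • y] : Fin 2 → E) i = c • (![x, y] : Fin 2 → E) i := by
        fin_cases i <;> rfl
      rw [this, smul_mul_assoc, mul_smul_comm, smul_smul, pow_succ']
  unfold EV
  rw [MonoidAlgebra.lift_apply, MonoidAlgebra.lift_apply, Finsupp.sum, Finsupp.sum, Finset.smul_sum]
  apply Finset.sum_congr rfl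
  intro w hw
  have hlen : (FreeMonoid.toList w).length = n := by
    by_contra h
    have := hQ (FreeMonoid.toList w) h
    unfold cf at this
    rw [FreeMonoid.ofList_toList] at this
    exact (Finsupp.mem_support_iff.1 hw) this
  rw [evw, evw, FreeMonoid.lift_apply, FreeMonoid.lift_apply, key, hlen, smul_comm]

/-- data: `Q` is a homogeneous Lie polynomial of degree at least two coming from `grt₁` -/
structure Dat (ψ : F2 ℝ) (Q : AA ℝ) : Prop where
  eq : assoc ℝ ψ = Q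
  anti : ev (gB ℝ) (gA ℝ) ψ = -ψ
  hex : ⁅gB ℝ, ψ⁆ + ⁅gC ℝ, ev (gA ℝ) (gC ℝ) ψ⁆ = 0
  shift : ∀ (E : Type) [Ring E] [Algebra ℝ E] (x y z w : E), x * z = z * x → y * z = z * y →
    x * w = w * x → y * w = w * y → z * w = w * z → EV (x + z) (y + w) Q = EV x y Q

lemma dat_of {n : ℕ} {ψ : F2 ℝ} {Q : AA ℝ} (hn : 2 ≤ n) (h : assoc ℝ ψ = Q) (hQ : Hom n Q)
    (hg : IsGRT ψ) : Dat ψ Q := by
  refine ⟨h, hg.antisymm, hg.hexagon, ?_⟩
  obtain ⟨α, h1⟩ := shift_aux ψ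
  rw [h] at h1
  have e0 : ∀ u v : ℝ, EV u v Q = α 0 * u + α 1 * v := by
    intro u v
    have e := h1 ℝ 0 0 u v (by ring) (by ring) (by ring) (by ring) (by ring)
    have e2 := EV_smul_hom (E := ℝ) 0 0 0 n Q hQ
    have e3 : EV (0 : ℝ) 0 Q = 0 := by
      simpa [show n ≠ 0 by omega] using e2
    rw [zero_add, zero_add, e3] at e
    simpa using e
  have e4 : ∀ u v : ℝ, α 0 * u + α 1 * v = 0 := by
    intro u v
    have e5 := EV_smul_hom (E := ℝ) 2 u v n Q hQ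
    rw [e0, e0] at e5
    simp only [smul_eq_mul] at e5
    have h2 : (2 : ℝ) ^ n - 2 ≠ 0 := by
      have : (2 : ℝ) ^ 2 ≤ 2 ^ n := pow_le_pow_right₀ (by norm_num) hn
      intro h; linarith
    have : ((2 : ℝ) ^ n - 2) * (α 0 * u + α 1 * v) = 0 := by linarith
    exact (mul_eq_zero.1 this).resolve_left h2
  have a0 : α 0 = 0 := by simpa using e4 1 0
  have a1 : α 1 = 0 := by simpa using e4 0 1
  intro E _ _ x y z w k1 k2 k3 k4 k5
  rw [h1 E x y z w k1 k2 k3 k4 k5, a0, a1, zero_smul, zero_smul, add_zero, add_zero]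

variable {ψ : F2 ℝ} {Q : AA ℝ}

lemma Dat.ev_eq (h : Dat ψ Q) (x y : E) : ev x y ψ = EV x y Q := by
  rw [ev_eq_EV, h.eq]

/-- antisymmetry -/
lemma Dat.as (h : Dat ψ Q) (x y : E) : EV y x Q = -EV x y Q := by
  have e := congrArg (ev x y) h.anti
  rw [ev_ev, ev_gA, ev_gB, map_neg, h.ev_eq, h.ev_eq] at e
  exact e

/-- the hexagon relation, for three elements whose sum is central -/
lemma Dat.hx (h : Dat ψ Q) (x y z : E) (h1 : ⁅x, y + z⁆ = 0) (h2 : ⁅y, x + z⁆ = 0)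
    (h3 : ⁅z, x + y⁆ = 0) : ⁅y, EV x y Q⁆ + ⁅z, EV x z Q⁆ = 0 := by
  have e := congrArg (ev x y) h.hex
  rw [map_add, LieHom.map_lie, LieHom.map_lie, ev_ev, ev_gA, ev_gB, ev_gC, h.ev_eq, h.ev_eq,
    map_zero] at e
  have hx : ⁅x, x + y + z⁆ = 0 := by
    rw [add_assoc, lie_add, lie_self, zero_add, h1]
  have hy : ⁅y, x + y + z⁆ = 0 := by
    rw [show x + y + z = y + (x + z) by abel, lie_add, lie_self, zero_add, h2]
  have hz : ⁅z, x + y + z⁆ = 0 := by
    rw [show x + y + z = z + (x + y) by abel, lie_add, lie_self, zero_add, h3]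
  have cx : x * (x + y + z) = (x + y + z) * x := by
    have := hx; rw [LieRing.of_associative_ring_bracket] at this; exact sub_eq_zero.1 this
  have cz : z * (x + y + z) = (x + y + z) * z := by
    have := hz; rw [LieRing.of_associative_ring_bracket] at this; exact sub_eq_zero.1 this
  have s := h.shift E x z 0 (-(x + y + z)) (by simp) (by simp) (by
    rw [mul_neg, neg_mul, cx]) (by rw [mul_neg, neg_mul, cz]) (by simp)
  have e1 : z + -(x + y + z) = -x - y := by abel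
  rw [add_zero, e1] at s
  rw [s] at e
  have c2 : ⁅x + y + z, EV x z Q⁆ = 0 := by
    rw [LieRing.of_associative_ring_bracket, sub_eq_zero]
    exact (EV_commute (k := ℝ) cx cz Q).symm
  have e2 : -x - y = z - (x + y + z) := by abel
  rw [e2, sub_lie, c2, sub_zero] at e
  exact e

/-! ### Computations in a Lie ring -/

section Core

variable {L : Type*} [LieRing L]

/-- the data of the computation -/
structure Cfg (a b c e f g p1 p2 p3 p4 p5 k u q r d01 d02 d03 d12 d13 d23 : L) : Prop where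
  ac : ⁅a, c⁆ = 0
  ef : ⁅e, f⁆ = 0
  gb : ⁅g, b⁆ = 0
  a_eb : ⁅a, e + b⁆ = 0
  b_ae : ⁅b, a + e⁆ = 0
  a_gf : ⁅a, g + f⁆ = 0
  e_ab : ⁅e, a + b⁆ = 0
  f_ag : ⁅f, a + g⁆ = 0
  g_af : ⁅g, a + f⁆ = 0
  e_gc : ⁅e, g + c⁆ = 0
  c_eg : ⁅c, e + g⁆ = 0
  g_ec : ⁅g, e + c⁆ = 0
  b_fc : ⁅b, f + c⁆ = 0
  f_bc : ⁅f, b + c⁆ = 0
  c_bf : ⁅c, b + f⁆ = 0
  p1c : ⁅p1, c⁆ = 0
  p2a : ⁅p2, a⁆ = 0
  p4b : ⁅p4, b⁆ = 0
  p3s : ⁅p3, b + f + c⁆ = 0
  p5s : ⁅p5, a + e + b⁆ = 0
  pent : p1 + p2 = p3 + p4 + p5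
  pent' : u + r = k + p4 + q
  re : ⁅r, e⁆ = 0
  uf : ⁅u, f⁆ = 0
  hex1 : ⁅c, p3⁆ + ⁅f, k⁆ = 0
  hex2 : ⁅a, p5⁆ + ⁅e, q⁆ = 0
  h01 : d01 = ⁅p1, a⁆
  h12 : d12 = ⁅p3, b⁆
  h23 : d23 = 0
  h13 : d13 = -d12
  h02 : d02 = ⁅p1 + p2, e + b⁆ - d12
  h03 : d03 = -(d01 + d02 + d12 + d13 + d23)
  s1 : ⁅p1, a + b + c + e + f + g⁆ = 0
  s2 : ⁅p2, a + b + c + e + f + g⁆ = 0
  s3 : ⁅p3, a + b + c + e + f + g⁆ = 0

variable {a b c e f g p1 p2 p3 p4 p5 k u q r d01 d02 d03 d12 d13 d23 : L}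

lemma Cfg.f4b (h : Cfg a b c e f g p1 p2 p3 p4 p5 k u q r d01 d02 d03 d12 d13 d23) :
    ⁅p3, f + c⁆ = d13 + d23 := by
  have := h.p3s
  rw [add_assoc, lie_add] at this
  rw [h.h23, h.h13, h.h12, add_zero]
  exact eq_neg_of_add_eq_zero_right this

lemma Cfg.f5b (h : Cfg a b c e f g p1 p2 p3 p4 p5 k u q r d01 d02 d03 d12 d13 d23) :
    ⁅p3 + p4, b⁆ = d12 := by
  rw [add_lie, h.p4b, add_zero, h.h12]

lemma Cfg.d01' (h : Cfg a b c e f g p1 p2 p3 p4 p5 k u q r d01 d02 d03 d12 d13 d23) :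
    ⁅p1 + p2, a⁆ = d01 := by
  rw [add_lie, h.p2a, add_zero, h.h01]

lemma Cfg.f5a (h : Cfg a b c e f g p1 p2 p3 p4 p5 k u q r d01 d02 d03 d12 d13 d23) :
    ⁅p3 + p4 + p5, a⁆ = d01 := by
  rw [← h.pent, h.d01']

lemma Cfg.f4a (h : Cfg a b c e f g p1 p2 p3 p4 p5 k u q r d01 d02 d03 d12 d13 d23) :
    ⁅p3 + p4, a + e⁆ = d01 + d02 := by
  have e1 : d01 + d02 = ⁅p3 + p4 + p5, a + e + b⁆ - d12 := by
    rw [← h.d01', h.h02, h.pent, lie_add, lie_add, lie_add]
    abel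
  rw [e1, add_lie (p3 + p4) p5, h.p5s, add_zero, lie_add _ (a + e), h.f5b]
  abel

/-- the bilinear form `D(x, y) = [x, dy] + [dx, y]` -/
def DD (x dx y dy : L) : L := ⁅x, dy⁆ + ⁅dx, y⁆

lemma DD_add_right (x dx y dy z dz : L) : DD x dx (y + z) (dy + dz) = DD x dx y dy + DD x dx z dz := by
  unfold DD
  rw [lie_add, lie_add]; abel

lemma DD_neg_right (x dx y dy : L) : DD x dx (-y) (-dy) = -DD x dx y dy := by
  unfold DD
  rw [lie_neg, lie_neg]; abel

lemma DD_swap (x dx y dy : L) : DD y dy x dx = -DD x dx y dy := by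
  unfold DD
  rw [← lie_skew y dx, ← lie_skew dy x]; abel

lemma DD_self (x dx : L) : DD x dx x dx = 0 := by
  unfold DD
  rw [← lie_skew x dx]; abel

lemma DD_inner (p x y : L) (h : ⁅x, y⁆ = 0) : DD x ⁅p, x⁆ y ⁅p, y⁆ = 0 := by
  unfold DD
  rw [add_comm, ← leibniz_lie, h, lie_zero]

lemma Cfg.D_ac (h : Cfg a b c e f g p1 p2 p3 p4 p5 k u q r d01 d02 d03 d12 d13 d23) :
    DD a d01 c d23 = 0 := by
  have := DD_inner p1 a c h.ac
  rw [h.p1c, ← h.h01] at this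
  rw [h.h23]
  exact this

lemma Cfg.D_a_eb (h : Cfg a b c e f g p1 p2 p3 p4 p5 k u q r d01 d02 d03 d12 d13 d23) :
    DD a d01 (e + b) (d02 + d12) = 0 := by
  have := DD_inner (p1 + p2) a (e + b) h.a_eb
  rw [h.d01', show ⁅p1 + p2, e + b⁆ = d02 + d12 by rw [h.h02]; abel] at this
  exact this

lemma Cfg.D_b_ae (h : Cfg a b c e f g p1 p2 p3 p4 p5 k u q r d01 d02 d03 d12 d13 d23) :
    DD b d12 (a + e) (d01 + d02) = 0 := by
  have := DD_inner (p3 + p4) b (a + e) h.b_ae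
  rw [h.f5b, h.f4a] at this
  exact this

lemma tri {x dx y dy z dz : L} (h1 : DD x dx (y + z) (dy + dz) = 0)
    (h2 : DD y dy (x + z) (dx + dz) = 0) : DD z dz (x + y) (dx + dy) = 0 := by
  rw [DD_add_right] at h1 h2 ⊢
  rw [DD_swap x dx z dz, DD_swap y dy z dz, eq_neg_of_add_eq_zero_right h1,
    eq_neg_of_add_eq_zero_right h2, DD_swap x dx y dy]
  abel

lemma Cfg.D_e_ab (h : Cfg a b c e f g p1 p2 p3 p4 p5 k u q r d01 d02 d03 d12 d13 d23) :
    DD e d02 (a + b) (d01 + d12) = 0 := by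
  apply tri
  · have := h.D_a_eb
    rwa [add_comm e b, add_comm d02 d12] at this
  · exact h.D_b_ae

lemma Cfg.D_b_fc (h : Cfg a b c e f g p1 p2 p3 p4 p5 k u q r d01 d02 d03 d12 d13 d23) :
    DD b d12 (f + c) (d13 + d23) = 0 := by
  have := DD_inner p3 b (f + c) h.b_fc
  rw [h.f4b, ← h.h12] at this
  exact this

lemma Cfg.D_c_bf (h : Cfg a b c e f g p1 p2 p3 p4 p5 k u q r d01 d02 d03 d12 d13 d23) :
    DD c d23 (b + f) (d12 + d13) = 0 := by
  rw [h.h13, h.h23, add_neg_cancel]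
  unfold DD
  rw [lie_zero, zero_lie, add_zero]

lemma Cfg.D_f_bc (h : Cfg a b c e f g p1 p2 p3 p4 p5 k u q r d01 d02 d03 d12 d13 d23) :
    DD f d13 (b + c) (d12 + d23) = 0 := by
  apply tri
  · have := h.D_b_fc
    rwa [add_comm f c, add_comm d13 d23] at this
  · exact h.D_c_bf

/-- the key relation -/
lemma Cfg.D_ef (h : Cfg a b c e f g p1 p2 p3 p4 p5 k u q r d01 d02 d03 d12 d13 d23) :
    DD e d02 f d13 = 0 := by
  have e13 : d13 = ⁅p3 - k, f⁆ := by
    have h1 : ⁅p3, c⁆ = -⁅k, f⁆ := by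
      rw [← lie_skew p3 c, ← lie_skew k f]
      rw [eq_neg_of_add_eq_zero_left h.hex1]
    have h2 := h.f4b
    rw [h.h23, add_zero, lie_add, h1] at h2
    rw [sub_lie, ← h2, sub_eq_add_neg]
  have e02 : d02 = ⁅p3 - k + u, e⁆ := by
    have hu : p3 - k + u = p3 + p4 + q - r := by
      have := h.pent'
      have h3 : u = k + p4 + q - r := by rw [← this]; abel
      rw [h3]; abel
    have h5 : ⁅p5, e + b⁆ = -⁅p5, a⁆ := by
      have := h.p5s
      rw [show a + e + b = a + (e + b) by abel, lie_add] at this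
      exact eq_neg_of_add_eq_zero_right this
    have h6 : ⁅q, e⁆ = -⁅p5, a⁆ := by
      rw [← lie_skew q e, ← lie_skew p5 a, neg_neg]
      exact (eq_neg_of_add_eq_zero_left h.hex2).symm ▸ rfl
    have h7 : ⁅p3 + p4 + p5, e + b⁆ = ⁅p3 + p4, e⁆ + ⁅p3 + p4, b⁆ + ⁅p5, e + b⁆ := by
      rw [add_lie (p3 + p4) p5, lie_add (p3 + p4)]
    rw [hu, h.h02, h.pent, sub_lie, h.re, sub_zero, h7, h5, h.f5b, add_lie (p3 + p4) q, h6]
    abel
  have hinner := DD_inner (p3 - k) e f h.ef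
  have hu2 : ⁅⁅u, e⁆, f⁆ = 0 := by
    rw [lie_lie, h.ef, h.uf, lie_zero, lie_zero, sub_zero]
  unfold DD at hinner ⊢
  rw [e13, e02, add_lie _ u, add_lie _ ⁅u, e⁆, hu2, add_zero]
  exact hinner

/-- the relations involving the last letter -/
lemma Cfg.rest (h : Cfg a b c e f g p1 p2 p3 p4 p5 k u q r d01 d02 d03 d12 d13 d23) :
    DD g d03 b d12 = 0 ∧ DD a d01 (g + f) (d03 + d13) = 0 ∧ DD f d13 (a + g) (d01 + d03) = 0 ∧
      DD e d02 (g + c) (d03 + d23) = 0 ∧ DD c d23 (e + g) (d02 + d03) = 0 := by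
  have hS : ∀ x dx : L, ⁅x, a + b + c + e + f + g⁆ = 0 →
      DD x dx (a + b + c + e + f + g) (d01 + d12 + d23 + d02 + d13 + d03) =
        ⁅dx, a + b + c + e + f + g⁆ := by
    intro x dx hx
    unfold DD
    rw [h.h03]
    rw [show d01 + d12 + d23 + d02 + d13 + -(d01 + d02 + d12 + d13 + d23) = 0 by abel, lie_zero,
      zero_add]
  -- centrality of the sum
  have ca : ⁅a, a + b + c + e + f + g⁆ = 0 := by
    rw [show a + b + c + e + f + g = a + (e + b) + c + (g + f) by abel, lie_add, lie_add, lie_add,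
      lie_self, h.a_eb, h.ac, h.a_gf]
    abel
  have cb : ⁅b, a + b + c + e + f + g⁆ = 0 := by
    have : ⁅b, g⁆ = 0 := by rw [← lie_skew, h.gb, neg_zero]
    rw [show a + b + c + e + f + g = b + (a + e) + (f + c) + g by abel, lie_add, lie_add, lie_add,
      lie_self, h.b_ae, h.b_fc, this]
    abel
  have cc : ⁅c, a + b + c + e + f + g⁆ = 0 := by
    have : ⁅c, a⁆ = 0 := by rw [← lie_skew, h.ac, neg_zero]
    rw [show a + b + c + e + f + g = c + a + (b + f) + (e + g) by abel, lie_add, lie_add, lie_add,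
      lie_self, this, h.c_bf, h.c_eg]
    abel
  have ce : ⁅e, a + b + c + e + f + g⁆ = 0 := by
    rw [show a + b + c + e + f + g = e + f + (a + b) + (g + c) by abel, lie_add, lie_add, lie_add,
      lie_self, h.ef, h.e_ab, h.e_gc]
    abel
  have cf' : ⁅f, a + b + c + e + f + g⁆ = 0 := by
    have : ⁅f, e⁆ = 0 := by rw [← lie_skew, h.ef, neg_zero]
    rw [show a + b + c + e + f + g = f + e + (b + c) + (a + g) by abel, lie_add, lie_add, lie_add,
      lie_self, this, h.f_bc, h.f_ag]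
    abel
  have jac : ∀ p x : L, ⁅p, a + b + c + e + f + g⁆ = 0 → ⁅x, a + b + c + e + f + g⁆ = 0 →
      ⁅⁅p, x⁆, a + b + c + e + f + g⁆ = 0 := by
    intro p x h1 h2
    rw [lie_lie, h1, h2, lie_zero, lie_zero, sub_zero]
  have s01 : ⁅d01, a + b + c + e + f + g⁆ = 0 := by
    rw [h.h01]; exact jac _ _ h.s1 ca
  have s12 : ⁅d12, a + b + c + e + f + g⁆ = 0 := by
    rw [h.h12]; exact jac _ _ h.s3 cb
  have s02 : ⁅d02, a + b + c + e + f + g⁆ = 0 := by
    rw [h.h02, sub_lie, s12, sub_zero]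
    apply jac
    · rw [add_lie, h.s1, h.s2, add_zero]
    · rw [add_lie, ce, cb, add_zero]
  have s13 : ⁅d13, a + b + c + e + f + g⁆ = 0 := by
    rw [h.h13, neg_lie, s12, neg_zero]
  have s23 : ⁅d23, a + b + c + e + f + g⁆ = 0 := by
    rw [h.h23, zero_lie]
  have D1 := hS a d01 ca
  have D2 := hS b d12 cb
  have D3 := hS c d23 cc
  have D4 := hS e d02 ce
  have D5 := hS f d13 cf'
  rw [s01] at D1
  rw [s12] at D2
  rw [s23] at D3
  rw [s02] at D4
  rw [s13] at D5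
  simp only [DD_add_right] at D1 D2 D3 D4 D5
  have r1 := h.D_ac
  have r2 := h.D_a_eb
  have r3 := h.D_b_ae
  have r4 := h.D_e_ab
  have r5 := h.D_b_fc
  have r6 := h.D_c_bf
  have r7 := h.D_f_bc
  have r8 := h.D_ef
  rw [DD_add_right] at r2 r3 r4 r5 r6 r7
  have t1 := DD_self a d01
  have t2 := DD_self b d12
  have t3 := DD_self c d23
  have t4 := DD_self e d02
  have t5 := DD_self f d13
  have r1' : DD c d23 a d01 = 0 := by rw [DD_swap, r1, neg_zero]
  have r8' : DD f d13 e d02 = 0 := by rw [DD_swap, r8, neg_zero]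
  refine ⟨?_, ?_, ?_, ?_, ?_⟩
  · rw [DD_swap, neg_eq_zero]
    have e : DD b d12 g d03 = (DD b d12 a d01 + DD b d12 b d12 + DD b d12 c d23 + DD b d12 e d02 +
      DD b d12 f d13 + DD b d12 g d03) - (DD b d12 a d01 + DD b d12 e d02) -
      (DD b d12 f d13 + DD b d12 c d23) - DD b d12 b d12 := by abel
    rw [e, D2, r3, r5, t2]; abel
  · rw [DD_add_right]
    have e : DD a d01 g d03 + DD a d01 f d13 = (DD a d01 a d01 + DD a d01 b d12 + DD a d01 c d23 + DD a d01 e d02 +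
      DD a d01 f d13 + DD a d01 g d03) - (DD a d01 e d02 + DD a d01 b d12) -
      DD a d01 c d23 - DD a d01 a d01 := by abel
    rw [e, D1, r2, r1, t1]; abel
  · rw [DD_add_right]
    have e : DD f d13 a d01 + DD f d13 g d03 = (DD f d13 a d01 + DD f d13 b d12 + DD f d13 c d23 + DD f d13 e d02 +
      DD f d13 f d13 + DD f d13 g d03) - (DD f d13 b d12 + DD f d13 c d23) -
      DD f d13 e d02 - DD f d13 f d13 := by abel
    rw [e, D5, r7, r8', t5]; abel
  · rw [DD_add_right]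
    have e : DD e d02 g d03 + DD e d02 c d23 = (DD e d02 a d01 + DD e d02 b d12 + DD e d02 c d23 + DD e d02 e d02 +
      DD e d02 f d13 + DD e d02 g d03) - (DD e d02 a d01 + DD e d02 b d12) -
      DD e d02 f d13 - DD e d02 e d02 := by abel
    rw [e, D4, r4, r8, t4]; abel
  · rw [DD_add_right]
    have e : DD c d23 e d02 + DD c d23 g d03 = (DD c d23 a d01 + DD c d23 b d12 + DD c d23 c d23 + DD c d23 e d02 +
      DD c d23 f d13 + DD c d23 g d03) - (DD c d23 b d12 + DD c d23 f d13) -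
      DD c d23 a d01 - DD c d23 c d23 := by abel
    rw [e, D3, r6, r1', t3]; abel

end Core

/-! ### The deformed family -/

lemma com_of {x dx y dy : E} (h : x * y = y * x) (h' : DD x dx y dy = 0) :
    (TrivSqZeroExt.inl x + TrivSqZeroExt.inr dx : TrivSqZeroExt E E) *
      (TrivSqZeroExt.inl y + TrivSqZeroExt.inr dy) =
    (TrivSqZeroExt.inl y + TrivSqZeroExt.inr dy) *
      (TrivSqZeroExt.inl x + TrivSqZeroExt.inr dx) := by
  unfold DD at h'
  rw [LieRing.of_associative_ring_bracket, LieRing.of_associative_ring_bracket] at h'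
  ext
  · simpa using h
  · simp only [TrivSqZeroExt.snd_mul, TrivSqZeroExt.fst_add, TrivSqZeroExt.snd_add,
      TrivSqZeroExt.fst_inl, TrivSqZeroExt.fst_inr, TrivSqZeroExt.snd_inl, TrivSqZeroExt.snd_inr,
      add_zero, zero_add, smul_eq_mul, MulOpposite.smul_eq_mul_unop, MulOpposite.unop_op]
    have : x * dy + dx * y - (y * dx + dy * x) = 0 := by
      rw [← h']; abel
    exact sub_eq_zero.1 this

lemma inl_inr_add (x dx y dy : E) :
    (TrivSqZeroExt.inl x + TrivSqZeroExt.inr dx : TrivSqZeroExt E E) +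
      (TrivSqZeroExt.inl y + TrivSqZeroExt.inr dy) =
    TrivSqZeroExt.inl (x + y) + TrivSqZeroExt.inr (dx + dy) := by
  rw [TrivSqZeroExt.inl_add, TrivSqZeroExt.inr_add]; abel

lemma lie_zero_of {x y : E} (h : x * y = y * x) : ⁅x, y⁆ = 0 := by
  rw [LieRing.of_associative_ring_bracket, h, sub_self]

lemma comm_of_lie {x y : E} (h : ⁅x, y⁆ = 0) : x * y = y * x := by
  rw [LieRing.of_associative_ring_bracket] at h
  exact sub_eq_zero.1 h

lemma EV_lie (x y z : E) (Q : AA ℝ) (h1 : ⁅x, z⁆ = 0) (h2 : ⁅y, z⁆ = 0) : ⁅EV x y Q, z⁆ = 0 :=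
  lie_zero_of (EV_commute (k := ℝ) (comm_of_lie h1) (comm_of_lie h2) Q)

lemma cfg_of {ψ : F2 ℝ} {Q : AA ℝ} (hD : Dat ψ Q) (hg : IsGRT ψ) {t d : Fin 4 → Fin 4 → E}
    (ht : Braid t) (hd : Defo Q t d) :
    Cfg (t 0 1) (t 1 2) (t 2 3) (t 0 2) (t 1 3) (t 0 3)
      (EV (t 0 1) (t 1 2 + t 1 3) Q) (EV (t 0 2 + t 1 2) (t 2 3) Q) (EV (t 1 2) (t 2 3) Q)
      (EV (t 0 1 + t 0 2) (t 1 3 + t 2 3) Q) (EV (t 0 1) (t 1 2) Q)
      (EV (t 1 2) (t 1 3) Q) (EV (t 0 2) (t 1 2 + t 2 3) Q) (EV (t 0 2) (t 1 2) Q)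
      (EV (t 0 1 + t 1 2) (t 1 3) Q)
      (d 0 1) (d 0 2) (d 0 3) (d 1 2) (d 1 3) (d 2 3) := by
  have y10 := ht.symm 1 0
  have y20 := ht.symm 2 0
  have y30 := ht.symm 3 0
  have y21 := ht.symm 2 1
  have y31 := ht.symm 3 1
  have y32 := ht.symm 3 2
  have R : ∀ i j k : Fin 4, i ≠ j → i ≠ k → j ≠ k → ⁅t i j, t i k + t j k⁆ = 0 :=
    fun i j k h1 h2 h3 => lie_zero_of (ht.rel i j k h1 h2 h3)
  have C : ∀ i j k l : Fin 4, i ≠ j → i ≠ k → i ≠ l → j ≠ k → j ≠ l → k ≠ l →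
      ⁅t i j, t k l⁆ = 0 := fun i j k l h1 h2 h3 h4 h5 h6 =>
    lie_zero_of (ht.comm i j k l h1 h2 h3 h4 h5 h6)
  have ac : ⁅t 0 1, t 2 3⁆ = 0 := C 0 1 2 3 (by decide) (by decide) (by decide) (by decide)
    (by decide) (by decide)
  have ef : ⁅t 0 2, t 1 3⁆ = 0 := C 0 2 1 3 (by decide) (by decide) (by decide) (by decide)
    (by decide) (by decide)
  have gb : ⁅t 0 3, t 1 2⁆ = 0 := C 0 3 1 2 (by decide) (by decide) (by decide) (by decide)
    (by decide) (by decide)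
  have a_eb : ⁅t 0 1, t 0 2 + t 1 2⁆ = 0 := R 0 1 2 (by decide) (by decide) (by decide)
  have e_ab : ⁅t 0 2, t 0 1 + t 1 2⁆ = 0 := by
    have := R 0 2 1 (by decide) (by decide) (by decide); rwa [y21] at this
  have b_ae : ⁅t 1 2, t 0 1 + t 0 2⁆ = 0 := by
    have := R 1 2 0 (by decide) (by decide) (by decide); rwa [y10, y20] at this
  have a_gf : ⁅t 0 1, t 0 3 + t 1 3⁆ = 0 := R 0 1 3 (by decide) (by decide) (by decide)
  have g_af : ⁅t 0 3, t 0 1 + t 1 3⁆ = 0 := by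
    have := R 0 3 1 (by decide) (by decide) (by decide); rwa [y31] at this
  have f_ag : ⁅t 1 3, t 0 1 + t 0 3⁆ = 0 := by
    have := R 1 3 0 (by decide) (by decide) (by decide); rwa [y10, y30] at this
  have e_gc : ⁅t 0 2, t 0 3 + t 2 3⁆ = 0 := R 0 2 3 (by decide) (by decide) (by decide)
  have g_ec : ⁅t 0 3, t 0 2 + t 2 3⁆ = 0 := by
    have := R 0 3 2 (by decide) (by decide) (by decide); rwa [y32] at this
  have c_eg : ⁅t 2 3, t 0 2 + t 0 3⁆ = 0 := by
    have := R 2 3 0 (by decide) (by decide) (by decide); rwa [y20, y30] at this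
  have b_fc : ⁅t 1 2, t 1 3 + t 2 3⁆ = 0 := R 1 2 3 (by decide) (by decide) (by decide)
  have f_bc : ⁅t 1 3, t 1 2 + t 2 3⁆ = 0 := by
    have := R 1 3 2 (by decide) (by decide) (by decide); rwa [y32] at this
  have c_bf : ⁅t 2 3, t 1 2 + t 1 3⁆ = 0 := by
    have := R 2 3 1 (by decide) (by decide) (by decide); rwa [y21, y31] at this
  -- pentagons
  have IB : InfBraid t := by
    refine ⟨ht.symm, fun i j k l h1 h2 h3 h4 h5 h6 => C i j k l h1 h2 h3 h4 h5 h6,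
      fun i j k h1 h2 h3 => R i j k h1 h2 h3⟩
  have pent := hg.pentagon E t IB
  simp only [hD.ev_eq] at pent
  let σ : Equiv.Perm (Fin 4) := Equiv.swap 1 2
  have IB' : InfBraid (fun i j => t (σ i) (σ j)) := by
    refine ⟨fun i j => ht.symm _ _, fun i j k l h1 h2 h3 h4 h5 h6 => ?_, fun i j k h1 h2 h3 => ?_⟩
    · exact C _ _ _ _ (σ.injective.ne h1) (σ.injective.ne h2) (σ.injective.ne h3)
        (σ.injective.ne h4) (σ.injective.ne h5) (σ.injective.ne h6)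
    · exact R _ _ _ (σ.injective.ne h1) (σ.injective.ne h2) (σ.injective.ne h3)
  have pent' := hg.pentagon E _ IB'
  have σ0 : σ 0 = 0 := by decide
  have σ1 : σ 1 = 2 := by decide
  have σ2 : σ 2 = 1 := by decide
  have σ3 : σ 3 = 3 := by decide
  simp only [hD.ev_eq, σ0, σ1, σ2, σ3, y21] at pent'
  -- commutation with the sum
  have neg_of : ∀ {x y : E}, ⁅x, y⁆ = 0 → ⁅y, x⁆ = 0 := by
    intro x y h; rw [← lie_skew, h, neg_zero]
  have sS : ∀ x y : E, ⁅x, t 0 1 + t 1 2 + t 2 3 + t 0 2 + t 1 3 + t 0 3⁆ = 0 →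
      ⁅y, t 0 1 + t 1 2 + t 2 3 + t 0 2 + t 1 3 + t 0 3⁆ = 0 →
      ⁅EV x y Q, t 0 1 + t 1 2 + t 2 3 + t 0 2 + t 1 3 + t 0 3⁆ = 0 :=
    fun x y h1 h2 => EV_lie x y _ Q h1 h2
  have ca : ⁅t 0 1, t 0 1 + t 1 2 + t 2 3 + t 0 2 + t 1 3 + t 0 3⁆ = 0 := by
    rw [show t 0 1 + t 1 2 + t 2 3 + t 0 2 + t 1 3 + t 0 3 = t 0 1 + (t 0 2 + t 1 2) + t 2 3 +
      (t 0 3 + t 1 3) by abel, lie_add, lie_add, lie_add, lie_self, a_eb, ac, a_gf]
    abel
  have cb : ⁅t 1 2, t 0 1 + t 1 2 + t 2 3 + t 0 2 + t 1 3 + t 0 3⁆ = 0 := by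
    rw [show t 0 1 + t 1 2 + t 2 3 + t 0 2 + t 1 3 + t 0 3 = t 1 2 + (t 0 1 + t 0 2) +
      (t 1 3 + t 2 3) + t 0 3 by abel, lie_add, lie_add, lie_add, lie_self, b_ae, b_fc, neg_of gb]
    abel
  have cc : ⁅t 2 3, t 0 1 + t 1 2 + t 2 3 + t 0 2 + t 1 3 + t 0 3⁆ = 0 := by
    rw [show t 0 1 + t 1 2 + t 2 3 + t 0 2 + t 1 3 + t 0 3 = t 2 3 + t 0 1 + (t 1 2 + t 1 3) +
      (t 0 2 + t 0 3) by abel, lie_add, lie_add, lie_add, lie_self, neg_of ac, c_bf, c_eg]
    abel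
  have ce : ⁅t 0 2, t 0 1 + t 1 2 + t 2 3 + t 0 2 + t 1 3 + t 0 3⁆ = 0 := by
    rw [show t 0 1 + t 1 2 + t 2 3 + t 0 2 + t 1 3 + t 0 3 = t 0 2 + t 1 3 + (t 0 1 + t 1 2) +
      (t 0 3 + t 2 3) by abel, lie_add, lie_add, lie_add, lie_self, ef, e_ab, e_gc]
    abel
  have cf' : ⁅t 1 3, t 0 1 + t 1 2 + t 2 3 + t 0 2 + t 1 3 + t 0 3⁆ = 0 := by
    rw [show t 0 1 + t 1 2 + t 2 3 + t 0 2 + t 1 3 + t 0 3 = t 1 3 + t 0 2 + (t 1 2 + t 2 3) +
      (t 0 1 + t 0 3) by abel, lie_add, lie_add, lie_add, lie_self, neg_of ef, f_bc, f_ag]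
    abel
  exact
    { ac := ac
      ef := ef
      gb := gb
      a_eb := a_eb
      b_ae := b_ae
      a_gf := a_gf
      e_ab := e_ab
      f_ag := f_ag
      g_af := g_af
      e_gc := e_gc
      c_eg := c_eg
      g_ec := g_ec
      b_fc := b_fc
      f_bc := f_bc
      c_bf := c_bf
      p1c := EV_lie _ _ _ Q ac (by rw [← lie_skew, c_bf, neg_zero])
      p2a := EV_lie _ _ _ Q (neg_of a_eb) (neg_of ac)
      p4b := EV_lie _ _ _ Q (neg_of b_ae) (neg_of b_fc)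
      p3s := EV_lie _ _ _ Q
        (by rw [add_assoc, lie_add, lie_self, b_fc, add_zero])
        (by rw [lie_add, lie_self, c_bf, add_zero])
      p5s := EV_lie _ _ _ Q
        (by rw [add_assoc, lie_add, lie_self, a_eb, add_zero])
        (by rw [lie_add, lie_self, b_ae, add_zero])
      pent := pent
      pent' := pent'.trans (by rw [add_comm (t 0 2) (t 0 1), add_comm (t 2 3) (t 1 3)])
      re := EV_lie _ _ _ Q (neg_of e_ab) (neg_of ef)
      uf := EV_lie _ _ _ Q ef (neg_of f_bc)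
      hex1 := hD.hx (t 1 2) (t 2 3) (t 1 3) (by rw [add_comm]; exact b_fc)
        (c_bf) (by exact f_bc)
      hex2 := by
        have h := hD.hx (t 1 2) (t 0 1) (t 0 2) b_ae (by rw [add_comm]; exact a_eb)
          (by rw [add_comm]; exact e_ab)
        rw [hD.as (t 0 1) (t 1 2), hD.as (t 0 2) (t 1 2), lie_neg, lie_neg, ← neg_add,
          neg_eq_zero] at h
        exact h
      h01 := hd.d01
      h12 := hd.d12
      h23 := hd.d23
      h13 := hd.d13
      h02 := hd.d02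
      h03 := hd.d03
      s1 := sS _ _ ca (by rw [add_lie, cb, cf', add_zero])
      s2 := sS _ _ (by rw [add_lie, ce, cb, add_zero]) cc
      s3 := sS _ _ cb cc }

end DEFM

open DEFM in
attribute [local instance 100] LieRing.ofAssociativeRing in
theorem specDEF : SpecDEF := by
  intro n ψ Q hn h hQ hg E _ _ t d ht hd
  have hD := dat_of hn h hQ hg
  have K := cfg_of hD hg ht hd
  obtain ⟨q1, q2, q3, q4, q5⟩ := K.rest
  have y10 := ht.symm 1 0
  have y20 := ht.symm 2 0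
  have y30 := ht.symm 3 0
  have y21 := ht.symm 2 1
  have y31 := ht.symm 3 1
  have y32 := ht.symm 3 2
  have z10 := hd.symm 1 0
  have z20 := hd.symm 2 0
  have z30 := hd.symm 3 0
  have z21 := hd.symm 2 1
  have z31 := hd.symm 3 1
  have z32 := hd.symm 3 2
  have dswap : ∀ {x dx y dy : E}, DD x dx y dy = 0 → DD y dy x dx = 0 := by
    intro x dx y dy h
    rw [DD_swap, h, neg_zero]
  have D1 := K.D_ac
  have D2 := K.D_ef
  have D3 := q1
  have T1 := K.D_a_eb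
  have T2 := K.D_e_ab
  have T3 := K.D_b_ae
  have T4 : DD (t 0 1) (d 0 1) (t 0 3 + t 1 3) (d 0 3 + d 1 3) = 0 := q2
  have T5 : DD (t 1 3) (d 1 3) (t 0 1 + t 0 3) (d 0 1 + d 0 3) = 0 := q3
  have T6 : DD (t 0 3) (d 0 3) (t 0 1 + t 1 3) (d 0 1 + d 1 3) = 0 := by
    apply tri
    · rw [add_comm (t 1 3), add_comm (d 1 3)]; exact q2
    · exact q3
  have T7 : DD (t 0 2) (d 0 2) (t 0 3 + t 2 3) (d 0 3 + d 2 3) = 0 := q4
  have T8 : DD (t 2 3) (d 2 3) (t 0 2 + t 0 3) (d 0 2 + d 0 3) = 0 := q5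
  have T9 : DD (t 0 3) (d 0 3) (t 0 2 + t 2 3) (d 0 2 + d 2 3) = 0 := by
    apply tri
    · rw [add_comm (t 2 3), add_comm (d 2 3)]; exact q4
    · exact q5
  have T10 := K.D_b_fc
  have T11 := K.D_c_bf
  have T12 := K.D_f_bc
  have allc : ∀ i j k l : Fin 4, i ≠ j → i ≠ k → i ≠ l → j ≠ k → j ≠ l → k ≠ l →
      DD (t i j) (d i j) (t k l) (d k l) = 0 := by
    intro i j k l h1 h2 h3 h4 h5 h6
    fin_cases i <;> fin_cases j <;> (try exact absurd rfl h1) <;> fin_cases k <;>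
      (try exact absurd rfl h2) <;> (try exact absurd rfl h4) <;> fin_cases l <;>
      (try exact absurd rfl h3) <;> (try exact absurd rfl h5) <;> (try exact absurd rfl h6) <;>
      simp only [Fin.zero_eta, Fin.mk_one, Fin.reduceFinMk, Fin.isValue, y10, y20, y30, y21, y31,
        y32, z10, z20, z30, z21, z31, z32] <;>
      first
        | exact D1 | exact D2 | exact D3 | exact dswap D1 | exact dswap D2 | exact dswap D3
  have allr : ∀ i j k : Fin 4, i ≠ j → i ≠ k → j ≠ k →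
      DD (t i j) (d i j) (t i k + t j k) (d i k + d j k) = 0 := by
    intro i j k h1 h2 h3
    fin_cases i <;> fin_cases j <;> (try exact absurd rfl h1) <;> fin_cases k <;>
      (try exact absurd rfl h2) <;> (try exact absurd rfl h3) <;>
      simp only [Fin.zero_eta, Fin.mk_one, Fin.reduceFinMk, Fin.isValue, y10, y20, y30, y21, y31,
        y32, z10, z20, z30, z21, z31, z32] <;>
      first
        | exact T1 | exact T2 | exact T3 | exact T4 | exact T5 | exact T6 | exact T7 | exact T8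
        | exact T9 | exact T10 | exact T11 | exact T12
        | (rw [add_comm (t _ _), add_comm (d _ _)]
           first
            | exact T1 | exact T2 | exact T3 | exact T4 | exact T5 | exact T6 | exact T7 | exact T8
            | exact T9 | exact T10 | exact T11 | exact T12)
  refine ⟨⟨fun i j => ?_, fun i j k l h1 h2 h3 h4 h5 h6 => ?_, fun i j k h1 h2 h3 => ?_⟩, ?_, ?_,
    ?_, ?_, ?_⟩
  · rw [ht.symm i j, hd.symm i j]
  · exact com_of (ht.comm i j k l h1 h2 h3 h4 h5 h6) (allc i j k l h1 h2 h3 h4 h5 h6)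
  · rw [inl_inr_add]
    exact com_of (ht.rel i j k h1 h2 h3) (allr i j k h1 h2 h3)
  · exact K.p1c
  · exact K.f4a
  · exact K.f4b
  · exact K.f5a
  · exact K.f5b

end MP446S
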