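import Pool.Agent.Lib.MP_446dfa_ag.sig.Basic

set_option linter.all false

/-!
# Existence of the elements `σ_{2i+3}` of `grt₁`: the lowest part of the difference of two solutions
-/

noncomputable section

namespace MP446S

open MP446 MP446Y MP446Z

universe u v w

section Shift

variable {E : Type*} [Ring E] [Algebra ℝ E] (m : ℕ)

/-- the operator `v ↦ (i ↦ a v_{i-1})` -/
def shO (a : E) : Module.End ℝ (Fin (m + 1) → E) where
  toFun v := fun i => if h : 0 < i.val then a * v ⟨i.val - 1, by omega⟩ else 0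
  map_add' v v' := by
    funext i
    simp only [Pi.add_apply]
    split_ifs
    · rw [mul_add]
    · rw [add_zero]
  map_smul' c v := by
    funext i
    simp only [Pi.smul_apply, RingHom.id_apply]
    split_ifs
    · rw [mul_smul_comm]
    · rw [smul_zero]

variable {m}

lemma shO_apply (a : E) (v : Fin (m + 1) → E) (i : Fin (m + 1)) :
    shO m a v i = if h : 0 < i.val then a * v ⟨i.val - 1, by omega⟩ else 0 := rfl

lemma shO_add (a b : E) : shO m (a + b) = shO m a + shO m b := by
  apply LinearMap.ext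
  intro v
  funext i
  rw [LinearMap.add_apply, Pi.add_apply, shO_apply, shO_apply, shO_apply]
  split_ifs
  · rw [add_mul]
  · rw [add_zero]

lemma shO_comm {a b : E} (h : a * b = b * a) : shO m a * shO m b = shO m b * shO m a := by
  apply LinearMap.ext
  intro v
  funext i
  rw [Module.End.mul_apply, Module.End.mul_apply]
  simp only [shO_apply]
  split_ifs
  · rw [← mul_assoc, ← mul_assoc, h]
  · rw [mul_zero, mul_zero]
  · rfl

/-- operators raising the filtration -/
def shI (E : Type*) [Ring E] [Algebra ℝ E] (m : ℕ) : Submodule ℝ (Module.End ℝ (Fin (m + 1) → E)) where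
  carrier := {f | ∀ (j : ℕ) (v : Fin (m + 1) → E), (∀ i : Fin (m + 1), i.val < j → v i = 0) →
    ∀ i : Fin (m + 1), i.val < j + 1 → f v i = 0}
  add_mem' := by
    intro f g hf hg j v hv i hi
    rw [LinearMap.add_apply, Pi.add_apply, hf j v hv i hi, hg j v hv i hi, add_zero]
  zero_mem' := by
    intro j v hv i hi
    rfl
  smul_mem' := by
    intro c f hf j v hv i hi
    rw [LinearMap.smul_apply, Pi.smul_apply, hf j v hv i hi, smul_zero]

lemma shO_mem (a : E) : shO m a ∈ shI E m := by
  intro j v hv i hi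
  rw [shO_apply]
  split_ifs with h
  · rw [hv _ (by change i.val - 1 < j; omega), mul_zero]
  · rfl

lemma shI_prod (l : List (Module.End ℝ (Fin (m + 1) → E))) (hl : ∀ x ∈ l, x ∈ shI E m) (j : ℕ)
    (v : Fin (m + 1) → E) (hv : ∀ i : Fin (m + 1), i.val < j → v i = 0) :
    ∀ i : Fin (m + 1), i.val < j + l.length → l.prod v i = 0 := by
  induction l with
  | nil =>
    intro i hi
    exact hv i (by simpa using hi)
  | cons f l ih =>
    intro i hi
    rw [List.prod_cons, Module.End.mul_apply]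
    exact hl f (by simp) (j + l.length) _ (ih (fun x hx => hl x (by simp [hx]))) i
      (by rw [List.length_cons] at hi; omega)

lemma shI_nil : Nil (m + 1) (shI E m) := by
  refine ⟨fun f hf g hg => ?_, fun l hl h => ?_⟩
  · intro j v hv i hi
    rw [Module.End.mul_apply]
    exact hf j _ (fun i' hi' => hg j v hv i' (by omega)) i hi
  · apply LinearMap.ext
    intro v
    funext i
    exact shI_prod l hl 0 v (by intro i hi; omega) i (by rw [h]; omega)

lemma shO_word (a b : E) (w : List (Fin 2)) (v : Fin (m + 1) → E) (i : Fin (m + 1)) :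
    (w.map ![shO m a, shO m b]).prod v i =
      if h : w.length ≤ i.val then (w.map ![a, b]).prod * v ⟨i.val - w.length, by omega⟩ else 0 := by
  induction w generalizing i with
  | nil => simp
  | cons l w ih =>
    rw [List.map_cons, List.prod_cons, Module.End.mul_apply, List.map_cons, List.prod_cons]
    have h : (![shO m a, shO m b] l : Module.End ℝ (Fin (m + 1) → E)) = shO m (![a, b] l) := by
      fin_cases l <;> rfl
    rw [h, shO_apply]
    simp only [List.length_cons]
    by_cases h1 : w.length + 1 ≤ i.val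
    · rw [dif_pos h1, dif_pos (by omega), ih, dif_pos (by change w.length ≤ i.val - 1; omega),
        mul_assoc]
      congr 3
      apply Fin.ext
      change i.val - 1 - w.length = i.val - (w.length + 1)
      omega
    · rw [dif_neg h1]
      by_cases h2 : 0 < i.val
      · rw [dif_pos h2, ih, dif_neg (by change ¬ w.length ≤ i.val - 1; omega), mul_zero]
      · rw [dif_neg h2]

lemma shO_EV {Q : AA ℝ} (hQ : Hom m Q) (a b : E) (v : Fin (m + 1) → E) :
    EV (shO m a) (shO m b) Q v (Fin.last m) = EV a b Q * v 0 := by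
  rw [EV_expand, EV_expand]
  unfold Finsupp.sum
  rw [LinearMap.sum_apply, Finset.sum_apply, Finset.sum_mul]
  refine Finset.sum_congr rfl (fun w hw => ?_)
  rw [LinearMap.smul_apply, Pi.smul_apply, smul_mul_assoc]
  have h1 : (FreeMonoid.toList w).length = m := by
    by_contra h
    have := hQ (FreeMonoid.toList w) h
    exact (Finsupp.mem_support_iff.1 hw) this
  rw [shO_word, dif_pos (by rw [h1, Fin.val_last])]
  congr 3
  apply Fin.ext
  have h3 := Fin.val_last m
  change (Fin.last m).val - (FreeMonoid.toList w).length = 0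
  omega

/-- homogeneous identities can be checked at nilpotent elements -/
lemma shO_eq {Q : AA ℝ} (hQ : Hom m Q) (a b : E) :
    EV (shO m a) (shO m b) Q (Pi.single 0 1) (Fin.last m) = EV a b Q := by
  rw [shO_EV hQ, Pi.single_eq_same, mul_one]

end Shift

section Abs

variable {E : Type*} [Ring E] [Algebra ℝ E] {m : ℕ} {I : Submodule ℝ E}

lemma word_mul_zero (h : Nil (m + 1) I) {a b x : E} (ha : a ∈ I) (hb : b ∈ I) (hx : x ∈ I)
    (w : List (Fin 2)) (hw : m ≤ w.length) : (w.map ![a, b]).prod * x = 0 := by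
  have h2 := h.zero_of_le (w.map ![a, b] ++ [x]) (by
    intro y hy
    rcases List.mem_append.1 hy with hy | hy
    · exact map_mem ha hb w y hy
    · rw [List.mem_singleton.1 hy]; exact hx) (by
    rw [List.length_append, List.length_map, List.length_singleton]; omega)
  rwa [List.prod_append, List.prod_singleton] at h2

lemma zero_mul_word (h : Nil (m + 1) I) {a b x : E} (ha : a ∈ I) (hb : b ∈ I) (hx : x ∈ I)
    (w : List (Fin 2)) (hw : m ≤ w.length) : x * (w.map ![a, b]).prod = 0 := by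
  have h2 := h.zero_of_le (x :: w.map ![a, b]) (by
    intro y hy
    rcases List.mem_cons.1 hy with rfl | hy
    · exact hx
    · exact map_mem ha hb w y hy) (by
    rw [List.length_cons, List.length_map]; omega)
  rwa [List.prod_cons] at h2

variable {Q : AA ℝ} (hQ : Hom m Q)
include hQ

lemma EV_mul_zero (h : Nil (m + 1) I) {a b x : E} (ha : a ∈ I) (hb : b ∈ I) (hx : x ∈ I) :
    EV a b Q * x = 0 := by
  rw [EV_expand, Finsupp.sum, Finset.sum_mul]
  refine Finset.sum_eq_zero (fun w hw => ?_)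
  have h1 : (FreeMonoid.toList w).length = m := by
    by_contra h
    exact (Finsupp.mem_support_iff.1 hw) (hQ (FreeMonoid.toList w) h)
  rw [smul_mul_assoc, word_mul_zero h ha hb hx _ h1.ge, smul_zero]

lemma zero_mul_EV (h : Nil (m + 1) I) {a b x : E} (ha : a ∈ I) (hb : b ∈ I) (hx : x ∈ I) :
    x * EV a b Q = 0 := by
  rw [EV_expand, Finsupp.sum, Finset.mul_sum]
  refine Finset.sum_eq_zero (fun w hw => ?_)
  have h1 : (FreeMonoid.toList w).length = m := by
    by_contra h
    exact (Finsupp.mem_support_iff.1 hw) (hQ (FreeMonoid.toList w) h)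
  rw [mul_smul_comm, zero_mul_word h ha hb hx _ h1.ge, smul_zero]

variable {P : AA ℝ} (hP : cf P [] = 1)
include hP

omit hQ in
lemma EV_one_add (h : Nil (m + 1) I) {a b : E} (ha : a ∈ I) (hb : b ∈ I) :
    ∃ r ∈ I, EV a b P = 1 + r := by
  refine ⟨EV a b (P - 1), h.EV_mem ha hb ?_, ?_⟩
  · rw [cf_sub, hP, cf_one, if_pos rfl, sub_self]
  · rw [map_sub, map_one]
    abel

lemma EV_Q_mul (h : Nil (m + 1) I) {a b c d : E} (ha : a ∈ I) (hb : b ∈ I) (hc : c ∈ I)
    (hd : d ∈ I) : EV a b Q * EV c d P = EV a b Q := by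
  obtain ⟨r, hr, h1⟩ := EV_one_add hP h hc hd
  rw [h1, mul_add, mul_one, EV_mul_zero hQ h ha hb hr, add_zero]

lemma EV_mul_Q (h : Nil (m + 1) I) {a b c d : E} (ha : a ∈ I) (hb : b ∈ I) (hc : c ∈ I)
    (hd : d ∈ I) : EV a b P * EV c d Q = EV c d Q := by
  obtain ⟨r, hr, h1⟩ := EV_one_add hP h ha hb
  rw [h1, add_mul, one_mul, zero_mul_EV hQ h hc hd hr, add_zero]

end Abs

theorem specDIFF : SpecDIFF := by
  intro N m P P' Q hm hmN hP hP' hG hG' hPG hPG' hlow hQ
  have hHom : Hom m Q := by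
    intro w hw
    rw [hQ, if_neg hw]
  have hQ0 : cf Q [] = 0 := by
    rw [hQ, if_neg (by simp; omega)]
  -- the difference, at nilpotent elements
  have key : ∀ {E : Type} [Ring E] [Algebra ℝ E] {I : Submodule ℝ E}, Nil (m + 1) I →
      ∀ {a b : E}, a ∈ I → b ∈ I → EV a b P' = EV a b P + EV a b Q := by
    intro E _ _ I hI a b ha hb
    have h0 : EV a b (P' - P - Q) = 0 := by
      apply hI.EV_zero ha hb
      intro w hw
      rw [cf_sub, cf_sub, hQ]
      by_cases h : w.length = m
      · rw [if_pos h]; ring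
      · rw [if_neg h, hlow w (by omega)]; ring
    rw [map_sub, map_sub] at h0
    rw [← sub_eq_zero]
    rw [← h0]
    abel
  have hQQ : ∀ {E : Type} [Ring E] [Algebra ℝ E] {I : Submodule ℝ E}, Nil (m + 1) I →
      ∀ {a b c d : E}, a ∈ I → b ∈ I → c ∈ I → d ∈ I → EV a b Q * EV c d Q = 0 := by
    intro E _ _ I hI a b c d ha hb hc hd
    exact EV_mul_zero hHom hI ha hb (hI.EV_mem hc hd hQ0)
  -- primitivity at nilpotent elements
  have prim : ∀ {E : Type} [Ring E] [Algebra ℝ E] {I : Submodule ℝ E}, Nil (m + 1) I →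
      ∀ a b a' b' : E, a ∈ I → b ∈ I → a' ∈ I → b' ∈ I → Com2 a b a' b' →
      EV (a + a') (b + b') Q = EV a b Q + EV a' b' Q := by
    intro E _ _ I hI a b a' b' ha hb ha' hb' hc
    have h1 := hG E I (hI.mono hmN) a b a' b' ha hb ha' hb' hc
    have h2 := hG' E I (hI.mono hmN) a b a' b' ha hb ha' hb' hc
    rw [key hI (I.add_mem ha ha') (I.add_mem hb hb'), key hI ha hb, key hI ha' hb', h1, add_mul,
      mul_add, mul_add, EV_mul_Q hHom hP hI ha hb ha' hb', EV_Q_mul hHom hP hI ha hb ha' hb',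
      hQQ hI ha hb ha' hb', add_zero, add_assoc] at h2
    rw [add_left_cancel h2, add_comm]
  -- the linear pentagon equation at nilpotent elements
  have pent : ∀ {E : Type} [Ring E] [Algebra ℝ E] {I : Submodule ℝ E}, Nil (m + 1) I →
      ∀ t : Fin 4 → Fin 4 → E, Braid t → (∀ i j, t i j ∈ I) → PLt t Q := by
    intro E _ _ I hI t ht hI'
    have h1 := hPG E I (hI.mono hmN) t ht hI'
    have h2 := hPG' E I (hI.mono hmN) t ht hI'
    have m1 : t 1 2 + t 1 3 ∈ I := I.add_mem (hI' _ _) (hI' _ _)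
    have m2 : t 0 2 + t 1 2 ∈ I := I.add_mem (hI' _ _) (hI' _ _)
    have m3 : t 0 1 + t 0 2 ∈ I := I.add_mem (hI' _ _) (hI' _ _)
    have m4 : t 1 3 + t 2 3 ∈ I := I.add_mem (hI' _ _) (hI' _ _)
    rw [key hI (hI' 0 1) m1, key hI m2 (hI' 2 3), key hI (hI' 1 2) (hI' 2 3), key hI m3 m4,
      key hI (hI' 0 1) (hI' 1 2)] at h2
    have e1 := EV_mul_Q hHom hP hI (hI' 0 1) m1 m2 (hI' 2 3)
    have e2 := EV_Q_mul hHom hP hI (hI' 0 1) m1 m2 (hI' 2 3)
    have e3 := hQQ hI (hI' 0 1) m1 m2 (hI' 2 3)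
    have f1 := EV_mul_Q hHom hP hI (hI' 1 2) (hI' 2 3) m3 m4
    have f2 := EV_Q_mul hHom hP hI (hI' 1 2) (hI' 2 3) m3 m4
    have f3 := hQQ hI (hI' 1 2) (hI' 2 3) m3 m4
    have g1 := EV_Q_mul hHom hP hI (hI' 1 2) (hI' 2 3) (hI' 0 1) (hI' 1 2)
    have g2 := EV_Q_mul hHom hP hI m3 m4 (hI' 0 1) (hI' 1 2)
    have g3 := hQQ hI (hI' 1 2) (hI' 2 3) (hI' 0 1) (hI' 1 2)
    have g4 := hQQ hI m3 m4 (hI' 0 1) (hI' 1 2)
    have g5 := EV_mul_Q hHom hP hI m3 m4 (hI' 0 1) (hI' 1 2)
    have g6 := EV_mul_Q hHom hP hI (hI' 1 2) (hI' 2 3) (hI' 0 1) (hI' 1 2)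
    simp only [add_mul, mul_add, e1, e2, e3, f1, f2, f3, g1, g2, g3, g4, add_zero] at h2
    rw [mul_assoc (EV (t 1 2) (t 2 3) P) _ (EV (t 0 1) (t 1 2) Q), g5, g6] at h2
    unfold PLt
    rw [← h1] at h2
    have h3 := sub_eq_zero.2 h2
    rw [← sub_eq_zero, ← h3]
    abel
  refine ⟨?_, ?_⟩
  · intro E _ _ a b a' b' hc
    have h1 := prim (shI_nil (E := E) (m := m)) (shO m a) (shO m b) (shO m a') (shO m b')
      (shO_mem a) (shO_mem b) (shO_mem a') (shO_mem b')
      ⟨shO_comm hc.h1, shO_comm hc.h2, shO_comm hc.h3, shO_comm hc.h4⟩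
    have h2 := congrArg (fun f : Module.End ℝ (Fin (m + 1) → E) =>
      f (Pi.single 0 1) (Fin.last m)) h1
    simp only [LinearMap.add_apply, Pi.add_apply] at h2
    rwa [← shO_add, ← shO_add, shO_eq hHom, shO_eq hHom, shO_eq hHom] at h2
  · intro E _ _ t ht
    have h1 := pent (shI_nil (E := E) (m := m)) (fun i j => shO m (t i j))
      ⟨fun i j => by rw [ht.symm], fun i j k l a b c d e f => shO_comm (ht.comm i j k l a b c d e f),
        fun i j k a b c => by
          rw [← shO_add]
          exact shO_comm (ht.rel i j k a b c)⟩ (fun i j => shO_mem _)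
    unfold PLt at h1 ⊢
    simp only [← shO_add] at h1
    have h2 := congrArg (fun f : Module.End ℝ (Fin (m + 1) → E) =>
      f (Pi.single 0 1) (Fin.last m)) h1
    simp only [LinearMap.add_apply, Pi.add_apply] at h2
    rwa [shO_eq hHom, shO_eq hHom, shO_eq hHom, shO_eq hHom, shO_eq hHom] at h2

end MP446S
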