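import Pool.Agent.Lib.MP_446dfa_ag.sig.Basic

set_option linter.all false

/-!
# Existence of the elements `σ_{2i+3}` of `grt₁`: the theorem of Dynkin, Specht and Wever
-/

noncomputable section

namespace MP446S

open MP446 MP446Y MP446Z

universe u v w

attribute [local instance 100] LieRing.ofAssociativeRing

section Dyn

variable {k : Type v} [CommRing k]

lemma Dyn_add (X Y : AA k) : Dyn (X + Y) = Dyn X + Dyn Y := by
  unfold Dyn
  rw [MonoidAlgebra.coeff_add]
  exact Finsupp.sum_add_index' (by simp) (by intros; rw [add_smul])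

lemma Dyn_smul (c : k) (X : AA k) : Dyn (c • X) = c • Dyn X := by
  unfold Dyn
  rw [MonoidAlgebra.coeff_smul, Finsupp.sum_smul_index' (by simp), Finsupp.smul_sum]
  simp only [smul_assoc]

lemma Dyn_ow (w : List (Fin 2)) : Dyn (ow k w) = rnb k w := by
  unfold Dyn ow
  rw [MonoidAlgebra.of_apply, MonoidAlgebra.coeff_single, Finsupp.sum_single_index (by simp),
    one_smul]
  rfl

lemma EV_oneE {E : Type*} [Ring E] [Algebra k E] (a b : E) : EV a b (1 : AA k) = 1 := map_one _

/-- the left multiplication by `x (1 + ε)` -/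
def Lop (i : Fin 2) : Module.End k (TrivSqZeroExt (AA k) (AA k)) :=
  Algebra.lmul k (TrivSqZeroExt (AA k) (AA k)) (TrivSqZeroExt.inl (lt k i) + TrivSqZeroExt.inr (lt k i))

/-- the right multiplication by `-x` -/
def Rop (i : Fin 2) : Module.End k (TrivSqZeroExt (AA k) (AA k)) :=
  LinearMap.mulRight k (-(TrivSqZeroExt.inl (lt k i)) : TrivSqZeroExt (AA k) (AA k))

lemma Lop_apply (i : Fin 2) (v : TrivSqZeroExt (AA k) (AA k)) :
    Lop i v = (TrivSqZeroExt.inl (lt k i) + TrivSqZeroExt.inr (lt k i)) * v := rfl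

lemma Rop_apply (i : Fin 2) (v : TrivSqZeroExt (AA k) (AA k)) :
    Rop i v = v * -(TrivSqZeroExt.inl (lt k i)) := rfl

lemma Lop_Rop (i j : Fin 2) : (Lop i : Module.End k _) * Rop j = Rop j * Lop i := by
  apply LinearMap.ext
  intro v
  rw [Module.End.mul_apply, Module.End.mul_apply, Lop_apply, Rop_apply, Rop_apply, Lop_apply,
    mul_assoc]

lemma EV_Rop (X : AA k) : ∃ z : AA k,
    EV (Rop 0 : Module.End k (TrivSqZeroExt (AA k) (AA k))) (Rop 1) X 1 = TrivSqZeroExt.inl z := by
  induction X using AA_lin with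
  | how w =>
    induction w with
    | nil => exact ⟨1, by rw [ow_nil, EV_oneE]; rfl⟩
    | cons i w ih =>
      obtain ⟨z, hz⟩ := ih
      refine ⟨-(z * lt k i), ?_⟩
      rw [ow_cons, map_mul, Module.End.mul_apply, hz]
      have h : EV (Rop 0 : Module.End k (TrivSqZeroExt (AA k) (AA k))) (Rop 1) (lt k i) = Rop i := by
        fin_cases i
        · exact EV_letter_zero _ _
        · exact EV_letter_one _ _
      rw [h, Rop_apply]
      ext <;> simp
  | hadd X Y hX hY =>
    obtain ⟨z, hz⟩ := hX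
    obtain ⟨z', hz'⟩ := hY
    exact ⟨z + z', by rw [map_add, LinearMap.add_apply, hz, hz', TrivSqZeroExt.inl_add]⟩
  | hsmul c X hX =>
    obtain ⟨z, hz⟩ := hX
    exact ⟨c • z, by rw [map_smul, LinearMap.smul_apply, hz, TrivSqZeroExt.inl_smul]⟩

lemma EV_Lop (X : AA k) :
    cf (TrivSqZeroExt.snd (EV (Lop 0 : Module.End k (TrivSqZeroExt (AA k) (AA k))) (Lop 1) X 1)) =
      fun w => (w.length : k) * cf X w := by
  have h1 : ∀ w : List (Fin 2), EV (Lop 0 : Module.End k (TrivSqZeroExt (AA k) (AA k))) (Lop 1)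
      (ow k w) 1 = TrivSqZeroExt.inl (ow k w) + TrivSqZeroExt.inr ((w.length : k) • ow k w) := by
    intro w
    induction w with
    | nil => rw [ow_nil, EV_oneE]; ext <;> simp
    | cons i w ih =>
      rw [ow_cons, map_mul, Module.End.mul_apply, ih]
      have h : EV (Lop 0 : Module.End k (TrivSqZeroExt (AA k) (AA k))) (Lop 1) (lt k i) = Lop i := by
        fin_cases i
        · exact EV_letter_zero _ _
        · exact EV_letter_one _ _
      rw [h, Lop_apply]
      ext
      · simp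
      · simp [add_smul]
  induction X using AA_lin with
  | how w =>
    rw [h1 w]
    funext v
    rw [TrivSqZeroExt.snd_add, TrivSqZeroExt.snd_inl, zero_add, TrivSqZeroExt.snd_inr, cf_smul,
      cf_ow]
    by_cases h : w = v
    · subst h; simp
    · rw [if_neg h]; simp
  | hadd X Y hX hY =>
    funext v
    rw [map_add, LinearMap.add_apply, TrivSqZeroExt.snd_add, cf_add, cf_add, hX, hY]
    ring
  | hsmul c X hX =>
    funext v
    rw [map_smul, LinearMap.smul_apply, TrivSqZeroExt.snd_smul, cf_smul, cf_smul, hX]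
    ring

lemma EV_LRop (X : AA k) :
    TrivSqZeroExt.snd (EV (Lop 0 + Rop 0 : Module.End k (TrivSqZeroExt (AA k) (AA k)))
      (Lop 1 + Rop 1) X 1) = Dyn X := by
  have hl : ∀ i : Fin 2, EV (Lop 0 + Rop 0 : Module.End k (TrivSqZeroExt (AA k) (AA k)))
      (Lop 1 + Rop 1) (lt k i) = Lop i + Rop i := by
    intro i
    fin_cases i
    · exact EV_letter_zero _ _
    · exact EV_letter_one _ _
  have h1 : ∀ (i : Fin 2) (w : List (Fin 2)),
      EV (Lop 0 + Rop 0 : Module.End k (TrivSqZeroExt (AA k) (AA k))) (Lop 1 + Rop 1)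
        (ow k (i :: w)) 1 = TrivSqZeroExt.inr (rnb k (i :: w)) := by
    intro i w
    induction w generalizing i with
    | nil =>
      rw [ow_cons, map_mul, Module.End.mul_apply, ow_nil, EV_oneE, hl, Module.End.one_apply,
        LinearMap.add_apply, Lop_apply, Rop_apply]
      ext <;> simp [rnb]
    | cons j w ih =>
      rw [ow_cons, map_mul, Module.End.mul_apply, ih, hl, LinearMap.add_apply, Lop_apply, Rop_apply]
      ext
      · simp
      · simp [rnb]
        abel
  induction X using AA_lin with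
  | how w =>
    rw [Dyn_ow]
    cases w with
    | nil => rw [ow_nil, EV_oneE]; rfl
    | cons i w => rw [h1]; rfl
  | hadd X Y hX hY =>
    rw [map_add, LinearMap.add_apply, TrivSqZeroExt.snd_add, Dyn_add, hX, hY]
  | hsmul c X hX =>
    rw [map_smul, LinearMap.smul_apply, TrivSqZeroExt.snd_smul, Dyn_smul, hX]

end Dyn

theorem specDSW1 : SpecDSW1 := by
  intro n Q hQ hn
  have h := hQ (Module.End ℝ (TrivSqZeroExt (AA ℝ) (AA ℝ))) (Lop 0) (Lop 1) (Rop 0) (Rop 1)
    ⟨Lop_Rop 0 0, Lop_Rop 0 1, Lop_Rop 1 0, Lop_Rop 1 1⟩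
  have h2 := congrArg (fun f : Module.End ℝ (TrivSqZeroExt (AA ℝ) (AA ℝ)) => (f 1).snd) h
  simp only [LinearMap.add_apply, TrivSqZeroExt.snd_add] at h2
  obtain ⟨z, hz⟩ := EV_Rop Q
  rw [EV_LRop, hz, TrivSqZeroExt.snd_inl, add_zero] at h2
  rw [h2]
  apply AA_ext
  intro w
  rw [EV_Lop, cf_smul]
  change (w.length : ℝ) * cf Q w = (n : ℝ) * cf Q w
  by_cases h3 : w.length = n
  · rw [h3]
  · rw [hn w h3, mul_zero, mul_zero]

section DSW2

variable (K : Type u) [Field K]

/-- right normed bracket, in the free Lie algebra -/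
def rnbF : List (Fin 2) → F2 K
  | [] => 0
  | [i] => ![gA K, gB K] i
  | i :: j :: w => ⁅(![gA K, gB K] i : F2 K), rnbF (j :: w)⁆

lemma assoc_letter (i : Fin 2) : assoc K (![gA K, gB K] i : F2 K) = lt K i := by
  fin_cases i
  · exact assoc_gA
  · exact assoc_gB

lemma assoc_rnbF : ∀ w : List (Fin 2), assoc K (rnbF K w) = rnb K w
  | [] => by simp [rnbF, rnb]
  | [i] => assoc_letter K i
  | i :: j :: w => by
    have ih := assoc_rnbF (j :: w)
    change assoc K ⁅(![gA K, gB K] i : F2 K), rnbF K (j :: w)⁆ =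
      lt K i * rnb K (j :: w) - rnb K (j :: w) * lt K i
    rw [LieHom.map_lie, ih, assoc_letter, LieRing.of_associative_ring_bracket]

lemma Dyn_mem (X : AA K) : ∃ ψ : F2 K, assoc K ψ = Dyn X := by
  induction X using AA_lin with
  | how w => exact ⟨rnbF K w, by rw [assoc_rnbF, Dyn_ow]⟩
  | hadd X Y hX hY =>
    obtain ⟨a, ha⟩ := hX
    obtain ⟨b, hb⟩ := hY
    exact ⟨a + b, by rw [map_add, ha, hb, Dyn_add]⟩
  | hsmul c X hX =>
    obtain ⟨a, ha⟩ := hX
    exact ⟨c • a, by rw [map_smul, ha, Dyn_smul]⟩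

end DSW2

theorem specDSW2 : SpecDSW2.{u} := by
  intro K _ _ n Q hn hQ
  obtain ⟨ψ, hψ⟩ := Dyn_mem K Q
  have h0 : (n : K) ≠ 0 := by
    rw [Nat.cast_ne_zero]
    omega
  exact ⟨(n : K)⁻¹ • ψ, by rw [map_smul, hψ, hQ, smul_smul, inv_mul_cancel₀ h0, one_smul]⟩

end MP446S
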