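import Pool.Agent.Lib.MP_446dfa_ag.sig.Basic

set_option linter.all false

/-!
# Descent from the real numbers to an arbitrary field of characteristic zero
-/

noncomputable section

namespace MP446S

open MP446 MP446Y MP446Z

universe u v w

section Mm

variable {k : Type v} [CommRing k] {l : Type w} [CommRing l] (μ : k →+ l) {A : Type}

/-- the additive map on non-commutative polynomials given by an additive map on coefficients -/
def mm : FA k A →+ FA l A :=
  (MonoidAlgebra.coeffAddEquiv.symm.toAddMonoidHom).comp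
    ((Finsupp.mapRange.addMonoidHom μ).comp MonoidAlgebra.coeffAddEquiv.toAddMonoidHom)

lemma mm_coeff (X : FA k A) (w : FreeMonoid A) : (mm μ X).coeff w = μ (X.coeff w) := rfl

lemma mm_single (w : FreeMonoid A) (c : k) :
    mm μ (MonoidAlgebra.single w c) = MonoidAlgebra.single w (μ c) := by
  classical
  ext v
  rw [mm_coeff, MonoidAlgebra.coeff_single, MonoidAlgebra.coeff_single, Finsupp.single_apply,
    Finsupp.single_apply]
  split_ifs
  · rfl
  · exact map_zero μ

lemma letter_single (i : A) (w : FreeMonoid A) (c : k) :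
    letter k i * MonoidAlgebra.single w c = MonoidAlgebra.single (FreeMonoid.of i * w) c := by
  rw [letter, MonoidAlgebra.of_apply, MonoidAlgebra.single_mul_single, one_mul]

lemma single_letter (i : A) (w : FreeMonoid A) (c : k) :
    MonoidAlgebra.single w c * letter k i = MonoidAlgebra.single (w * FreeMonoid.of i) c := by
  rw [letter, MonoidAlgebra.of_apply, MonoidAlgebra.single_mul_single, mul_one]

lemma mm_letter_mul (i : A) (X : FA k A) : mm μ (letter k i * X) = letter l i * mm μ X := by
  induction X using MonoidAlgebra.induction_linear with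
  | zero => rw [mul_zero, map_zero, mul_zero]
  | add f g hf hg => rw [mul_add, map_add, map_add, mul_add, hf, hg]
  | single w c => rw [letter_single, mm_single, mm_single, letter_single]

lemma mm_mul_letter (i : A) (X : FA k A) : mm μ (X * letter k i) = mm μ X * letter l i := by
  induction X using MonoidAlgebra.induction_linear with
  | zero => rw [zero_mul, map_zero, zero_mul]
  | add f g hf hg => rw [add_mul, map_add, map_add, add_mul, hf, hg]
  | single w c => rw [single_letter, mm_single, mm_single, single_letter]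

/-- compatibility of two operators -/
def CmpM (S : Module.End k (FA k A)) (T : Module.End l (FA l A)) : Prop :=
  ∀ r, mm μ (S r) = T (mm μ r)

variable {μ}

lemma CmpM.zero : CmpM μ (0 : Module.End k (FA k A)) (0 : Module.End l (FA l A)) := fun r => by
  rw [LinearMap.zero_apply, map_zero, LinearMap.zero_apply]

lemma CmpM.add {S S' : Module.End k (FA k A)} {T T' : Module.End l (FA l A)} (h : CmpM μ S T)
    (h' : CmpM μ S' T') : CmpM μ (S + S') (T + T') := fun r => by
  rw [LinearMap.add_apply, map_add, h, h', LinearMap.add_apply]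

lemma CmpM.mul {S S' : Module.End k (FA k A)} {T T' : Module.End l (FA l A)} (h : CmpM μ S T)
    (h' : CmpM μ S' T') : CmpM μ (S * S') (T * T') := fun r => by
  rw [Module.End.mul_apply, h, h', Module.End.mul_apply]

lemma CmpM.one : CmpM μ (1 : Module.End k (FA k A)) (1 : Module.End l (FA l A)) := fun r => rfl

lemma CmpM.word {S S' : Module.End k (FA k A)} {T T' : Module.End l (FA l A)} (h : CmpM μ S T)
    (h' : CmpM μ S' T') (w : List (Fin 2)) : CmpM μ (w.map ![S, S']).prod (w.map ![T, T']).prod := by
  induction w with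
  | nil => exact CmpM.one
  | cons i w ih =>
    rw [List.map_cons, List.prod_cons, List.map_cons, List.prod_cons]
    refine CmpM.mul ?_ ih
    fin_cases i
    · exact h
    · exact h'

lemma single_smul_one (V : FreeMonoid A) (c : k) :
    (MonoidAlgebra.single V c : FA k A) = c • MonoidAlgebra.single V 1 := by
  rw [MonoidAlgebra.smul_single, smul_eq_mul, mul_one]

lemma CmpM.EV {S S' : Module.End k (FA k A)} {T T' : Module.End l (FA l A)} (h : CmpM μ S T)
    (h' : CmpM μ S' T') (X : AA k) (V : FreeMonoid A) :
    mm μ (MP446Y.EV S S' X (MonoidAlgebra.single V 1)) =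
      MP446Y.EV T T' (mm μ X) (MonoidAlgebra.single V 1) := by
  induction X using MonoidAlgebra.induction_linear with
  | zero => rw [map_zero, map_zero, map_zero, LinearMap.zero_apply, LinearMap.zero_apply, map_zero]
  | add f g hf hg =>
    rw [map_add, map_add, map_add, LinearMap.add_apply, LinearMap.add_apply, map_add, hf, hg]
  | single w c =>
    rw [mm_single, single_eq, single_eq, map_smul, map_smul, EV_ow, EV_ow, LinearMap.smul_apply,
      LinearMap.smul_apply, ← map_smul, ← map_smul, ← single_smul_one, ← single_smul_one,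
      h.word h' _ _, mm_single]

lemma CmpM.Lx (i : Fin 3) : CmpM μ (Lx k (letter k i)) (Lx l (letter l i)) := fun r =>
  mm_letter_mul μ i r

lemma mm_dij (i j a : Fin 3) (X : FA k (Fin 3)) : mm μ (dij k i j a * X) = dij l i j a * mm μ X := by
  unfold dij
  split_ifs
  · rw [sub_mul, mul_assoc, mul_assoc, map_sub, mm_letter_mul, mm_letter_mul, mm_letter_mul,
      mm_letter_mul, sub_mul, mul_assoc, mul_assoc]
  · rw [sub_mul, mul_assoc, mul_assoc, map_sub, mm_letter_mul, mm_letter_mul, mm_letter_mul,
      mm_letter_mul, sub_mul, mul_assoc, mul_assoc]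
  · rw [zero_mul, map_zero, zero_mul]

lemma CmpM.Dij (i j : Fin 3) : CmpM μ (Dij k i j) (Dij l i j) := by
  intro r
  induction r using MonoidAlgebra.induction_linear with
  | zero => rw [map_zero, map_zero, map_zero]
  | add f g hf hg => rw [map_add, map_add, map_add, map_add, hf, hg]
  | single w c =>
    induction w using FreeMonoid.inductionOn' with
    | one =>
      have h1 : ∀ (R : Type _) [CommRing R] (c : R), MP446S.Dij R i j (MonoidAlgebra.single 1 c) = 0 := by
        intro R _ c
        rw [single_smul_one, map_smul]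
        change c • derF (dij R i j) 1 = 0
        rw [derF_one, smul_zero]
      have h2 : ∀ (R : Type _) [CommRing R] (c : R), MP446S.Dij R i j (MonoidAlgebra.single 1 c) = 0 := by
        intro R _ c
        rw [single_smul_one, map_smul]
        change c • derF (dij R i j) 1 = 0
        rw [derF_one, smul_zero]
      rw [h1, map_zero, mm_single, h2]
    | of_mul a w ih =>
      have h1 : ∀ (R : Type _) [CommRing R] (X : FA R (Fin 3)), MP446S.Dij R i j (letter R a * X) =
          letter R a * MP446S.Dij R i j X + dij R i j a * X := by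
        intro R _ X
        change derF (dij R i j) _ = _
        rw [derF_mul, derF_letter]
        rfl
      have h2 : ∀ (R : Type _) [CommRing R] (X : FA R (Fin 3)), MP446S.Dij R i j (letter R a * X) =
          letter R a * MP446S.Dij R i j X + dij R i j a * X := by
        intro R _ X
        change derF (dij R i j) _ = _
        rw [derF_mul, derF_letter]
        rfl
      rw [← letter_single, h1, map_add, mm_letter_mul, mm_dij, ih, mm_letter_mul, h2]

lemma CmpM.ee (i j : Fin 4) : CmpM μ (ee k i j) (ee l i j) := by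
  fin_cases i <;> fin_cases j
  · exact CmpM.zero
  · exact CmpM.Dij 0 1
  · exact CmpM.Dij 0 2
  · exact CmpM.Lx 0
  · exact CmpM.Dij 0 1
  · exact CmpM.zero
  · exact CmpM.Dij 1 2
  · exact CmpM.Lx 1
  · exact CmpM.Dij 0 2
  · exact CmpM.Dij 1 2
  · exact CmpM.zero
  · exact CmpM.Lx 2
  · exact CmpM.Lx 0
  · exact CmpM.Lx 1
  · exact CmpM.Lx 2
  · exact CmpM.zero

lemma end_ext {S T : Module.End k (FA k A)}
    (h : ∀ V : FreeMonoid A, S (MonoidAlgebra.single V 1) = T (MonoidAlgebra.single V 1)) :
    S = T := by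
  apply LinearMap.ext
  intro r
  induction r using MonoidAlgebra.induction_linear with
  | zero => rw [map_zero, map_zero]
  | add f g hf hg => rw [map_add, map_add, hf, hg]
  | single w c => rw [single_smul_one, map_smul, map_smul, h]

lemma PLt_mm {X : AA k} (h : PLt (ee k) X) : PLt (ee l) (mm μ X) := by
  unfold PLt at h ⊢
  apply end_ext
  intro V
  have h1 := congrArg (fun T => mm μ (T (MonoidAlgebra.single V 1))) h
  simp only [LinearMap.add_apply, map_add] at h1
  rw [CmpM.EV (CmpM.ee 0 1) ((CmpM.ee 1 2).add (CmpM.ee 1 3)),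
    CmpM.EV ((CmpM.ee 0 2).add (CmpM.ee 1 2)) (CmpM.ee 2 3),
    CmpM.EV (CmpM.ee 1 2) (CmpM.ee 2 3),
    CmpM.EV ((CmpM.ee 0 1).add (CmpM.ee 0 2)) ((CmpM.ee 1 3).add (CmpM.ee 2 3)),
    CmpM.EV (CmpM.ee 0 1) (CmpM.ee 1 2)] at h1
  exact h1

lemma mm_rnb (c : k) : ∀ w : List (Fin 2), mm μ (c • rnb k w) = μ c • rnb l w
  | [] => by simp [rnb]
  | [i] => by
    have h1 : c • rnb k [i] = MonoidAlgebra.single (FreeMonoid.ofList [i]) c := by
      rw [single_eq]; rfl
    have h2 : μ c • rnb l [i] = MonoidAlgebra.single (FreeMonoid.ofList [i]) (μ c) := by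
      rw [single_eq]; rfl
    rw [h1, h2, mm_single]
  | i :: j :: w => by
    have ih := mm_rnb c (j :: w)
    change mm μ (c • (lt k i * rnb k (j :: w) - rnb k (j :: w) * lt k i)) =
      μ c • (lt l i * rnb l (j :: w) - rnb l (j :: w) * lt l i)
    rw [smul_sub, ← mul_smul_comm, ← smul_mul_assoc, map_sub]
    change mm μ (letter k i * (c • rnb k (j :: w))) - mm μ ((c • rnb k (j :: w)) * letter k i) = _
    rw [mm_letter_mul, mm_mul_letter, ih, smul_sub, mul_smul_comm, smul_mul_assoc]
    rfl

lemma Dyn_add (X Y : AA k) : Dyn (X + Y) = Dyn X + Dyn Y := by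
  unfold Dyn
  rw [MonoidAlgebra.coeff_add, Finsupp.sum_add_index' (by simp) (by intros; rw [add_smul])]

lemma Dyn_single (w : FreeMonoid (Fin 2)) (c : k) :
    Dyn (MonoidAlgebra.single w c) = c • rnb k (FreeMonoid.toList w) := by
  unfold Dyn
  rw [MonoidAlgebra.coeff_single, Finsupp.sum_single_index (by simp)]

lemma mm_Dyn (X : AA k) : mm μ (Dyn X) = Dyn (mm μ X) := by
  induction X using MonoidAlgebra.induction_linear with
  | zero => simp [Dyn]
  | add f g hf hg => rw [Dyn_add, map_add, map_add, Dyn_add, hf, hg]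
  | single w c => rw [Dyn_single, mm_rnb, mm_single, Dyn_single]

end Mm

theorem specDESC : SpecDESC.{u} := by
  intro n Q hn hQ hD hP hne K _ _
  obtain ⟨g, hg⟩ := LinearMap.exists_leftInverse_of_injective (Algebra.linearMap ℚ ℝ)
    (LinearMap.ker_eq_bot.2 (algebraMap ℚ ℝ).injective)
  have hg1 : g 1 = 1 := by
    have := LinearMap.congr_fun hg 1
    simpa using this
  let μ : ℝ →+ K := (algebraMap ℚ K).toAddMonoidHom.comp g.toAddMonoidHom
  have hμ : μ 1 = 1 := by
    change algebraMap ℚ K (g 1) = 1
    rw [hg1, map_one]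
  set c := cf Q (xny (n - 1)) with hc
  have hD1 : Dyn (c⁻¹ • Q) = (n : ℝ) • (c⁻¹ • Q) := by
    have h1 : ∀ (a : ℝ) (X : AA ℝ), Dyn (a • X) = a • Dyn X := by
      intro a X
      induction X using MonoidAlgebra.induction_linear with
      | zero => simp [Dyn]
      | add f g hf hg => rw [smul_add, Dyn_add, Dyn_add, smul_add, hf, hg]
      | single w b =>
        rw [MonoidAlgebra.smul_single, Dyn_single, Dyn_single, smul_smul, smul_eq_mul]
    rw [h1, hD, smul_comm]
  have hP1 : PLt (ee ℝ) (c⁻¹ • Q) := by
    unfold PLt at hP ⊢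
    simp only [map_smul]
    rw [← smul_add, hP, smul_add, smul_add]
  refine ⟨mm μ (c⁻¹ • Q), ?_, ?_, PLt_mm hP1, ?_⟩
  · intro w hw
    change μ (cf (c⁻¹ • Q) w) = 0
    rw [cf_smul, hQ w hw, mul_zero, map_zero]
  · rw [← mm_Dyn, hD1, Nat.cast_smul_eq_nsmul, map_nsmul, Nat.cast_smul_eq_nsmul]
  · change μ (cf (c⁻¹ • Q) (xny (n - 1))) ≠ 0
    rw [cf_smul, ← hc, inv_mul_cancel₀ hne, hμ]
    exact one_ne_zero

end MP446S
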