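import Pool.Agent.Lib.MP_446dfa_ag.sig.Basic

set_option linter.all false

/-!
# The pentagon relation implies the antisymmetry and the cycle relation
-/

noncomputable section

namespace MP446S

open MP446 MP446Y MP446Z

universe u v w

attribute [local instance 100] LieRing.ofAssociativeRing

namespace F12

section F1

/-- the type of a pair of strands -/
def ixF : Fin 4 → Fin 4 → Fin 4 := ![![0, 1, 2, 3], ![1, 0, 3, 2], ![2, 3, 0, 1], ![3, 2, 1, 0]]

theorem _root_.MP446S.specF1 : SpecF1.{u} := by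
  intro K _ _ n ψ hn hψ hP
  let g : Fin 4 → F2 K := ![0, gA K, gC K, gB K]
  have hsum : gB K + gC K = -gA K := by unfold gC; abel
  have hsum2 : gA K + gC K = -gB K := by unfold gC; abel
  have hsum3 : gA K + gB K = -gC K := by unfold gC; abel
  have ht : InfBraid (fun i j => g (ixF i j)) := by
    refine ⟨?_, ?_, ?_⟩
    · intro i j
      have : ∀ i j : Fin 4, ixF i j = ixF j i := by decide
      simp only [this i j]
    · intro i j k l h1 h2 h3 h4 h5 h6
      have : ∀ i j k l : Fin 4, (i ≠ j ∧ i ≠ k ∧ i ≠ l ∧ j ≠ k ∧ j ≠ l ∧ k ≠ l) →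
        ixF i j = ixF k l := by decide
      simp only [this i j k l ⟨h1, h2, h3, h4, h5, h6⟩, lie_self]
    · intro i j k h1 h2 h3
      have h4 : ∀ i j k : Fin 4, i ≠ j → i ≠ k → j ≠ k →
        ((ixF i j = 1 ∧ ixF i k = 2 ∧ ixF j k = 3) ∨ (ixF i j = 1 ∧ ixF i k = 3 ∧ ixF j k = 2) ∨
        (ixF i j = 2 ∧ ixF i k = 1 ∧ ixF j k = 3) ∨ (ixF i j = 2 ∧ ixF i k = 3 ∧ ixF j k = 1) ∨
        (ixF i j = 3 ∧ ixF i k = 1 ∧ ixF j k = 2) ∨ (ixF i j = 3 ∧ ixF i k = 2 ∧ ixF j k = 1)) := by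
        decide
      have g1 : g 1 = gA K := rfl
      have g2 : g 2 = gC K := rfl
      have g3 : g 3 = gB K := rfl
      rcases h4 i j k h1 h2 h3 with ⟨e1, e2, e3⟩ | ⟨e1, e2, e3⟩ | ⟨e1, e2, e3⟩ | ⟨e1, e2, e3⟩ |
        ⟨e1, e2, e3⟩ | ⟨e1, e2, e3⟩ <;> simp only [e1, e2, e3, g1, g2, g3]
      · rw [add_comm, hsum, lie_neg, lie_self, neg_zero]
      · rw [hsum, lie_neg, lie_self, neg_zero]
      · rw [hsum3, lie_neg, lie_self, neg_zero]
      · rw [add_comm, hsum3, lie_neg, lie_self, neg_zero]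
      · rw [hsum2, lie_neg, lie_self, neg_zero]
      · rw [add_comm, hsum2, lie_neg, lie_self, neg_zero]
  have h := hP (F2 K) _ ht
  change ev (gA K) (gB K + gC K) ψ + ev (gC K + gB K) (gA K) ψ =
    ev (gB K) (gA K) ψ + ev (gA K + gC K) (gC K + gA K) ψ + ev (gA K) (gB K) ψ at h
  rw [add_comm (gC K) (gB K), add_comm (gC K) (gA K), hsum, hsum2] at h
  have e1 : ev (gA K) (-gA K) ψ = 0 := ev_of_comm hn hψ (by rw [lie_neg, lie_self, neg_zero])
  have e2 : ev (-gA K) (gA K) ψ = 0 := ev_of_comm hn hψ (by rw [neg_lie, lie_self, neg_zero])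
  have e3 : ev (-gB K) (-gB K) ψ = 0 := ev_of_comm hn hψ (by rw [lie_self])
  rw [e1, e2, e3, ev_self, add_zero, add_zero] at h
  exact eq_neg_of_add_eq_zero_left h.symm

end F1

section FivePoint

variable {K : Type u} [Field K] {L : Type u} [LieRing L] [LieAlgebra K L]

/-- four distinct strands -/
structure Dst (a b c d : Fin 4) : Prop where
  ab : a ≠ b
  ac : a ≠ c
  ad : a ≠ d
  bc : b ≠ c
  bd : b ≠ d
  cd : c ≠ d

/-- the sum of all the generators -/
def Tt (t : Fin 4 → Fin 4 → L) (a b c d : Fin 4) : L :=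
  t a b + t a c + t a d + t b c + t b d + t c d

/-- the generators attached to the fifth point -/
def Sf (t : Fin 4 → Fin 4 → L) (i : Fin 4) : L := -∑ j, t i j

lemma exists_perm {a b c d : Fin 4} (h : Dst a b c d) : ∃ σ : Fin 4 → Fin 4, σ 0 = a ∧ σ 1 = b ∧
    σ 2 = c ∧ σ 3 = d ∧ Function.Injective σ := by
  refine ⟨fun i => if i = 0 then a else if i = 1 then b else if i = 2 then c else d, rfl, rfl, rfl,
    rfl, ?_⟩
  intro i j hij
  obtain ⟨hab, hac, had, hbc, hbd, hcd⟩ := h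
  fin_cases i <;> fin_cases j <;> first
    | rfl
    | exact absurd hij hab
    | exact absurd hij hac
    | exact absurd hij had
    | exact absurd hij hbc
    | exact absurd hij hbd
    | exact absurd hij hcd
    | exact absurd hij.symm hab
    | exact absurd hij.symm hac
    | exact absurd hij.symm had
    | exact absurd hij.symm hbc
    | exact absurd hij.symm hbd
    | exact absurd hij.symm hcd

lemma sum_dst {a b c d : Fin 4} (h : Dst a b c d) (f : Fin 4 → L) :
    ∑ j, f j = f a + f b + f c + f d := by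
  have h1 : ∀ a b c d : Fin 4, a ≠ b → a ≠ c → a ≠ d → b ≠ c → b ≠ d → c ≠ d →
      (Finset.univ : Finset (Fin 4)) = {a, b, c, d} := by decide
  rw [h1 a b c d h.ab h.ac h.ad h.bc h.bd h.cd, Finset.sum_insert, Finset.sum_insert,
    Finset.sum_insert, Finset.sum_singleton]
  · abel
  · simpa using h.cd
  · simp [h.bc, h.bd]
  · simp [h.ab, h.ac, h.ad]

variable {t : Fin 4 → Fin 4 → L} (ht : InfBraid t) (h0 : ∀ i, t i i = 0)
include ht

lemma Tt_ab {a b c d : Fin 4} (h : Dst a b c d) : ⁅Tt t a b c d, t a b⁆ = 0 := by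
  have e : Tt t a b c d = t a b + (t a c + t b c) + (t a d + t b d) + t c d := by
    unfold Tt; abel
  rw [← lie_skew, e, lie_add, lie_add, lie_add, lie_self, ht.rel a b c h.ab h.ac h.bc,
    ht.rel a b d h.ab h.ad h.bd, ht.comm a b c d h.ab h.ac h.ad h.bc h.bd h.cd]
  simp

lemma Tt_swap1 (a b c d : Fin 4) : Tt t b a c d = Tt t a b c d := by
  unfold Tt
  rw [ht.symm b a]
  abel

lemma Tt_swap2 (a b c d : Fin 4) : Tt t a c b d = Tt t a b c d := by
  unfold Tt
  rw [ht.symm c b]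
  abel

lemma Tt_swap3 (a b c d : Fin 4) : Tt t a b d c = Tt t a b c d := by
  unfold Tt
  rw [ht.symm d c]
  abel

lemma Tt_ac {a b c d : Fin 4} (h : Dst a b c d) : ⁅Tt t a b c d, t a c⁆ = 0 := by
  rw [← Tt_swap2 ht]
  exact Tt_ab ht ⟨h.ac, h.ab, h.ad, h.bc.symm, h.cd, h.bd⟩

lemma Tt_ad {a b c d : Fin 4} (h : Dst a b c d) : ⁅Tt t a b c d, t a d⁆ = 0 := by
  rw [← Tt_swap3 ht]
  exact Tt_ac ht ⟨h.ab, h.ad, h.ac, h.bd, h.bc, h.cd.symm⟩

lemma Tt_bc {a b c d : Fin 4} (h : Dst a b c d) : ⁅Tt t a b c d, t b c⁆ = 0 := by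
  rw [← Tt_swap1 ht]
  exact Tt_ac ht ⟨h.ab.symm, h.bc, h.bd, h.ac, h.ad, h.cd⟩

lemma Tt_bd {a b c d : Fin 4} (h : Dst a b c d) : ⁅Tt t a b c d, t b d⁆ = 0 := by
  rw [← Tt_swap3 ht]
  exact Tt_bc ht ⟨h.ab, h.ad, h.ac, h.bd, h.bc, h.cd.symm⟩

lemma Tt_cd {a b c d : Fin 4} (h : Dst a b c d) : ⁅Tt t a b c d, t c d⁆ = 0 := by
  rw [← Tt_swap2 ht]
  exact Tt_bd ht ⟨h.ac, h.ab, h.ad, h.bc.symm, h.cd, h.bd⟩

include h0

lemma Sf_d {a b c d : Fin 4} (h : Dst a b c d) : Sf t d = -(t a d + t b d + t c d) := by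
  unfold Sf
  rw [sum_dst h, h0, ht.symm d a, ht.symm d b, ht.symm d c, add_zero]

lemma Sf_a {a b c d : Fin 4} (h : Dst a b c d) : Sf t a = -(t a b + t a c + t a d) := by
  unfold Sf
  rw [sum_dst h, h0, zero_add]

variable {n : ℕ} {ψ : F2 K} (hn : 2 ≤ n) (hψ : Hom n (assoc K ψ))
include hn hψ

lemma term_g {a b c d : Fin 4} (h : Dst a b c d) :
    ev (t a c + t b c) (t c d) ψ = ev (Sf t d) (t c d) ψ := by
  have e : Sf t d = (t a c + t b c) + (t a b - Tt t a b c d) := by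
    rw [Sf_d ht h0 h]; unfold Tt; abel
  have e1 : ⁅t a b - Tt t a b c d, t a c + t b c⁆ = 0 := by
    rw [sub_lie, ht.rel a b c h.ab h.ac h.bc, lie_add, Tt_ac ht h, Tt_bc ht h]; simp
  have e2 : ⁅t a b - Tt t a b c d, t c d⁆ = 0 := by
    rw [sub_lie, ht.comm a b c d h.ab h.ac h.ad h.bc h.bd h.cd, Tt_cd ht h, sub_zero]
  rw [e, ev_shift_left hn hψ e1 e2]

lemma term_h {a b c d : Fin 4} (h : Dst a b c d) :
    ev (t a b + t a c) (t b d + t c d) ψ = ev (Sf t d) (Sf t a) ψ := by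
  have e : Sf t d = (t a b + t a c) + (t b c - Tt t a b c d) := by
    rw [Sf_d ht h0 h]; unfold Tt; abel
  have e' : Sf t a = (t b d + t c d) + (t b c - Tt t a b c d) := by
    rw [Sf_a ht h0 h]; unfold Tt; abel
  have e1 : ⁅t b c - Tt t a b c d, t a b + t a c⁆ = 0 := by
    rw [sub_lie, lie_add (Tt t a b c d), Tt_ab ht h, Tt_ac ht h]
    have := ht.rel b c a h.bc h.ab.symm h.ac.symm
    rw [ht.symm b a, ht.symm c a] at this
    rw [this]; simp
  have e2 : ⁅t b c - Tt t a b c d, t b d + t c d⁆ = 0 := by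
    rw [sub_lie, lie_add (Tt t a b c d), Tt_bd ht h, Tt_cd ht h,
      ht.rel b c d h.bc h.bd h.cd]; simp
  rw [e, e', ev_shift hn hψ e1 e2 e1 e2 (lie_self _)]

lemma term_g' {a b c d : Fin 4} (h : Dst a b c d) :
    ev (t a b) (t b c + t b d) ψ = ev (t a b) (Sf t a) ψ := by
  have e : Sf t a = (t b c + t b d) + (t c d - Tt t a b c d) := by
    rw [Sf_a ht h0 h]; unfold Tt; abel
  have e1 : ⁅t c d - Tt t a b c d, t a b⁆ = 0 := by
    rw [sub_lie, Tt_ab ht h, ← lie_skew,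
      ht.comm a b c d h.ab h.ac h.ad h.bc h.bd h.cd]; simp
  have e2 : ⁅t c d - Tt t a b c d, t b c + t b d⁆ = 0 := by
    have := ht.rel c d b h.cd h.bc.symm h.bd.symm
    rw [ht.symm c b, ht.symm d b] at this
    rw [sub_lie, lie_add (Tt t a b c d), Tt_bc ht h, Tt_bd ht h, this]; simp
  rw [e, ev_shift_right hn hψ e1 e2]

/-- the pentagon equation, in the five point picture -/
lemma pent5 (hP : Pentagon ψ) {a b c d : Fin 4} (h : Dst a b c d) :
    ev (t a b) (Sf t a) ψ + ev (Sf t d) (t c d) ψ =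
      ev (t b c) (t c d) ψ + ev (Sf t d) (Sf t a) ψ + ev (t a b) (t b c) ψ := by
  rw [← term_g ht h0 hn hψ h, ← term_h ht h0 hn hψ h, ← term_g' ht h0 hn hψ h]
  obtain ⟨σ, e0, e1, e2, e3, hσ⟩ := exists_perm h
  have ht2 : InfBraid (fun i j => t (σ i) (σ j)) := by
    refine ⟨fun i j => ht.symm _ _, ?_, ?_⟩
    · intro i j k l h1 h2 h3 h4 h5 h6
      exact ht.comm _ _ _ _ (hσ.ne h1) (hσ.ne h2) (hσ.ne h3) (hσ.ne h4) (hσ.ne h5) (hσ.ne h6)
    · intro i j k h1 h2 h3
      exact ht.rel _ _ _ (hσ.ne h1) (hσ.ne h2) (hσ.ne h3)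
  have h3 := hP L _ ht2
  simp only [e0, e1, e2, e3] at h3
  exact h3

end FivePoint

section Comb

variable {K : Type u} [Field K] [CharZero K]

/-- the linear combination of twelve pentagons -/
lemma comb {M : Type*} [AddCommGroup M] [Module K M] (f : Fin 4 → Fin 4 → Fin 4 → M)
    (g h : Fin 4 → Fin 4 → M) (F : ∀ a b c, f c b a = -f a b c) (H : ∀ a b, h b a = -h a b)
    (D : ∀ a b c d, Dst a b c d → g b a - g c d = f b c d + h d a + f a b c) :
    f 0 3 1 + f 3 1 0 + f 1 0 3 + (f 0 3 2 + f 3 2 0 + f 2 0 3) = g 3 0 + h 0 3 - g 0 3 := by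
  have D1 := D 0 1 2 3 (by constructor <;> decide)
  have D2 := D 0 1 3 2 (by constructor <;> decide)
  have D3 := D 0 2 1 3 (by constructor <;> decide)
  have D4 := D 0 2 3 1 (by constructor <;> decide)
  have D5 := D 0 3 1 2 (by constructor <;> decide)
  have D6 := D 0 3 2 1 (by constructor <;> decide)
  have D7 := D 1 0 2 3 (by constructor <;> decide)
  have D8 := D 1 0 3 2 (by constructor <;> decide)
  have D9 := D 1 2 0 3 (by constructor <;> decide)
  have D10 := D 1 3 0 2 (by constructor <;> decide)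
  have D11 := D 2 0 1 3 (by constructor <;> decide)
  have D12 := D 2 1 0 3 (by constructor <;> decide)
  have F1 := F 0 1 2
  have F2 := F 0 1 3
  have F3 := F 0 2 1
  have F4 := F 0 2 3
  have F5 := F 0 3 1
  have F6 := F 0 3 2
  have F7 := F 1 0 2
  have F8 := F 1 0 3
  have F9 := F 1 2 3
  have F10 := F 1 3 2
  have F11 := F 2 0 3
  have F12 := F 2 1 3
  have H1 := H 0 1
  have H2 := H 0 2
  have H3 := H 0 3
  have H4 := H 1 2
  have H5 := H 1 3
  have H6 := H 2 3
  simp only [F1, F2, F3, F4, F5, F6, F7, F8, F9, F10, F11, F12, H1, H2, H3, H4, H5, H6] at *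
  have key : (2 : K) • (f 0 3 1 + -f 0 1 3 + f 1 0 3 + (f 0 3 2 + -f 0 2 3 + f 2 0 3)) =
      (2 : K) • (g 3 0 + h 0 3 - g 0 3) := by
    linear_combination (norm := module) (-1 : K) • D1 + (1 : K) • D2 - (1 : K) • D3 + (1 : K) • D4 - (1 : K) • D5 -
      (1 : K) • D6 + (1 : K) • D7 - (1 : K) • D8 - (1 : K) • D9 + (1 : K) • D10 + (1 : K) • D11 -
      (1 : K) • D12
  have h2 : (2 : K) ≠ 0 := two_ne_zero
  exact (smul_right_injective M h2) key

end Comb

section Tri

variable {K : Type u} [Field K] {L : Type u} [LieRing L] [LieAlgebra K L]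

/-- the cyclic sum -/
def RL (ψ : F2 K) (a b : L) : L := ev a b ψ + ev b (-a - b) ψ + ev (-a - b) a ψ

variable {t : Fin 4 → Fin 4 → L} (ht : InfBraid t) {n : ℕ} {ψ : F2 K} (hn : 2 ≤ n)
  (hψ : Hom n (assoc K ψ))
include ht hn hψ

lemma RL_tri {a b c : Fin 4} (h1 : a ≠ b) (h2 : a ≠ c) (h3 : b ≠ c) :
    RL ψ (t a b) (t b c) = ev (t a b) (t b c) ψ + ev (t b c) (t c a) ψ + ev (t c a) (t a b) ψ := by
  have e : -t a b - t b c = t c a + -(t a b + t b c + t c a) := by abel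
  have c1 : ⁅-(t a b + t b c + t c a), t a b⁆ = 0 := by
    have h := ht.rel a b c h1 h2 h3
    rw [ht.symm a c] at h
    rw [add_assoc, add_comm (t b c), neg_lie, ← lie_skew, lie_add, h, lie_self]
    simp
  have c2 : ⁅-(t a b + t b c + t c a), t b c⁆ = 0 := by
    have h := ht.rel b c a h3 h1.symm h2.symm
    rw [ht.symm b a] at h
    have e2 : t a b + t b c + t c a = t b c + (t a b + t c a) := by abel
    rw [e2, neg_lie, ← lie_skew, lie_add, h, lie_self]
    simp
  have c3 : ⁅-(t a b + t b c + t c a), t c a⁆ = 0 := by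
    have h := ht.rel c a b h2.symm h3.symm h1
    rw [ht.symm c b] at h
    have e2 : t a b + t b c + t c a = t c a + (t b c + t a b) := by abel
    rw [e2, neg_lie, ← lie_skew, lie_add, h, lie_self]
    simp
  unfold RL
  rw [e, ev_shift_right hn hψ c2 c3, ev_shift_left hn hψ c3 c1]

lemma RL_four (h0 : ∀ i, t i i = 0)
    (hanti : ∀ (L : Type u) [LieRing L] [LieAlgebra K L] (a b : L), ev b a ψ = -ev a b ψ) :
    RL ψ (t 0 3) (t 3 1 + t 3 2) = ev (t 3 0) (Sf t 0) ψ + ev (Sf t 0) (Sf t 3) ψ -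
      ev (t 0 3) (Sf t 3) ψ := by
  have hd : Dst 0 3 1 2 := by constructor <;> decide
  have hd2 : Dst 0 1 2 3 := by constructor <;> decide
  have e3 : -t 0 3 - (t 3 1 + t 3 2) = Sf t 3 := by
    rw [Sf_d ht h0 hd2, ht.symm 3 1, ht.symm 3 2]; abel
  have e0 : Sf t 0 = (t 3 1 + t 3 2) + (t 1 2 - Tt t 0 3 1 2) := by
    rw [Sf_a ht h0 hd]; unfold Tt; abel
  have c1 : ⁅t 1 2 - Tt t 0 3 1 2, t 3 1 + t 3 2⁆ = 0 := by
    have := ht.rel 1 2 3 (by decide) (by decide) (by decide)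
    rw [ht.symm 1 3, ht.symm 2 3] at this
    rw [sub_lie, lie_add (Tt t 0 3 1 2), Tt_bc ht hd, Tt_bd ht hd, this]; simp
  have c2 : ⁅t 1 2 - Tt t 0 3 1 2, t 0 3⁆ = 0 := by
    rw [sub_lie, Tt_ab ht hd, ← lie_skew,
      ht.comm 0 3 1 2 (by decide) (by decide) (by decide) (by decide) (by decide) (by decide)]
    simp
  have c3 : ⁅t 1 2 - Tt t 0 3 1 2, Sf t 3⁆ = 0 := by
    rw [← e3, lie_sub, lie_neg, c1, c2]; simp
  unfold RL
  rw [e3, term_g' ht h0 hn hψ hd, hanti L (t 0 3) (Sf t 3)]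
  have h5 : ev (t 3 1 + t 3 2) (Sf t 3) ψ = ev (Sf t 0) (Sf t 3) ψ := by
    rw [e0, ev_shift_left hn hψ c1 c3]
  rw [h5, ht.symm 3 0, sub_eq_add_neg]

end Tri

section Cyc

variable {K : Type u} [Field K]

/-- scaling of the arguments -/
lemma EV_scale {E : Type*} [Ring E] [Algebra K E] {n : ℕ} {P : AA K} (hP : Hom n P) (c : K)
    (a b : E) : EV (c • a) (c • b) P = c ^ n • EV a b P := by
  have h1 : ∀ w : List (Fin 2), (w.map ![c • a, c • b]).prod = c ^ w.length • (w.map ![a, b]).prod := by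
    intro w
    induction w with
    | nil => simp
    | cons i w ih =>
      rw [List.map_cons, List.prod_cons, ih, List.map_cons, List.prod_cons, List.length_cons]
      have : (![c • a, c • b] : Fin 2 → E) i = c • (![a, b] : Fin 2 → E) i := by
        fin_cases i <;> rfl
      rw [this, smul_mul_smul_comm, pow_succ, mul_comm (c ^ w.length) c]
  rw [EV_expand, EV_expand, Finsupp.smul_sum]
  refine Finset.sum_congr rfl (fun w hw => ?_)
  change P.coeff w • _ = c ^ n • (P.coeff w • _)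
  rw [h1]
  by_cases h2 : (FreeMonoid.toList w).length = n
  · rw [h2, smul_comm]
  · have h3 : P.coeff w = 0 := hP (FreeMonoid.toList w) h2
    rw [h3, zero_smul, zero_smul, smul_zero]

/-- the cyclic sum -/
def Rc {E : Type*} [Ring E] [Algebra K E] (P : AA K) (a b : E) : E :=
  EV a b P + EV b (-a - b) P + EV (-a - b) a P

lemma map_Rc {E F : Type*} [Ring E] [Algebra K E] [Ring F] [Algebra K F] (φ : E →ₐ[K] F)
    (P : AA K) (a b : E) : φ (Rc P a b) = Rc P (φ a) (φ b) := by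
  unfold Rc
  rw [map_add, map_add, map_EV, map_EV, map_EV, map_sub, map_neg]

lemma ee_diag (K : Type u) [Field K] (i : Fin 4) : ee K i i = 0 := by
  fin_cases i <;> rfl

variable [CharZero K]

theorem _root_.MP446S.specF2 (hF1 : SpecF1.{u}) (hM : SpecMODEL.{u}) : SpecF2.{u} := by
  intro K _ _ n ψ hn hψ hP
  have hn2 : 2 ≤ n := by omega
  set P : AA K := assoc K ψ with hPdef
  -- antisymmetry
  have hanti0 : ev (gB K) (gA K) ψ = -ψ := hF1 K n ψ hn2 hψ hP
  have hantiL : ∀ (L : Type u) [LieRing L] [LieAlgebra K L] (a b : L), ev b a ψ = -ev a b ψ := by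
    intro L _ _ a b
    have := congrArg (ev a b) hanti0
    rwa [ev_ev, ev_gA, ev_gB, map_neg] at this
  have hanti : ∀ (E : Type u) [Ring E] [Algebra K E] (a b : E), EV b a P = -EV a b P := by
    intro E _ _ a b
    have := hantiL E a b
    rwa [ev_eq_EV, ev_eq_EV] at this
  -- the identity for a braid family
  let E := Module.End K (FA K (Fin 3))
  have hB : Braid (ee K) := hM K
  have hIB : InfBraid (ee K) := (braid_iff _).1 hB
  have hcomb := comb (K := K) (fun a b c => ev (ee K a b) (ee K b c) ψ)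
    (fun i j => ev (ee K i j) (Sf (ee K) j) ψ) (fun i j => ev (Sf (ee K) i) (Sf (ee K) j) ψ)
    (fun a b c => by
      rw [hantiL, hIB.symm b a, hIB.symm c b]) (fun a b => by rw [hantiL])
    (fun a b c d h => by
      rw [← pent5 hIB (ee_diag K) hn2 hψ hP h, hIB.symm b a, hantiL _ (ee K c d), sub_eq_add_neg])
  have h1 := RL_tri hIB hn2 hψ (a := 0) (b := 3) (c := 1) (by decide) (by decide) (by decide)
  have h2 := RL_tri hIB hn2 hψ (a := 0) (b := 3) (c := 2) (by decide) (by decide) (by decide)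
  have h3 := RL_four hIB hn2 hψ (ee_diag K) hantiL
  rw [← h1, ← h2, ← h3] at hcomb
  have e0 : ee K 0 3 = Algebra.lmul K (FA K (Fin 3)) (letter K 0) := rfl
  have e1 : ee K 3 1 = Algebra.lmul K (FA K (Fin 3)) (letter K 1) := rfl
  have e2 : ee K 3 2 = Algebra.lmul K (FA K (Fin 3)) (letter K 2) := rfl
  have h4 : Rc P (letter K 0 : FA K (Fin 3)) (letter K 1) + Rc P (letter K 0) (letter K 2) =
      Rc P (letter K 0) (letter K 1 + letter K 2) := by
    have h5 : ∀ X Y : FA K (Fin 3), RL ψ (Algebra.lmul K (FA K (Fin 3)) X)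
        (Algebra.lmul K (FA K (Fin 3)) Y) = Algebra.lmul K (FA K (Fin 3)) (Rc P X Y) := by
      intro X Y
      rw [map_Rc]
      unfold RL Rc
      rw [ev_eq_EV, ev_eq_EV, ev_eq_EV]
    rw [e0, e1, e2, ← map_add, h5, h5, h5, ← map_add] at hcomb
    have := LinearMap.congr_fun hcomb 1
    simpa using this
  -- doubling
  have hR2 : ∀ a b : AA K, Rc P a (b + b) = Rc P a b + Rc P a b := by
    intro a b
    have := congrArg (EVn ![a, b, b]) h4
    rw [map_add, map_Rc, map_Rc, map_Rc, map_add, EVn_letter, EVn_letter, EVn_letter] at this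
    exact this.symm
  have hRs : ∀ a b : AA K, Rc P b a = -Rc P a b := by
    intro a b
    unfold Rc
    have : -b - a = -a - b := by abel
    rw [this, hanti _ a b, hanti _ (-a - b) a, hanti _ b (-a - b)]
    abel
  have hRn : ∀ a b : AA K, Rc P ((2 : K) • a) ((2 : K) • b) = (2 : K) ^ n • Rc P a b := by
    intro a b
    have : -((2 : K) • a) - (2 : K) • b = (2 : K) • (-a - b) := by module
    unfold Rc
    rw [this, EV_scale hψ, EV_scale hψ, EV_scale hψ, smul_add, smul_add]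
  have h6 : ∀ a b : AA K, Rc P ((2 : K) • a) ((2 : K) • b) = (4 : K) • Rc P a b := by
    intro a b
    rw [two_smul K b, hR2, hRs _ ((2 : K) • a), two_smul K a, hR2, hRs a b]
    module
  have h7 : Rc P (lt K 0) (lt K 1) = 0 := by
    have h8 : ((2 : K) ^ n - 4) • Rc P (lt K 0) (lt K 1) = 0 := by
      rw [sub_smul, ← hRn, h6, sub_self]
    refine (smul_eq_zero.1 h8).resolve_left ?_
    obtain ⟨m, rfl⟩ : ∃ m, n = m + 3 := ⟨n - 3, by omega⟩
    have h9 : (2 : ℕ) ^ (m + 3) ≠ 4 := by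
      have : 1 ≤ 2 ^ m := Nat.one_le_two_pow
      rw [pow_add]
      omega
    intro h10
    apply h9
    have h11 : ((2 ^ (m + 3) : ℕ) : K) = ((4 : ℕ) : K) := by
      push_cast
      exact sub_eq_zero.1 h10
    exact_mod_cast h11
  apply assoc_injective
  rw [map_zero, ← h7, map_add, map_add]
  unfold Rc
  rw [EV_self]
  have e3 : assoc K (gC K) = -lt K 0 - lt K 1 := by
    unfold gC
    rw [map_sub, map_neg, assoc_gA, assoc_gB]
  rw [map_ev, map_ev, ev_eq_EV, ev_eq_EV, e3, assoc_gA, assoc_gB]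

end Cyc

end F12

end MP446S
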