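import Pool.Agent.Lib.MP_446dfa_ag.sig.Basic

set_option linter.all false

/-!
# F3: the hexagon relation
-/

noncomputable section

namespace MP446S

open MP446 MP446Y MP446Z

universe u v w

attribute [local instance 100] LieRing.ofAssociativeRing

namespace HexF3

section Lie

/-- the table of the brackets of three generators -/
lemma table {L : Type u} [LieRing L] {t : Fin 4 → Fin 4 → L} (h : InfBraid t) {i j k : Fin 4}
    (hij : i ≠ j) (hik : i ≠ k) (hjk : j ≠ k) :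
    ∃ w : L, ⁅t i j, t i k⁆ = w ∧ ⁅t i k, t i j⁆ = -w ∧ ⁅t i k, t j k⁆ = w ∧
      ⁅t j k, t i k⁆ = -w ∧ ⁅t j k, t i j⁆ = w ∧ ⁅t i j, t j k⁆ = -w := by
  have e1 := h.rel i j k hij hik hjk
  have e2 := h.rel i k j hik hij hjk.symm
  rw [h.symm k j] at e2
  rw [lie_add] at e1 e2
  have s1 : ⁅t i k, t i j⁆ = -⁅t i j, t i k⁆ := (lie_skew _ _).symm
  have s2 : ⁅t j k, t i k⁆ = -⁅t i k, t j k⁆ := (lie_skew _ _).symm
  have s3 : ⁅t j k, t i j⁆ = -⁅t i j, t j k⁆ := (lie_skew _ _).symm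
  have e3 : ⁅t i j, t j k⁆ = -⁅t i j, t i k⁆ := by
    rw [eq_neg_iff_add_eq_zero, add_comm, e1]
  have e4 : ⁅t i k, t j k⁆ = ⁅t i j, t i k⁆ := by
    rw [s1, neg_add_eq_zero] at e2
    exact e2.symm
  exact ⟨_, rfl, s1, e4, by rw [s2, e4], by rw [s3, e3, neg_neg], e3⟩

/-- the table of the commuting pairs -/
lemma table0 {L : Type u} [LieRing L] {t : Fin 4 → Fin 4 → L} (h : InfBraid t) :
    ⁅t 0 1, t 2 3⁆ = 0 ∧ ⁅t 2 3, t 0 1⁆ = 0 ∧ ⁅t 0 2, t 1 3⁆ = 0 ∧ ⁅t 1 3, t 0 2⁆ = 0 ∧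
      ⁅t 0 3, t 1 2⁆ = 0 ∧ ⁅t 1 2, t 0 3⁆ = 0 := by
  have a1 := h.comm 0 1 2 3 (by decide) (by decide) (by decide) (by decide) (by decide) (by decide)
  have a2 := h.comm 2 3 0 1 (by decide) (by decide) (by decide) (by decide) (by decide) (by decide)
  have a3 := h.comm 0 2 1 3 (by decide) (by decide) (by decide) (by decide) (by decide) (by decide)
  have a4 := h.comm 1 3 0 2 (by decide) (by decide) (by decide) (by decide) (by decide) (by decide)
  have a5 := h.comm 0 3 1 2 (by decide) (by decide) (by decide) (by decide) (by decide) (by decide)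
  have a6 := h.comm 1 2 0 3 (by decide) (by decide) (by decide) (by decide) (by decide) (by decide)
  exact ⟨a1, a2, a3, a4, a5, a6⟩

/-- the permuted family -/
lemma perm_braid {L : Type u} [LieRing L] {t : Fin 4 → Fin 4 → L} (h : InfBraid t)
    (σ : Equiv.Perm (Fin 4)) : InfBraid (fun i j => t (σ i) (σ j)) := by
  refine ⟨fun i j => h.symm _ _, fun i j k l h1 h2 h3 h4 h5 h6 => ?_, fun i j k h1 h2 h3 => ?_⟩
  · exact h.comm _ _ _ _ (σ.injective.ne h1) (σ.injective.ne h2) (σ.injective.ne h3)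
      (σ.injective.ne h4) (σ.injective.ne h5) (σ.injective.ne h6)
  · exact h.rel _ _ _ (σ.injective.ne h1) (σ.injective.ne h2) (σ.injective.ne h3)

variable {K : Type u} [Field K] {L : Type u} [LieRing L] [LieAlgebra K L]

section

variable {n : ℕ} {ψ : F2 K} (hn : 2 ≤ n) (hψ : Hom n (assoc K ψ)) {t : Fin 4 → Fin 4 → L}
  (h : InfBraid t)
include hn hψ h

/-- `ψ(t₀₂ + t₁₂, t₂₃)` -/
lemma face2 : ev (t 0 2 + t 1 2) (t 2 3) ψ = ev (-(t 0 3 + t 1 3 + t 2 3)) (t 2 3) ψ := by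
  obtain ⟨c1, c2, c3, c4, c5, c6⟩ := table0 h
  obtain ⟨p, p1, p2, p3, p4, p5, p6⟩ := table h (i := 0) (j := 1) (k := 2) (by decide) (by decide)
    (by decide)
  obtain ⟨q, q1, q2, q3, q4, q5, q6⟩ := table h (i := 0) (j := 1) (k := 3) (by decide) (by decide)
    (by decide)
  obtain ⟨r, r1, r2, r3, r4, r5, r6⟩ := table h (i := 0) (j := 2) (k := 3) (by decide) (by decide)
    (by decide)
  obtain ⟨s, s1, s2, s3, s4, s5, s6⟩ := table h (i := 1) (j := 2) (k := 3) (by decide) (by decide)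
    (by decide)
  have e1 : t 0 2 + t 1 2 = -(t 0 3 + t 1 3 + t 2 3) + (t 0 2 + t 1 2 + t 0 3 + t 1 3 + t 2 3) := by
    abel
  rw [e1]
  apply ev_shift_left hn hψ
  · simp only [lie_add, add_lie, lie_neg, neg_lie, lie_self, c1, c2, c3, c4, c5, c6, p1, p2, p3,
      p4, p5, p6, q1, q2, q3, q4, q5, q6, r1, r2, r3, r4, r5, r6, s1, s2, s3, s4, s5, s6]
    abel
  · simp only [lie_add, add_lie, lie_neg, neg_lie, lie_self, c1, c2, c3, c4, c5, c6, p1, p2, p3,
      p4, p5, p6, q1, q2, q3, q4, q5, q6, r1, r2, r3, r4, r5, r6, s1, s2, s3, s4, s5, s6]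
    abel

/-- `ψ(t₁₂, t₂₃)` -/
lemma face3 : ev (t 1 2) (t 2 3) ψ = ev (-(t 1 3 + t 2 3)) (t 2 3) ψ := by
  obtain ⟨c1, c2, c3, c4, c5, c6⟩ := table0 h
  obtain ⟨s, s1, s2, s3, s4, s5, s6⟩ := table h (i := 1) (j := 2) (k := 3) (by decide) (by decide)
    (by decide)
  have e1 : t 1 2 = -(t 1 3 + t 2 3) + (t 1 2 + t 1 3 + t 2 3) := by
    abel
  conv_lhs => rw [e1]
  apply ev_shift_left hn hψ
  · simp only [lie_add, add_lie, lie_neg, neg_lie, lie_self, c1, c2, c3, c4, c5, c6,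
      s1, s2, s3, s4, s5, s6]
    abel
  · simp only [lie_add, add_lie, lie_neg, neg_lie, lie_self, c1, c2, c3, c4, c5, c6,
      s1, s2, s3, s4, s5, s6]
    abel

/-- `ψ(t₀₁ + t₀₂, t₁₃ + t₂₃)` -/
lemma face4 : ev (t 0 1 + t 0 2) (t 1 3 + t 2 3) ψ =
    ev (-(t 0 3 + t 1 3 + t 2 3)) (t 1 3 + t 2 3) ψ := by
  obtain ⟨c1, c2, c3, c4, c5, c6⟩ := table0 h
  obtain ⟨p, p1, p2, p3, p4, p5, p6⟩ := table h (i := 0) (j := 1) (k := 2) (by decide) (by decide)
    (by decide)
  obtain ⟨q, q1, q2, q3, q4, q5, q6⟩ := table h (i := 0) (j := 1) (k := 3) (by decide) (by decide)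
    (by decide)
  obtain ⟨r, r1, r2, r3, r4, r5, r6⟩ := table h (i := 0) (j := 2) (k := 3) (by decide) (by decide)
    (by decide)
  obtain ⟨s, s1, s2, s3, s4, s5, s6⟩ := table h (i := 1) (j := 2) (k := 3) (by decide) (by decide)
    (by decide)
  have e1 : t 0 1 + t 0 2 = -(t 0 3 + t 1 3 + t 2 3) + (t 0 1 + t 0 2 + t 0 3 + t 1 3 + t 2 3) := by
    abel
  rw [e1]
  apply ev_shift_left hn hψ
  · simp only [lie_add, add_lie, lie_neg, neg_lie, lie_self, c1, c2, c3, c4, c5, c6, p1, p2, p3,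
      p4, p5, p6, q1, q2, q3, q4, q5, q6, r1, r2, r3, r4, r5, r6, s1, s2, s3, s4, s5, s6]
    abel
  · simp only [lie_add, add_lie, lie_neg, neg_lie, lie_self, c1, c2, c3, c4, c5, c6, p1, p2, p3,
      p4, p5, p6, q1, q2, q3, q4, q5, q6, r1, r2, r3, r4, r5, r6, s1, s2, s3, s4, s5, s6]
    abel

/-- `ψ(t₀₁, t₁₃)` -/
lemma face5 : ev (t 0 1) (t 1 3) ψ = ev (-(t 0 3 + t 1 3)) (t 1 3) ψ := by
  obtain ⟨q, q1, q2, q3, q4, q5, q6⟩ := table h (i := 0) (j := 1) (k := 3) (by decide) (by decide)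
    (by decide)
  have e1 : t 0 1 = -(t 0 3 + t 1 3) + (t 0 1 + t 0 3 + t 1 3) := by
    abel
  conv_lhs => rw [e1]
  apply ev_shift_left hn hψ
  · simp only [lie_add, add_lie, lie_neg, neg_lie, lie_self, q1, q2, q3, q4, q5, q6]
    abel
  · simp only [lie_add, add_lie, lie_neg, neg_lie, lie_self, q1, q2, q3, q4, q5, q6]
    abel

end

/-- the face `ψ(t₀₁, t₁₂ + t₁₃)` commutes with `t₂₃` -/
lemma face1 (ψ : F2 K) {t : Fin 4 → Fin 4 → L} (h : InfBraid t) :
    ⁅ev (t 0 1) (t 1 2 + t 1 3) ψ, t 2 3⁆ = 0 := by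
  obtain ⟨c1, c2, c3, c4, c5, c6⟩ := table0 h
  obtain ⟨s, s1, s2, s3, s4, s5, s6⟩ := table h (i := 1) (j := 2) (k := 3) (by decide) (by decide)
    (by decide)
  rw [← lie_skew, lie_ev, neg_zero]
  · exact c2
  · simp only [lie_add, add_lie, lie_neg, neg_lie, lie_self, s1, s2, s3, s4, s5, s6]
    abel

/-- `ψ(t₀₁, t₁₂)` commutes with the sum of the `t_{i3}` -/
lemma face0 (ψ : F2 K) {t : Fin 4 → Fin 4 → L} (h : InfBraid t) :
    ⁅ev (t 0 1) (t 1 2) ψ, t 0 3 + t 1 3 + t 2 3⁆ = 0 := by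
  obtain ⟨c1, c2, c3, c4, c5, c6⟩ := table0 h
  obtain ⟨q, q1, q2, q3, q4, q5, q6⟩ := table h (i := 0) (j := 1) (k := 3) (by decide) (by decide)
    (by decide)
  obtain ⟨s, s1, s2, s3, s4, s5, s6⟩ := table h (i := 1) (j := 2) (k := 3) (by decide) (by decide)
    (by decide)
  rw [← lie_skew, lie_ev, neg_zero]
  · simp only [lie_add, add_lie, lie_neg, neg_lie, lie_self, c1, c2, c3, c4, c5, c6,
      q1, q2, q3, q4, q5, q6, s1, s2, s3, s4, s5, s6]
    abel
  · simp only [lie_add, add_lie, lie_neg, neg_lie, lie_self, c1, c2, c3, c4, c5, c6,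
      q1, q2, q3, q4, q5, q6, s1, s2, s3, s4, s5, s6]
    abel

/-- `ψ(t₀₁ + t₀₃, t₁₂ + t₂₃)` commutes with `t₁₃` -/
lemma face6 (ψ : F2 K) {t : Fin 4 → Fin 4 → L} (h : InfBraid t) :
    ⁅ev (t 0 1 + t 0 3) (t 1 2 + t 2 3) ψ, t 1 3⁆ = 0 := by
  obtain ⟨c1, c2, c3, c4, c5, c6⟩ := table0 h
  obtain ⟨q, q1, q2, q3, q4, q5, q6⟩ := table h (i := 0) (j := 1) (k := 3) (by decide) (by decide)
    (by decide)
  obtain ⟨s, s1, s2, s3, s4, s5, s6⟩ := table h (i := 1) (j := 2) (k := 3) (by decide) (by decide)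
    (by decide)
  rw [← lie_skew, lie_ev, neg_zero]
  · simp only [lie_add, add_lie, lie_neg, neg_lie, lie_self, c1, c2, c3, c4, c5, c6,
      q1, q2, q3, q4, q5, q6, s1, s2, s3, s4, s5, s6]
    abel
  · simp only [lie_add, add_lie, lie_neg, neg_lie, lie_self, c1, c2, c3, c4, c5, c6,
      q1, q2, q3, q4, q5, q6, s1, s2, s3, s4, s5, s6]
    abel

/-- the defect of the hexagon -/
def etaL (ψ : F2 K) (a b : L) : L :=
  ⁅a, ev (-(a + b)) a ψ⁆ + ⁅b, ev (-(a + b)) b ψ⁆

/-- antisymmetry, evaluated -/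
lemma anti {ψ : F2 K} (h1 : ev (gB K) (gA K) ψ = -ψ) (a b : L) : ev b a ψ = -ev a b ψ := by
  have := congrArg (ev a b) h1
  rwa [ev_ev, ev_gA, ev_gB, map_neg] at this

/-- the cycle relation, evaluated -/
lemma cyc {ψ : F2 K} (h2 : ψ + ev (gB K) (gC K) ψ + ev (gC K) (gA K) ψ = 0) (a b c : L)
    (habc : a + b + c = 0) : ev a b ψ + ev b c ψ + ev c a ψ = 0 := by
  have := congrArg (ev a b) h2
  have hc : ev a b (gC K) = c := by
    rw [gC, map_sub, map_neg, ev_gA, ev_gB]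
    have : c = 0 - a - b := by rw [← habc]; abel
    rw [this]; abel
  rwa [map_add, map_add, ev_ev, ev_ev, ev_gA, ev_gB, hc, map_zero] at this

/-- the basic identity -/
lemma fourterm {n : ℕ} {ψ : F2 K} (hn : 2 ≤ n) (hψ : Hom n (assoc K ψ)) (hP : Pentagon ψ)
    (h1 : ev (gB K) (gA K) ψ = -ψ) (h2 : ψ + ev (gB K) (gC K) ψ + ev (gC K) (gA K) ψ = 0)
    {t : Fin 4 → Fin 4 → L} (h : InfBraid t) :
    etaL ψ (t 1 3) (t 2 3) - etaL ψ (t 0 3 + t 1 3) (t 2 3) + etaL ψ (t 0 3) (t 1 3 + t 2 3) -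
      etaL ψ (t 0 3) (t 1 3) = 0 := by
  -- the bracket with `t₂₃`
  have key : ∀ {t : Fin 4 → Fin 4 → L}, InfBraid t → ev (t 0 1) (t 1 2) ψ =
      ev (t 0 1) (t 1 2 + t 1 3) ψ + ev (-(t 0 3 + t 1 3 + t 2 3)) (t 2 3) ψ -
        ev (-(t 1 3 + t 2 3)) (t 2 3) ψ - ev (-(t 0 3 + t 1 3 + t 2 3)) (t 1 3 + t 2 3) ψ := by
    intro t h
    have e := hP L t h
    rw [face2 hn hψ h, face3 hn hψ h, face4 hn hψ h] at e
    rw [e]
    abel
  have key2 : ∀ {t : Fin 4 → Fin 4 → L}, InfBraid t → ⁅ev (t 0 1) (t 1 2) ψ, t 2 3⁆ =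
      ⁅ev (-(t 0 3 + t 1 3 + t 2 3)) (t 2 3) ψ - ev (-(t 1 3 + t 2 3)) (t 2 3) ψ -
        ev (-(t 0 3 + t 1 3 + t 2 3)) (t 1 3 + t 2 3) ψ, t 2 3⁆ := by
    intro t h
    rw [key h, sub_lie, sub_lie, add_lie, face1 ψ h, zero_add, sub_lie, sub_lie]
  have A2 := key2 h
  -- the bracket with `t₀₃`
  have A0 := key2 (perm_braid h (Equiv.swap 0 2))
  have w0 : (Equiv.swap 0 2 : Equiv.Perm (Fin 4)) 0 = 2 := by decide
  have w1 : (Equiv.swap 0 2 : Equiv.Perm (Fin 4)) 1 = 1 := by decide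
  have w2 : (Equiv.swap 0 2 : Equiv.Perm (Fin 4)) 2 = 0 := by decide
  have w3 : (Equiv.swap 0 2 : Equiv.Perm (Fin 4)) 3 = 3 := by decide
  simp only [w0, w1, w2, w3] at A0
  rw [h.symm 2 1, h.symm 1 0, anti h1 (t 0 1) (t 1 2)] at A0
  -- the bracket with `t₁₃`
  have B := hP L _ (perm_braid h (Equiv.swap 2 3))
  have v0 : (Equiv.swap 2 3 : Equiv.Perm (Fin 4)) 0 = 0 := by decide
  have v1 : (Equiv.swap 2 3 : Equiv.Perm (Fin 4)) 1 = 1 := by decide
  have v2 : (Equiv.swap 2 3 : Equiv.Perm (Fin 4)) 2 = 3 := by decide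
  have v3 : (Equiv.swap 2 3 : Equiv.Perm (Fin 4)) 3 = 2 := by decide
  simp only [v0, v1, v2, v3] at B
  rw [h.symm 3 2, add_comm (t 1 3) (t 1 2), face5 hn hψ h] at B
  have A1 : ⁅ev (t 0 1) (t 1 2) ψ, t 1 3⁆ =
      ⁅ev (t 1 3) (t 2 3) ψ + ev (-(t 0 3 + t 1 3)) (t 1 3) ψ - ev (t 0 3 + t 1 3) (t 2 3) ψ +
        ev (-(t 0 3 + t 1 3 + t 2 3)) (t 2 3) ψ - ev (-(t 1 3 + t 2 3)) (t 2 3) ψ -
        ev (-(t 0 3 + t 1 3 + t 2 3)) (t 1 3 + t 2 3) ψ, t 1 3⁆ := by
    have B' : ev (t 0 1) (t 1 2 + t 1 3) ψ = ev (t 1 3) (t 2 3) ψ +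
        ev (t 0 1 + t 0 3) (t 1 2 + t 2 3) ψ + ev (-(t 0 3 + t 1 3)) (t 1 3) ψ -
        ev (t 0 3 + t 1 3) (t 2 3) ψ := by
      rw [← B]
      abel
    rw [key h, B']
    simp only [add_lie, sub_lie, face6 ψ h]
    abel
  -- the relations F1, F2
  have C1 := cyc h2 (t 1 3) (t 2 3) (-(t 1 3 + t 2 3)) (by abel)
  rw [anti h1 (-(t 1 3 + t 2 3)) (t 2 3)] at C1
  have C2 := cyc h2 (t 0 3 + t 1 3) (t 2 3) (-(t 0 3 + t 1 3 + t 2 3)) (by abel)
  rw [anti h1 (-(t 0 3 + t 1 3 + t 2 3)) (t 2 3)] at C2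
  -- the sum
  have S := face0 ψ h
  rw [lie_add, lie_add] at S
  have C1' : ev (t 1 3) (t 2 3) ψ = ev (-(t 1 3 + t 2 3)) (t 2 3) ψ -
      ev (-(t 1 3 + t 2 3)) (t 1 3) ψ := by
    rw [← sub_eq_zero, ← C1]
    abel
  have C2' : ev (t 0 3 + t 1 3) (t 2 3) ψ = ev (-(t 0 3 + t 1 3 + t 2 3)) (t 2 3) ψ -
      ev (-(t 0 3 + t 1 3 + t 2 3)) (t 0 3 + t 1 3) ψ := by
    rw [← sub_eq_zero, ← C2]
    abel
  rw [C1', C2'] at A1
  have g1 : t 2 3 + t 1 3 + t 0 3 = t 0 3 + t 1 3 + t 2 3 := by abel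
  have g2 : t 1 3 + t 0 3 = t 0 3 + t 1 3 := by abel
  rw [g1, g2] at A0
  have A0' : ⁅ev (t 0 1) (t 1 2) ψ, t 0 3⁆ =
      -⁅ev (-(t 0 3 + t 1 3 + t 2 3)) (t 0 3) ψ - ev (-(t 0 3 + t 1 3)) (t 0 3) ψ -
        ev (-(t 0 3 + t 1 3 + t 2 3)) (t 0 3 + t 1 3) ψ, t 0 3⁆ := by
    rw [← A0, neg_lie, neg_neg]
  rw [A0', A1, A2] at S
  have g3 : t 0 3 + (t 1 3 + t 2 3) = t 0 3 + t 1 3 + t 2 3 := by abel
  unfold etaL
  rw [g3]
  have sk : ∀ x y : L, ⁅x, y⁆ = -⁅y, x⁆ := fun x y => (lie_skew x y).symm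
  rw [sk (t 1 3) (ev _ _ ψ), sk (t 2 3) (ev _ _ ψ), sk (t 0 3 + t 1 3) (ev _ _ ψ),
    sk (t 2 3) (ev (-(t 0 3 + t 1 3 + t 2 3)) (t 2 3) ψ), sk (t 0 3) (ev _ _ ψ),
    sk (t 1 3 + t 2 3) (ev _ _ ψ), sk (t 0 3) (ev (-(t 0 3 + t 1 3)) (t 0 3) ψ),
    sk (t 1 3) (ev (-(t 0 3 + t 1 3)) (t 1 3) ψ), ← S]
  simp only [lie_add, add_lie, sub_lie, lie_neg, neg_lie]
  abel

end Lie

section Hm

variable {k : Type v} [CommRing k]

lemma hom_add {n : ℕ} {X Y : AA k} (hX : Hom n X) (hY : Hom n Y) : Hom n (X + Y) := by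
  intro w hw
  rw [cf_add, hX w hw, hY w hw, add_zero]

lemma hom_neg {n : ℕ} {X : AA k} (hX : Hom n X) : Hom n (-X) := by
  intro w hw
  rw [cf_neg, hX w hw, neg_zero]

lemma hom_sub {n : ℕ} {X Y : AA k} (hX : Hom n X) (hY : Hom n Y) : Hom n (X - Y) := by
  intro w hw
  rw [cf_sub, hX w hw, hY w hw, sub_zero]

lemma hom_smul {n : ℕ} (c : k) {X : AA k} (hX : Hom n X) : Hom n (c • X) := by
  intro w hw
  rw [cf_smul, hX w hw, mul_zero]

lemma hom_mul {n m : ℕ} {X Y : AA k} (hX : Hom n X) (hY : Hom m Y) : Hom (n + m) (X * Y) := by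
  intro w hw
  rw [cf_mul]
  apply Finset.sum_eq_zero
  intro i hi
  rw [Finset.mem_range] at hi
  by_cases h : (w.take i).length = n
  · have h2 : (w.drop i).length ≠ m := by
      rw [List.length_take] at h
      rw [List.length_drop]
      omega
    rw [hY _ h2, mul_zero]
  · rw [hX _ h, zero_mul]

lemma hom_lt (i : Fin 2) : Hom 1 (lt k i) := by
  intro w hw
  rw [lt, cf_ow, if_neg]
  rintro rfl
  exact hw rfl

lemma hom_one : Hom 0 (1 : AA k) := by
  intro w hw
  rw [cf_one, if_neg]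
  rintro rfl
  exact hw rfl

lemma hom_word {U V : AA k} (hU : Hom 1 U) (hV : Hom 1 V) (w : List (Fin 2)) :
    Hom w.length (w.map ![U, V]).prod := by
  induction w with
  | nil => exact hom_one
  | cons i w ih =>
    rw [List.map_cons, List.prod_cons, List.length_cons, add_comm]
    refine hom_mul ?_ ih
    fin_cases i
    · exact hU
    · exact hV

lemma hom_EV {n : ℕ} {U V X : AA k} (hU : Hom 1 U) (hV : Hom 1 V) (hX : Hom n X) :
    Hom n (EV U V X) := by
  intro w hw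
  rw [EV_expand, Finsupp.sum, cf_sum]
  apply Finset.sum_eq_zero
  intro u hu
  by_cases h : (FreeMonoid.toList u).length = n
  · rw [cf_smul, hom_word hU hV _ w (by rw [h]; exact hw), mul_zero]
  · have h2 : X.coeff u = 0 := hX (FreeMonoid.toList u) h
    rw [cf_smul, h2, zero_mul]

/-- the defect of the hexagon, in an associative algebra -/
def etaE {E : Type*} [Ring E] [Algebra k E] (Q : AA k) (a b : E) : E :=
  cm a (EV (-(a + b)) a Q) + cm b (EV (-(a + b)) b Q)

lemma EV_cm {E : Type*} [Ring E] [Algebra k E] (a b : E) (X Y : AA k) :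
    EV a b (cm X Y) = cm (EV a b X) (EV a b Y) := by
  unfold cm
  rw [map_sub, map_mul, map_mul]

lemma EV_eta {E : Type*} [Ring E] [Algebra k E] (Q : AA k) (a b : E) :
    EV a b (etaE Q (lt k 0) (lt k 1)) = etaE Q a b := by
  unfold etaE
  rw [map_add, EV_cm, EV_cm, EV_comp, EV_comp, map_neg, map_add, EV_letter_zero, EV_letter_one]

lemma hom_eta {n : ℕ} {Q : AA k} (hQ : Hom n Q) : Hom (n + 1) (etaE Q (lt k 0) (lt k 1)) := by
  have h1 : Hom 1 (-(lt k 0 + lt k 1)) := hom_neg (hom_add (hom_lt 0) (hom_lt 1))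
  have h2 : ∀ i, Hom n (EV (-(lt k 0 + lt k 1)) (lt k i) Q) := fun i => hom_EV h1 (hom_lt i) hQ
  have h3 : ∀ i, Hom (n + 1) (cm (lt k i) (EV (-(lt k 0 + lt k 1)) (lt k i) Q)) := by
    intro i
    unfold cm
    refine hom_sub ?_ (hom_mul (h2 i) (hom_lt i))
    rw [add_comm]
    exact hom_mul (hom_lt i) (h2 i)
  exact hom_add (h3 0) (h3 1)

lemma eta_comm {E : Type*} [CommRing E] [Algebra k E] (Q : AA k) (a b : E) : etaE Q a b = 0 := by
  unfold etaE cm
  ring

end Hm

section Three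

variable {k : Type v} [CommRing k]

/-- coefficient of a word in three letters -/
def c3 (Y : FA k (Fin 3)) (v : List (Fin 3)) : k := Y.coeff (FreeMonoid.ofList v)

lemma c3_add (X Y : FA k (Fin 3)) (v : List (Fin 3)) : c3 (X + Y) v = c3 X v + c3 Y v := by
  unfold c3
  rw [MonoidAlgebra.coeff_add, Finsupp.add_apply]

lemma c3_smul (c : k) (X : FA k (Fin 3)) (v : List (Fin 3)) : c3 (c • X) v = c * c3 X v := by
  unfold c3
  rw [MonoidAlgebra.coeff_smul, Finsupp.smul_apply, smul_eq_mul]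

lemma c3_zero (v : List (Fin 3)) : c3 (0 : FA k (Fin 3)) v = 0 := rfl

lemma c3_neg (X : FA k (Fin 3)) (v : List (Fin 3)) : c3 (-X) v = -c3 X v := by
  have := c3_smul (-1) X v
  rwa [neg_one_smul, neg_one_mul] at this

lemma c3_sub (X Y : FA k (Fin 3)) (v : List (Fin 3)) : c3 (X - Y) v = c3 X v - c3 Y v := by
  rw [sub_eq_add_neg, c3_add, c3_neg, sub_eq_add_neg]

/-- a word in three letters -/
def w3 (k : Type v) [CommRing k] (v : List (Fin 3)) : FA k (Fin 3) :=
  MonoidAlgebra.of k (FreeMonoid (Fin 3)) (FreeMonoid.ofList v)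

lemma c3_w3 (u v : List (Fin 3)) : c3 (w3 k u) v = if u = v then 1 else 0 := by
  classical
  unfold c3 w3
  rw [MonoidAlgebra.of_apply, MonoidAlgebra.coeff_single, Finsupp.single_apply]
  by_cases h : u = v
  · rw [if_pos h, if_pos (by rw [h])]
  · rw [if_neg h, if_neg (fun h2 => h (FreeMonoid.ofList.injective h2))]

lemma w3_nil : w3 k [] = 1 := map_one _

lemma letter_mul_w3 (i : Fin 3) (u : List (Fin 3)) : letter k i * w3 k u = w3 k (i :: u) := by
  unfold letter w3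
  rw [← map_mul]
  rfl

/-- linear induction -/
lemma lin3 {P : FA k (Fin 3) → Prop} (how : ∀ w, P (w3 k w)) (hadd : ∀ X Y, P X → P Y → P (X + Y))
    (hsmul : ∀ (c : k) X, P X → P (c • X)) (X : FA k (Fin 3)) : P X := by
  induction X using MonoidAlgebra.induction_linear with
  | zero => simpa using hsmul 0 _ (how [])
  | add f g hf hg => exact hadd _ _ hf hg
  | single w c =>
    rw [FA_single]
    exact hsmul _ _ (how (FreeMonoid.toList w))

lemma c3_letter_nil (i : Fin 3) (Y : FA k (Fin 3)) : c3 (letter k i * Y) [] = 0 := by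
  induction Y using lin3 with
  | how u => rw [letter_mul_w3, c3_w3, if_neg (by simp)]
  | hadd X Y hX hY => rw [mul_add, c3_add, hX, hY, add_zero]
  | hsmul c X hX => rw [mul_smul_comm, c3_smul, hX, mul_zero]

lemma c3_letter_cons (i j : Fin 3) (Y : FA k (Fin 3)) (v : List (Fin 3)) :
    c3 (letter k i * Y) (j :: v) = if j = i then c3 Y v else 0 := by
  induction Y using lin3 with
  | how u =>
    rw [letter_mul_w3, c3_w3, c3_w3]
    by_cases h : j = i
    · subst h
      rw [if_pos rfl]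
      by_cases h2 : u = v
      · rw [if_pos h2, if_pos (by rw [h2])]
      · rw [if_neg h2, if_neg (by simpa using h2)]
    · rw [if_neg h, if_neg]
      intro h2
      exact h (List.cons_eq_cons.1 h2).1.symm
  | hadd X Y hX hY =>
    rw [mul_add, c3_add, hX, hY]
    split_ifs
    · rw [c3_add]
    · rw [add_zero]
  | hsmul c X hX =>
    rw [mul_smul_comm, c3_smul, hX]
    split_ifs
    · rw [c3_smul]
    · rw [mul_zero]

/-- linear forms -/
def lf (c : Fin 3 → k) : FA k (Fin 3) := ∑ j, c j • letter k j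

lemma c3_lf_nil (c : Fin 3 → k) (Y : FA k (Fin 3)) : c3 (lf c * Y) [] = 0 := by
  unfold lf
  rw [Fin.sum_univ_three]
  simp only [add_mul, smul_mul_assoc, c3_add, c3_smul, c3_letter_nil]
  ring

lemma c3_lf_cons (c : Fin 3 → k) (Y : FA k (Fin 3)) (j : Fin 3) (v : List (Fin 3)) :
    c3 (lf c * Y) (j :: v) = c j * c3 Y v := by
  unfold lf
  rw [Fin.sum_univ_three]
  simp only [add_mul, smul_mul_assoc, c3_add, c3_smul, c3_letter_cons]
  fin_cases j <;> simp

/-- the coefficient of a word in the evaluation of a word at linear forms -/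
lemma c3_word (c : Fin 2 → Fin 3 → k) (w : List (Fin 2)) (v : List (Fin 3)) :
    c3 ((w.map ![lf (c 0), lf (c 1)]).prod) v =
      if w.length = v.length then ((List.zip w v).map (fun p => c p.1 p.2)).prod else 0 := by
  induction w generalizing v with
  | nil =>
    cases v with
    | nil =>
      have := c3_w3 (k := k) [] []
      rw [if_pos rfl, w3_nil] at this
      simpa using this
    | cons j v =>
      have := c3_w3 (k := k) [] (j :: v)
      rw [if_neg (by simp), w3_nil] at this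
      rw [if_neg (by simp)]
      exact this
  | cons i w ih =>
    have hi : (![lf (c 0), lf (c 1)] : Fin 2 → FA k (Fin 3)) i = lf (c i) := by
      fin_cases i <;> rfl
    rw [List.map_cons, List.prod_cons, hi]
    cases v with
    | nil => rw [c3_lf_nil, if_neg (by simp)]
    | cons j v =>
      rw [c3_lf_cons, ih]
      simp only [List.length_cons, Nat.add_right_cancel_iff, List.zip_cons_cons, List.map_cons,
        List.prod_cons, mul_ite, mul_zero]

/-- substitution of letters -/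
lemma c3_subst (c : Fin 2 → Fin 3 → k) (p : Fin 3 → Fin 2)
    (hp : ∀ i j, c i j = if p j = i then 1 else 0) (X : AA k) (v : List (Fin 3)) :
    c3 (EV (lf (c 0)) (lf (c 1)) X) v = cf X (v.map p) := by
  induction X using AA_lin with
  | how w =>
    rw [EV_ow, c3_word, cf_ow]
    induction w generalizing v with
    | nil =>
      cases v with
      | nil => simp
      | cons j v => simp
    | cons i w ih =>
      cases v with
      | nil => simp
      | cons j v =>
        have e := ih v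
        simp only [List.length_cons, Nat.add_right_cancel_iff, List.zip_cons_cons, List.map_cons,
          List.prod_cons, List.cons.injEq] at e ⊢
        rw [hp]
        by_cases h1 : p j = i
        · rw [if_pos h1, one_mul, e]
          by_cases h2 : w = v.map p
          · rw [if_pos h2, if_pos ⟨h1.symm, h2⟩]
          · rw [if_neg h2, if_neg (fun h => h2 h.2)]
        · have h3 : ¬(i = p j ∧ w = v.map p) := fun h => h1 h.1.symm
          rw [if_neg h1, zero_mul, if_neg h3, ite_self]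
  | hadd X Y hX hY => rw [map_add, c3_add, hX, hY, cf_add]
  | hsmul a X hX => rw [map_smul, c3_smul, hX, cf_smul]

/-- a missing letter -/
lemma c3_missing (c : Fin 2 → Fin 3 → k) (j : Fin 3) (hj : ∀ i, c i j = 0) (X : AA k)
    (v : List (Fin 3)) (hv : j ∈ v) : c3 (EV (lf (c 0)) (lf (c 1)) X) v = 0 := by
  induction X using AA_lin with
  | how w =>
    rw [EV_ow, c3_word]
    split_ifs with hl
    · apply List.prod_eq_zero
      rw [List.mem_map]
      obtain ⟨m, hm, rfl⟩ := List.getElem_of_mem hv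
      refine ⟨(w[m]'(by omega), v[m]), ?_, hj _⟩
      rw [List.mem_iff_getElem]
      exact ⟨m, by rw [List.length_zip]; omega, by simp⟩
    · rfl
  | hadd X Y hX hY => rw [map_add, c3_add, hX, hY, add_zero]
  | hsmul a X hX => rw [map_smul, c3_smul, hX, mul_zero]

end Three

section Fin

variable {K : Type v} [Field K]

lemma hom_expand {N : ℕ} {X : AA K} (hX : Hom N X) :
    X = ∑ f : Fin N → Fin 2, cf X (List.ofFn f) • ow K (List.ofFn f) := by
  classical
  apply AA_ext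
  intro w
  rw [cf_sum]
  simp only [cf_smul, cf_ow, mul_ite, mul_one, mul_zero]
  by_cases h : w.length = N
  · subst h
    rw [Finset.sum_eq_single (fun i => w.get i)]
    · rw [List.ofFn_get, if_pos rfl]
    · intro f _ hf
      rw [if_neg]
      intro h2
      apply hf
      apply List.ofFn_injective
      rw [h2, List.ofFn_get]
    · intro h2
      exact absurd (Finset.mem_univ _) h2
  · rw [hX w h]
    symm
    apply Finset.sum_eq_zero
    intro f _
    rw [if_neg]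
    rintro rfl
    exact h (List.length_ofFn)

/-- the combinatorial argument -/
lemma eta_zero [CharZero K] {N : ℕ} (hN : 3 ≤ N) {X : AA K} (hX : Hom N X)
    (h4 : ∀ g : Fin N → Fin 3, (∃ i, g i = 0) → (∃ i, g i = 2) →
      cf X ((List.ofFn g).map ![0, 0, 1]) = cf X ((List.ofFn g).map ![0, 1, 1]))
    (hc : ∀ a b : K, EV a b X = 0) : X = 0 := by
  classical
  set E : (Fin N → Fin 2) → K := fun f => cf X (List.ofFn f) with hE
  have hsum : ∀ a b : K, ∑ f : Fin N → Fin 2, E f * ((List.ofFn f).map ![a, b]).prod = 0 := by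
    intro a b
    have := hc a b
    rw [hom_expand hX, map_sum] at this
    simpa only [map_smul, EV_ow, smul_eq_mul] using this
  have hg : ∀ g : Fin N → Fin 3, (∃ i, g i = 0) → (∃ i, g i = 2) →
      E (fun i => (![0, 0, 1] : Fin 3 → Fin 2) (g i)) =
        E (fun i => (![0, 1, 1] : Fin 3 → Fin 2) (g i)) := by
    intro g h1 h2
    have := h4 g h1 h2
    rw [List.map_ofFn, List.map_ofFn] at this
    exact this
  -- the words with one letter `x`
  set δ : Fin N → Fin N → Fin 2 := fun i j => if j = i then 0 else 1 with hδ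
  have h5 : ∀ (f : Fin N → Fin 2) (i : Fin N), f i = 0 → (∃ j, f j = 1) → E f = E (δ i) := by
    intro f i h1 h2
    have h6 := hg (fun j => if f j = 1 then 2 else if j = i then 0 else 1)
      ⟨i, by simp [h1]⟩ (by obtain ⟨j, hj⟩ := h2; exact ⟨j, by simp [hj]⟩)
    have e1 : (fun j => (![0, 0, 1] : Fin 3 → Fin 2)
        (if f j = 1 then 2 else if j = i then 0 else 1)) = f := by
      funext j
      by_cases h7 : f j = 1
      · rw [if_pos h7, h7]; rfl
      · have h8 : f j = 0 := by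
          revert h7
          generalize f j = y
          fin_cases y <;> simp
        rw [if_neg h7, h8]
        split_ifs <;> rfl
    have e2 : (fun j => (![0, 1, 1] : Fin 3 → Fin 2)
        (if f j = 1 then 2 else if j = i then 0 else 1)) = δ i := by
      funext j
      by_cases h7 : f j = 1
      · have h8 : j ≠ i := by
          rintro rfl
          rw [h1] at h7
          exact absurd h7 (by decide)
        simp [hδ, h7, h8]
      · by_cases h8 : j = i
        · simp [hδ, h7, h8, h1]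
        · simp [hδ, h7, h8]
    rw [e1, e2] at h6
    exact h6
  have h6 : ∀ i j : Fin N, E (δ i) = E (δ j) := by
    intro i j
    obtain ⟨m, hm⟩ : ∃ m : Fin N, m ∉ ({i, j} : Finset (Fin N)) := by
      by_contra hcon
      push Not at hcon
      have h7 : (Finset.univ : Finset (Fin N)) ⊆ {i, j} := fun x _ => hcon x
      have h8 := Finset.card_le_card h7
      have h9 : ({i, j} : Finset (Fin N)).card ≤ 2 := Finset.card_le_two
      rw [Finset.card_univ, Fintype.card_fin] at h8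
      omega
    rw [Finset.mem_insert, Finset.mem_singleton, not_or] at hm
    have a1 := h5 (fun l => if l = i ∨ l = j then 0 else 1) i (by simp) ⟨m, by simp [hm.1, hm.2]⟩
    have a2 := h5 (fun l => if l = i ∨ l = j then 0 else 1) j (by simp) ⟨m, by simp [hm.1, hm.2]⟩
    rw [← a1, a2]
  set c : K := E (δ ⟨0, by omega⟩) with hcdef
  have h7 : ∀ f : Fin N → Fin 2, (∃ i, f i = 0) → (∃ i, f i = 1) → E f = c := by
    rintro f ⟨i, hi⟩ h2
    rw [h5 f i hi h2, h6 i ⟨0, by omega⟩]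
  have h01 : ∀ y : Fin 2, y ≠ 0 → y = 1 := by decide
  have h10 : ∀ y : Fin 2, y ≠ 1 → y = 0 := by decide
  -- the constant words
  have k0 : E (fun _ => 0) = 0 := by
    have := hsum 1 0
    rw [Finset.sum_eq_single (fun _ => 0)] at this
    · rw [List.map_ofFn, List.prod_ofFn] at this
      simpa using this
    · intro f _ hf
      obtain ⟨i, hi⟩ : ∃ i, f i ≠ 0 := by
        by_contra hcon
        push Not at hcon
        exact hf (funext hcon)
      rw [List.map_ofFn, List.prod_ofFn, Finset.prod_eq_zero (Finset.mem_univ i), mul_zero]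
      rw [Function.comp_apply, h01 _ hi]
      rfl
    · intro h; exact absurd (Finset.mem_univ _) h
  have k1 : E (fun _ => 1) = 0 := by
    have := hsum 0 1
    rw [Finset.sum_eq_single (fun _ => 1)] at this
    · rw [List.map_ofFn, List.prod_ofFn] at this
      simpa using this
    · intro f _ hf
      obtain ⟨i, hi⟩ : ∃ i, f i ≠ 1 := by
        by_contra hcon
        push Not at hcon
        exact hf (funext hcon)
      rw [List.map_ofFn, List.prod_ofFn, Finset.prod_eq_zero (Finset.mem_univ i), mul_zero]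
      rw [Function.comp_apply, h10 _ hi]
      rfl
    · intro h; exact absurd (Finset.mem_univ _) h
  have h8 : ∀ f : Fin N → Fin 2, E f = if (∃ i, f i = 0) ∧ (∃ i, f i = 1) then c else 0 := by
    intro f
    split_ifs with h
    · exact h7 f h.1 h.2
    · rw [not_and_or] at h
      rcases h with h | h
      · push Not at h
        have : f = fun _ => 1 := funext (fun i => h01 _ (h i))
        rw [this, k1]
      · push Not at h
        have : f = fun _ => 0 := funext (fun i => h10 _ (h i))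
        rw [this, k0]
  have h9 : c = 0 := by
    have := hsum 1 1
    have e1 : ∀ f : Fin N → Fin 2, ((List.ofFn f).map ![(1 : K), 1]).prod = 1 := by
      intro f
      rw [List.map_ofFn, List.prod_ofFn]
      apply Finset.prod_eq_one
      intro i _
      rw [Function.comp_apply]
      generalize f i = y
      fin_cases y <;> rfl
    simp only [e1, mul_one, h8] at this
    rw [← Finset.sum_filter, Finset.sum_const, nsmul_eq_mul] at this
    rcases mul_eq_zero.1 this with h | h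
    · exfalso
      rw [Nat.cast_eq_zero, Finset.card_eq_zero] at h
      have h10 : δ ⟨0, by omega⟩ ∈ Finset.univ.filter
          (fun f : Fin N → Fin 2 => (∃ i, f i = 0) ∧ (∃ i, f i = 1)) := by
        rw [Finset.mem_filter]
        exact ⟨Finset.mem_univ _, ⟨⟨0, by omega⟩, by simp [hδ]⟩, ⟨⟨1, by omega⟩, by simp [hδ]⟩⟩
      rw [h] at h10
      exact absurd h10 (Finset.notMem_empty _)
    · exact h
  rw [hom_expand hX]
  apply Finset.sum_eq_zero
  intro f _
  have : cf X (List.ofFn f) = E f := rfl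
  rw [this, h8, h9, ite_self, zero_smul]

end Fin

section Main

variable {K : Type u} [Field K]

/-- the evaluation at operators of multiplication -/
lemma ev_Lx (ψ : F2 K) (a b : FA K (Fin 3)) :
    ev (Lx K a) (Lx K b) ψ = Lx K (EV a b (assoc K ψ)) := by
  rw [ev_eq_EV]
  exact (map_EV (Algebra.lmul K (FA K (Fin 3))) a b (assoc K ψ)).symm

lemma Lx_add (a b : FA K (Fin 3)) : Lx K a + Lx K b = Lx K (a + b) :=
  (map_add (Algebra.lmul K (FA K (Fin 3))) a b).symm

lemma Lx_sub (a b : FA K (Fin 3)) : Lx K a - Lx K b = Lx K (a - b) :=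
  (map_sub (Algebra.lmul K (FA K (Fin 3))) a b).symm

lemma Lx_neg (a : FA K (Fin 3)) : -Lx K a = Lx K (-a) :=
  (map_neg (Algebra.lmul K (FA K (Fin 3))) a).symm

lemma Lx_mul (a b : FA K (Fin 3)) : Lx K a * Lx K b = Lx K (a * b) :=
  (map_mul (Algebra.lmul K (FA K (Fin 3))) a b).symm

lemma Lx_lie (a b : FA K (Fin 3)) : ⁅Lx K a, Lx K b⁆ = Lx K (cm a b) := by
  rw [LieRing.of_associative_ring_bracket, Lx_mul, Lx_mul, Lx_sub]
  rfl

lemma etaL_Lx (ψ : F2 K) (a b : FA K (Fin 3)) :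
    etaL ψ (Lx K a) (Lx K b) = Lx K (etaE (assoc K ψ) a b) := by
  unfold etaL etaE
  rw [Lx_add, Lx_neg, ev_Lx, ev_Lx, Lx_lie, Lx_lie, Lx_add]

lemma Lx_inj {a : FA K (Fin 3)} (h : Lx K a = 0) : a = 0 := by
  have := LinearMap.congr_fun h 1
  rw [Lx, LinearMap.mulLeft_apply, mul_one] at this
  exact this

end Main

end HexF3

open HexF3 in
theorem specF3 (hMODEL : SpecMODEL.{u}) (hF1 : SpecF1.{u}) (hF2 : SpecF2.{u}) : SpecF3.{u} := by
  intro K _ _ n ψ hn hψ hP
  have h1 := hF1 K n ψ (by omega) hψ hP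
  have h2 := hF2 K n ψ hn hψ hP
  have hB : InfBraid (ee K) := (braid_iff _).1 (hMODEL K)
  have h4 := fourterm (L := Module.End K (FA K (Fin 3))) (by omega : 2 ≤ n) hψ hP h1 h2 hB
  have t0 : ee K 0 3 = Lx K (letter K 0) := rfl
  have t1 : ee K 1 3 = Lx K (letter K 1) := rfl
  have t2 : ee K 2 3 = Lx K (letter K 2) := rfl
  rw [t0, t1, t2, Lx_add, Lx_add, etaL_Lx, etaL_Lx, etaL_Lx, etaL_Lx, Lx_sub, Lx_add, Lx_sub] at h4
  have h5 := Lx_inj h4
  set η : AA K := etaE (assoc K ψ) (lt K 0) (lt K 1) with hη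
  rw [← EV_eta (assoc K ψ) (letter K 1) (letter K 2),
    ← EV_eta (assoc K ψ) (letter K 0 + letter K 1) (letter K 2),
    ← EV_eta (assoc K ψ) (letter K 0) (letter K 1 + letter K 2),
    ← EV_eta (assoc K ψ) (letter K 0) (letter K 1), ← hη] at h5
  have hη1 : Hom (n + 1) η := hom_eta hψ
  have l0 : letter K 0 = lf (![1, 0, 0] : Fin 3 → K) := by
    simp [lf, Fin.sum_univ_three]
  have l1 : letter K 1 = lf (![0, 1, 0] : Fin 3 → K) := by
    simp [lf, Fin.sum_univ_three]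
  have l2 : letter K 2 = lf (![0, 0, 1] : Fin 3 → K) := by
    simp [lf, Fin.sum_univ_three]
  have l01 : letter K 0 + letter K 1 = lf (![1, 1, 0] : Fin 3 → K) := by
    simp [lf, Fin.sum_univ_three]
  have l12 : letter K 1 + letter K 2 = lf (![0, 1, 1] : Fin 3 → K) := by
    simp [lf, Fin.sum_univ_three]
  have hz : η = 0 := by
    refine eta_zero (by omega : 3 ≤ n + 1) hη1 (fun g h0 h2 => ?_) (fun a b => ?_)
    · obtain ⟨i0, hi0⟩ := h0
      obtain ⟨i2, hi2⟩ := h2
      have m0 : (0 : Fin 3) ∈ List.ofFn g := by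
        rw [List.mem_ofFn]; exact ⟨i0, hi0⟩
      have m2 : (2 : Fin 3) ∈ List.ofFn g := by
        rw [List.mem_ofFn]; exact ⟨i2, hi2⟩
      have h6 := congrArg (fun Y => c3 Y (List.ofFn g)) h5
      simp only [c3_add, c3_sub, c3_zero] at h6
      rw [l01, l12, l0, l1, l2] at h6
      have e1 := c3_missing (![![0, 1, 0], ![0, 0, 1]] : Fin 2 → Fin 3 → K) 0
        (by intro i; fin_cases i <;> rfl) η _ m0
      have e2 := c3_missing (![![1, 0, 0], ![0, 1, 0]] : Fin 2 → Fin 3 → K) 2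
        (by intro i; fin_cases i <;> rfl) η _ m2
      have e3 := c3_subst (![![1, 1, 0], ![0, 0, 1]] : Fin 2 → Fin 3 → K) ![0, 0, 1]
        (by intro i j; fin_cases i <;> fin_cases j <;> simp) η (List.ofFn g)
      have e4 := c3_subst (![![1, 0, 0], ![0, 1, 1]] : Fin 2 → Fin 3 → K) ![0, 1, 1]
        (by intro i j; fin_cases i <;> fin_cases j <;> simp) η (List.ofFn g)
      simp only [Matrix.cons_val_zero, Matrix.cons_val_one] at e1 e2 e3 e4
      rw [e1, e2, e3, e4] at h6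
      linear_combination -h6
    · rw [hη, EV_eta, eta_comm]
  -- the conclusion
  apply assoc_injective
  rw [map_add, LieHom.map_lie, LieHom.map_lie, map_zero]
  have hc : assoc K (gC K) = -(lt K 0 + lt K 1) := by
    rw [gC, map_sub, map_neg, assoc_gA, assoc_gB]
    abel
  have hev : assoc K (ev (gA K) (gC K) ψ) = EV (lt K 0) (-(lt K 0 + lt K 1)) (assoc K ψ) := by
    rw [map_ev, ev_eq_EV, assoc_gA, hc]
  rw [hev, hc, assoc_gB]
  have h6 : etaE (assoc K ψ) (lt K 1) (-(lt K 0 + lt K 1)) = 0 := by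
    rw [← EV_eta, ← hη, hz, map_zero]
  unfold etaE cm at h6
  have h7 : -(lt K 1 + -(lt K 0 + lt K 1)) = lt K 0 := by abel
  rw [h7, EV_self] at h6
  exact h6

end MP446S
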