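import Pool.Agent.Lib.MP_446dfa_ag.sig.FlowBase

set_option linter.all false

/-!
# The flow of a primitive element preserves group-like elements
-/

noncomputable section

namespace MP446S

open MP446 MP446Y MP446Z Polynomial

universe u v w

lemma Hom.low {n : ℕ} {Q : AA ℝ} (h : Hom n Q) (hn : 1 ≤ n) : Low 1 Q :=
  fun w hw => h w (by omega)

lemma cm_mem {E : Type*} [Ring E] [Algebra ℝ E] {N : ℕ} {I : Submodule ℝ E} (h : Nil N I)
    {x y : E} (hx : x ∈ I) (hy : y ∈ I) : cm x y ∈ I :=
  I.sub_mem (h.mul_mem _ hx _ hy) (h.mul_mem _ hy _ hx)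

lemma inl_add_inr_mul {E : Type*} [Ring E] (x y x' y' : E) :
    (TrivSqZeroExt.inl x + TrivSqZeroExt.inr y : TrivSqZeroExt E E) *
      (TrivSqZeroExt.inl x' + TrivSqZeroExt.inr y') = TrivSqZeroExt.inl (x * x') +
        TrivSqZeroExt.inr (x * y' + y * x') := by
  ext <;> simp

section

variable {E : Type} [Ring E] [Algebra ℝ E] {N : ℕ} {I : Submodule ℝ E}

lemma Com2.ev_comm {a b a' b' : E} (h : Com2 a b a' b') (X Y : AA ℝ) :
    EV a b X * EV a' b' Y = EV a' b' Y * EV a b X := by
  have h1 : a * EV a' b' Y = EV a' b' Y * a := comm_EV h.h1 h.h2 Y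
  have h2 : b * EV a' b' Y = EV a' b' Y * b := comm_EV h.h3 h.h4 Y
  exact EV_commute h1 h2 X

lemma Com2.C_comm {a b a' b' : E} (h : Com2 a b a' b') (Q P : AA ℝ) :
    C (EV a b Q) * Ph N Q P a' b' = Ph N Q P a' b' * C (EV a b Q) := by
  unfold Ph
  rw [Finset.mul_sum, Finset.sum_mul]
  refine Finset.sum_congr rfl (fun j _ => ?_)
  rw [C_mul_monomial, monomial_mul_C, h.ev_comm]

end

theorem specFLOWG : SpecFLOWG := by
  intro N n P Q hn hQ hprim hP
  have hlow : Low 1 Q := hQ.low hn
  have key : ∀ (k : ℕ) (E : Type) [Ring E] [Algebra ℝ E] (I : Submodule ℝ E), Nil N I →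
      ∀ a b a' b' : E, a ∈ I → b ∈ I → a' ∈ I → b' ∈ I → Com2 a b a' b' →
      (Ph N Q P (a + a') (b + b') - Ph N Q P a b * Ph N Q P a' b').coeff k = 0 := by
    intro k
    induction k with
    | zero =>
      intro E _ _ I hI a b a' b' ha hb ha' hb' hc
      rw [coeff_sub, mul_coeff_zero, coeff_Ph hI hlow P (I.add_mem ha ha') (I.add_mem hb hb'),
        coeff_Ph hI hlow P ha hb, coeff_Ph hI hlow P ha' hb', aj_zero,
        hP E I hI a b a' b' ha hb ha' hb' hc, sub_self]
    | succ k ih =>
      intro E _ _ I hI a b a' b' ha hb ha' hb' hc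
      have hq0 : cf Q [] = 0 := hlow [] (by simp)
      have hQ1 : EV a b Q ∈ I := hI.EV_mem ha hb hq0
      have hQ2 : EV a' b' Q ∈ I := hI.EV_mem ha' hb' hq0
      have hs := hprim E a b a' b' hc
      have hda : cm (EV a b Q + 0) a = cm (EV a b Q) a := by rw [add_zero]
      have hda' : cm (EV a' b' Q + 0) a' = cm (EV a' b' Q) a' := by rw [add_zero]
      have h0 : ∀ z : E, cm 0 z = 0 := by intro z; simp [cm]
      have c1 : EV a b Q * a' = a' * EV a b Q := by
        have := hc.ev_comm Q (lt ℝ 0)
        rwa [EV_letter_zero] at this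
      have c2 : EV a' b' Q * a = a * EV a' b' Q := by
        have := hc.ev_comm (lt ℝ 0) Q
        rw [EV_letter_zero] at this
        exact this.symm
      have c3 : EV a b Q * b' = b' * EV a b Q := by
        have := hc.ev_comm Q (lt ℝ 1)
        rwa [EV_letter_one] at this
      have c4 : EV a' b' Q * b = b * EV a' b' Q := by
        have := hc.ev_comm (lt ℝ 1) Q
        rw [EV_letter_one] at this
        exact this.symm
      have hds : cm (EV (a + a') (b + b') Q + 0) (a + a') = cm (EV a b Q) a + cm (EV a' b' Q) a' := by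
        rw [add_zero, hs]
        simp only [cm, mul_add, add_mul, c1, c2]
        abel
      -- the three relations
      have r1 := rel_Ph hI hlow P ha hb 0 hda (h0 b) (cm_mem hI hQ1 ha) (I.zero_mem)
      have r2 := rel_Ph hI hlow P ha' hb' 0 hda' (h0 b') (cm_mem hI hQ2 ha') (I.zero_mem)
      have r3 := rel_Ph hI hlow P (I.add_mem ha ha') (I.add_mem hb hb') 0 hds (h0 (b + b'))
        (I.add_mem (cm_mem hI hQ1 ha) (cm_mem hI hQ2 ha')) (I.zero_mem)
      have r := r3.sub (r1.mul r2)
      set A : TrivSqZeroExt E E := TrivSqZeroExt.inl a + TrivSqZeroExt.inr (cm (EV a b Q) a) with hA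
      set B : TrivSqZeroExt E E := TrivSqZeroExt.inl b + TrivSqZeroExt.inr 0 with hB
      set A' : TrivSqZeroExt E E := TrivSqZeroExt.inl a' + TrivSqZeroExt.inr (cm (EV a' b' Q) a')
        with hA'
      set B' : TrivSqZeroExt E E := TrivSqZeroExt.inl b' + TrivSqZeroExt.inr 0 with hB'
      have eA : (TrivSqZeroExt.inl (a + a') + TrivSqZeroExt.inr
          (cm (EV a b Q) a + cm (EV a' b' Q) a') : TrivSqZeroExt E E) = A + A' := by
        rw [hA, hA', TrivSqZeroExt.inl_add, TrivSqZeroExt.inr_add]
        abel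
      have eB : (TrivSqZeroExt.inl (b + b') + TrivSqZeroExt.inr 0 : TrivSqZeroExt E E) = B + B' := by
        rw [hB, hB', TrivSqZeroExt.inl_add, TrivSqZeroExt.inr_zero]
        abel
      rw [eA, eB] at r
      have hAm : A ∈ dualI I := by
        rw [mem_dualI, hA]
        simpa using ⟨ha, cm_mem hI hQ1 ha⟩
      have hAm' : A' ∈ dualI I := by
        rw [mem_dualI, hA']
        simpa using ⟨ha', cm_mem hI hQ2 ha'⟩
      have hBm : B ∈ dualI I := by
        rw [mem_dualI, hB]
        simpa using hb
      have hBm' : B' ∈ dualI I := by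
        rw [mem_dualI, hB']
        simpa using hb'
      have hcom : Com2 A B A' B' := by
        have e1 : EV a b (Q * lt ℝ 0 - lt ℝ 0 * Q) = cm (EV a b Q) a := by
          rw [map_sub, map_mul, map_mul, EV_letter_zero]
          rfl
        have e2 : EV a' b' (Q * lt ℝ 0 - lt ℝ 0 * Q) = cm (EV a' b' Q) a' := by
          rw [map_sub, map_mul, map_mul, EV_letter_zero]
          rfl
        have d1 : cm (EV a b Q) a * a' = a' * cm (EV a b Q) a := by
          have := hc.ev_comm (Q * lt ℝ 0 - lt ℝ 0 * Q) (lt ℝ 0)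
          rwa [EV_letter_zero, e1] at this
        have d2 : cm (EV a' b' Q) a' * a = a * cm (EV a' b' Q) a' := by
          have := hc.ev_comm (lt ℝ 0) (Q * lt ℝ 0 - lt ℝ 0 * Q)
          rw [EV_letter_zero, e2] at this
          exact this.symm
        have d3 : cm (EV a b Q) a * b' = b' * cm (EV a b Q) a := by
          have := hc.ev_comm (Q * lt ℝ 0 - lt ℝ 0 * Q) (lt ℝ 1)
          rwa [EV_letter_one, e1] at this
        have d4 : cm (EV a' b' Q) a' * b = b * cm (EV a' b' Q) a' := by
          have := hc.ev_comm (lt ℝ 1) (Q * lt ℝ 0 - lt ℝ 0 * Q)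
          rw [EV_letter_one, e2] at this
          exact this.symm
        constructor
        · rw [hA, hA', inl_add_inr_mul, inl_add_inr_mul, hc.h1, d1, ← d2, add_comm (cm _ _ * a)]
        · rw [hA, hB', inl_add_inr_mul, inl_add_inr_mul, hc.h2, d3]
          simp
        · rw [hB, hA', inl_add_inr_mul, inl_add_inr_mul, hc.h3, ← d4]
          simp
        · rw [hB, hB', inl_add_inr_mul, inl_add_inr_mul, hc.h4]
          simp
      have hz := ih _ _ hI.dual A B A' B' hAm hBm hAm' hBm' hcom
      have hz2 := (r.coeff_zero hz).2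
      have hz1 := ih E I hI a b a' b' ha hb ha' hb' hc
      have hcomC := hc.C_comm (N := N) Q P
      -- the derivative
      have hder : derivative (Ph N Q P (a + a') (b + b') - Ph N Q P a b * Ph N Q P a' b') =
          (DPh N Q P (a + a') (b + b') + (C 0 * Ph N Q P (a + a') (b + b') -
            Ph N Q P (a + a') (b + b') * C 0) -
          (Ph N Q P a b * (DPh N Q P a' b' + (C 0 * Ph N Q P a' b' - Ph N Q P a' b' * C 0)) +
            (DPh N Q P a b + (C 0 * Ph N Q P a b - Ph N Q P a b * C 0)) * Ph N Q P a' b')) +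
          (Ph N Q P (a + a') (b + b') - Ph N Q P a b * Ph N Q P a' b') *
            C (EV (a + a') (b + b') Q) := by
        rw [derivative_sub, derivative_mul, derivative_Ph hI hlow P ha hb,
          derivative_Ph hI hlow P ha' hb',
          derivative_Ph hI hlow P (I.add_mem ha ha') (I.add_mem hb hb'), hs, C_add, C_0]
        simp only [mul_add, add_mul, sub_mul, mul_sub, mul_zero, zero_mul, mul_assoc, hcomC]
        abel
      have hk := congrArg (fun p => p.coeff k) hder
      simp only [coeff_derivative] at hk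
      rw [coeff_add, hz2, coeff_mul_C, hz1, zero_mul, zero_add] at hk
      have h5 : ((k : E) + 1) = algebraMap ℝ E ((k + 1 : ℕ) : ℝ) := by
        rw [map_natCast]
        push_cast
        rfl
      rw [h5, ← Algebra.commutes, ← Algebra.smul_def] at hk
      have h6 : ((k + 1 : ℕ) : ℝ) ≠ 0 := by positivity
      rcases smul_eq_zero_iff_right h6 |>.1 hk with h7
      exact h7
  intro E _ _ I hI a b a' b' ha hb ha' hb' hc
  have h : Ph N Q P (a + a') (b + b') = Ph N Q P a b * Ph N Q P a' b' := by
    rw [← sub_eq_zero]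
    ext k
    rw [key k E I hI a b a' b' ha hb ha' hb' hc, coeff_zero]
  have h2 := congrArg (ev1 E) h
  rwa [map_mul, ev1_Ph, ev1_Ph, ev1_Ph] at h2

end MP446S
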