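import Pool.Agent.Lib.MP_446dfa_ag.sig.FLOWG

set_option linter.all false

/-!
# The flow of an element of `grt₁` preserves the pentagon equation
-/

noncomputable section

namespace MP446S

open MP446 MP446Y MP446Z Polynomial

universe u v w

attribute [local instance 100] LieRing.ofAssociativeRing

lemma exists_defo {E : Type} [Ring E] [Algebra ℝ E] (Q : AA ℝ) {N : ℕ} {I : Submodule ℝ E}
    (hI : Nil N I) (hq0 : cf Q [] = 0) (t : Fin 4 → Fin 4 → E) (ht : ∀ i j, t i j ∈ I) :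
    ∃ d : Fin 4 → Fin 4 → E, Defo Q t d ∧ ∀ i j, d i j ∈ I := by
  have hadd : ∀ x ∈ I, ∀ y ∈ I, x + y ∈ I := fun x hx y hy => I.add_mem hx hy
  have hψ : ∀ x ∈ I, ∀ y ∈ I, EV x y Q ∈ I := fun x hx y hy => hI.EV_mem hx hy hq0
  set d01 := cm (EV (t 0 1) (t 1 2 + t 1 3) Q) (t 0 1) with h01
  set d12 := cm (EV (t 1 2) (t 2 3) Q) (t 1 2) with h12
  set d02 := cm (EV (t 0 1) (t 1 2 + t 1 3) Q + EV (t 0 2 + t 1 2) (t 2 3) Q)
    (t 0 2 + t 1 2) - d12 with h02
  set d03 := -(d01 + d02 + d12 + -d12 + 0) with h03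
  have m01 : d01 ∈ I := cm_mem hI (hψ _ (ht _ _) _ (hadd _ (ht _ _) _ (ht _ _))) (ht _ _)
  have m12 : d12 ∈ I := cm_mem hI (hψ _ (ht _ _) _ (ht _ _)) (ht _ _)
  have m02 : d02 ∈ I := I.sub_mem (cm_mem hI (hadd _ (hψ _ (ht _ _) _ (hadd _ (ht _ _) _ (ht _ _)))
    _ (hψ _ (hadd _ (ht _ _) _ (ht _ _)) _ (ht _ _))) (hadd _ (ht _ _) _ (ht _ _))) m12
  have m03 : d03 ∈ I := I.neg_mem (hadd _ (hadd _ (hadd _ (hadd _ m01 _ m02) _ m12) _
    (I.neg_mem m12)) _ I.zero_mem)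
  refine ⟨![![0, d01, d02, d03], ![d01, 0, d12, -d12], ![d02, d12, 0, 0], ![d03, -d12, 0, 0]],
    ⟨?_, ?_, h01, h12, rfl, rfl, h02, h03⟩, ?_⟩
  · intro i j
    fin_cases i <;> fin_cases j <;> rfl
  · intro i
    fin_cases i <;> rfl
  · intro i j
    fin_cases i <;> fin_cases j
    · exact I.zero_mem
    · exact m01
    · exact m02
    · exact m03
    · exact m01
    · exact I.zero_mem
    · exact m12
    · exact I.neg_mem m12
    · exact m02
    · exact m12
    · exact I.zero_mem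
    · exact I.zero_mem
    · exact m03
    · exact I.neg_mem m12
    · exact I.zero_mem
    · exact I.zero_mem

/-- the difference of the two sides of the pentagon equation along the flow -/
def PX {E : Type} [Ring E] [Algebra ℝ E] (N : ℕ) (Q P : AA ℝ) (t : Fin 4 → Fin 4 → E) : E[X] :=
  Ph N Q P (t 0 1) (t 1 2 + t 1 3) * Ph N Q P (t 0 2 + t 1 2) (t 2 3) -
    Ph N Q P (t 1 2) (t 2 3) * Ph N Q P (t 0 1 + t 0 2) (t 1 3 + t 2 3) *
      Ph N Q P (t 0 1) (t 1 2)

/-- the algebra of the derivative -/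
lemma der_alg {R : Type*} [Ring R] {p1 p2 p3 p4 p5 d1 d2 d3 d4 d5 q1 q2 q3 q4 q5 : R}
    (h : q1 + q2 = q3 + q4 + q5) :
    ((d1 + p1 * q1) * p2 + p1 * (d2 + p2 * q2)) -
      (((d3 + p3 * q3) * p4 + p3 * (d4 + p4 * q4)) * p5 + p3 * p4 * (d5 + p5 * q5)) =
    ((p1 * (d2 + (q1 * p2 - p2 * q1)) + (d1 + (0 * p1 - p1 * 0)) * p2) -
      (p3 * p4 * (d5 + ((q3 + q4) * p5 - p5 * (q3 + q4))) +
        (p3 * (d4 + (q3 * p4 - p4 * q3)) + (d3 + (0 * p3 - p3 * 0)) * p4) * p5)) +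
    (p1 * p2 - p3 * p4 * p5) * (q1 + q2) := by
  have h2 : (p1 * p2 - p3 * p4 * p5) * (q1 + q2) = p1 * p2 * (q1 + q2) -
      p3 * p4 * p5 * (q3 + q4 + q5) := by
    rw [sub_mul, h]
  rw [h2]
  noncomm_ring

theorem specFLOWP (hdef : SpecDEF) : SpecFLOWP := by
  intro N n P Q ψ hn hQ hψ hgrt hP
  have hlow : Low 1 Q := hQ.low (by omega)
  have hq0 : cf Q [] = 0 := hlow [] (by simp)
  have key : ∀ (k : ℕ) (E : Type) [Ring E] [Algebra ℝ E] (I : Submodule ℝ E), Nil N I →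
      ∀ t : Fin 4 → Fin 4 → E, Braid t → (∀ i j, t i j ∈ I) → (PX N Q P t).coeff k = 0 := by
    intro k
    induction k with
    | zero =>
      intro E _ _ I hI t hb ht
      have hadd : ∀ i j k l, t i j + t k l ∈ I := fun i j k l => I.add_mem (ht i j) (ht k l)
      have e1 := hP E I hI t hb ht
      unfold PX
      rw [coeff_sub, mul_coeff_zero, mul_coeff_zero, mul_coeff_zero,
        coeff_Ph hI hlow P (ht _ _) (hadd _ _ _ _), coeff_Ph hI hlow P (hadd _ _ _ _) (ht _ _),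
        coeff_Ph hI hlow P (ht _ _) (ht _ _), coeff_Ph hI hlow P (hadd _ _ _ _) (hadd _ _ _ _),
        coeff_Ph hI hlow P (ht _ _) (ht _ _)]
      simp only [aj_zero]
      rw [e1, sub_self]
    | succ k ih =>
      intro E _ _ I hI t hb ht
      have hadd : ∀ i j k l, t i j + t k l ∈ I := fun i j k l => I.add_mem (ht i j) (ht k l)
      obtain ⟨d, hd, hdI⟩ := exists_defo Q hI hq0 t ht
      have hdadd : ∀ i j k l, d i j + d k l ∈ I := fun i j k l => I.add_mem (hdI i j) (hdI k l)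
      have hf := hdef n ψ Q hn hψ hQ hgrt E t d hb hd
      -- the linear pentagon
      have hpl : PLt t Q := by
        rw [← hψ, PLt_assoc]
        exact hgrt.pentagon E t ((braid_iff t).1 hb)
      unfold PLt at hpl
      set ψ1 := EV (t 0 1) (t 1 2 + t 1 3) Q with hψ1
      set ψ2 := EV (t 0 2 + t 1 2) (t 2 3) Q with hψ2
      set ψ3 := EV (t 1 2) (t 2 3) Q with hψ3
      set ψ4 := EV (t 0 1 + t 0 2) (t 1 3 + t 2 3) Q with hψ4
      set ψ5 := EV (t 0 1) (t 1 2) Q with hψ5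
      have h0 : ∀ z : E, cm 0 z = 0 := by intro z; simp [cm]
      -- the relations at the faces
      have r1 := rel_Ph hI hlow P (ht 0 1) (hadd 1 2 1 3) 0 (da := d 0 1) (db := d 1 2 + d 1 3)
        (by rw [add_zero, hd.d01]) (by rw [h0, hd.d13, add_neg_cancel]) (hdI _ _) (hdadd _ _ _ _)
      have r2 := rel_Ph hI hlow P (hadd 0 2 1 2) (ht 2 3) ψ1 (da := d 0 2 + d 1 2) (db := d 2 3)
        (by rw [hd.d02, sub_add_cancel, ← hψ2, add_comm ψ2 ψ1]) (by rw [hd.d23]; exact hf.f2)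
        (hdadd _ _ _ _) (hdI _ _)
      have r3 := rel_Ph hI hlow P (ht 1 2) (ht 2 3) 0 (da := d 1 2) (db := d 2 3)
        (by rw [add_zero, hd.d12]) (by rw [h0, hd.d23]) (hdI _ _) (hdI _ _)
      have r4 := rel_Ph hI hlow P (hadd 0 1 0 2) (hadd 1 3 2 3) ψ3 (da := d 0 1 + d 0 2)
        (db := d 1 3 + d 2 3) (by rw [← hψ4, add_comm ψ4 ψ3]; exact hf.f4a) hf.f4b
        (hdadd _ _ _ _) (hdadd _ _ _ _)
      have r5 := rel_Ph hI hlow P (ht 0 1) (ht 1 2) (ψ3 + ψ4) (da := d 0 1) (db := d 1 2)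
        (by rw [← hψ5, add_comm ψ5 (ψ3 + ψ4)]; exact hf.f5a) hf.f5b (hdI _ _) (hdI _ _)
      have r := (r1.mul r2).sub ((r3.mul r4).mul r5)
      -- the deformed family
      set t' : Fin 4 → Fin 4 → TrivSqZeroExt E E :=
        fun i j => TrivSqZeroExt.inl (t i j) + TrivSqZeroExt.inr (d i j) with ht'
      have ht'I : ∀ i j, t' i j ∈ dualI I := by
        intro i j
        rw [mem_dualI, ht']
        simpa using ⟨ht i j, hdI i j⟩
      have hs : ∀ i j k l, (TrivSqZeroExt.inl (t i j + t k l) + TrivSqZeroExt.inr (d i j + d k l) :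
          TrivSqZeroExt E E) = t' i j + t' k l := by
        intro i j k l
        change _ = (TrivSqZeroExt.inl (t i j) + TrivSqZeroExt.inr (d i j)) +
          (TrivSqZeroExt.inl (t k l) + TrivSqZeroExt.inr (d k l))
        rw [TrivSqZeroExt.inl_add, TrivSqZeroExt.inr_add]
        abel
      have hs1 : ∀ i j, (TrivSqZeroExt.inl (t i j) + TrivSqZeroExt.inr (d i j) :
          TrivSqZeroExt E E) = t' i j := fun i j => rfl
      rw [hs, hs, hs, hs, hs1, hs1, hs1] at r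
      have hz := ih _ _ hI.dual t' hf.braid ht'I
      have hz2 := (r.coeff_zero hz).2
      have hz1 := ih E I hI t hb ht
      have hC : (C ψ1 + C ψ2 : E[X]) = C ψ3 + C ψ4 + C ψ5 := by
        rw [← C_add, ← C_add, ← C_add, hpl]
      have D1 : derivative (Ph N Q P (t 0 1) (t 1 2 + t 1 3)) = _ + _ * C ψ1 :=
        derivative_Ph hI hlow P (ht 0 1) (hadd 1 2 1 3)
      have D2 : derivative (Ph N Q P (t 0 2 + t 1 2) (t 2 3)) = _ + _ * C ψ2 :=
        derivative_Ph hI hlow P (hadd 0 2 1 2) (ht 2 3)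
      have D3 : derivative (Ph N Q P (t 1 2) (t 2 3)) = _ + _ * C ψ3 :=
        derivative_Ph hI hlow P (ht 1 2) (ht 2 3)
      have D4 : derivative (Ph N Q P (t 0 1 + t 0 2) (t 1 3 + t 2 3)) = _ + _ * C ψ4 :=
        derivative_Ph hI hlow P (hadd 0 1 0 2) (hadd 1 3 2 3)
      have D5 : derivative (Ph N Q P (t 0 1) (t 1 2)) = _ + _ * C ψ5 :=
        derivative_Ph hI hlow P (ht 0 1) (ht 1 2)
      have hder := der_alg (p1 := Ph N Q P (t 0 1) (t 1 2 + t 1 3))
        (p2 := Ph N Q P (t 0 2 + t 1 2) (t 2 3)) (p3 := Ph N Q P (t 1 2) (t 2 3))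
        (p4 := Ph N Q P (t 0 1 + t 0 2) (t 1 3 + t 2 3)) (p5 := Ph N Q P (t 0 1) (t 1 2))
        (d1 := DPh N Q P (t 0 1) (t 1 2 + t 1 3))
        (d2 := DPh N Q P (t 0 2 + t 1 2) (t 2 3)) (d3 := DPh N Q P (t 1 2) (t 2 3))
        (d4 := DPh N Q P (t 0 1 + t 0 2) (t 1 3 + t 2 3)) (d5 := DPh N Q P (t 0 1) (t 1 2)) hC
      rw [← D1, ← D2, ← D3, ← D4, ← D5, ← derivative_mul, ← derivative_mul, ← derivative_mul,
        ← derivative_sub] at hder
      change derivative (PX N Q P t) = _ at hder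
      have hk := congrArg (fun p => p.coeff k) hder
      simp only [coeff_derivative] at hk
      rw [C_0, C_add] at hz2
      rw [coeff_add, hz2, ← C_add, coeff_mul_C, zero_add] at hk
      change _ = (PX N Q P t).coeff k * _ at hk
      rw [hz1, zero_mul] at hk
      have h5 : ((k : E) + 1) = algebraMap ℝ E ((k + 1 : ℕ) : ℝ) := by
        rw [map_natCast]
        push_cast
        rfl
      rw [h5, ← Algebra.commutes, ← Algebra.smul_def] at hk
      have h6 : ((k + 1 : ℕ) : ℝ) ≠ 0 := by positivity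
      exact (smul_eq_zero_iff_right h6).1 hk
  intro E _ _ I hI t hb ht
  have h : PX N Q P t = 0 := by
    ext k
    rw [key k E I hI t hb ht, coeff_zero]
  unfold PX at h
  rw [sub_eq_zero] at h
  have h2 := congrArg (ev1 E) h
  rwa [map_mul, map_mul, map_mul, ev1_Ph, ev1_Ph, ev1_Ph, ev1_Ph, ev1_Ph] at h2

end MP446S
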