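import Pool.Agent.Lib.MP_446dfa_ag.sig.Basic

set_option linter.all false

/-!
# The flow as a polynomial in the time
-/

noncomputable section

namespace MP446S

open MP446 MP446Y MP446Z Polynomial

universe u v w

/-- all the words of `X` have length at least `m` -/
def Low (m : ℕ) (X : AA ℝ) : Prop := ∀ w : List (Fin 2), w.length < m → cf X w = 0

lemma Low.mul {a b : ℕ} {X Y : AA ℝ} (hX : Low a X) (hY : Low b Y) : Low (a + b) (X * Y) := by
  intro w hw
  rw [cf_mul]
  refine Finset.sum_eq_zero (fun i hi => ?_)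
  rw [Finset.mem_range] at hi
  by_cases h : i < a
  · rw [hX, zero_mul]
    rw [List.length_take]
    omega
  · rw [hY, mul_zero]
    rw [List.length_drop]
    omega

lemma Low.mono {a b : ℕ} {X : AA ℝ} (hX : Low a X) (h : b ≤ a) : Low b X :=
  fun w hw => hX w (by omega)

lemma Low.add {a : ℕ} {X Y : AA ℝ} (hX : Low a X) (hY : Low a Y) : Low a (X + Y) := by
  intro w hw
  rw [cf_add, hX w hw, hY w hw, add_zero]

lemma Low.sub {a : ℕ} {X Y : AA ℝ} (hX : Low a X) (hY : Low a Y) : Low a (X - Y) := by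
  intro w hw
  rw [cf_sub, hX w hw, hY w hw, sub_zero]

lemma Low.smul {a : ℕ} {X : AA ℝ} (c : ℝ) (hX : Low a X) : Low a (c • X) := by
  intro w hw
  rw [cf_smul, hX w hw, mul_zero]

lemma Low.sum {ι : Type*} {a : ℕ} (s : Finset ι) {X : ι → AA ℝ} (hX : ∀ i ∈ s, Low a (X i)) :
    Low a (∑ i ∈ s, X i) := by
  intro w hw
  rw [cf_sum]
  exact Finset.sum_eq_zero (fun i hi => hX i hi w hw)

lemma low_ow (u : List (Fin 2)) : Low u.length (ow ℝ u) := by
  intro w hw
  rw [cf_ow, if_neg]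
  rintro rfl
  exact lt_irrefl _ hw

lemma low_zero (X : AA ℝ) : Low 0 X := fun w hw => absurd hw (by omega)

lemma low_DQ_ow {Q : AA ℝ} (hQ : Low 1 Q) (u : List (Fin 2)) :
    Low (u.length + 1) (DQ Q (ow ℝ u)) := by
  induction u with
  | nil =>
    rw [ow_nil, DQ_one]
    intro w _
    rfl
  | cons i u ih =>
    have h : ow ℝ (i :: u) = lt ℝ i * ow ℝ u := by
      rw [lt, ← ow_append]
      rfl
    rw [h, DQ_mul]
    have h1 : Low 1 (lt ℝ i) := low_ow [i]
    refine Low.add ?_ ?_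
    · have := h1.mul ih
      exact this.mono (by rw [List.length_cons]; omega)
    · have h2 : Low (1 + 1) (DQ Q (lt ℝ i)) := by
        fin_cases i
        · change Low _ (DQ Q (lt ℝ 0))
          rw [DQ_lt_zero]
          exact (hQ.mul (low_ow [0])).sub ((low_ow [0]).mul hQ)
        · change Low _ (DQ Q (lt ℝ 1))
          rw [DQ_lt_one]
          intro w _
          rfl
      have := h2.mul (low_ow u)
      exact this.mono (by rw [List.length_cons]; omega)

lemma low_DQ {Q : AA ℝ} (hQ : Low 1 Q) {m : ℕ} {X : AA ℝ} (hX : Low m X) :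
    Low (m + 1) (DQ Q X) := by
  rw [AA_expand X, Finsupp.sum, map_sum]
  refine Low.sum _ (fun w hw => ?_)
  rw [map_smul]
  refine Low.smul _ ((low_DQ_ow hQ _).mono ?_)
  by_contra h
  have h1 : (FreeMonoid.toList w).length < m := by omega
  have h2 := hX _ h1
  exact (Finsupp.mem_support_iff.1 hw) h2

/-- `L_Q ^ j P / j!` -/
def aj (Q P : AA ℝ) (j : ℕ) : AA ℝ := ((j.factorial : ℝ)⁻¹) • ((LQ Q) ^ j) P

lemma aj_zero (Q P : AA ℝ) : aj Q P 0 = P := by
  simp [aj]

lemma aj_succ (Q P : AA ℝ) (j : ℕ) : ((j + 1 : ℕ) : ℝ) • aj Q P (j + 1) = LQ Q (aj Q P j) := by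
  unfold aj
  rw [map_smul, pow_succ', Module.End.mul_apply, smul_smul]
  congr 1
  rw [Nat.factorial_succ]
  push_cast
  have : (j.factorial : ℝ) ≠ 0 := by positivity
  have : (j : ℝ) + 1 ≠ 0 := by positivity
  field_simp

lemma flow_eq (N : ℕ) (Q P : AA ℝ) : flow N Q P = ∑ j ∈ Finset.range N, aj Q P j := rfl

lemma low_aj {Q : AA ℝ} (hQ : Low 1 Q) (P : AA ℝ) (j : ℕ) : Low j (aj Q P j) := by
  induction j with
  | zero => exact low_zero _
  | succ j ih =>
    have h1 : Low (j + 1) (LQ Q (aj Q P j)) := by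
      rw [LQ_apply]
      exact (low_DQ hQ ih).add (ih.mul hQ)
    rw [← aj_succ] at h1
    intro w hw
    have := h1 w hw
    rw [cf_smul] at this
    rcases mul_eq_zero.1 this with h | h
    · exfalso
      have : ((j + 1 : ℕ) : ℝ) ≠ 0 := by positivity
      exact this h
    · exact h

section Poly

variable {E : Type*} [Ring E] [Algebra ℝ E]

/-- the flow at `(a, b)`, as a polynomial in the time -/
def Ph (N : ℕ) (Q P : AA ℝ) (a b : E) : E[X] :=
  ∑ j ∈ Finset.range N, monomial j (EV a b (aj Q P j))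

/-- the derivative of the flow -/
def DPh (N : ℕ) (Q P : AA ℝ) (a b : E) : E[X] :=
  ∑ j ∈ Finset.range N, monomial j (EV a b (DQ Q (aj Q P j)))

lemma coeff_sum_monomial (N : ℕ) (f : ℕ → E) (j : ℕ) :
    (∑ i ∈ Finset.range N, monomial i (f i) : E[X]).coeff j = if j < N then f j else 0 := by
  rw [finset_sum_coeff]
  simp only [coeff_monomial]
  rw [Finset.sum_ite_eq']
  simp only [Finset.mem_range]

variable {N : ℕ} {I : Submodule ℝ E} (hI : Nil N I) {Q : AA ℝ} (hQ : Low 1 Q) (P : AA ℝ)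
  {a b : E} (ha : a ∈ I) (hb : b ∈ I)

include hI hQ ha hb

lemma coeff_Ph (j : ℕ) : (Ph N Q P a b).coeff j = EV a b (aj Q P j) := by
  unfold Ph
  rw [coeff_sum_monomial]
  split_ifs with h
  · rfl
  · symm
    exact hI.EV_zero ha hb (fun w hw => low_aj hQ P j w (by omega))

lemma coeff_DPh (j : ℕ) : (DPh N Q P a b).coeff j = EV a b (DQ Q (aj Q P j)) := by
  unfold DPh
  rw [coeff_sum_monomial]
  split_ifs with h
  · rfl
  · symm
    exact hI.EV_zero ha hb (fun w hw => low_DQ hQ (low_aj hQ P j) w (by omega))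

lemma derivative_Ph :
    derivative (Ph N Q P a b) = DPh N Q P a b + Ph N Q P a b * C (EV a b Q) := by
  ext j
  rw [coeff_derivative, coeff_add, coeff_mul_C, coeff_Ph hI hQ P ha hb, coeff_Ph hI hQ P ha hb,
    coeff_DPh hI hQ P ha hb, ← map_mul, ← map_add, ← LQ_apply, ← aj_succ, map_smul]
  have : ((j : E) + 1) = algebraMap ℝ E ((j + 1 : ℕ) : ℝ) := by
    rw [map_natCast]
    push_cast
    rfl
  rw [this, ← Algebra.commutes, ← Algebra.smul_def]

end Poly

section Eval

variable {E : Type*} [Ring E] [Algebra ℝ E]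

/-- evaluation at the time one -/
def ev1 (E : Type*) [Ring E] : E[X] →+* E :=
  eval₂RingHom' (RingHom.id E) 1 (fun a => Commute.one_right a)

lemma ev1_monomial (j : ℕ) (c : E) : ev1 E (monomial j c) = c := by
  unfold ev1
  change eval₂ _ _ _ = _
  rw [eval₂_monomial, one_pow, mul_one]
  rfl

lemma ev1_Ph (N : ℕ) (Q P : AA ℝ) (a b : E) : ev1 E (Ph N Q P a b) = EV a b (flow N Q P) := by
  unfold Ph
  rw [map_sum, flow_eq, map_sum]
  exact Finset.sum_congr rfl (fun j _ => ev1_monomial j _)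

end Eval

section Rel

variable {E : Type*} [Ring E] [Algebra ℝ E]

/-- the polynomial `f` over the dual numbers is `p + ε q` -/
def Rel (f : (TrivSqZeroExt E E)[X]) (p q : E[X]) : Prop :=
  ∀ j, f.coeff j = TrivSqZeroExt.inl (p.coeff j) + TrivSqZeroExt.inr (q.coeff j)

lemma Rel.mul {f g : (TrivSqZeroExt E E)[X]} {p q r s : E[X]} (h1 : Rel f p q) (h2 : Rel g r s) :
    Rel (f * g) (p * r) (p * s + q * r) := by
  intro j
  rw [coeff_mul, coeff_mul, coeff_add, coeff_mul, coeff_mul]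
  ext
  · simp only [TrivSqZeroExt.fst_sum, TrivSqZeroExt.fst_mul, TrivSqZeroExt.fst_add,
      TrivSqZeroExt.fst_inl, TrivSqZeroExt.fst_inr, add_zero, h1 _, h2 _]
  · simp only [TrivSqZeroExt.snd_sum, TrivSqZeroExt.snd_mul, TrivSqZeroExt.snd_add,
      TrivSqZeroExt.snd_inl, TrivSqZeroExt.snd_inr, zero_add, h1 _, h2 _, TrivSqZeroExt.fst_add,
      TrivSqZeroExt.fst_inl, TrivSqZeroExt.fst_inr, add_zero, smul_eq_mul,
      MulOpposite.smul_eq_mul_unop, MulOpposite.unop_op, Finset.sum_add_distrib]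

lemma Rel.sub {f g : (TrivSqZeroExt E E)[X]} {p q r s : E[X]} (h1 : Rel f p q) (h2 : Rel g r s) :
    Rel (f - g) (p - r) (q - s) := by
  intro j
  rw [coeff_sub, coeff_sub, coeff_sub, h1, h2, TrivSqZeroExt.inl_sub, TrivSqZeroExt.inr_sub]
  abel

lemma Rel.coeff_zero {f : (TrivSqZeroExt E E)[X]} {p q : E[X]} (h : Rel f p q) {j : ℕ}
    (hj : f.coeff j = 0) : p.coeff j = 0 ∧ q.coeff j = 0 := by
  have := h j
  rw [hj] at this
  constructor
  · have h2 := congrArg TrivSqZeroExt.fst this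
    simpa using h2.symm
  · have h2 := congrArg TrivSqZeroExt.snd this
    simpa using h2.symm

variable {N : ℕ} {I : Submodule ℝ E} (hI : Nil N I) {Q : AA ℝ} (hQ : Low 1 Q) (P : AA ℝ)
  {a b : E} (ha : a ∈ I) (hb : b ∈ I) (c : E) {da db : E} (hda : cm (EV a b Q + c) a = da)
  (hdb : cm c b = db) (hda' : da ∈ I) (hdb' : db ∈ I)

include hI hQ ha hb hda hdb hda' hdb'

lemma rel_Ph : Rel (Ph N Q P (TrivSqZeroExt.inl a + TrivSqZeroExt.inr da : TrivSqZeroExt E E)
      (TrivSqZeroExt.inl b + TrivSqZeroExt.inr db)) (Ph N Q P a b)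
      (DPh N Q P a b + (C c * Ph N Q P a b - Ph N Q P a b * C c)) := by
  intro j
  have hA : (TrivSqZeroExt.inl a + TrivSqZeroExt.inr da : TrivSqZeroExt E E) ∈ dualI I := by
    rw [mem_dualI]
    simpa using ⟨ha, hda'⟩
  have hB : (TrivSqZeroExt.inl b + TrivSqZeroExt.inr db : TrivSqZeroExt E E) ∈ dualI I := by
    rw [mem_dualI]
    simpa using ⟨hb, hdb'⟩
  rw [coeff_Ph hI.dual hQ P hA hB, coeff_Ph hI hQ P ha hb, coeff_add, coeff_DPh hI hQ P ha hb,
    coeff_sub, coeff_C_mul, coeff_mul_C, coeff_Ph hI hQ P ha hb, ← hda, ← hdb,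
    EV_defo Q (aj Q P j) a b c]
  rfl

end Rel

end MP446S
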