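import Pool.Agent.Lib.MP_446dfa_ag.sig.Spec

set_option linter.all false

/-!
# The operators `ee` satisfy the infinitesimal braid relations
-/

noncomputable section

namespace MP446S

open MP446 MP446Y MP446Z

universe u v w

attribute [local instance 100] LieRing.ofAssociativeRing

namespace ModM

section

variable {k : Type v} [CommRing k] {A : Type w}

/-- the Leibniz rule -/
def Leib (D : Module.End k (FA k A)) : Prop := ∀ X Y, D (X * Y) = X * D Y + D X * Y

lemma leib_derF (d : A → FA k A) : Leib (derF d : Module.End k (FA k A)) :=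
  fun X Y => derF_mul d X Y

lemma Leib.add {D E : Module.End k (FA k A)} (hD : Leib D) (hE : Leib E) : Leib (D + E) := by
  intro X Y
  rw [LinearMap.add_apply, LinearMap.add_apply, LinearMap.add_apply, hD, hE]
  noncomm_ring

/-- two derivations commute if they commute on the letters -/
lemma Leib.comm {D E : Module.End k (FA k A)} (hD : Leib D) (hE : Leib E)
    (h : ∀ a, D (E (letter k a)) = E (D (letter k a))) : D * E = E * D := by
  have h1 : D * E - E * D = 0 := by
    refine leib_ext (D := D * E - E * D) (E := 0) ?_ ?_ ?_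
    · intro X Y
      simp only [LinearMap.sub_apply, Module.End.mul_apply]
      rw [hE, hD, map_add, map_add, hD, hD, hE, hE]
      noncomm_ring
    · intro X Y
      simp
    · intro a
      simp only [LinearMap.sub_apply, Module.End.mul_apply]
      rw [h, sub_self]
      rfl
  exact sub_eq_zero.1 h1

/-- the left multiplication -/
lemma Lx_apply (X Y : FA k (Fin 3)) : Lx k X Y = X * Y := rfl

lemma Leib.Lx {D : Module.End k (FA k (Fin 3))} (hD : Leib D) (X : FA k (Fin 3)) :
    D * Lx k X = Lx k X * D + Lx k (D X) := by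
  apply LinearMap.ext
  intro Y
  rw [LinearMap.add_apply, Module.End.mul_apply, Module.End.mul_apply, Lx_apply, Lx_apply,
    Lx_apply, hD]

lemma Lx_add (X Y : FA k (Fin 3)) : Lx k (X + Y) = Lx k X + Lx k Y := by
  apply LinearMap.ext
  intro Z
  rw [LinearMap.add_apply, Lx_apply, Lx_apply, Lx_apply, add_mul]

lemma Lx_mul (X Y : FA k (Fin 3)) : Lx k (X * Y) = Lx k X * Lx k Y := by
  apply LinearMap.ext
  intro Z
  rw [Module.End.mul_apply, Lx_apply, Lx_apply, Lx_apply, mul_assoc]

lemma Lx_sub (X Y : FA k (Fin 3)) : Lx k (X - Y) = Lx k X - Lx k Y := by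
  apply LinearMap.ext
  intro Z
  rw [LinearMap.sub_apply, Lx_apply, Lx_apply, Lx_apply, sub_mul]

lemma Lx_zero : Lx k (0 : FA k (Fin 3)) = 0 := by
  apply LinearMap.ext
  intro Z
  rw [Lx_apply, zero_mul]; rfl

lemma Lx_neg (X : FA k (Fin 3)) : Lx k (-X) = -Lx k X := by
  apply LinearMap.ext
  intro Z
  rw [LinearMap.neg_apply, Lx_apply, Lx_apply, neg_mul]

lemma leib_Dij (i j : Fin 3) : Leib (Dij k i j) := leib_derF _

@[simp] lemma Dij_letter (i j l : Fin 3) : Dij k i j (letter k l) = dij k i j l :=
  derF_letter _ _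

lemma Dij_mul (i j : Fin 3) (X Y : FA k (Fin 3)) :
    Dij k i j (X * Y) = X * Dij k i j Y + Dij k i j X * Y := leib_Dij i j X Y

lemma comm_a : Dij k 0 1 * (Dij k 0 2 + Dij k 1 2) = (Dij k 0 2 + Dij k 1 2) * Dij k 0 1 := by
  refine (leib_Dij 0 1).comm ((leib_Dij 0 2).add (leib_Dij 1 2)) ?_
  intro a
  fin_cases a <;>
  · simp [dij, Dij_mul]
    try noncomm_ring

lemma comm_b : Dij k 0 2 * (Dij k 0 1 + Dij k 1 2) = (Dij k 0 1 + Dij k 1 2) * Dij k 0 2 := by
  refine (leib_Dij 0 2).comm ((leib_Dij 0 1).add (leib_Dij 1 2)) ?_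
  intro a
  fin_cases a <;>
  · simp [dij, Dij_mul]
    try noncomm_ring

lemma comm_c : Dij k 1 2 * (Dij k 0 1 + Dij k 0 2) = (Dij k 0 1 + Dij k 0 2) * Dij k 1 2 := by
  refine (leib_Dij 1 2).comm ((leib_Dij 0 1).add (leib_Dij 0 2)) ?_
  intro a
  fin_cases a <;>
  · simp [dij, Dij_mul]
    try noncomm_ring

/-- the relation `[D_{ij}, x_i + x_j] = 0` -/
lemma rel_a (i j : Fin 3) (hij : i ≠ j) :
    Dij k i j * (Lx k (letter k i) + Lx k (letter k j)) =
      (Lx k (letter k i) + Lx k (letter k j)) * Dij k i j := by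
  rw [← Lx_add, (leib_Dij i j).Lx]
  have : Dij k i j (letter k i + letter k j) = 0 := by
    rw [map_add, Dij_letter, Dij_letter]
    simp [dij, hij, hij.symm]
  rw [this, Lx_zero, add_zero]

/-- the relation `[D_{ij}, x_l] = 0` -/
lemma rel_b (i j l : Fin 3) (hi : l ≠ i) (hj : l ≠ j) :
    Dij k i j * Lx k (letter k l) = Lx k (letter k l) * Dij k i j := by
  rw [(leib_Dij i j).Lx]
  have : Dij k i j (letter k l) = 0 := by
    rw [Dij_letter]
    simp [dij, hi, hj]
  rw [this, Lx_zero, add_zero]

/-- the relation `[x_i, D_{ij} + x_j] = 0` -/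
lemma rel_c (i j : Fin 3) :
    Lx k (letter k i) * (Dij k i j + Lx k (letter k j)) =
      (Dij k i j + Lx k (letter k j)) * Lx k (letter k i) := by
  rw [add_mul, mul_add, (leib_Dij i j).Lx]
  have : Dij k i j (letter k i) = letter k i * letter k j - letter k j * letter k i := by
    rw [Dij_letter]
    simp [dij]
  rw [this, Lx_sub, Lx_mul, Lx_mul]
  abel

/-- the relation `[x_j, D_{ij} + x_i] = 0` -/
lemma rel_d (i j : Fin 3) (hij : i ≠ j) :
    Lx k (letter k j) * (Dij k i j + Lx k (letter k i)) =
      (Dij k i j + Lx k (letter k i)) * Lx k (letter k j) := by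
  rw [add_mul, mul_add, (leib_Dij i j).Lx]
  have : Dij k i j (letter k j) = letter k j * letter k i - letter k i * letter k j := by
    rw [Dij_letter]
    simp [dij, hij.symm]
  rw [this, Lx_sub, Lx_mul, Lx_mul]
  abel

lemma e01 : ee k 0 1 = Dij k 0 1 := rfl
lemma e02 : ee k 0 2 = Dij k 0 2 := rfl
lemma e12 : ee k 1 2 = Dij k 1 2 := rfl
lemma e10 : ee k 1 0 = Dij k 0 1 := rfl
lemma e20 : ee k 2 0 = Dij k 0 2 := rfl
lemma e21 : ee k 2 1 = Dij k 1 2 := rfl
lemma e03 : ee k 0 3 = Lx k (letter k 0) := rfl
lemma e13 : ee k 1 3 = Lx k (letter k 1) := rfl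
lemma e23 : ee k 2 3 = Lx k (letter k 2) := rfl
lemma e30 : ee k 3 0 = Lx k (letter k 0) := rfl
lemma e31 : ee k 3 1 = Lx k (letter k 1) := rfl
lemma e32 : ee k 3 2 = Lx k (letter k 2) := rfl

theorem braid_ee : Braid (ee k) := by
  have a012 := rel_b (k := k) 0 1 2 (by decide) (by decide)
  have a021 := rel_b (k := k) 0 2 1 (by decide) (by decide)
  have a120 := rel_b (k := k) 1 2 0 (by decide) (by decide)
  have b1 := comm_a (k := k)
  have b2 := comm_b (k := k)
  have b3 := comm_c (k := k)
  have c1 := rel_a (k := k) 0 1 (by decide)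
  have c2 := rel_a (k := k) 0 2 (by decide)
  have c3 := rel_a (k := k) 1 2 (by decide)
  have d1 := rel_c (k := k) 0 1
  have d2 := rel_c (k := k) 0 2
  have d3 := rel_c (k := k) 1 2
  have f1 := rel_d (k := k) 0 1 (by decide)
  have f2 := rel_d (k := k) 0 2 (by decide)
  have f3 := rel_d (k := k) 1 2 (by decide)
  constructor
  · intro i j
    fin_cases i <;> fin_cases j
    all_goals simp only [Fin.zero_eta, Fin.mk_one, Fin.reduceFinMk, Fin.isValue, e01, e02, e12,
      e10, e20, e21, e03, e13, e23, e30, e31, e32]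
  · intro i j l m h1 h2 h3 h4 h5 h6
    fin_cases i <;> fin_cases j <;> first | exact absurd rfl h1 | skip
    all_goals (fin_cases l <;> first | exact absurd rfl h2 | exact absurd rfl h4 | skip)
    all_goals (fin_cases m <;> first | exact absurd rfl h3 | exact absurd rfl h5 | exact absurd rfl h6 | skip)
    all_goals
      clear h1 h2 h3 h4 h5 h6
      simp only [Fin.zero_eta, Fin.mk_one, Fin.reduceFinMk, Fin.isValue, e01, e02, e12, e10, e20,
        e21, e03, e13, e23, e30, e31, e32]
      with_reducible first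
        | exact a012
        | exact a021
        | exact a120
        | exact a012.symm
        | exact a021.symm
        | exact a120.symm
  · intro i j l h1 h2 h3
    fin_cases i <;> fin_cases j <;> first | exact absurd rfl h1 | skip
    all_goals (fin_cases l <;> first | exact absurd rfl h2 | exact absurd rfl h3 | skip)
    all_goals
      clear h1 h2 h3
      simp only [Fin.zero_eta, Fin.mk_one, Fin.reduceFinMk, Fin.isValue, e01, e02, e12, e10, e20,
        e21, e03, e13, e23, e30, e31, e32]
      with_reducible first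
        | exact b1
        | exact b2
        | exact b3
        | exact c1
        | exact c2
        | exact c3
        | exact d1
        | exact d2
        | exact d3
        | exact f1
        | exact f2
        | exact f3
        | (rw [add_comm]; exact b1)
        | (rw [add_comm]; exact b2)
        | (rw [add_comm]; exact b3)
        | (rw [add_comm]; exact c1)
        | (rw [add_comm]; exact c2)
        | (rw [add_comm]; exact c3)
        | (rw [add_comm]; exact d1)
        | (rw [add_comm]; exact d2)
        | (rw [add_comm]; exact d3)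
        | (rw [add_comm]; exact f1)
        | (rw [add_comm]; exact f2)
        | (rw [add_comm]; exact f3)

end

end ModM

/-- MODEL -/
theorem specMODEL : SpecMODEL.{u} := by
  intro K _
  exact ModM.braid_ee

end MP446S
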