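import Pool.Agent.Lib.MP_446dfa_ag.sig.Spec

set_option linter.all false

/-!
# Common lemmas
-/

noncomputable section

namespace MP446S

open MP446 MP446Y MP446Z

universe u v w

attribute [local instance 100] LieRing.ofAssociativeRing

section Cf

variable {k : Type v} [CommRing k]

@[simp] lemma cf_zero (w : List (Fin 2)) : cf (0 : AA k) w = 0 := rfl

@[simp] lemma cf_add (X Y : AA k) (w : List (Fin 2)) : cf (X + Y) w = cf X w + cf Y w := by
  unfold cf
  rw [MonoidAlgebra.coeff_add, Finsupp.add_apply]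

@[simp] lemma cf_smul (c : k) (X : AA k) (w : List (Fin 2)) : cf (c • X) w = c * cf X w := by
  unfold cf
  rw [MonoidAlgebra.coeff_smul, Finsupp.smul_apply, smul_eq_mul]

@[simp] lemma cf_neg (X : AA k) (w : List (Fin 2)) : cf (-X) w = -cf X w := by
  have := cf_smul (-1) X w
  rwa [neg_one_smul, neg_one_mul] at this

@[simp] lemma cf_sub (X Y : AA k) (w : List (Fin 2)) : cf (X - Y) w = cf X w - cf Y w := by
  rw [sub_eq_add_neg, cf_add, cf_neg, sub_eq_add_neg]

lemma cf_sum {ι : Type*} (s : Finset ι) (X : ι → AA k) (w : List (Fin 2)) :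
    cf (∑ i ∈ s, X i) w = ∑ i ∈ s, cf (X i) w := by
  classical
  induction s using Finset.induction_on with
  | empty => simp
  | insert i s hi ih => rw [Finset.sum_insert hi, Finset.sum_insert hi, cf_add, ih]

lemma cf_ow (w' w : List (Fin 2)) : cf (ow k w') w = if w' = w then 1 else 0 := ow_coeff w' w

lemma cf_one (w : List (Fin 2)) : cf (1 : AA k) w = if w = [] then 1 else 0 := by
  rw [← ow_nil, cf_ow]
  by_cases h : w = []
  · rw [if_pos h, if_pos h.symm]
  · rw [if_neg h, if_neg (fun h' => h h'.symm)]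

lemma AA_ext {X Y : AA k} (h : ∀ w, cf X w = cf Y w) : X = Y := by
  ext w
  exact h (FreeMonoid.toList w)

lemma AA_expand (X : AA k) : X = X.coeff.sum (fun w c => c • ow k (FreeMonoid.toList w)) := by
  induction X using MonoidAlgebra.induction_linear with
  | zero => simp
  | add f g hf hg =>
    rw [MonoidAlgebra.coeff_add, Finsupp.sum_add_index' (by simp) (by intros; rw [add_smul]),
      ← hf, ← hg]
  | single w c =>
    rw [MonoidAlgebra.coeff_single, Finsupp.sum_single_index (by simp), single_eq]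

/-- linear induction -/
lemma AA_lin {P : AA k → Prop} (how : ∀ w, P (ow k w)) (hadd : ∀ X Y, P X → P Y → P (X + Y))
    (hsmul : ∀ (c : k) X, P X → P (c • X)) (X : AA k) : P X := by
  induction X using MonoidAlgebra.induction_linear with
  | zero => simpa using hsmul 0 _ (how [])
  | add f g hf hg => exact hadd _ _ hf hg
  | single w c =>
    rw [single_eq]
    exact hsmul _ _ (how _)

lemma exists_cf (f : List (Fin 2) → k) (S : Finset (List (Fin 2))) :
    ∃ X : AA k, ∀ w, cf X w = if w ∈ S then f w else 0 := by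
  classical
  refine ⟨∑ v ∈ S, f v • ow k v, fun w => ?_⟩
  rw [cf_sum]
  simp only [cf_smul, cf_ow, mul_ite, mul_one, mul_zero]
  rw [Finset.sum_ite_eq']

lemma mem_wl (N : ℕ) (w : List (Fin 2)) : w ∈ wl N ↔ w.length < N := by
  induction N generalizing w with
  | zero => simp [wl]
  | succ N ih =>
    unfold wl
    cases w with
    | nil => simp
    | cons i w =>
      simp only [Finset.mem_insert, reduceCtorEq, Finset.mem_image, Finset.mem_product,
        Finset.mem_univ, true_and, Prod.exists, List.cons.injEq, false_or, List.length_cons,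
        Nat.add_lt_add_iff_right]
      constructor
      · rintro ⟨a, b, h, rfl, rfl⟩
        exact (ih _).1 h
      · intro h
        exact ⟨i, w, (ih w).2 h, rfl, rfl⟩

lemma cf_ow_mul (u : List (Fin 2)) (Y : AA k) (w : List (Fin 2)) :
    cf (ow k u * Y) w = if w.take u.length = u then cf Y (w.drop u.length) else 0 := by
  induction Y using AA_lin with
  | how v =>
    rw [← ow_append, cf_ow, cf_ow]
    by_cases h : u ++ v = w
    · subst h
      simp
    · rw [if_neg h]
      by_cases h2 : w.take u.length = u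
      · rw [if_pos h2, if_neg]
        intro h3
        apply h
        rw [h3, ← h2]
        conv_lhs => rw [h2]
        conv_rhs => rw [← List.take_append_drop u.length w, h2]
      · rw [if_neg h2]
  | hadd X Y hX hY =>
    rw [mul_add, cf_add, cf_add, hX, hY]
    split_ifs <;> simp
  | hsmul c X hX =>
    rw [mul_smul_comm, cf_smul, cf_smul, hX]
    split_ifs <;> simp

/-- the coefficients of a product -/
lemma cf_mul (X Y : AA k) (w : List (Fin 2)) :
    cf (X * Y) w = ∑ i ∈ Finset.range (w.length + 1), cf X (w.take i) * cf Y (w.drop i) := by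
  induction X using AA_lin with
  | how u =>
    rw [cf_ow_mul]
    simp only [cf_ow, ite_mul, one_mul, zero_mul]
    by_cases h : w.take u.length = u
    · rw [if_pos h]
      have hl : u.length ≤ w.length := by
        have := congrArg List.length h
        rw [List.length_take] at this
        omega
      rw [Finset.sum_eq_single u.length, if_pos h.symm]
      · intro b hb hb2
        rw [if_neg]
        rintro rfl
        apply hb2
        rw [List.length_take]
        rw [Finset.mem_range] at hb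
        omega
      · intro h2
        exact absurd (Finset.mem_range.2 (by omega)) h2
    · rw [if_neg h]
      symm
      apply Finset.sum_eq_zero
      intro i hi
      rw [if_neg]
      rintro rfl
      apply h
      rw [Finset.mem_range] at hi
      rw [List.length_take, min_eq_left (by omega)]
  | hadd X Z hX hZ =>
    rw [add_mul, cf_add, hX, hZ, ← Finset.sum_add_distrib]
    refine Finset.sum_congr rfl (fun i _ => ?_)
    rw [cf_add, add_mul]
  | hsmul c X hX =>
    rw [smul_mul_assoc, cf_smul, hX, Finset.mul_sum]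
    refine Finset.sum_congr rfl (fun i _ => ?_)
    rw [cf_smul, mul_assoc]

lemma EV_expand {E : Type*} [Ring E] [Algebra k E] (a b : E) (X : AA k) :
    EV a b X = X.coeff.sum (fun w c => c • ((FreeMonoid.toList w).map ![a, b]).prod) := by
  conv_lhs => rw [AA_expand X]
  rw [Finsupp.sum, map_sum, Finsupp.sum]
  refine Finset.sum_congr rfl (fun w _ => ?_)
  rw [map_smul, EV_ow]

/-- if all the words of length `≥ N` vanish at `(a, b)`, the evaluation is a finite sum over the
words of length `< N` -/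
lemma EV_wl {E : Type*} [Ring E] [Algebra k E] {N : ℕ} {a b : E}
    (h : ∀ w : List (Fin 2), N ≤ w.length → (w.map ![a, b]).prod = 0) (X : AA k) :
    EV a b X = ∑ w ∈ wl N, cf X w • (w.map ![a, b]).prod := by
  classical
  induction X using AA_lin with
  | how u =>
    rw [EV_ow]
    simp only [cf_ow, ite_smul, one_smul, zero_smul]
    rw [Finset.sum_ite_eq]
    split_ifs with h1
    · rfl
    · exact h u (by rw [mem_wl] at h1; omega)
  | hadd X Y hX hY =>
    rw [map_add, hX, hY, ← Finset.sum_add_distrib]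
    refine Finset.sum_congr rfl (fun w _ => ?_)
    rw [cf_add, add_smul]
  | hsmul c X hX =>
    rw [map_smul, hX, Finset.smul_sum]
    refine Finset.sum_congr rfl (fun w _ => ?_)
    rw [cf_smul, smul_smul]

lemma map_EV {E F : Type*} [Ring E] [Algebra k E] [Ring F] [Algebra k F] (φ : E →ₐ[k] F)
    (a b : E) (X : AA k) : φ (EV a b X) = EV (φ a) (φ b) X := by
  rw [EV_eq_EVn, EVn_comp, EV_eq_EVn]
  congr 2
  ext i
  fin_cases i <;> rfl

lemma EV_self (X : AA k) : EV (lt k 0) (lt k 1) X = X := by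
  have h : EV (lt k 0) (lt k 1) = AlgHom.id k (AA k) := by
    apply EVn_hom_ext
    intro i
    fin_cases i
    · exact EVn_letter _ _
    · exact EVn_letter _ _
  rw [h]; rfl

lemma EV_letter_zero {E : Type*} [Ring E] [Algebra k E] (a b : E) : EV a b (lt k 0) = a :=
  EVn_letter ![a, b] 0

lemma EV_letter_one {E : Type*} [Ring E] [Algebra k E] (a b : E) : EV a b (lt k 1) = b :=
  EVn_letter ![a, b] 1

/-- two algebra homomorphisms from the free algebra on two letters -/
lemma EV_unique {E : Type*} [Ring E] [Algebra k E] {a b : E} (f : AA k →ₐ[k] E)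
    (h0 : f (lt k 0) = a) (h1 : f (lt k 1) = b) (X : AA k) : f X = EV a b X := by
  have h : f = EV a b := by
    apply EVn_hom_ext
    intro i
    fin_cases i
    · exact h0.trans (EV_letter_zero a b).symm
    · exact h1.trans (EV_letter_one a b).symm
  rw [h]

lemma EV_comp {E : Type*} [Ring E] [Algebra k E] (a b : E) (U V X : AA k) :
    EV a b (EV U V X) = EV (EV a b U) (EV a b V) X := map_EV _ _ _ _

/-- an element commuting with `a`, `b` commutes with `X(a, b)` -/
lemma comm_EV {E : Type*} [Ring E] [Algebra k E] {a b z : E} (h1 : z * a = a * z)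
    (h2 : z * b = b * z) (X : AA k) : z * EV a b X = EV a b X * z :=
  (EV_commute h1.symm h2.symm X).symm

end Cf

section Nilp

variable {E : Type*} [Ring E] [Algebra ℝ E] {N : ℕ} {I : Submodule ℝ E}

lemma Nil.zero_of_le (h : Nil N I) (l : List E) (hl : ∀ x ∈ l, x ∈ I) (hN : N ≤ l.length) :
    l.prod = 0 := by
  rw [← List.take_append_drop N l, List.prod_append,
    h.prod_zero _ (fun x hx => hl x (List.mem_of_mem_take hx)) (by
      rw [List.length_take, min_eq_left hN]), zero_mul]

lemma Nil.mono (h : Nil N I) {N' : ℕ} (hN : N ≤ N') : Nil N' I :=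
  ⟨h.mul_mem, fun l hl h2 => h.zero_of_le l hl (by omega)⟩

lemma Nil.prod_mem (h : Nil N I) (l : List E) (hl : ∀ x ∈ l, x ∈ I) (hne : l ≠ []) :
    l.prod ∈ I := by
  induction l with
  | nil => exact absurd rfl hne
  | cons a l ih =>
    rw [List.prod_cons]
    by_cases h2 : l = []
    · subst h2
      rw [List.prod_nil, mul_one]
      exact hl a (by simp)
    · exact h.mul_mem _ (hl a (by simp)) _ (ih (fun x hx => hl x (by simp [hx])) h2)

lemma Nil.pow_zero (h : Nil N I) {a : E} (ha : a ∈ I) : a ^ N = 0 := by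
  rw [← List.prod_replicate]
  exact h.prod_zero _ (fun x hx => by rw [List.eq_of_mem_replicate hx]; exact ha) (by simp)

lemma map_mem {a b : E} (ha : a ∈ I) (hb : b ∈ I) (w : List (Fin 2)) :
    ∀ x ∈ w.map ![a, b], x ∈ I := by
  intro x hx
  obtain ⟨i, -, rfl⟩ := List.mem_map.1 hx
  fin_cases i
  · exact ha
  · exact hb

lemma Nil.word_zero (h : Nil N I) {a b : E} (ha : a ∈ I) (hb : b ∈ I) (w : List (Fin 2))
    (hw : N ≤ w.length) : (w.map ![a, b]).prod = 0 :=
  h.zero_of_le _ (map_mem ha hb w) (by rw [List.length_map]; exact hw)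

lemma Nil.EV_wl (h : Nil N I) {a b : E} (ha : a ∈ I) (hb : b ∈ I) (X : AA ℝ) :
    EV a b X = ∑ w ∈ wl N, cf X w • (w.map ![a, b]).prod :=
  MP446S.EV_wl (h.word_zero ha hb) X

/-- the value of a polynomial without constant term is in `I` -/
lemma Nil.EV_mem (h : Nil N I) {a b : E} (ha : a ∈ I) (hb : b ∈ I) {X : AA ℝ}
    (hX : cf X [] = 0) : EV a b X ∈ I := by
  rw [EV_expand]
  refine Submodule.sum_mem _ (fun w hw => ?_)
  change X.coeff w • _ ∈ I
  by_cases h2 : FreeMonoid.toList w = []
  · have h3 : X.coeff w = 0 := by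
      rw [← hX]
      unfold cf
      rw [← h2]
      rfl
    rw [h3, zero_smul]
    exact Submodule.zero_mem _
  · exact Submodule.smul_mem _ _ (h.prod_mem _ (map_mem ha hb _) (by simpa using h2))

/-- a polynomial all of whose words have length `≥ N` vanishes -/
lemma Nil.EV_zero (h : Nil N I) {a b : E} (ha : a ∈ I) (hb : b ∈ I) {X : AA ℝ}
    (hX : ∀ w : List (Fin 2), w.length < N → cf X w = 0) : EV a b X = 0 := by
  rw [h.EV_wl ha hb]
  refine Finset.sum_eq_zero (fun w hw => ?_)
  rw [hX w ((mem_wl N w).1 hw), zero_smul]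

/-- the dual numbers over `I` -/
def dualI (I : Submodule ℝ E) : Submodule ℝ (TrivSqZeroExt E E) where
  carrier := {x | x.fst ∈ I ∧ x.snd ∈ I}
  add_mem' := fun ha hb => ⟨I.add_mem ha.1 hb.1, I.add_mem ha.2 hb.2⟩
  zero_mem' := ⟨I.zero_mem, I.zero_mem⟩
  smul_mem' := fun c x hx => ⟨I.smul_mem c hx.1, I.smul_mem c hx.2⟩

lemma mem_dualI {x : TrivSqZeroExt E E} : x ∈ dualI I ↔ x.fst ∈ I ∧ x.snd ∈ I := Iff.rfl

lemma snd_prod_mem (h : Nil N I) (l : List (TrivSqZeroExt E E)) (hl : ∀ x ∈ l, x ∈ dualI I) :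
    (∃ L : List (List E), (∀ m ∈ L, m.length = l.length ∧ ∀ x ∈ m, x ∈ I) ∧
      l.prod.snd = (L.map List.prod).sum) ∧ l.prod.fst = (l.map TrivSqZeroExt.fst).prod := by
  induction l with
  | nil => exact ⟨⟨[], by simp, by simp⟩, by simp⟩
  | cons a l ih =>
    obtain ⟨⟨L, h1, h2⟩, h3⟩ := ih (fun x hx => hl x (by simp [hx]))
    have ha := hl a (by simp)
    refine ⟨⟨(a.snd :: l.map TrivSqZeroExt.fst) :: L.map (fun m => a.fst :: m), ?_, ?_⟩, ?_⟩
    · intro m hm
      rcases List.mem_cons.1 hm with rfl | hm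
      · refine ⟨by simp, fun x hx => ?_⟩
        rcases List.mem_cons.1 hx with rfl | hx
        · exact ha.2
        · obtain ⟨y, hy, rfl⟩ := List.mem_map.1 hx
          exact (hl y (by simp [hy])).1
      · obtain ⟨m', hm', rfl⟩ := List.mem_map.1 hm
        refine ⟨by rw [List.length_cons, List.length_cons, (h1 m' hm').1], fun x hx => ?_⟩
        rcases List.mem_cons.1 hx with rfl | hx
        · exact ha.1
        · exact (h1 m' hm').2 x hx
    · rw [List.prod_cons, TrivSqZeroExt.snd_mul, h2, h3]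
      simp only [List.map_cons, List.prod_cons, List.sum_cons, List.map_map, smul_eq_mul,
        MulOpposite.smul_eq_mul_unop, MulOpposite.unop_op]
      rw [add_comm]
      congr 1
      clear h1 h2
      induction L with
      | nil => simp
      | cons m L ih2 =>
        rw [List.map_cons, List.sum_cons, mul_add, ih2, List.map_cons, List.sum_cons]
        rfl
    · rw [List.prod_cons, TrivSqZeroExt.fst_mul, h3, List.map_cons, List.prod_cons]

lemma Nil.dual (h : Nil N I) : Nil N (dualI I) := by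
  refine ⟨fun x hx y hy => ⟨?_, ?_⟩, fun l hl hN => ?_⟩
  · rw [TrivSqZeroExt.fst_mul]; exact h.mul_mem _ hx.1 _ hy.1
  · rw [TrivSqZeroExt.snd_mul]
    exact I.add_mem (h.mul_mem _ hx.1 _ hy.2) (h.mul_mem _ hx.2 _ hy.1)
  · obtain ⟨⟨L, h1, h2⟩, h3⟩ := snd_prod_mem h l hl
    ext
    · rw [h3]
      exact h.prod_zero _ (by
        intro x hx
        obtain ⟨y, hy, rfl⟩ := List.mem_map.1 hx
        exact (hl y hy).1) (by rw [List.length_map, hN])
    · rw [h2]
      have h4 : ∀ y ∈ L.map List.prod, y = 0 := by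
        intro y hy
        obtain ⟨m, hm, rfl⟩ := List.mem_map.1 hy
        exact h.prod_zero _ (h1 m hm).2 ((h1 m hm).1.trans hN)
      rw [List.sum_eq_zero h4]
      rfl

end Nilp

section Defor

variable {k : Type v} [CommRing k]

@[simp] lemma DQ_lt_zero (Q : AA k) : DQ Q (lt k 0) = Q * lt k 0 - lt k 0 * Q := derF_letter _ 0

@[simp] lemma DQ_lt_one (Q : AA k) : DQ Q (lt k 1) = 0 := derF_letter _ 1

@[simp] lemma DQ_mul (Q X Y : AA k) : DQ Q (X * Y) = X * DQ Q Y + DQ Q X * Y := derF_mul _ _ _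

@[simp] lemma DQ_one (Q : AA k) : DQ Q 1 = 0 := derF_one _

lemma LQ_apply (Q X : AA k) : LQ Q X = DQ Q X + X * Q := rfl

/-- the evaluation at a deformation of the arguments by inner derivations -/
lemma EV_defo {E : Type*} [Ring E] [Algebra k E] (Q X : AA k) (a b c : E) :
    EV (TrivSqZeroExt.inl a + TrivSqZeroExt.inr (cm (EV a b Q + c) a) : TrivSqZeroExt E E)
      (TrivSqZeroExt.inl b + TrivSqZeroExt.inr (cm c b)) X =
    TrivSqZeroExt.inl (EV a b X) + TrivSqZeroExt.inr (EV a b (DQ Q X) + cm c (EV a b X)) := by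
  induction X using FA_induction with
  | h1 =>
    rw [map_one, map_one, DQ_one, map_zero]
    simp [cm]
  | hmul i X ih =>
    rw [map_mul, map_mul, DQ_mul, map_add, map_mul, map_mul, ih]
    have h : ∀ x y x' y' : E, (TrivSqZeroExt.inl x + TrivSqZeroExt.inr y : TrivSqZeroExt E E) *
        (TrivSqZeroExt.inl x' + TrivSqZeroExt.inr y') = TrivSqZeroExt.inl (x * x') +
          TrivSqZeroExt.inr (x * y' + y * x') := by
      intro x y x' y'
      ext <;> simp
    fin_cases i
    · change EV _ _ (lt k 0) * _ = TrivSqZeroExt.inl (EV a b (lt k 0) * _) +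
        TrivSqZeroExt.inr (EV a b (lt k 0) * _ + EV a b (DQ Q (lt k 0)) * _ +
          cm c (EV a b (lt k 0) * _))
      rw [EV_letter_zero, EV_letter_zero, DQ_lt_zero, map_sub, map_mul, map_mul, EV_letter_zero, h]
      congr 2
      simp only [cm, mul_add, add_mul, mul_sub, sub_mul, mul_assoc]
      abel
    · change EV _ _ (lt k 1) * _ = TrivSqZeroExt.inl (EV a b (lt k 1) * _) +
        TrivSqZeroExt.inr (EV a b (lt k 1) * _ + EV a b (DQ Q (lt k 1)) * _ +
          cm c (EV a b (lt k 1) * _))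
      rw [EV_letter_one, EV_letter_one, DQ_lt_one, map_zero, h]
      congr 2
      simp only [cm, mul_add, add_mul, mul_sub, sub_mul, mul_assoc, zero_mul, add_zero]
      abel
  | hadd X Y hX hY =>
    rw [map_add, hX, hY, map_add, map_add, map_add]
    simp only [cm, mul_add, add_mul, TrivSqZeroExt.inl_add, TrivSqZeroExt.inr_add,
      TrivSqZeroExt.inr_sub]
    abel
  | hsmul r X hX =>
    rw [map_smul, hX, map_smul, map_smul, map_smul]
    ext <;> simp [cm, mul_smul_comm, smul_mul_assoc, smul_sub, smul_add]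

end Defor

section BraidL

lemma braid_iff {E : Type u} [Ring E] (t : Fin 4 → Fin 4 → E) : Braid t ↔ InfBraid t := by
  constructor
  · intro h
    refine ⟨h.symm, fun i j k l h1 h2 h3 h4 h5 h6 => ?_, fun i j k h1 h2 h3 => ?_⟩
    · rw [LieRing.of_associative_ring_bracket, h.comm i j k l h1 h2 h3 h4 h5 h6, sub_self]
    · rw [LieRing.of_associative_ring_bracket, h.rel i j k h1 h2 h3, sub_self]
  · intro h
    refine ⟨h.symm, fun i j k l h1 h2 h3 h4 h5 h6 => ?_, fun i j k h1 h2 h3 => ?_⟩
    · have := h.comm i j k l h1 h2 h3 h4 h5 h6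
      rwa [LieRing.of_associative_ring_bracket, sub_eq_zero] at this
    · have := h.rel i j k h1 h2 h3
      rwa [LieRing.of_associative_ring_bracket, sub_eq_zero] at this

variable {K : Type u} [Field K]

lemma coef_eq_cf (ψ : F2 K) (w : List (Fin 2)) : coef ψ w = cf (assoc K ψ) w := rfl

/-- the pentagon equation for one family, in an associative algebra -/
lemma PLt_assoc {E : Type u} [Ring E] [Algebra K E] (t : Fin 4 → Fin 4 → E) (ψ : F2 K) :
    PLt t (assoc K ψ) ↔ ev (t 0 1) (t 1 2 + t 1 3) ψ + ev (t 0 2 + t 1 2) (t 2 3) ψ =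
      ev (t 1 2) (t 2 3) ψ + ev (t 0 1 + t 0 2) (t 1 3 + t 2 3) ψ + ev (t 0 1) (t 1 2) ψ := by
  rw [ev_eq_EV, ev_eq_EV, ev_eq_EV, ev_eq_EV, ev_eq_EV]
  rfl

@[simp] lemma ev_gA {L : Type u} [LieRing L] [LieAlgebra K L] (a b : L) :
    ev a b (gA K) = a := by
  unfold ev gA
  rw [FreeLieAlgebra.lift_of_apply]
  rfl

@[simp] lemma ev_gB {L : Type u} [LieRing L] [LieAlgebra K L] (a b : L) :
    ev a b (gB K) = b := by
  unfold ev gB
  rw [FreeLieAlgebra.lift_of_apply]
  rfl

lemma ev_self (ψ : F2 K) : ev (gA K) (gB K) ψ = ψ := by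
  induction ψ using F2_induction with
  | hA => rw [ev_gA]
  | hB => rw [ev_gB]
  | hadd x y hx hy => rw [map_add, hx, hy]
  | hsmul c x hx => rw [map_smul, hx]
  | hlie x y hx hy => rw [LieHom.map_lie, hx, hy]

lemma map_ev {L L' : Type u} [LieRing L] [LieAlgebra K L] [LieRing L'] [LieAlgebra K L']
    (f : L →ₗ⁅K⁆ L') (a b : L) (ψ : F2 K) : f (ev a b ψ) = ev (f a) (f b) ψ := by
  induction ψ using F2_induction with
  | hA => rw [ev_gA, ev_gA]
  | hB => rw [ev_gB, ev_gB]
  | hadd x y hx hy => rw [map_add, map_add, map_add, hx, hy]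
  | hsmul c x hx => rw [map_smul, map_smul, map_smul, hx]
  | hlie x y hx hy => rw [LieHom.map_lie, LieHom.map_lie, LieHom.map_lie, hx, hy]

lemma ev_ev {L : Type u} [LieRing L] [LieAlgebra K L] (a b : L) (φ χ ψ : F2 K) :
    ev a b (ev φ χ ψ) = ev (ev a b φ) (ev a b χ) ψ := map_ev _ _ _ _

/-- an element commuting with `a`, `b` commutes with `ψ(a, b)` -/
lemma lie_ev {L : Type u} [LieRing L] [LieAlgebra K L] {a b z : L} (h1 : ⁅z, a⁆ = 0)
    (h2 : ⁅z, b⁆ = 0) (ψ : F2 K) : ⁅z, ev a b ψ⁆ = 0 := by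
  induction ψ using F2_induction with
  | hA => rw [ev_gA, h1]
  | hB => rw [ev_gB, h2]
  | hadd x y hx hy => rw [map_add, lie_add, hx, hy, add_zero]
  | hsmul c x hx => rw [map_smul, lie_smul, hx, smul_zero]
  | hlie x y hx hy => rw [LieHom.map_lie, leibniz_lie, hx, hy, zero_lie, lie_zero, add_zero]

lemma cf_lie_one (φ χ : F2 K) (i : Fin 2) : coef ⁅φ, χ⁆ [i] = 0 := by
  have h0 : ∀ ψ : F2 K, cf (assoc K ψ) [] = 0 := assoc_coeff_nil
  rw [coef_eq_cf, LieHom.map_lie, LieRing.of_associative_ring_bracket, cf_sub, cf_mul, cf_mul]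
  simp [Finset.sum_range_succ, h0]

/-- the effect of a shift by central elements -/
lemma ev_shift_gen {L : Type u} [LieRing L] [LieAlgebra K L] {a b z z' : L} (h1 : ⁅z, a⁆ = 0)
    (h2 : ⁅z, b⁆ = 0) (h1' : ⁅z', a⁆ = 0) (h2' : ⁅z', b⁆ = 0) (h3 : ⁅z, z'⁆ = 0) (ψ : F2 K) :
    ev (a + z) (b + z') ψ = ev a b ψ + coef ψ [0] • z + coef ψ [1] • z' := by
  have h4 : ⁅z', z⁆ = 0 := by rw [← lie_skew, h3, neg_zero]
  induction ψ using F2_induction with
  | hA =>
    rw [ev_gA, ev_gA, coef_eq_cf, coef_eq_cf, assoc_gA, lt, cf_ow, cf_ow]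
    simp
  | hB =>
    rw [ev_gB, ev_gB, coef_eq_cf, coef_eq_cf, assoc_gB, lt, cf_ow, cf_ow]
    simp
  | hadd x y hx hy =>
    rw [map_add, map_add, hx, hy, coef_add, coef_add, add_smul, add_smul]
    abel
  | hsmul c x hx =>
    rw [map_smul, map_smul, hx, coef_smul, coef_smul, smul_add, smul_add, smul_smul, smul_smul]
  | hlie x y hx hy =>
    have e1 : ⁅ev a b x, z⁆ = 0 := by rw [← lie_skew, lie_ev h1 h2, neg_zero]
    have e2 : ⁅ev a b x, z'⁆ = 0 := by rw [← lie_skew, lie_ev h1' h2', neg_zero]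
    rw [LieHom.map_lie, LieHom.map_lie, hx, hy, cf_lie_one, cf_lie_one]
    simp only [lie_add, add_lie, lie_smul, smul_lie, e1, e2, lie_ev h1 h2 y, lie_ev h1' h2' y,
      lie_self, h3, h4, smul_zero, add_zero, zero_smul]

section Hm

variable {n : ℕ} {ψ : F2 K} (hn : 2 ≤ n) (hψ : Hom n (assoc K ψ))
include hn hψ

lemma coef_one_zero (i : Fin 2) : coef ψ [i] = 0 := hψ [i] (by simp; omega)

/-- central shifts of the arguments are harmless -/
lemma ev_shift {L : Type u} [LieRing L] [LieAlgebra K L] {a b z z' : L} (h1 : ⁅z, a⁆ = 0)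
    (h2 : ⁅z, b⁆ = 0) (h1' : ⁅z', a⁆ = 0) (h2' : ⁅z', b⁆ = 0) (h3 : ⁅z, z'⁆ = 0) :
    ev (a + z) (b + z') ψ = ev a b ψ := by
  rw [ev_shift_gen h1 h2 h1' h2' h3, coef_one_zero hn hψ, coef_one_zero hn hψ, zero_smul,
    zero_smul, add_zero, add_zero]

lemma ev_shift_left {L : Type u} [LieRing L] [LieAlgebra K L] {a b z : L} (h1 : ⁅z, a⁆ = 0)
    (h2 : ⁅z, b⁆ = 0) : ev (a + z) b ψ = ev a b ψ := by
  have := ev_shift hn hψ h1 h2 (z' := 0) (zero_lie a) (zero_lie b) (lie_zero z)
  rwa [add_zero] at this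

lemma ev_shift_right {L : Type u} [LieRing L] [LieAlgebra K L] {a b z : L} (h1 : ⁅z, a⁆ = 0)
    (h2 : ⁅z, b⁆ = 0) : ev a (b + z) ψ = ev a b ψ := by
  have := ev_shift hn hψ (zero_lie a) (zero_lie b) h1 h2 (zero_lie z)
  rwa [add_zero] at this

lemma ev_of_comm {L : Type u} [LieRing L] [LieAlgebra K L] {a b : L} (h : ⁅a, b⁆ = 0) :
    ev a b ψ = 0 := by
  have h2 : ⁅b, a⁆ = 0 := by rw [← lie_skew, h, neg_zero]
  have h0 : ∀ φ : F2 K, ev (0 : L) (0 : L) φ = 0 := by
    intro φ
    induction φ using F2_induction with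
    | hA => rw [ev_gA]
    | hB => rw [ev_gB]
    | hadd x y hx hy => rw [map_add, hx, hy, add_zero]
    | hsmul c x hx => rw [map_smul, hx, smul_zero]
    | hlie x y hx hy => rw [LieHom.map_lie, hx, zero_lie]
  have := ev_shift hn hψ (a := (0 : L)) (b := (0 : L)) (z := a) (z' := b) (lie_zero a)
    (lie_zero a) (lie_zero b) (lie_zero b) h
  rwa [zero_add, zero_add, h0] at this

end Hm

end BraidL

end MP446S
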