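import Pool.Agent.Lib.MP_446dfa_ag.sig.Lim

set_option linter.all false

/-!
# COEF: the coefficients of the universal polynomial
-/

noncomputable section

namespace MP446S

open MP446 MP446Y MP446Z Set Filter Topology

universe u v w

attribute [local instance 100] LieRing.ofAssociativeRing

/-! ## Iterated integrals -/

lemma om_cont (i : Fin 2) : ContinuousOn (om i) (Ioo 0 1) := by
  unfold om
  fin_cases i
  · simp only [Fin.zero_eta, if_true]
    exact ContinuousOn.inv₀ continuousOn_id (fun x hx => hx.1.ne')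
  · simp only [Fin.mk_one, one_ne_zero, if_false]
    exact ContinuousOn.inv₀ (continuousOn_id.sub continuousOn_const)
      (fun x hx => (sub_neg.2 hx.2).ne)

lemma uIcc_sub {s t : ℝ} (hs : s ∈ Ioo (0 : ℝ) 1) (ht : t ∈ Ioo (0 : ℝ) 1) :
    uIcc s t ⊆ Ioo (0 : ℝ) 1 := by
  intro x hx
  rw [mem_uIcc] at hx
  rcases hx with h | h
  · exact ⟨lt_of_lt_of_le hs.1 h.1, lt_of_le_of_lt h.2 ht.2⟩
  · exact ⟨lt_of_lt_of_le ht.1 h.1, lt_of_le_of_lt h.2 hs.2⟩

lemma prim_deriv {f : ℝ → ℝ} (hf : ContinuousOn f (Ioo 0 1)) {s t : ℝ}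
    (hs : s ∈ Ioo (0 : ℝ) 1) (ht : t ∈ Ioo (0 : ℝ) 1) :
    HasDerivAt (fun t => ∫ r in s..t, f r) (f t) t := by
  apply intervalIntegral.integral_hasDerivAt_right
  · exact (hf.mono (uIcc_sub hs ht)).intervalIntegrable
  · exact hf.stronglyMeasurableAtFilter isOpen_Ioo t ht
  · exact hf.continuousAt (isOpen_Ioo.mem_nhds ht)

lemma II_cont (w : List (Fin 2)) {s : ℝ} (hs : s ∈ Ioo (0 : ℝ) 1) :
    ContinuousOn (fun t => II w s t) (Ioo 0 1) := by
  induction w with
  | nil => exact continuousOn_const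
  | cons i w ih =>
    intro t ht
    exact (prim_deriv (f := fun r => om i r * II w s r) ((om_cont i).mul ih) hs
      ht).continuousAt.continuousWithinAt

lemma II_deriv (i : Fin 2) (w : List (Fin 2)) {s t : ℝ} (hs : s ∈ Ioo (0 : ℝ) 1)
    (ht : t ∈ Ioo (0 : ℝ) 1) : HasDerivAt (fun t => II (i :: w) s t) (om i t * II w s t) t :=
  prim_deriv (f := fun r => om i r * II w s r) ((om_cont i).mul (II_cont w hs)) hs ht

lemma II_self (i : Fin 2) (w : List (Fin 2)) (s : ℝ) : II (i :: w) s s = 0 := by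
  change ∫ r in s..s, om i r * II w s r = 0
  exact intervalIntegral.integral_same

lemma II_x (k : ℕ) {s t : ℝ} (hs : s ∈ Ioo (0 : ℝ) 1) (ht : t ∈ Ioo (0 : ℝ) 1) :
    II (List.replicate k 0) s t = (Real.log t - Real.log s) ^ k / (k.factorial : ℝ) := by
  induction k generalizing t with
  | zero => simp [II]
  | succ k ih =>
    rw [List.replicate_succ]
    change ∫ r in s..t, om 0 r * II (List.replicate k 0) s r = _
    have h1 : ∀ x ∈ uIcc s t, HasDerivAt
        (fun x => (Real.log x - Real.log s) ^ (k + 1) / ((k + 1).factorial : ℝ))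
        (om 0 x * II (List.replicate k 0) s x) x := by
      intro x hx
      have hx' := uIcc_sub hs ht hx
      rw [ih hx']
      have h2 := (((Real.hasDerivAt_log hx'.1.ne').sub_const (Real.log s)).pow (k + 1)).div_const
        ((k + 1).factorial : ℝ)
      refine h2.congr_deriv ?_
      simp only [om, if_true]
      have h3 : (k.factorial : ℝ) ≠ 0 := by exact_mod_cast k.factorial_ne_zero
      rw [Nat.factorial_succ]
      push_cast
      have h4 : (k : ℝ) + 1 ≠ 0 := by positivity
      have h5 : x ≠ 0 := hx'.1.ne'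
      field_simp
    rw [intervalIntegral.integral_eq_sub_of_hasDerivAt h1]
    · simp
    · exact (((om_cont 0).mul (II_cont _ hs)).mono (uIcc_sub hs ht)).intervalIntegrable

lemma II_y {s t : ℝ} (hs : s ∈ Ioo (0 : ℝ) 1) (ht : t ∈ Ioo (0 : ℝ) 1) :
    II [1] s t = Real.log (1 - t) - Real.log (1 - s) := by
  change ∫ r in s..t, om 1 r * II [] s r = _
  have h1 : ∀ x ∈ uIcc s t, HasDerivAt (fun x => Real.log (1 - x)) (om 1 x * II [] s x) x := by
    intro x hx
    have hx' := uIcc_sub hs ht hx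
    have h3 : (1 : ℝ) - x ≠ 0 := (sub_pos.2 hx'.2).ne'
    have h2 := ((hasDerivAt_id x).const_sub 1).log h3
    refine h2.congr_deriv ?_
    simp only [om, one_ne_zero, if_false, II, mul_one]
    rw [← neg_sub 1 x, inv_neg, neg_div, one_div]
    rfl
  rw [intervalIntegral.integral_eq_sub_of_hasDerivAt h1]
  exact (((om_cont 1).mul (II_cont _ hs)).mono (uIcc_sub hs ht)).intervalIntegrable

lemma II_xny (k : ℕ) {s t : ℝ} (hs : s ∈ Ioo (0 : ℝ) 1) (ht : t ∈ Ioo (0 : ℝ) 1) (hst : s ≤ t) :
    II (xny k) s t ≤ -((t - s) ^ (k + 1) / ((k + 1).factorial : ℝ)) := by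
  have hint : ∀ j : ℕ, ∀ t : ℝ, ∫ r in s..t, -((r - s) ^ j / (j.factorial : ℝ)) =
      -((t - s) ^ (j + 1) / ((j + 1).factorial : ℝ)) := by
    intro j t
    rw [intervalIntegral.integral_neg, intervalIntegral.integral_div,
      intervalIntegral.integral_comp_sub_right (fun x => x ^ j), integral_pow, sub_self,
      zero_pow (by omega), sub_zero, Nat.factorial_succ]
    push_cast
    rw [div_div]
  induction k generalizing t with
  | zero =>
    change ∫ r in s..t, om 1 r * II [] s r ≤ _
    rw [← hint 0 t]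
    apply intervalIntegral.integral_mono_on hst
    · exact (((om_cont 1).mul (II_cont _ hs)).mono (uIcc_sub hs ht)).intervalIntegrable
    · exact (by fun_prop : Continuous fun r : ℝ => -((r - s) ^ 0 / ((Nat.factorial 0 : ℕ) : ℝ))).intervalIntegrable _ _
    · intro x hx
      have hx1 : x < 1 := lt_of_le_of_lt hx.2 ht.2
      have hx0 : 0 < x := lt_of_lt_of_le hs.1 hx.1
      simp only [om, one_ne_zero, if_false, II, mul_one, pow_zero, Nat.factorial_zero,
        Nat.cast_one, div_one]
      rw [← neg_sub 1 x, inv_neg, neg_le_neg_iff]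
      exact (one_le_inv₀ (sub_pos.2 hx1)).2 (by linarith)
  | succ k ih =>
    change ∫ r in s..t, om 0 r * II (xny k) s r ≤ _
    rw [← hint (k + 1) t]
    apply intervalIntegral.integral_mono_on hst
    · exact (((om_cont 0).mul (II_cont _ hs)).mono (uIcc_sub hs ht)).intervalIntegrable
    · exact (by fun_prop : Continuous fun r : ℝ => -((r - s) ^ (k + 1) / (((k + 1).factorial : ℕ) : ℝ))).intervalIntegrable _ _
    · intro x hx
      have hx1 : x < 1 := lt_of_le_of_lt hx.2 ht.2
      have hx0 : 0 < x := lt_of_lt_of_le hs.1 hx.1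
      have h1 := ih ⟨hx0, hx1⟩ hx.1
      have h2 : 1 ≤ om 0 x := by
        simp only [om, if_true]
        exact (one_le_inv₀ hx0).2 hx1.le
      have h3 : 0 ≤ (x - s) ^ (k + 1) / (((k + 1).factorial : ℕ) : ℝ) :=
        div_nonneg (pow_nonneg (sub_nonneg.2 hx.1) _) (by positivity)
      nlinarith

/-! ## The coefficients -/

lemma lt_pow (i : Fin 2) (j : ℕ) : (lt ℝ i) ^ j = ow ℝ (List.replicate j i) := by
  induction j with
  | zero => rw [pow_zero, List.replicate_zero, ow_nil]
  | succ j ih => rw [pow_succ', ih, List.replicate_succ, ow_cons]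

lemma cf_ey (N : ℕ) (c : ℝ) (i : Fin 2) (w : List (Fin 2)) : cf (ey N c i) w =
    ∑ j ∈ Finset.range N, (c ^ j / (j.factorial : ℝ)) * if List.replicate j i = w then 1 else 0 := by
  unfold ey
  rw [cf_sum]
  refine Finset.sum_congr rfl (fun j _ => ?_)
  rw [cf_smul, lt_pow, cf_ow]

lemma cf_ey_rep {N : ℕ} (c : ℝ) (i : Fin 2) {k : ℕ} (hk : k < N) :
    cf (ey N c i) (List.replicate k i) = c ^ k / (k.factorial : ℝ) := by
  rw [cf_ey, Finset.sum_eq_single k]
  · simp
  · intro j _ hj
    rw [if_neg, mul_zero]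
    intro h
    apply hj
    simpa using congrArg List.length h
  · intro h
    exact absurd (Finset.mem_range.2 hk) h

lemma cf_ey_ne {N : ℕ} (c : ℝ) (i j : Fin 2) {w : List (Fin 2)} (hij : j ≠ i) (hj : j ∈ w) :
    cf (ey N c i) w = 0 := by
  rw [cf_ey]
  refine Finset.sum_eq_zero (fun m _ => ?_)
  rw [if_neg, mul_zero]
  rintro rfl
  exact hij (List.eq_of_mem_replicate hj)

lemma cf_ey_nil {N : ℕ} (hN : 1 ≤ N) (c : ℝ) (i : Fin 2) : cf (ey N c i) [] = 1 := by
  have := cf_ey_rep (N := N) c i (k := 0) hN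
  simpa using this

lemma cf_UP {N : ℕ} {s t : ℝ} {w : List (Fin 2)} (hw : w.length < N) :
    cf (UP N s t) w = II w s t := by
  unfold UP
  rw [cf_sum]
  simp only [cf_smul, cf_ow, mul_ite, mul_one, mul_zero]
  rw [Finset.sum_ite_eq', if_pos ((mem_wl N w).2 hw)]

lemma cf_PP_nil {N : ℕ} (hN : 1 ≤ N) (a b : ℝ) : cf (PP N a b) [] = 1 := by
  unfold PP
  rw [cf_mul]
  simp only [List.length_nil, zero_add, Finset.range_one, Finset.sum_singleton, List.take_nil,
    List.drop_nil]
  rw [cf_mul]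
  simp only [List.length_nil, zero_add, Finset.range_one, Finset.sum_singleton, List.take_nil,
    List.drop_nil]
  rw [cf_ey_nil hN, cf_ey_nil hN, cf_UP (by rw [List.length_nil]; omega)]
  simp [II]

lemma cf_left {N : ℕ} (hN : 1 ≤ N) (c s t : ℝ) {w : List (Fin 2)} (hw : w.length < N)
    (h0 : w.head? ≠ some 1) : cf (ey N c 1 * UP N s t) w = II w s t := by
  rw [cf_mul, Finset.sum_eq_single 0]
  · rw [List.take_zero, List.drop_zero, cf_ey_nil hN, one_mul, cf_UP hw]
  · intro i hi hi0
    cases w with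
    | nil => simp at hi; omega
    | cons j w =>
      have hj : j = 0 := by
        rw [List.head?_cons] at h0
        by_contra h
        apply h0
        congr 1
        omega
      subst hj
      rw [cf_ey_ne c 1 0 (by decide), zero_mul]
      obtain ⟨i, rfl⟩ := Nat.exists_eq_succ_of_ne_zero hi0
      simp
  · intro h
    exact absurd (Finset.mem_range.2 (by omega)) h

lemma cf_PP_x {N k : ℕ} (hk : k < N) {a b : ℝ} (ha : a ∈ Ioo (0 : ℝ) 1)
    (hb : b ∈ Ioo (0 : ℝ) 1) :
    cf (PP N a b) (List.replicate k 0) = Real.log (1 - b) ^ k / (k.factorial : ℝ) := by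
  have hN : 1 ≤ N := by omega
  have hb' : 1 - b ∈ Ioo (0 : ℝ) 1 := ⟨by linarith [hb.2], by linarith [hb.1]⟩
  unfold PP
  rw [cf_mul, List.length_replicate]
  have h1 : ∀ i ∈ Finset.range (k + 1),
      cf (ey N (-Real.log b) 1 * UP N a (1 - b)) ((List.replicate k 0).take i) *
        cf (ey N (Real.log a) 0) ((List.replicate k 0).drop i) =
      (Real.log (1 - b) - Real.log a) ^ i * Real.log a ^ (k - i) * (k.choose i : ℝ) /
        (k.factorial : ℝ) := by
    intro i hi
    rw [Finset.mem_range] at hi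
    rw [List.take_replicate, List.drop_replicate, min_eq_left (by omega), cf_left hN,
      cf_ey_rep _ _ (by omega), II_x i ha hb', Nat.cast_choose ℝ (by omega : i ≤ k)]
    · have h1 : (i.factorial : ℝ) ≠ 0 := by exact_mod_cast i.factorial_ne_zero
      have h2 : ((k - i).factorial : ℝ) ≠ 0 := by exact_mod_cast (k - i).factorial_ne_zero
      have h3 : (k.factorial : ℝ) ≠ 0 := by exact_mod_cast k.factorial_ne_zero
      field_simp
    · rw [List.length_replicate]; omega
    · cases i with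
      | zero => simp
      | succ i => simp [List.replicate_succ]
  rw [Finset.sum_congr rfl h1, ← Finset.sum_div]
  congr 1
  have h2 := add_pow (Real.log (1 - b) - Real.log a) (Real.log a) k
  rw [sub_add_cancel] at h2
  exact h2.symm

lemma cf_PP_y {N : ℕ} (hN : 1 < N) {a b : ℝ} (ha : a ∈ Ioo (0 : ℝ) 1)
    (hb : b ∈ Ioo (0 : ℝ) 1) : cf (PP N a b) [1] = -Real.log (1 - a) := by
  have hb' : 1 - b ∈ Ioo (0 : ℝ) 1 := ⟨by linarith [hb.2], by linarith [hb.1]⟩
  unfold PP
  have h1 : cf (ey N (-Real.log b) 1) [1] = -Real.log b := by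
    have := cf_ey_rep (N := N) (-Real.log b) 1 (k := 1) hN
    simpa using this
  rw [cf_mul, List.length_singleton, Finset.sum_range_succ, Finset.sum_range_succ,
    Finset.sum_range_zero, zero_add]
  simp only [List.take_zero, List.drop_zero, List.take_succ_cons, List.drop_succ_cons]
  rw [cf_ey_ne _ 0 1 (by decide) (by simp), mul_zero, zero_add, cf_ey_nil hN.le, mul_one,
    cf_mul, List.length_singleton, Finset.sum_range_succ, Finset.sum_range_succ,
    Finset.sum_range_zero, zero_add]
  simp only [List.take_zero, List.drop_zero, List.take_succ_cons, List.drop_succ_cons]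
  rw [cf_ey_nil hN.le, h1, one_mul, cf_UP (by simpa using hN), cf_UP (by simp; omega),
    II_y ha hb']
  simp only [II, sub_sub_cancel]
  ring

lemma cf_PP_xny {N k : ℕ} (hk : 1 ≤ k) (hkN : k + 1 < N) (a b : ℝ) :
    cf (PP N a b) (xny k) = II (xny k) a (1 - b) := by
  have hN : 1 ≤ N := by omega
  have hlen : (xny k).length = k + 1 := by simp [xny]
  unfold PP
  rw [cf_mul, hlen, Finset.sum_range_succ, Finset.sum_eq_zero, zero_add]
  · rw [← hlen, List.take_length, List.drop_length, cf_ey_nil hN, mul_one, cf_left hN]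
    · omega
    · obtain ⟨j, rfl⟩ := Nat.exists_eq_succ_of_ne_zero (by omega : k ≠ 0)
      simp [xny, List.replicate_succ]
  · intro i hi
    rw [Finset.mem_range] at hi
    rw [cf_ey_ne _ 0 1 (by decide), mul_zero]
    have h2 : (xny k).drop i = List.replicate (k - i) 0 ++ [1] := by
      unfold xny
      rw [List.drop_append, List.drop_replicate, List.length_replicate]
      congr 1
      rw [show i - k = 0 by omega, List.drop_zero]
    rw [h2]
    simp

/-! ## The limits -/

lemma cf_tendsto {N : ℕ} (hN : 1 ≤ N) {P : AA ℝ} (h : KZlim N P) {w : List (Fin 2)}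
    (hw : w.length < N) : Tendsto (fun a => cf (PP N a a) w) (𝓝[>] 0) (𝓝 (cf P w)) := by
  obtain ⟨C, hC⟩ := cf_lim hN h
  rw [tendsto_iff_norm_sub_tendsto_zero]
  have h1 : Tendsto (fun a : ℝ => C * (√a + √a)) (𝓝[>] 0) (𝓝 0) := by
    have h2 : Continuous (fun a : ℝ => C * (√a + √a)) := by fun_prop
    have h3 := h2.tendsto 0
    simp only [Real.sqrt_zero, add_zero, mul_zero] at h3
    exact h3.mono_left nhdsWithin_le_nhds
  refine squeeze_zero' (Eventually.of_forall (fun a => norm_nonneg _)) ?_ h1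
  have h4 : Ioc (0 : ℝ) (1 / 2) ∈ 𝓝[>] (0 : ℝ) := Ioc_mem_nhdsGT (by norm_num)
  filter_upwards [h4] with a ha
  exact hC a a ha.1 ha.2 ha.1 ha.2 w hw

lemma log_tendsto : Tendsto (fun a : ℝ => Real.log (1 - a)) (𝓝[>] 0) (𝓝 0) := by
  have h1 : ContinuousAt (fun a : ℝ => Real.log (1 - a)) 0 := by
    apply ContinuousAt.log (by fun_prop)
    norm_num
  have h2 := h1.tendsto
  simp only [sub_zero, Real.log_one] at h2
  exact h2.mono_left nhdsWithin_le_nhds

theorem specCOEF : SpecCOEF := by
  intro N P hN h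
  have hIoo : Ioo (0 : ℝ) (1 / 4) ∈ 𝓝[>] (0 : ℝ) := Ioo_mem_nhdsGT (by norm_num)
  refine ⟨⟨?_, fun k hk hkN => ?_⟩, fun hN1 => ?_, fun k hk hkN => ?_⟩
  · have h1 := cf_tendsto hN h (w := []) (by rw [List.length_nil]; omega)
    simp only [cf_PP_nil hN] at h1
    exact tendsto_nhds_unique h1 tendsto_const_nhds |>.symm ▸ rfl
  · have h1 := cf_tendsto hN h (w := List.replicate k 0) (by simpa using hkN)
    have h2 : Tendsto (fun a => cf (PP N a a) (List.replicate k 0)) (𝓝[>] 0) (𝓝 0) := by
      have h3 := (log_tendsto.pow k).div_const (k.factorial : ℝ)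
      rw [zero_pow (by omega), zero_div] at h3
      refine h3.congr' ?_
      filter_upwards [hIoo] with a ha
      have ha' : a ∈ Ioo (0 : ℝ) 1 := ⟨ha.1, by linarith [ha.2]⟩
      exact (cf_PP_x hkN ha' ha').symm
    exact tendsto_nhds_unique h1 h2
  · have h1 := cf_tendsto hN h (w := [1]) (by simpa using hN1)
    have h2 : Tendsto (fun a => cf (PP N a a) [1]) (𝓝[>] 0) (𝓝 0) := by
      have h3 := log_tendsto.neg
      rw [neg_zero] at h3
      refine h3.congr' ?_
      filter_upwards [hIoo] with a ha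
      have ha' : a ∈ Ioo (0 : ℝ) 1 := ⟨ha.1, by linarith [ha.2]⟩
      exact (cf_PP_y hN1 ha' ha').symm
    exact tendsto_nhds_unique h1 h2
  · have h1 := cf_tendsto hN h (w := xny k) (by simpa [xny] using hkN)
    have hpos : (0 : ℝ) < (1 / 2) ^ (k + 1) / (((k + 1).factorial : ℕ) : ℝ) := by positivity
    have h2 : cf P (xny k) ≤ -((1 / 2) ^ (k + 1) / (((k + 1).factorial : ℕ) : ℝ)) := by
      refine le_of_tendsto h1 ?_
      filter_upwards [hIoo] with a ha
      have ha' : a ∈ Ioo (0 : ℝ) 1 := ⟨ha.1, by linarith [ha.2]⟩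
      have hb' : 1 - a ∈ Ioo (0 : ℝ) 1 := ⟨by linarith [ha.2], by linarith [ha.1]⟩
      rw [cf_PP_xny hk hkN]
      refine (II_xny k ha' hb' (by linarith [ha.2])).trans ?_
      rw [neg_le_neg_iff]
      have h3 : (1 / 2 : ℝ) ≤ 1 - a - a := by linarith [ha.2]
      gcongr
    linarith

end MP446S

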