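import Pool.Agent.Lib.MP_446dfa_ag.sig.Basic

set_option linter.all false

/-!
# EDGE: the transport of a perturbed equation
-/

noncomputable section

namespace MP446S

open MP446 MP446Y MP446Z Set MeasureTheory

attribute [local instance 100] LieRing.ofAssociativeRing

lemma EDGE_LL_le {a b x : ℝ} (ha : 0 < a) (hb : 0 < b) (hx : x ∈ Icc a (1 - b)) :
    LL x (1 - x) ≤ LL a b := by
  have h0 : 0 < x := ha.trans_le hx.1
  have h1 : x ≤ 1 := by linarith [hx.2]
  have h2 : b ≤ 1 - x := by linarith [hx.2]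
  have e1 : |Real.log x| ≤ |Real.log a| := by
    rw [abs_of_nonpos (Real.log_nonpos h0.le h1)]
    have := Real.log_le_log ha hx.1
    linarith [neg_abs_le (Real.log a)]
  have e2 : |Real.log (1 - x)| ≤ |Real.log b| := by
    rw [abs_of_nonpos (Real.log_nonpos (by linarith) (by linarith))]
    have := Real.log_le_log hb h2
    linarith [neg_abs_le (Real.log b)]
  unfold LL
  linarith

lemma EDGE_one_le_LL (a b : ℝ) : 1 ≤ LL a b := by
  unfold LL
  linarith [abs_nonneg (Real.log a), abs_nonneg (Real.log b)]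

/-- a linear differential inequality -/
lemma EDGE_gron {E : Type} [NormedRing E] [NormedAlgebra ℝ E] [CompleteSpace E] {a c ρ k : ℝ}
    (hac : a ≤ c) {g : ℝ → ℝ} {V V' : ℝ → E} (hk : 0 ≤ k)
    (hg : ContinuousOn g (Icc a c)) (hρ : (∫ x in a..c, |g x|) ≤ ρ) (hρk : ρ * k ≤ 1 / 2)
    (hV : ∀ x ∈ Icc a c, HasDerivAt V (V' x) x) (hV' : ContinuousOn V' (Icc a c))
    (hb : ∀ x ∈ Icc a c, ‖V' x‖ ≤ |g x| * (k * ‖V x‖)) :
    ‖V c - V a‖ ≤ 2 * (ρ * k) * ‖V a‖ := by
  have hVc : ContinuousOn V (Icc a c) := fun x hx => (hV x hx).continuousAt.continuousWithinAt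
  obtain ⟨m, hm, hmax⟩ := isCompact_Icc.exists_isMaxOn (nonempty_Icc.2 hac) hVc.norm
  have hρ0 : 0 ≤ ρ := (intervalIntegral.integral_nonneg hac (fun x _ => abs_nonneg _)).trans hρ
  have key : ∀ x ∈ Icc a c, ‖V x - V a‖ ≤ ρ * k * ‖V m‖ := by
    intro x hx
    have hsub : Icc a x ⊆ Icc a c := Icc_subset_Icc_right hx.2
    have hsub' : uIcc a x ⊆ Icc a c := by rw [uIcc_of_le hx.1]; exact hsub
    have hint : IntervalIntegrable V' volume a x :=
      (hV'.mono hsub').intervalIntegrable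
    have h1 := intervalIntegral.integral_eq_sub_of_hasDerivAt
      (fun y hy => hV y (hsub' hy)) hint
    rw [← h1]
    have hgi : IntervalIntegrable (fun y => |g y| * (k * ‖V m‖)) volume a x :=
      ((hg.mono hsub').abs.mul continuousOn_const).intervalIntegrable
    have hgi0 : IntervalIntegrable (fun y => |g y|) volume a c := by
      refine ContinuousOn.intervalIntegrable ?_
      rw [uIcc_of_le hac]
      exact hg.abs
    calc ‖∫ y in a..x, V' y‖ ≤ ∫ y in a..x, ‖V' y‖ :=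
          intervalIntegral.norm_integral_le_integral_norm hx.1
      _ ≤ ∫ y in a..x, |g y| * (k * ‖V m‖) := by
          refine intervalIntegral.integral_mono_on hx.1 hint.norm hgi (fun y hy => ?_)
          refine (hb y (hsub hy)).trans ?_
          exact mul_le_mul_of_nonneg_left (mul_le_mul_of_nonneg_left (hmax (hsub hy)) hk)
            (abs_nonneg _)
      _ = (∫ y in a..x, |g y|) * (k * ‖V m‖) := intervalIntegral.integral_mul_const _ _
      _ ≤ ρ * (k * ‖V m‖) := by
          refine mul_le_mul_of_nonneg_right (le_trans ?_ hρ) (by positivity)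
          refine intervalIntegral.integral_mono_interval le_rfl hx.1 hx.2
            (Filter.Eventually.of_forall (fun y => abs_nonneg _)) hgi0
      _ = ρ * k * ‖V m‖ := by ring
  have h2 : ‖V m‖ ≤ 2 * ‖V a‖ := by
    have h3 := key m hm
    have h4 : ‖V m‖ ≤ ‖V m - V a‖ + ‖V a‖ := by
      have := norm_add_le (V m - V a) (V a)
      rwa [sub_add_cancel] at this
    have h5 : ρ * k * ‖V m‖ ≤ 1 / 2 * ‖V m‖ := mul_le_mul_of_nonneg_right hρk (norm_nonneg _)
    linarith
  have h6 := key c ⟨hac, le_rfl⟩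
  have h7 : ρ * k * ‖V m‖ ≤ ρ * k * (2 * ‖V a‖) := mul_le_mul_of_nonneg_left h2 (by positivity)
  linarith

/-- EDGE: the transport of a perturbed equation. -/
theorem specEDGE (hKZ : SpecKZ) (hPW : SpecPW) : SpecEDGE := by
  intro N P hP E _ _ _ I hI A hA B hB T
  obtain ⟨hU1, hU2, hU3, C0, hC0⟩ := hKZ N E I hI A hA B hB
  obtain ⟨C1, hC1⟩ := hP E I hI A hA B hB
  obtain ⟨-, -, hB1, hB2, -, -, -, ⟨C2, hC2⟩, -⟩ := hPW N E B (hI.pow_zero hB)
  obtain ⟨-, -, hA1, hA2, -, -, -, -, -⟩ := hPW N E A (hI.pow_zero hA)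
  obtain ⟨-, -, -, -, -, -, -, ⟨C3, hC3⟩, -⟩ := hPW N E (-A) (hI.pow_zero (I.neg_mem hA))
  set c0 : ℝ := |C0| * 2 ^ N with hc0
  set K0 : ℝ := c0 ^ 2 * ‖T‖ with hK0
  set c4 : ℝ := |C2| * |C1| * |C3| with hc4
  have hc0' : 0 ≤ c0 := by positivity
  have hK0' : 0 ≤ K0 := by positivity
  have hc4' : 0 ≤ c4 := by positivity
  refine ⟨2 * K0 + 2 * c0 * K0 + c4, 3 * N, ?_⟩
  intro a b ρ g Z ha ha2 hb hb2 hρ hg hgρ hsmall hZ
  set L : ℝ := LL a b with hL
  have hL1 : 1 ≤ L := EDGE_one_le_LL a b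
  have hab : a ≤ 1 - b := by linarith
  have hmem : ∀ x ∈ Icc a (1 - b), x ∈ Ioo (0 : ℝ) 1 := fun x hx =>
    ⟨ha.trans_le hx.1, by linarith [hx.2]⟩
  have haI : a ∈ Icc a (1 - b) := ⟨le_rfl, hab⟩
  have hbI : 1 - b ∈ Icc a (1 - b) := ⟨hab, le_rfl⟩
  -- the bound for the transport
  have hUb : ∀ x ∈ Icc a (1 - b), ∀ y ∈ Icc a (1 - b), ‖UU N A B x y‖ ≤ c0 * L ^ N := by
    intro x hx y hy
    refine (hC0 x (hmem x hx) y (hmem y hy)).trans ?_
    have h1 := EDGE_LL_le ha hb hx
    have h2 := EDGE_LL_le ha hb hy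
    have h3 := EDGE_one_le_LL x (1 - x)
    have h4 := EDGE_one_le_LL y (1 - y)
    have h5 : (LL x (1 - x) + LL y (1 - y)) ^ N ≤ (2 * L) ^ N :=
      pow_le_pow_left₀ (by linarith) (by linarith) N
    calc C0 * (LL x (1 - x) + LL y (1 - y)) ^ N ≤ |C0| * (LL x (1 - x) + LL y (1 - y)) ^ N :=
          mul_le_mul_of_nonneg_right (le_abs_self _) (by positivity)
      _ ≤ |C0| * (2 * L) ^ N := mul_le_mul_of_nonneg_left h5 (abs_nonneg _)
      _ = c0 * L ^ N := by rw [hc0, mul_pow]; ring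
  -- the inverse of the transport
  have hinv1' : ∀ x ∈ Ioo (0 : ℝ) 1, UU N A B a x * UU N A B x a = 1 := by
    intro x hx
    rw [← hU3 a (hmem a haI) x hx x hx, hU1 x hx]
  have hinv2' : ∀ x ∈ Ioo (0 : ℝ) 1, UU N A B x a * UU N A B a x = 1 := by
    intro x hx
    rw [← hU3 x hx a (hmem a haI) a (hmem a haI), hU1 a (hmem a haI)]
  have hinv1 : ∀ x ∈ Icc a (1 - b), UU N A B a x * UU N A B x a = 1 := fun x hx =>
    hinv1' x (hmem x hx)
  have hda : ∀ x ∈ Icc a (1 - b),
      HasDerivAt (fun x => UU N A B x a) (-(UU N A B x a * Om A B x)) x := by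
    intro x hx
    have hx' := hmem x hx
    have h1 := (hasFDerivAt_ringInverse (𝕜 := ℝ)
      (⟨UU N A B a x, UU N A B x a, hinv1' x hx', hinv2' x hx'⟩ : Eˣ)).comp_hasDerivAt x
      (hU2 a (hmem a haI) x hx')
    have h2 : (fun x => UU N A B x a) =ᶠ[nhds x] Ring.inverse ∘ fun t => UU N A B a t := by
      filter_upwards [Ioo_mem_nhds hx'.1 hx'.2] with y hy
      exact (Ring.inverse_unit
        (⟨UU N A B a y, UU N A B y a, hinv1' y hy, hinv2' y hy⟩ : Eˣ)).symm
    refine (h1.congr_of_eventuallyEq h2).congr_deriv ?_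
    change -(UU N A B x a * (Om A B x * UU N A B a x) * UU N A B x a) = _
    rw [mul_assoc (UU N A B x a), mul_assoc (Om A B x), hinv1' x hx', mul_one]
  -- the variation of constants
  set V : ℝ → E := fun x => UU N A B x a * Z x with hV
  have hVd : ∀ x ∈ Icc a (1 - b), HasDerivAt V (g x • (UU N A B x a * T * Z x)) x := by
    intro x hx
    have h1 := (hda x hx).mul (hZ x hx)
    refine h1.congr_deriv ?_
    rw [add_mul, mul_add, smul_mul_assoc, mul_smul_comm]
    noncomm_ring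
  have hZV : ∀ x ∈ Icc a (1 - b), Z x = UU N A B a x * V x := by
    intro x hx
    rw [hV]
    simp only
    rw [← mul_assoc, hinv1 x hx, one_mul]
  have hVa : V a = Z a := by
    rw [hV]
    simp only
    rw [hU1 a (hmem a haI), one_mul]
  have hVb : ‖V (1 - b) - V a‖ ≤ 2 * (ρ * (K0 * L ^ (2 * N))) * ‖V a‖ := by
    refine EDGE_gron hab (by positivity) hg hgρ ?_ hVd ?_ ?_
    · have h1 : (2 * K0) * L ^ (2 * N) ≤ (2 * K0 + 2 * c0 * K0 + c4) * L ^ (3 * N) := by
        refine mul_le_mul (by nlinarith) (pow_le_pow_right₀ hL1 (by omega)) (by positivity)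
          (by positivity)
      have h2 := mul_le_mul_of_nonneg_left h1 hρ
      nlinarith
    · refine hg.smul ?_
      refine ContinuousOn.mul (ContinuousOn.mul (fun x hx => ?_) continuousOn_const)
        (fun x hx => ?_)
      · exact (hda x hx).continuousAt.continuousWithinAt
      · exact (hZ x hx).continuousAt.continuousWithinAt
    · intro x hx
      rw [norm_smul, Real.norm_eq_abs]
      refine mul_le_mul_of_nonneg_left ?_ (abs_nonneg _)
      rw [hZV x hx]
      have h1 := hUb x hx a haI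
      have h2 := hUb a haI x hx
      calc ‖UU N A B x a * T * (UU N A B a x * V x)‖
          ≤ ‖UU N A B x a‖ * ‖T‖ * (‖UU N A B a x‖ * ‖V x‖) := by
            refine (norm_mul_le _ _).trans ?_
            exact mul_le_mul (norm_mul_le _ _) (norm_mul_le _ _) (norm_nonneg _) (by positivity)
        _ ≤ (c0 * L ^ N) * ‖T‖ * ((c0 * L ^ N) * ‖V x‖) := by gcongr
        _ = K0 * L ^ (2 * N) * ‖V x‖ := by rw [hK0, two_mul N, pow_add]; ring
  -- the transport
  have hU : ‖UU N A B a (1 - b) - pw B b * EV A B P * pw (-A) a‖ ≤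
      c4 * L ^ (2 * N) * (√a + √b) := by
    have e1 : UU N A B a (1 - b) - pw B b * EV A B P * pw (-A) a =
        pw B b * (pw (-B) b * UU N A B a (1 - b) * pw A a - EV A B P) * pw (-A) a := by
      have h1 := hB1 b
      have h2 := hA1 a
      rw [mul_sub, sub_mul]
      congr 1
      calc UU N A B a (1 - b) = (pw B b * pw (-B) b) * UU N A B a (1 - b) *
            (pw A a * pw (-A) a) := by rw [h1, h2, one_mul, mul_one]
        _ = _ := by noncomm_ring
    rw [e1]
    have hlb : (1 + |Real.log b|) ≤ L := by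
      rw [hL]; unfold LL; linarith [abs_nonneg (Real.log a)]
    have hla : (1 + |Real.log a|) ≤ L := by
      rw [hL]; unfold LL; linarith [abs_nonneg (Real.log b)]
    have h1 : ‖pw B b‖ ≤ |C2| * L ^ N := by
      refine (hC2 b hb).trans ?_
      refine mul_le_mul (le_abs_self _) (pow_le_pow_left₀ (by positivity) hlb N) (by positivity)
        (abs_nonneg _)
    have h2 : ‖pw (-A) a‖ ≤ |C3| * L ^ N := by
      refine (hC3 a ha).trans ?_
      refine mul_le_mul (le_abs_self _) (pow_le_pow_left₀ (by positivity) hla N) (by positivity)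
        (abs_nonneg _)
    have h3 : ‖pw (-B) b * UU N A B a (1 - b) * pw A a - EV A B P‖ ≤ |C1| * (√a + √b) := by
      refine (hC1 a b ha ha2 hb hb2).trans ?_
      exact mul_le_mul_of_nonneg_right (le_abs_self _) (by positivity)
    calc ‖pw B b * (pw (-B) b * UU N A B a (1 - b) * pw A a - EV A B P) * pw (-A) a‖
        ≤ ‖pw B b‖ * ‖pw (-B) b * UU N A B a (1 - b) * pw A a - EV A B P‖ * ‖pw (-A) a‖ := by
          refine (norm_mul_le _ _).trans ?_
          exact mul_le_mul_of_nonneg_right (norm_mul_le _ _) (norm_nonneg _)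
      _ ≤ (|C2| * L ^ N) * (|C1| * (√a + √b)) * (|C3| * L ^ N) := by gcongr
      _ = c4 * L ^ (2 * N) * (√a + √b) := by rw [hc4, two_mul N, pow_add]; ring
  have e2 : Z (1 - b) - pw B b * EV A B P * pw (-A) a * Z a =
      UU N A B a (1 - b) * (V (1 - b) - V a) +
        (UU N A B a (1 - b) - pw B b * EV A B P * pw (-A) a) * Z a := by
    rw [hZV (1 - b) hbI, hVa, mul_sub, sub_mul]
    abel
  rw [e2]
  have hsa : 0 ≤ √a + √b := by positivity
  have hp : L ^ (2 * N) ≤ L ^ (3 * N) := pow_le_pow_right₀ hL1 (by omega)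
  calc ‖UU N A B a (1 - b) * (V (1 - b) - V a) +
        (UU N A B a (1 - b) - pw B b * EV A B P * pw (-A) a) * Z a‖
      ≤ ‖UU N A B a (1 - b)‖ * ‖V (1 - b) - V a‖ +
        ‖UU N A B a (1 - b) - pw B b * EV A B P * pw (-A) a‖ * ‖Z a‖ :=
        (norm_add_le _ _).trans (add_le_add (norm_mul_le _ _) (norm_mul_le _ _))
    _ ≤ (c0 * L ^ N) * (2 * (ρ * (K0 * L ^ (2 * N))) * ‖V a‖) +
        (c4 * L ^ (2 * N) * (√a + √b)) * ‖Z a‖ := by
        have := hUb a haI (1 - b) hbI
        gcongr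
    _ = (2 * c0 * K0 * L ^ (3 * N) * ρ + c4 * L ^ (2 * N) * (√a + √b)) * ‖Z a‖ := by
        rw [hVa, show 3 * N = N + 2 * N by ring, pow_add L N (2 * N)]; ring
    _ ≤ (2 * K0 + 2 * c0 * K0 + c4) * L ^ (3 * N) * (√a + √b + ρ) * ‖Z a‖ := by
        refine mul_le_mul_of_nonneg_right ?_ (norm_nonneg _)
        have h1 : c4 * L ^ (2 * N) * (√a + √b) ≤ c4 * L ^ (3 * N) * (√a + √b) := by gcongr
        have h2 : 0 ≤ 2 * K0 * L ^ (3 * N) * (√a + √b + ρ) := by positivity
        have h3 : 0 ≤ 2 * c0 * K0 * L ^ (3 * N) * (√a + √b) := by positivity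
        have h4 : 0 ≤ c4 * L ^ (3 * N) * ρ := by positivity
        nlinarith

end MP446S
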