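import Pool.Agent.Lib.MP_446dfa_ag.sig.Basic

set_option linter.all false

/-!
# KGL: the regularized transport is group-like
-/

noncomputable section

namespace MP446S

open MP446 MP446Y MP446Z Set Filter Topology

universe u v w

/-- an element commuting with `A`, `B` commutes with the transport -/
lemma comm_UU {E : Type*} [Ring E] [Algebra ℝ E] {N : ℕ} {A B z : E} (h1 : z * A = A * z)
    (h2 : z * B = B * z) (s t : ℝ) : z * UU N A B s t = UU N A B s t * z := comm_EV h1 h2 _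

lemma Om_add {E : Type*} [NormedRing E] [NormedAlgebra ℝ E] (A B A' B' : E) (x : ℝ) :
    Om (A + A') (B + B') x = Om A B x + Om A' B' x := by
  simp only [Om, smul_add]
  abel

lemma comm_Om {E : Type*} [NormedRing E] [NormedAlgebra ℝ E] {A B z : E} (h1 : z * A = A * z)
    (h2 : z * B = B * z) (x : ℝ) : z * Om A B x = Om A B x * z := by
  simp only [Om, mul_add, add_mul, mul_smul_comm, smul_mul_assoc, h1, h2]

lemma continuousOn_Om {E : Type*} [NormedRing E] [NormedAlgebra ℝ E] (A B : E) {s t : ℝ}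
    (hs : s ∈ Ioo (0 : ℝ) 1) (ht : t ∈ Ioo (0 : ℝ) 1) : ContinuousOn (Om A B) (Icc s t) := by
  unfold Om
  refine ContinuousOn.add ?_ ?_
  · refine ContinuousOn.smul (ContinuousOn.inv₀ continuousOn_id fun x hx => ?_) continuousOn_const
    have := hx.1
    have := hs.1
    change x ≠ 0
    linarith
  · refine ContinuousOn.smul (ContinuousOn.inv₀ (continuousOn_id.sub continuousOn_const)
      fun x hx => ?_) continuousOn_const
    have := hx.2
    have := ht.2
    change x - 1 ≠ 0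
    linarith

lemma UU_add (hU : SpecUNIQ) (hK : SpecKZ) {N : ℕ} {E : Type} [NormedRing E] [NormedAlgebra ℝ E]
    {I : Submodule ℝ E} (hI : Nil N I) {A B A' B' : E} (hA : A ∈ I) (hB : B ∈ I) (hA' : A' ∈ I)
    (hB' : B' ∈ I) (hc : Com2 A B A' B') {s t : ℝ} (hs : s ∈ Ioo (0 : ℝ) 1)
    (ht : t ∈ Ioo (0 : ℝ) 1) (hst : s ≤ t) :
    UU N (A + A') (B + B') s t = UU N A B s t * UU N A' B' s t := by
  obtain ⟨k1, k2, -⟩ := hK N E I hI A hA B hB
  obtain ⟨k1', k2', -⟩ := hK N E I hI A' hA' B' hB'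
  obtain ⟨l1, l2, -⟩ := hK N E I hI (A + A') (I.add_mem hA hA') (B + B') (I.add_mem hB hB')
  have hio : ∀ x ∈ Icc s t, x ∈ Ioo (0 : ℝ) 1 := fun x hx =>
    ⟨lt_of_lt_of_le hs.1 hx.1, lt_of_le_of_lt hx.2 ht.2⟩
  refine hU E s t s (Om (A + A') (B + B')) (fun x => UU N (A + A') (B + B') s x)
    (fun x => UU N A B s x * UU N A' B' s x) le_rfl hst (continuousOn_Om _ _ hs ht)
    (fun x hx => l2 s hs x (hio x hx)) (fun x hx => ?_) ?_ t ⟨hst, le_rfl⟩
  · have h1 := (k2 s hs x (hio x hx)).mul (k2' s hs x (hio x hx))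
    have h2 : Om A' B' x * UU N A B s x = UU N A B s x * Om A' B' x := by
      refine comm_UU ?_ ?_ s x
      · exact (comm_Om hc.h1 hc.h2 x).symm
      · exact (comm_Om hc.h3 hc.h4 x).symm
    have h3 : Om A B x * UU N A B s x * UU N A' B' s x +
        UU N A B s x * (Om A' B' x * UU N A' B' s x) =
        Om (A + A') (B + B') x * (UU N A B s x * UU N A' B' s x) := by
      rw [Om_add, add_mul, mul_assoc, ← mul_assoc (UU N A B s x) (Om A' B' x), ← h2, mul_assoc]
    exact h3 ▸ h1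
  · simp only [l1 s hs, k1 s hs, k1' s hs, mul_one]

theorem specKGL (hU : SpecUNIQ) (hK : SpecKZ) (hP : SpecPW) : SpecKGL := by
  intro N P hlim E _ _ _ I hI A B A' B' hA hB hA' hB' hc
  obtain ⟨C, hC⟩ := hlim E I hI A hA B hB
  obtain ⟨C', hC'⟩ := hlim E I hI A' hA' B' hB'
  obtain ⟨C'', hC''⟩ := hlim E I hI (A + A') (I.add_mem hA hA') (B + B') (I.add_mem hB hB')
  -- the three limits along `a = b → 0`
  have hlimit : ∀ (X : ℝ → E) (Y : E) (D : ℝ), (∀ a, 0 < a → a ≤ 1 / 2 →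
      ‖X a - Y‖ ≤ D * (√a + √a)) → Tendsto X (𝓝[>] 0) (𝓝 Y) := by
    intro X Y D h
    rw [tendsto_iff_norm_sub_tendsto_zero]
    have h0 : Tendsto (fun a : ℝ => D * (√a + √a)) (𝓝[>] 0) (𝓝 0) := by
      have : Tendsto (fun a : ℝ => D * (√a + √a)) (𝓝 0) (𝓝 (D * (√0 + √0))) :=
        (Continuous.tendsto (by fun_prop) 0)
      rw [Real.sqrt_zero, add_zero, mul_zero] at this
      exact this.mono_left nhdsWithin_le_nhds
    refine squeeze_zero' (Eventually.of_forall fun a => norm_nonneg _) ?_ h0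
    have : Ioc (0 : ℝ) (1 / 2) ∈ 𝓝[>] (0 : ℝ) := Ioc_mem_nhdsGT (by norm_num)
    filter_upwards [this] with a ha
    exact h a ha.1 ha.2
  have t1 := hlimit (fun a => pw (-B) a * UU N A B a (1 - a) * pw A a) _ C
    (fun a h1 h2 => hC a a h1 h2 h1 h2)
  have t2 := hlimit (fun a => pw (-B') a * UU N A' B' a (1 - a) * pw A' a) _ C'
    (fun a h1 h2 => hC' a a h1 h2 h1 h2)
  have t3 := hlimit (fun a => pw (-(B + B')) a * UU N (A + A') (B + B') a (1 - a) *
    pw (A + A') a) _ C'' (fun a h1 h2 => hC'' a a h1 h2 h1 h2)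
  refine tendsto_nhds_unique t3 ((t1.mul t2).congr' ?_)
  have : Ioc (0 : ℝ) (1 / 2) ∈ 𝓝[>] (0 : ℝ) := Ioc_mem_nhdsGT (by norm_num)
  filter_upwards [this] with a ha
  have ha1 : a ∈ Ioo (0 : ℝ) 1 := ⟨ha.1, by linarith [ha.2]⟩
  have ha2 : 1 - a ∈ Ioo (0 : ℝ) 1 := ⟨by linarith [ha1.2], by linarith [ha1.1]⟩
  have hUU := UU_add hU hK hI hA hB hA' hB' hc ha1 ha2 (by linarith [ha.2])
  obtain ⟨-, -, -, -, pA, pA', -⟩ := hP N E A (hI.pow_zero hA)
  obtain ⟨-, -, -, -, qA, -⟩ := hP N E A' (hI.pow_zero hA')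
  obtain ⟨-, -, -, -, pB, pB', -⟩ := hP N E (-B) (hI.pow_zero (I.neg_mem hB))
  obtain ⟨-, -, -, -, qB, -⟩ := hP N E (-B') (hI.pow_zero (I.neg_mem hB'))
  -- the powers of the sums
  have e1 : pw (A + A') a = pw A a * pw A' a := pA' A' hc.h1 a
  have e2 : pw (-(B + B')) a = pw (-B) a * pw (-B') a := by
    rw [neg_add]
    exact pB' (-B') (by rw [neg_mul_neg, neg_mul_neg, hc.h4]) a
  -- commutations
  have c1 : pw A a * A' = A' * pw A a := pA A' hc.h1 a
  have c2 : pw A a * B' = B' * pw A a := pA B' hc.h2 a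
  have c3 : pw A' a * pw A a = pw A a * pw A' a := qA _ c1.symm a
  have c4 : pw (-B') a * A = A * pw (-B') a := qB A (by rw [neg_mul, mul_neg, hc.h2]) a
  have c5 : pw (-B') a * B = B * pw (-B') a := qB B (by rw [neg_mul, mul_neg, hc.h4]) a
  have c6 : pw (-B') a * UU N A B a (1 - a) = UU N A B a (1 - a) * pw (-B') a :=
    comm_UU c4 c5 _ _
  have c7 : pw A a * UU N A' B' a (1 - a) = UU N A' B' a (1 - a) * pw A a :=
    comm_UU c1 c2 _ _
  have c8 : pw (-B') a * pw A a = pw A a * pw (-B') a :=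
    qB _ (by rw [neg_mul, mul_neg, c2]) a
  rw [hUU, e1, e2]
  set U := UU N A B a (1 - a)
  set V := UU N A' B' a (1 - a)
  calc pw (-B) a * U * pw A a * (pw (-B') a * V * pw A' a)
      = pw (-B) a * U * (pw A a * pw (-B') a) * V * pw A' a := by simp only [mul_assoc]
    _ = pw (-B) a * U * (pw (-B') a * pw A a) * V * pw A' a := by rw [c8]
    _ = pw (-B) a * (U * pw (-B') a) * (pw A a * V) * pw A' a := by simp only [mul_assoc]
    _ = pw (-B) a * (pw (-B') a * U) * (V * pw A a) * pw A' a := by rw [c6, c7]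
    _ = pw (-B) a * pw (-B') a * (U * V) * (pw A a * pw A' a) := by simp only [mul_assoc]

end MP446S
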