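import Pool.Agent.Lib.MP_446dfa_ag.sig.KPGb
import Pool.Agent.Lib.MP_446dfa_ag.sig.Basic

set_option linter.all false

/-!
# The polynomial `P` satisfies the pentagon equation
-/

noncomputable section

namespace MP446S.KP

open MP446 MP446Y MP446Z Set Filter Asymptotics Topology

/-! ### Values at commuting shifts -/

section Shift

variable {N : ℕ} {P : AA ℝ} {E : Type} [NormedRing E] [NormedAlgebra ℝ E] [CompleteSpace E]
  {I : Submodule ℝ E}

lemma EV_z_zero (hN : 1 ≤ N) (hn : Norm1 N P) {z : E} (hz : z ^ N = 0) : EV z 0 P = 1 := by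
  classical
  rw [EV_expand, Finsupp.sum_of_support_subset (s := {FreeMonoid.ofList []} ∪ P.coeff.support) _
    Finset.subset_union_right _ (by intro i _; simp)]
  rw [Finset.sum_eq_single (FreeMonoid.ofList [])]
  · have : P.coeff (FreeMonoid.ofList []) = 1 := hn.1
    rw [this]
    simp
  · intro w hw hw1
    by_cases h1 : (1 : Fin 2) ∈ FreeMonoid.toList w
    · have : ((FreeMonoid.toList w).map ![z, 0]).prod = 0 := by
        apply List.prod_eq_zero
        rw [List.mem_map]
        exact ⟨1, h1, rfl⟩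
      rw [this, smul_zero]
    · have e : FreeMonoid.toList w = List.replicate (FreeMonoid.toList w).length 0 := by
        apply List.eq_replicate_of_mem
        intro b hb
        rcases Fin.exists_fin_two.1 ⟨b, rfl⟩ with h | h
        · exact h
        · rw [h] at hb; exact absurd hb h1
      have hk : 1 ≤ (FreeMonoid.toList w).length := by
        rcases Nat.eq_zero_or_pos (FreeMonoid.toList w).length with h | h
        · exfalso
          apply hw1
          have := List.length_eq_zero_iff.1 h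
          rw [← this, FreeMonoid.ofList_toList]
        · exact h
      by_cases h2 : (FreeMonoid.toList w).length < N
      · have h3 := hn.2 _ hk h2
        unfold cf at h3
        rw [← e, FreeMonoid.ofList_toList] at h3
        rw [h3, zero_smul]
      · rw [e, List.map_replicate, List.prod_replicate]
        have : (![z, 0] : Fin 2 → E) 0 = z := rfl
        rw [this, ← Nat.sub_add_cancel (not_lt.1 h2), pow_add, hz, mul_zero, smul_zero]
  · intro h
    exact absurd (Finset.mem_union_left _ (Finset.mem_singleton_self _)) h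

lemma EV_shift (hN : 1 ≤ N) (hn : Norm1 N P) (hG : GrLN N P) (hI : Nil N I) {a b z : E}
    (ha : a ∈ I) (hb : b ∈ I) (hz : z ∈ I) (h1 : a * z = z * a) (h2 : b * z = z * b) :
    EV (a + z) b P = EV a b P := by
  have := hG E I hI a b z 0 ha hb hz I.zero_mem ⟨h1, by simp, h2, by simp⟩
  rw [add_zero, EV_z_zero hN hn (hI.pow_zero hz), mul_one] at this
  exact this

end Shift

section Main

variable {N : ℕ} {P : AA ℝ} {E : Type} [NormedRing E] [NormedAlgebra ℝ E] [CompleteSpace E]
  {I : Submodule ℝ E} {t : Fin 4 → Fin 4 → E}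

lemma log_ratio1 {e : ℝ} (h0 : 0 < e) (h1 : e ≤ 1) :
    |Real.log ((1 + e ^ 2) / (1 + e))| ≤ 1 * e := by
  have h2 : Real.log (1 + e ^ 2) ≤ e ^ 2 := by
    have := Real.log_le_sub_one_of_pos (show 0 < 1 + e ^ 2 by positivity)
    linarith
  have h3 : Real.log (1 + e) ≤ e := by
    have := Real.log_le_sub_one_of_pos (show 0 < 1 + e by positivity)
    linarith
  have h4 : 0 ≤ Real.log (1 + e ^ 2) := Real.log_nonneg (by nlinarith)
  have h5 : 0 ≤ Real.log (1 + e) := Real.log_nonneg (by linarith)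
  rw [Real.log_div (by positivity) (by positivity), abs_le]
  constructor <;> nlinarith

lemma log_ratio2 {e : ℝ} (h0 : 0 < e) (h1 : e ≤ 1) :
    |Real.log ((1 + e ^ 2) ^ 2)| ≤ 2 * e := by
  have h2 : Real.log (1 + e ^ 2) ≤ e ^ 2 := by
    have := Real.log_le_sub_one_of_pos (show 0 < 1 + e ^ 2 by positivity)
    linarith
  have h4 : 0 ≤ Real.log (1 + e ^ 2) := Real.log_nonneg (by nlinarith)
  rw [Real.log_pow, abs_of_nonneg (by positivity)]
  push_cast
  nlinarith

/-- The main relation. -/
theorem main_rel (hE : SpecEDGE) (hF : SpecFLAT) (hPW : SpecPW) (hN : 1 ≤ N) (hn : Norm1 N P)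
    (hP : KZlim N P) (hI : Nil N I) (ht : Braid t) (htI : ∀ i j, t i j ∈ I) :
    EV (-(t 1 3 + t 2 3)) (t 2 3) P * EV (t 0 1 + t 0 2 + t 1 2) (t 1 3 + t 2 3) P *
      EV (t 0 1) (t 1 2) P =
    EV (t 0 1) (t 1 2 + t 1 3) P * EV (t 0 1 + t 0 2 + t 1 2) (t 2 3) P := by
  classical
  -- the solutions
  have hF' : ∀ e : ℝ, ∃ F : ℝ → ℝ → E, e ∈ Ioo (0 : ℝ) 1 → F e e = 1 ∧
      ∀ x ∈ Ioo (0 : ℝ) 1, ∀ y ∈ Ioo (0 : ℝ) 1,
        HasDerivAt (fun x => F x y) (Ox t x y * F x y) x ∧
        HasDerivAt (fun y => F x y) (Oy t x y * F x y) y := by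
    intro e
    by_cases he : e ∈ Ioo (0 : ℝ) 1
    · obtain ⟨F, hF1, hF2⟩ := hF N E I hI t ht htI e he e he
      exact ⟨F, fun _ => ⟨hF1, hF2⟩⟩
    · exact ⟨fun _ _ => 0, fun h => absurd h he⟩
  choose G hG' using hF'
  have hG : Sol t G :=
    ⟨fun e he => (hG' e he).1, fun e he x hx y hy => ((hG' e he).2 x hx y hy).1,
      fun e he x hx y hy => ((hG' e he).2 x hx y hy).2⟩
  -- relations
  have s10 : t 1 0 = t 0 1 := ht.symm 1 0
  have s20 : t 2 0 = t 0 2 := ht.symm 2 0
  have s21 : t 2 1 = t 1 2 := ht.symm 2 1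
  have s31 : t 3 1 = t 1 3 := ht.symm 3 1
  have s32 : t 3 2 = t 2 3 := ht.symm 3 2
  have r0123 : Commute (t 0 1) (t 2 3) :=
    ht.comm 0 1 2 3 (by decide) (by decide) (by decide) (by decide) (by decide) (by decide)
  have r01c : Commute (t 0 1) (t 0 2 + t 1 2) := ht.rel 0 1 2 (by decide) (by decide) (by decide)
  have r12c : Commute (t 1 2) (t 0 1 + t 0 2) := by
    have := ht.rel 1 2 0 (by decide) (by decide) (by decide)
    rw [s10, s20] at this
    exact this
  have r12s : Commute (t 1 2) (t 1 3 + t 2 3) := ht.rel 1 2 3 (by decide) (by decide) (by decide)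
  have r13s : Commute (t 1 3) (t 1 2 + t 2 3) := by
    have := ht.rel 1 3 2 (by decide) (by decide) (by decide)
    rw [s32] at this
    exact this
  have r23s : Commute (t 2 3) (t 1 2 + t 1 3) := by
    have := ht.rel 2 3 1 (by decide) (by decide) (by decide)
    rw [s21, s31] at this
    exact this
  obtain ⟨c, hc⟩ : ∃ c, c = t 0 1 + t 0 2 + t 1 2 := ⟨_, rfl⟩
  obtain ⟨s, hs⟩ : ∃ s, s = t 1 3 + t 2 3 := ⟨_, rfl⟩
  obtain ⟨q, hq⟩ : ∃ q, q = t 1 2 + t 1 3 + t 2 3 := ⟨_, rfl⟩
  have c12 : Commute (t 1 2) c := by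
    rw [hc]
    exact r12c.add_right (Commute.refl _)
  have c01 : Commute (t 0 1) c := by
    rw [hc, add_assoc]
    exact (Commute.refl _).add_right r01c
  have q12 : Commute q (t 1 2) := by
    rw [hq, add_assoc]
    exact (Commute.refl _).add_left r12s.symm
  have q23 : Commute q (t 2 3) := by
    rw [hq]
    exact r23s.symm.add_left (Commute.refl _)
  have q13 : Commute q (t 1 3) := by
    have : q = t 1 3 + (t 1 2 + t 2 3) := by rw [hq]; abel
    rw [this]
    exact (Commute.refl _).add_left r13s.symm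
  have qs : Commute q s := by
    rw [hs]
    exact q13.add_right q23
  have s12 : Commute (t 1 2) s := by rw [hs]; exact r12s
  have hcI : c ∈ I := by
    rw [hc]
    exact I.add_mem (I.add_mem (htI 0 1) (htI 0 2)) (htI 1 2)
  have hsI : s ∈ I := by
    rw [hs]
    exact I.add_mem (htI 1 3) (htI 2 3)
  have hqI : q ∈ I := by
    rw [hq]
    exact I.add_mem (I.add_mem (htI 1 2) (htI 1 3)) (htI 2 3)
  -- nilpotency
  have n : ∀ {a : E}, a ∈ I → a ^ N = 0 := fun ha => hI.pow_zero ha
  have n01 := n (htI 0 1)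
  have n12 := n (htI 1 2)
  have n23 := n (htI 2 3)
  have nc := n hcI
  have ns := n hsI
  have nq := n hqI
  have nnc := n (I.neg_mem hcI)
  have nn01 := n (I.neg_mem (htI 0 1))
  -- names
  obtain ⟨p3, hp3⟩ : ∃ p, p = EV (-s) (t 2 3) P := ⟨_, rfl⟩
  obtain ⟨p4, hp4⟩ : ∃ p, p = EV c s P := ⟨_, rfl⟩
  obtain ⟨p5, hp5⟩ : ∃ p, p = EV (t 0 1) (t 1 2) P := ⟨_, rfl⟩
  obtain ⟨q1, hq1⟩ : ∃ p, p = EV (t 0 1) (t 1 2 + t 1 3) P := ⟨_, rfl⟩
  obtain ⟨q2, hq2⟩ : ∃ p, p = EV c (t 2 3) P := ⟨_, rfl⟩
  rw [← hc, ← hs, ← hp3, ← hp4, ← hp5, ← hq1, ← hq2]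
  -- growth
  have Pid : ∀ {A : E}, A ^ N = 0 → PL (fun e => pw A e) := fun hA => pw_PL hPW hA Bd_id
  have Pth : ∀ {A : E}, A ^ N = 0 → PL (fun e => pw A (th e)) := fun hA => pw_PL hPW hA Bd_th
  have Pr0 : ∀ {A : E}, A ^ N = 0 → PL (fun e => pw A (r0 e)) := fun hA => pw_PL hPW hA Bd_r0
  have Pp4 : ∀ {A : E}, A ^ N = 0 → PL (fun e => pw A (e ^ 4)) := fun hA => pw_PL hPW hA Bd_p4
  -- the edges
  have b1 : App (fun e => G e (1 - th e) e) (fun e => pw (t 1 2) (th e) * p5 * pw (-t 0 1) e) := by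
    have := edge_bottom hE hP hI htI hG
    refine Sm.congr this ?_
    filter_upwards [ev_pos, ev_le (by norm_num : (0 : ℝ) < 1 / 2)] with e h0 h1
    rw [hG.h1 e ⟨h0, by linarith⟩, mul_one, hp5]
  have g1 : PL (fun e => pw (t 1 2) (th e) * p5 * pw (-t 0 1) e) :=
    ((Pth n12).mul (PL.const p5)).mul (Pid nn01)
  have b2 : App (fun e => G e (1 - th e) (1 - e))
      (fun e => (pw s e * p4 * pw (-c) e) * G e (1 - th e) e) := by
    have := edge_right1 hE hP hI htI hG (b1.pl g1)
    rw [← hc, ← hs, ← hp4] at this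
    exact this
  have g2 : PL (fun e => pw s e * p4 * pw (-c) e) :=
    ((Pid ns).mul (PL.const p4)).mul (Pid nnc)
  have b2' := b2.trans (App.mul_left g2 b1)
  have b3 : App (fun e => G e (1 - th e) (1 - e ^ 4))
      (fun e => (pw (t 2 3) (th e) * p3 * pw s (r0 e)) * G e (1 - th e) (1 - e)) := by
    have := edge_right2 hE hP hI htI hG (b2'.pl (g2.mul g1))
    rw [← hs, ← hp3, neg_neg] at this
    exact this
  have g3 : PL (fun e => pw (t 2 3) (th e) * p3 * pw s (r0 e)) :=
    ((Pth n23).mul (PL.const p3)).mul (Pr0 ns)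
  have b3' := b3.trans (App.mul_left g3 b2')
  have b4 : App (fun e => G e e (1 - e ^ 4)) (fun e => pw (t 2 3) (e ^ 4) * q2 * pw (-c) e) := by
    have := edge_left hE hP hI htI hG
    refine Sm.congr this ?_
    filter_upwards [ev_pos, ev_le (by norm_num : (0 : ℝ) < 1 / 2)] with e h0 h1
    rw [hG.h1 e ⟨h0, by linarith⟩, mul_one, hq2, hc]
  have g4 : PL (fun e => pw (t 2 3) (e ^ 4) * q2 * pw (-c) e) :=
    ((Pp4 n23).mul (PL.const q2)).mul (Pid nnc)
  have b5 : App (fun e => G e (1 - th e) (1 - e ^ 4))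
      (fun e => (pw (t 1 2 + t 1 3) (th e) * q1 * pw (-t 0 1) e) * G e e (1 - e ^ 4)) := by
    have := edge_top hE hP hI htI hG (b4.pl g4)
    rw [← hq1] at this
    exact this
  have n1213 := n (I.add_mem (htI 1 2) (htI 1 3))
  have g5 : PL (fun e => pw (t 1 2 + t 1 3) (th e) * q1 * pw (-t 0 1) e) :=
    ((Pth n1213).mul (PL.const q1)).mul (Pid nn01)
  have b5' := b5.trans (App.mul_left g5 b4)
  have key := b3'.symm.trans b5'
  -- replacement of the powers
  have k1 : App (fun e => pw s (r0 e) * pw s e) (fun e => pw s (th e)) := by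
    have h1 : Sm (fun e => pw s ((1 + e ^ 2) / (1 + e)) - 1) := by
      apply pw_sub_one hPW ns (K := 1)
      · filter_upwards [ev_pos] with e h0
        positivity
      · filter_upwards [ev_pos, ev_le one_pos] with e h0 h1
        exact log_ratio1 h0 h1
    refine Sm.congr (PL.mul_Sm (Pth ns) h1) ?_
    filter_upwards [ev_pos] with e h0
    rw [mul_sub, mul_one, ← pw_mul hPW ns (th_pos h0) (by positivity),
      ← pw_mul hPW ns (r0_pos h0) h0]
    congr 2
    unfold th r0
    field_simp
  have k2 : App (fun e => pw (t 2 3) (e ^ 4)) (fun e => pw (t 2 3) (th e) * pw (t 2 3) (th e)) := by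
    have h1 : Sm (fun e => pw (t 2 3) ((1 + e ^ 2) ^ 2) - 1) := by
      apply pw_sub_one hPW n23 (K := 2)
      · filter_upwards [ev_pos] with e h0
        positivity
      · filter_upwards [ev_pos, ev_le one_pos] with e h0 h1
        exact log_ratio2 h0 h1
    refine Sm.congr (PL.mul_Sm ((Pth n23).mul (Pth n23)) h1) ?_
    filter_upwards [ev_pos] with e h0
    have h2 := th_pos h0
    rw [mul_sub, mul_one, ← pw_mul hPW n23 h2 h2, ← pw_mul hPW n23 (by positivity) (by positivity)]
    congr 2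
    unfold th
    field_simp
  -- the two sides
  have L1 : App (fun e => (pw (t 2 3) (th e) * p3 * pw s (r0 e)) *
      ((pw s e * p4 * pw (-c) e) * (pw (t 1 2) (th e) * p5 * pw (-t 0 1) e)))
      (fun e => (pw (t 2 3) (th e) * pw q (th e)) * (p3 * p4 * p5) * (pw (-c) e * pw (-t 0 1) e)) := by
    have h1 := App.mul_right (((PL.const p4).mul (Pid nnc)).mul g1)
      (App.mul_left ((Pth n23).mul (PL.const p3)) k1)
    refine App.congr h1 (Eventually.of_forall fun e => ?_) (Eventually.of_forall fun e => ?_)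
    · simp only [mul_assoc]
    · have c1 : Commute (pw (-c) e) (pw (t 1 2) (th e)) :=
        pw_comm hPW nnc (pw_comm hPW n12 c12.neg_right (th e)).symm e
      have c2 : Commute (pw (-c) e) p5 := by
        refine pw_comm hPW nnc ?_ e
        rw [hp5]
        exact (comm_EV (c01.neg_right.symm) (c12.neg_right.symm) P)
      have c3 : Commute (pw (t 1 2) (th e)) p4 := by
        refine pw_comm hPW n12 ?_ _
        rw [hp4]
        exact (comm_EV c12 s12 P)
      have c4 : Commute (pw q (th e)) p3 := by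
        refine pw_comm hPW nq ?_ _
        rw [hp3]
        exact (comm_EV qs.neg_right q23 P)
      have c5 : pw s (th e) * pw (t 1 2) (th e) = pw q (th e) := by
        rw [← pw_add hPW ns s12.symm]
        congr 1
        rw [hs, hq]
        abel
      calc pw (t 2 3) (th e) * p3 * pw s (th e) *
            (p4 * pw (-c) e * (pw (t 1 2) (th e) * p5 * pw (-t 0 1) e))
          = pw (t 2 3) (th e) * p3 * pw s (th e) *
            (p4 * (pw (-c) e * pw (t 1 2) (th e)) * (p5 * pw (-t 0 1) e)) := by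
            simp only [mul_assoc]
        _ = pw (t 2 3) (th e) * p3 * pw s (th e) *
            ((p4 * pw (t 1 2) (th e)) * (pw (-c) e * p5) * pw (-t 0 1) e) := by
            rw [c1.eq]
            simp only [mul_assoc]
        _ = pw (t 2 3) (th e) * (p3 * (pw s (th e) * pw (t 1 2) (th e))) * (p4 * p5) *
            (pw (-c) e * pw (-t 0 1) e) := by
            rw [← c3.eq, c2.eq]
            simp only [mul_assoc]
        _ = (pw (t 2 3) (th e) * pw q (th e)) * (p3 * p4 * p5) *
            (pw (-c) e * pw (-t 0 1) e) := by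
            rw [c5, ← c4.eq]
            simp only [mul_assoc]
  have R1 : App (fun e => (pw (t 1 2 + t 1 3) (th e) * q1 * pw (-t 0 1) e) *
      (pw (t 2 3) (e ^ 4) * q2 * pw (-c) e))
      (fun e => (pw (t 2 3) (th e) * pw q (th e)) * (q1 * q2) * (pw (-c) e * pw (-t 0 1) e)) := by
    have h1 := App.mul_right ((PL.const q2).mul (Pid nnc)) (App.mul_left g5 k2)
    refine App.congr h1 (Eventually.of_forall fun e => ?_) (Eventually.of_forall fun e => ?_)
    · simp only [mul_assoc]
    · have c1 : Commute (pw (-t 0 1) e) (pw (t 2 3) (th e)) :=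
        pw_comm hPW nn01 (pw_comm hPW n23 r0123.symm.neg_right (th e)).symm e
      have c2 : Commute (pw (-t 0 1) e) q2 := by
        refine pw_comm hPW nn01 ?_ e
        rw [hq2]
        exact comm_EV c01.neg_left r0123.neg_left P
      have c3 : Commute (pw (-t 0 1) e) (pw (-c) e) :=
        pw_comm hPW nn01 (pw_comm hPW nnc (c01.neg_left.neg_right).symm e).symm e
      have c4 : Commute (pw (t 2 3) (th e)) q1 := by
        refine pw_comm hPW n23 ?_ _
        rw [hq1]
        exact comm_EV r0123.symm r23s P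
      have c5 : pw (t 1 2 + t 1 3) (th e) * pw (t 2 3) (th e) = pw q (th e) := by
        rw [← pw_add hPW n1213 r23s.symm]
        congr 1
        rw [hq]
      have c6 : Commute (pw q (th e)) (pw (t 2 3) (th e)) :=
        pw_comm hPW nq (pw_comm hPW n23 q23.symm (th e)).symm _
      have c1' : Commute (pw (-t 0 1) e) (pw (t 2 3) (th e) * pw (t 2 3) (th e)) :=
        c1.mul_right c1
      have c7 : q1 * (pw (t 2 3) (th e) * pw (t 2 3) (th e)) =
          (pw (t 2 3) (th e) * pw (t 2 3) (th e)) * q1 := (c4.mul_left c4).eq.symm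
      calc pw (t 1 2 + t 1 3) (th e) * q1 * pw (-t 0 1) e *
            (pw (t 2 3) (th e) * pw (t 2 3) (th e)) * (q2 * pw (-c) e)
          = pw (t 1 2 + t 1 3) (th e) * q1 * (pw (-t 0 1) e * (pw (t 2 3) (th e) *
            pw (t 2 3) (th e))) * (q2 * pw (-c) e) := by
            simp only [mul_assoc]
        _ = pw (t 1 2 + t 1 3) (th e) * (q1 * (pw (t 2 3) (th e) * pw (t 2 3) (th e))) *
            (pw (-t 0 1) e * q2) * pw (-c) e := by
            rw [c1'.eq]
            simp only [mul_assoc]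
        _ = (pw (t 1 2 + t 1 3) (th e) * pw (t 2 3) (th e)) * pw (t 2 3) (th e) *
            (q1 * q2) * (pw (-t 0 1) e * pw (-c) e) := by
            rw [c7, c2.eq]
            simp only [mul_assoc]
        _ = (pw (t 2 3) (th e) * pw q (th e)) * (q1 * q2) * (pw (-c) e * pw (-t 0 1) e) := by
            rw [c5, c6.eq, c3.eq]
  have fin := (L1.symm.trans key).trans R1
  -- the conclusion
  have last := App.mul_right ((Pid n01).mul (Pid nc)) (App.mul_left
    ((Pth (n (I.neg_mem hqI))).mul (Pth (n (I.neg_mem (htI 2 3))))) fin)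
  have last2 : App (fun _ : ℝ => p3 * p4 * p5) (fun _ : ℝ => q1 * q2) := by
    refine App.congr last (Eventually.of_forall fun e => ?_) (Eventually.of_forall fun e => ?_)
    all_goals
      have u1 := pw_neg_mul hPW nq (th e)
      have u2 := pw_neg_mul hPW n23 (th e)
      have u3 := pw_neg_mul hPW n01 e
      have u4 := pw_neg_mul hPW nc e
    · calc pw (-q) (th e) * pw (-t 2 3) (th e) *
            (pw (t 2 3) (th e) * pw q (th e) * (p3 * p4 * p5) * (pw (-c) e * pw (-t 0 1) e)) *
            (pw (t 0 1) e * pw c e)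
          = pw (-q) (th e) * (pw (-t 2 3) (th e) * pw (t 2 3) (th e)) * pw q (th e) *
            (p3 * p4 * p5) * (pw (-c) e * (pw (-t 0 1) e * pw (t 0 1) e) * pw c e) := by
            simp only [mul_assoc]
        _ = p3 * p4 * p5 := by rw [u2, u3, mul_one, mul_one, u1, u4, one_mul, mul_one]
    · calc pw (-q) (th e) * pw (-t 2 3) (th e) *
            (pw (t 2 3) (th e) * pw q (th e) * (q1 * q2) * (pw (-c) e * pw (-t 0 1) e)) *
            (pw (t 0 1) e * pw c e)
          = pw (-q) (th e) * (pw (-t 2 3) (th e) * pw (t 2 3) (th e)) * pw q (th e) *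
            (q1 * q2) * (pw (-c) e * (pw (-t 0 1) e * pw (t 0 1) e) * pw c e) := by
            simp only [mul_assoc]
        _ = q1 * q2 := by rw [u2, u3, mul_one, mul_one, u1, u4, one_mul, mul_one]
  exact sub_eq_zero.1 (Sm.const_zero last2)

end Main

end MP446S.KP

namespace MP446S

open MP446 MP446Y MP446Z

/-- KPG: the polynomial `P` satisfies the pentagon equation. -/
theorem specKPG (hE : SpecEDGE) (hF : SpecFLAT) (hK : SpecKGL) (hPW : SpecPW) : SpecKPG := by
  intro N P hN hn hP E _ _ _ I hI t ht htI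
  have hG := hK N P hP
  have main := KP.main_rel hE hF hPW hN hn hP hI ht htI
  have s10 : t 1 0 = t 0 1 := ht.symm 1 0
  have s20 : t 2 0 = t 0 2 := ht.symm 2 0
  have s21 : t 2 1 = t 1 2 := ht.symm 2 1
  have s31 : t 3 1 = t 1 3 := ht.symm 3 1
  have s32 : t 3 2 = t 2 3 := ht.symm 3 2
  have r0123 : Commute (t 0 1) (t 2 3) :=
    ht.comm 0 1 2 3 (by decide) (by decide) (by decide) (by decide) (by decide) (by decide)
  have r01c : Commute (t 0 1) (t 0 2 + t 1 2) := ht.rel 0 1 2 (by decide) (by decide) (by decide)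
  have r12c : Commute (t 1 2) (t 0 1 + t 0 2) := by
    have := ht.rel 1 2 0 (by decide) (by decide) (by decide)
    rw [s10, s20] at this
    exact this
  have r12s : Commute (t 1 2) (t 1 3 + t 2 3) := ht.rel 1 2 3 (by decide) (by decide) (by decide)
  have r23s : Commute (t 2 3) (t 1 2 + t 1 3) := by
    have := ht.rel 2 3 1 (by decide) (by decide) (by decide)
    rw [s21, s31] at this
    exact this
  have q12 : Commute (t 1 2) (-(t 1 2 + t 1 3 + t 2 3)) := by
    rw [add_assoc]
    exact ((Commute.refl _).add_right r12s).neg_right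
  have q23 : Commute (t 2 3) (-(t 1 2 + t 1 3 + t 2 3)) :=
    (r23s.add_right (Commute.refl _)).neg_right
  have e3 : EV (-(t 1 3 + t 2 3)) (t 2 3) P = EV (t 1 2) (t 2 3) P := by
    have := KP.EV_shift hN hn hG hI (htI 1 2) (htI 2 3)
      (I.neg_mem (I.add_mem (I.add_mem (htI 1 2) (htI 1 3)) (htI 2 3))) q12 q23
    rw [← this]
    congr 1
    congr 1
    abel
  have e4 : EV (t 0 1 + t 0 2 + t 1 2) (t 1 3 + t 2 3) P =
      EV (t 0 1 + t 0 2) (t 1 3 + t 2 3) P :=
    KP.EV_shift hN hn hG hI (I.add_mem (htI 0 1) (htI 0 2)) (I.add_mem (htI 1 3) (htI 2 3))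
      (htI 1 2) r12c.symm r12s.symm
  have e2 : EV (t 0 1 + t 0 2 + t 1 2) (t 2 3) P = EV (t 0 2 + t 1 2) (t 2 3) P := by
    have := KP.EV_shift hN hn hG hI (I.add_mem (htI 0 2) (htI 1 2)) (htI 2 3) (htI 0 1)
      r01c.symm r0123.symm
    rw [← this]
    congr 1
    congr 1
    abel
  rw [e3, e4, e2] at main
  exact main.symm

end MP446S
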