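import Pool.Agent.Lib.MP_446dfa_ag.sig.Spec

set_option linter.all false

/-!
# UNIQ: uniqueness for linear differential equations
-/

noncomputable section

namespace MP446S

open Set

theorem specUNIQ : SpecUNIQ := by
  intro E _ _ a b c Ω Z Z' hac hcb hΩ hZ hZ' h0 x hx
  obtain ⟨M, hM⟩ := isCompact_Icc.exists_bound_of_continuousOn hΩ
  have hlip : ∀ t ∈ Icc a b, LipschitzOnWith M.toNNReal (fun z : E => Ω t * z) univ := by
    intro t ht
    rw [lipschitzOnWith_univ]
    refine LipschitzWith.of_dist_le_mul fun y z => ?_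
    rw [dist_eq_norm, dist_eq_norm, ← mul_sub]
    refine (norm_mul_le _ _).trans ?_
    refine mul_le_mul_of_nonneg_right ?_ (norm_nonneg _)
    exact (hM t ht).trans (Real.le_coe_toNNReal M)
  have hcZ : ContinuousOn Z (Icc a b) := fun t ht => (hZ t ht).continuousAt.continuousWithinAt
  have hcZ' : ContinuousOn Z' (Icc a b) := fun t ht => (hZ' t ht).continuousAt.continuousWithinAt
  rcases le_total x c with h | h
  · have hsub : Icc a c ⊆ Icc a b := Icc_subset_Icc_right hcb
    have := ODE_solution_unique_of_mem_Icc_left (v := fun t z => Ω t * z) (s := fun _ => univ)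
      (K := M.toNNReal) (f := Z) (g := Z') (a := a) (b := c)
      (fun t ht => hlip t (hsub (Ioc_subset_Icc_self ht))) (hcZ.mono hsub)
      (fun t ht => (hZ t (hsub (Ioc_subset_Icc_self ht))).hasDerivWithinAt)
      (fun _ _ => mem_univ _) (hcZ'.mono hsub)
      (fun t ht => (hZ' t (hsub (Ioc_subset_Icc_self ht))).hasDerivWithinAt)
      (fun _ _ => mem_univ _) h0
    exact this ⟨hx.1, h⟩
  · have hsub : Icc c b ⊆ Icc a b := Icc_subset_Icc_left hac
    have := ODE_solution_unique_of_mem_Icc_right (v := fun t z => Ω t * z) (s := fun _ => univ)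
      (K := M.toNNReal) (f := Z) (g := Z') (a := c) (b := b)
      (fun t ht => hlip t (hsub (Ico_subset_Icc_self ht))) (hcZ.mono hsub)
      (fun t ht => (hZ t (hsub (Ico_subset_Icc_self ht))).hasDerivWithinAt)
      (fun _ _ => mem_univ _) (hcZ'.mono hsub)
      (fun t ht => (hZ' t (hsub (Ico_subset_Icc_self ht))).hasDerivWithinAt)
      (fun _ _ => mem_univ _) h0
    exact this ⟨h, hx.2⟩

end MP446S
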