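import Pool.Agent.Lib.MP_446dfa_ag.sig.Basic
import Pool.Agent.Lib.MP_446dfa_ag.sig.UNIQ

set_option linter.all false

/-!
# KZ: the transport
-/

noncomputable section

namespace MP446S

open MP446 MP446Y MP446Z Set

namespace KZaux

open MeasureTheory intervalIntegral

lemma uIcc_sub {s t : ℝ} (hs : s ∈ Ioo (0 : ℝ) 1) (ht : t ∈ Ioo (0 : ℝ) 1) :
    uIcc s t ⊆ Ioo (0 : ℝ) 1 := ordConnected_Ioo.uIcc_subset hs ht

lemma om_contOn (i : Fin 2) : ContinuousOn (om i) (Ioo (0 : ℝ) 1) := by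
  have h0 : ContinuousOn (fun x : ℝ => x⁻¹) (Ioo (0 : ℝ) 1) :=
    continuousOn_id.inv₀ fun x hx => hx.1.ne'
  have h1 : ContinuousOn (fun x : ℝ => (x - 1)⁻¹) (Ioo (0 : ℝ) 1) :=
    (continuousOn_id.sub continuousOn_const).inv₀ fun x hx => by
      have := hx.2
      have h : x - 1 ≠ 0 := by linarith
      exact h
  by_cases hi : i = 0
  · have : om i = fun x : ℝ => x⁻¹ := by
      funext x; simp [om, hi]
    rw [this]; exact h0
  · have : om i = fun x : ℝ => (x - 1)⁻¹ := by
      funext x; simp [om, hi]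
    rw [this]; exact h1

lemma hasDeriv_int {f : ℝ → ℝ} (hf : ContinuousOn f (Ioo (0 : ℝ) 1)) {s t : ℝ}
    (hs : s ∈ Ioo (0 : ℝ) 1) (ht : t ∈ Ioo (0 : ℝ) 1) :
    HasDerivAt (fun t => ∫ r in s..t, f r) (f t) t :=
  intervalIntegral.integral_hasDerivAt_right
    ((hf.mono (uIcc_sub hs ht)).intervalIntegrable)
    (hf.stronglyMeasurableAtFilter isOpen_Ioo t ht)
    (hf.continuousAt (isOpen_Ioo.mem_nhds ht))

lemma II_contOn (w : List (Fin 2)) {s : ℝ} (hs : s ∈ Ioo (0 : ℝ) 1) :
    ContinuousOn (II w s) (Ioo (0 : ℝ) 1) := by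
  induction w with
  | nil => exact continuousOn_const
  | cons i w ih =>
    intro t ht
    exact (hasDeriv_int ((om_contOn i).mul ih) hs ht).continuousAt.continuousWithinAt

lemma II_deriv (i : Fin 2) (w : List (Fin 2)) {s t : ℝ} (hs : s ∈ Ioo (0 : ℝ) 1)
    (ht : t ∈ Ioo (0 : ℝ) 1) : HasDerivAt (II (i :: w) s) (om i t * II w s t) t :=
  hasDeriv_int ((om_contOn i).mul (II_contOn w hs)) hs ht

lemma II_self (i : Fin 2) (w : List (Fin 2)) (s : ℝ) : II (i :: w) s s = 0 := by
  simp [II]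

lemma sum_wl_succ {M : Type*} [AddCommMonoid M] (N : ℕ) (f : List (Fin 2) → M) :
    ∑ w ∈ wl (N + 1), f w = f [] + ∑ i : Fin 2, ∑ w ∈ wl N, f (i :: w) := by
  rw [show wl (N + 1) = insert [] ((Finset.univ ×ˢ wl N).image (fun p => p.1 :: p.2)) from rfl,
    Finset.sum_insert (by simp), Finset.sum_image, Finset.sum_product]
  rintro ⟨a, b⟩ _ ⟨c, d⟩ _ h
  simp only [List.cons.injEq] at h
  rw [h.1, h.2]

section
variable {E : Type*} [Ring E] [Algebra ℝ E]

lemma UU_eq (N : ℕ) (A B : E) (s t : ℝ) :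
    UU N A B s t = ∑ w ∈ wl N, II w s t • (w.map ![A, B]).prod := by
  unfold UU UP
  rw [map_sum]
  refine Finset.sum_congr rfl fun w _ => ?_
  rw [map_smul, EV_ow]

lemma UU_succ (N : ℕ) (A B : E) (s t : ℝ) :
    UU (N + 1) A B s t = 1 + ∑ i : Fin 2, ∑ w ∈ wl N,
      II (i :: w) s t • ((![A, B] : Fin 2 → E) i * (w.map ![A, B]).prod) := by
  rw [UU_eq, sum_wl_succ]
  simp [II]

lemma UU_self (N : ℕ) (A B : E) (s : ℝ) : UU (N + 1) A B s s = 1 := by
  rw [UU_succ]
  simp [II_self]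

lemma letter_mul_UU {N : ℕ} {I : Submodule ℝ E} (hI : Nil (N + 1) I) {A B : E} (hA : A ∈ I)
    (hB : B ∈ I) (s t : ℝ) (i : Fin 2) :
    (![A, B] : Fin 2 → E) i * UU N A B s t = (![A, B] : Fin 2 → E) i * UU (N + 1) A B s t := by
  rw [UU_eq, UU_eq, Finset.mul_sum, Finset.mul_sum]
  refine Finset.sum_subset ?_ ?_
  · intro w hw
    rw [mem_wl] at hw ⊢
    omega
  · intro w hw hw2
    rw [mem_wl] at hw hw2
    rw [mul_smul_comm]
    have h1 := hI.word_zero hA hB (i :: w) (by simp; omega)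
    rw [List.map_cons, List.prod_cons] at h1
    rw [h1, smul_zero]

end

section
variable {E : Type*} [NormedRing E] [NormedAlgebra ℝ E]

lemma Om_eq (A B : E) (x : ℝ) (Z : E) :
    Om A B x * Z = ∑ i : Fin 2, om i x • ((![A, B] : Fin 2 → E) i * Z) := by
  rw [Fin.sum_univ_two]
  simp [Om, om, add_mul]

lemma UU_deriv_aux (N : ℕ) (A B : E) {s t : ℝ} (hs : s ∈ Ioo (0 : ℝ) 1)
    (ht : t ∈ Ioo (0 : ℝ) 1) :
    HasDerivAt (fun t => UU (N + 1) A B s t) (Om A B t * UU N A B s t) t := by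
  have h1 : HasDerivAt (fun t => 1 + ∑ i : Fin 2, ∑ w ∈ wl N,
      II (i :: w) s t • ((![A, B] : Fin 2 → E) i * (w.map ![A, B]).prod))
      (∑ i : Fin 2, ∑ w ∈ wl N,
        (om i t * II w s t) • ((![A, B] : Fin 2 → E) i * (w.map ![A, B]).prod)) t := by
    refine HasDerivAt.const_add _ ?_
    refine HasDerivAt.fun_sum fun i _ => HasDerivAt.fun_sum fun w _ => ?_
    exact (II_deriv i w hs ht).smul_const _
  have h2 : (∑ i : Fin 2, ∑ w ∈ wl N,
        (om i t * II w s t) • ((![A, B] : Fin 2 → E) i * (w.map ![A, B]).prod)) =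
      Om A B t * UU N A B s t := by
    rw [Om_eq]
    refine Finset.sum_congr rfl fun i _ => ?_
    rw [UU_eq, Finset.mul_sum, Finset.smul_sum]
    refine Finset.sum_congr rfl fun w _ => ?_
    rw [mul_smul_comm, smul_smul]
  rw [h2] at h1
  refine h1.congr_of_eventuallyEq (Filter.Eventually.of_forall fun u => ?_)
  exact UU_succ N A B s u

lemma UU_deriv {N : ℕ} {I : Submodule ℝ E} (hI : Nil N I) {A B : E} (hA : A ∈ I)
    (hB : B ∈ I) {s t : ℝ} (hs : s ∈ Ioo (0 : ℝ) 1) (ht : t ∈ Ioo (0 : ℝ) 1) :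
    HasDerivAt (fun t => UU N A B s t) (Om A B t * UU N A B s t) t := by
  cases N with
  | zero =>
    have h1 : (1 : E) = 0 := hI.prod_zero [] (by simp) rfl
    have : Subsingleton E := subsingleton_of_zero_eq_one h1.symm
    have h2 := hasDerivAt_const (F := E) t (0 : E)
    refine (h2.congr_deriv (Subsingleton.elim _ _)).congr_of_eventuallyEq
      (Filter.Eventually.of_forall fun u => Subsingleton.elim _ _)
  | succ N =>
    have h1 := UU_deriv_aux N A B hs ht
    have h2 : Om A B t * UU N A B s t = Om A B t * UU (N + 1) A B s t := by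
      rw [Om_eq, Om_eq]
      refine Finset.sum_congr rfl fun i _ => ?_
      rw [letter_mul_UU hI hA hB]
    rw [h2] at h1
    exact h1

lemma UU_one {N : ℕ} {I : Submodule ℝ E} (hI : Nil N I) (A B : E) (s : ℝ) :
    UU N A B s s = 1 := by
  cases N with
  | zero =>
    have h1 : (1 : E) = 0 := hI.prod_zero [] (by simp) rfl
    have : Subsingleton E := subsingleton_of_zero_eq_one h1.symm
    exact Subsingleton.elim _ _
  | succ N => exact UU_self N A B s

lemma Om_contOn (A B : E) : ContinuousOn (Om A B) (Ioo (0 : ℝ) 1) := by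
  unfold Om
  have h0 : ContinuousOn (fun x : ℝ => x⁻¹) (Ioo (0 : ℝ) 1) :=
    continuousOn_id.inv₀ fun x hx => hx.1.ne'
  have h1 : ContinuousOn (fun x : ℝ => (x - 1)⁻¹) (Ioo (0 : ℝ) 1) :=
    (continuousOn_id.sub continuousOn_const).inv₀ fun x hx => by
      have := hx.2
      have h : x - 1 ≠ 0 := by linarith
      exact h
  exact (h0.smul continuousOn_const).add (h1.smul continuousOn_const)

lemma UU_mul {E : Type} [NormedRing E] [NormedAlgebra ℝ E] {N : ℕ} {I : Submodule ℝ E}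
    (hI : Nil N I) {A B : E} (hA : A ∈ I) (hB : B ∈ I) {r s t : ℝ} (hr : r ∈ Ioo (0 : ℝ) 1)
    (hs : s ∈ Ioo (0 : ℝ) 1) (ht : t ∈ Ioo (0 : ℝ) 1) :
    UU N A B s t = UU N A B r t * UU N A B s r := by
  have hsub : Icc (min r t) (max r t) ⊆ Ioo (0 : ℝ) 1 := by
    intro x hx
    exact ⟨lt_of_lt_of_le (lt_min hr.1 ht.1) hx.1, lt_of_le_of_lt hx.2 (max_lt hr.2 ht.2)⟩
  refine specUNIQ E (min r t) (max r t) r (Om A B) (fun x => UU N A B s x)
    (fun x => UU N A B r x * UU N A B s r) (min_le_left _ _) (le_max_left _ _)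
    ((Om_contOn A B).mono hsub) ?_ ?_ ?_ t ⟨min_le_right _ _, le_max_right _ _⟩
  · intro x hx
    exact UU_deriv hI hA hB hs (hsub hx)
  · intro x hx
    have := (UU_deriv hI hA hB hr (hsub hx)).mul_const (UU N A B s r)
    rw [mul_assoc] at this
    exact this
  · rw [UU_one hI, one_mul]

end

/-! ### Bounds -/

/-- the size of the logarithms -/
def G (s t : ℝ) : ℝ := |Real.log t - Real.log s| + |Real.log (1 - t) - Real.log (1 - s)|

lemma G_nonneg (s t : ℝ) : 0 ≤ G s t := by unfold G; positivity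

lemma abs_log_mono {s t r : ℝ} (hs : s ∈ Ioo (0 : ℝ) 1) (ht : t ∈ Ioo (0 : ℝ) 1)
    (hr : r ∈ uIcc s t) :
    |Real.log r - Real.log s| ≤ |Real.log t - Real.log s| ∧
      |Real.log (1 - r) - Real.log (1 - s)| ≤ |Real.log (1 - t) - Real.log (1 - s)| := by
  have hr1 : r ∈ Ioo (0 : ℝ) 1 := uIcc_sub hs ht hr
  rcases le_total s t with h | h
  · rw [uIcc_of_le h] at hr
    have h1 : Real.log s ≤ Real.log r := Real.log_le_log hs.1 hr.1
    have h2 : Real.log r ≤ Real.log t := Real.log_le_log hr1.1 hr.2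
    have h3 : Real.log (1 - r) ≤ Real.log (1 - s) :=
      Real.log_le_log (by linarith [hr1.2]) (by linarith [hr.1])
    have h4 : Real.log (1 - t) ≤ Real.log (1 - r) :=
      Real.log_le_log (by linarith [ht.2]) (by linarith [hr.2])
    rw [abs_of_nonneg (by linarith), abs_of_nonneg (by linarith), abs_of_nonpos (by linarith),
      abs_of_nonpos (by linarith)]
    constructor <;> linarith
  · rw [uIcc_of_ge h] at hr
    have h1 : Real.log t ≤ Real.log r := Real.log_le_log ht.1 hr.1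
    have h2 : Real.log r ≤ Real.log s := Real.log_le_log hr1.1 hr.2
    have h3 : Real.log (1 - r) ≤ Real.log (1 - t) :=
      Real.log_le_log (by linarith [hr1.2]) (by linarith [hr.1])
    have h4 : Real.log (1 - s) ≤ Real.log (1 - r) :=
      Real.log_le_log (by linarith [hs.2]) (by linarith [hr.2])
    rw [abs_of_nonpos (by linarith), abs_of_nonpos (by linarith), abs_of_nonneg (by linarith),
      abs_of_nonneg (by linarith)]
    constructor <;> linarith

lemma G_mono {s t r : ℝ} (hs : s ∈ Ioo (0 : ℝ) 1) (ht : t ∈ Ioo (0 : ℝ) 1)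
    (hr : r ∈ uIcc s t) : G s r ≤ G s t := by
  obtain ⟨h1, h2⟩ := abs_log_mono hs ht hr
  unfold G
  linarith

lemma int_om (i : Fin 2) {s t : ℝ} (hs : s ∈ Ioo (0 : ℝ) 1) (ht : t ∈ Ioo (0 : ℝ) 1) :
    |(∫ r in s..t, |om i r|)| ≤ G s t := by
  by_cases hi : i = 0
  · have h1 : ∫ r in s..t, |om i r| = Real.log t - Real.log s := by
      refine intervalIntegral.integral_eq_sub_of_hasDerivAt (f := Real.log) ?_
        (((om_contOn i).abs.mono (uIcc_sub hs ht)).intervalIntegrable)
      intro x hx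
      have hx1 := uIcc_sub hs ht hx
      have : |om i x| = x⁻¹ := by
        simp only [om, hi, if_true]
        exact abs_of_pos (inv_pos.2 hx1.1)
      rw [this]
      exact Real.hasDerivAt_log hx1.1.ne'
    rw [h1]
    unfold G
    linarith [abs_nonneg (Real.log (1 - t) - Real.log (1 - s))]
  · have h1 : ∫ r in s..t, |om i r| = -Real.log (1 - t) - (-Real.log (1 - s)) := by
      refine intervalIntegral.integral_eq_sub_of_hasDerivAt
        (f := fun x => -Real.log (1 - x)) ?_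
        (((om_contOn i).abs.mono (uIcc_sub hs ht)).intervalIntegrable)
      intro x hx
      have hx1 := uIcc_sub hs ht hx
      have h2 : 0 < 1 - x := by linarith [hx1.2]
      have : |om i x| = (1 - x)⁻¹ := by
        simp only [om, hi, if_false]
        rw [abs_inv, abs_sub_comm, abs_of_pos h2]
      rw [this]
      have h3 : HasDerivAt (fun x : ℝ => 1 - x) (-1) x := by
        simpa using (hasDerivAt_id x).const_sub 1
      have h4 := (h3.log h2.ne').neg
      convert! h4 using 1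
      rw [neg_div, neg_neg, one_div]
    rw [h1]
    unfold G
    have h2 : -Real.log (1 - t) - (-Real.log (1 - s)) =
      -(Real.log (1 - t) - Real.log (1 - s)) := by ring
    rw [h2, abs_neg]
    linarith [abs_nonneg (Real.log t - Real.log s)]

lemma II_bound (w : List (Fin 2)) {s t : ℝ} (hs : s ∈ Ioo (0 : ℝ) 1) (ht : t ∈ Ioo (0 : ℝ) 1) :
    |II w s t| ≤ G s t ^ w.length := by
  induction w generalizing t with
  | nil => simp [II]
  | cons i w ih =>
    have hint : IntervalIntegrable (fun r => G s t ^ w.length * |om i r|) volume s t :=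
      ((om_contOn i).abs.mono (uIcc_sub hs ht)).intervalIntegrable.const_mul _
    have h1 : |II (i :: w) s t| ≤ |(∫ r in s..t, G s t ^ w.length * |om i r|)| := by
      refine intervalIntegral.norm_integral_le_abs_of_norm_le (f := fun r => om i r * II w s r)
        ?_ hint
      refine (ae_restrict_iff' measurableSet_uIoc).2 (Filter.Eventually.of_forall fun r hr => ?_)
      have hr1 : r ∈ uIcc s t := uIoc_subset_uIcc hr
      rw [Real.norm_eq_abs, abs_mul, mul_comm]
      refine mul_le_mul_of_nonneg_right ?_ (abs_nonneg _)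
      refine (ih (uIcc_sub hs ht hr1)).trans ?_
      exact pow_le_pow_left₀ (G_nonneg _ _) (G_mono hs ht hr1) _
    rw [intervalIntegral.integral_const_mul, abs_mul,
      abs_of_nonneg (pow_nonneg (G_nonneg s t) _)] at h1
    rw [List.length_cons, pow_succ]
    exact h1.trans (mul_le_mul_of_nonneg_left (int_om i hs ht) (pow_nonneg (G_nonneg s t) _))

lemma G_le_LL (s t : ℝ) : G s t ≤ LL s (1 - s) + LL t (1 - t) := by
  unfold G LL
  have h1 := abs_sub (Real.log t) (Real.log s)
  have h2 := abs_sub (Real.log (1 - t)) (Real.log (1 - s))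
  linarith

lemma one_le_LL (a b : ℝ) : 1 ≤ LL a b := by
  unfold LL
  linarith [abs_nonneg (Real.log a), abs_nonneg (Real.log b)]

lemma UU_bound {E : Type*} [NormedRing E] [NormedAlgebra ℝ E] (N : ℕ) (A B : E) {s t : ℝ}
    (hs : s ∈ Ioo (0 : ℝ) 1) (ht : t ∈ Ioo (0 : ℝ) 1) :
    ‖UU N A B s t‖ ≤ (∑ w ∈ wl N, ‖((w.map ![A, B]).prod : E)‖) *
      (LL s (1 - s) + LL t (1 - t)) ^ N := by
  rw [UU_eq, Finset.sum_mul]
  refine (norm_sum_le _ _).trans (Finset.sum_le_sum fun w hw => ?_)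
  rw [norm_smul, mul_comm, Real.norm_eq_abs]
  refine mul_le_mul_of_nonneg_left ?_ (norm_nonneg _)
  refine (II_bound w hs ht).trans ?_
  have h1 : 1 ≤ LL s (1 - s) + LL t (1 - t) := by
    linarith [one_le_LL s (1 - s), one_le_LL t (1 - t)]
  calc G s t ^ w.length ≤ (LL s (1 - s) + LL t (1 - t)) ^ w.length :=
        pow_le_pow_left₀ (G_nonneg _ _) (G_le_LL s t) _
    _ ≤ _ := pow_le_pow_right₀ h1 ((mem_wl N w).1 hw).le

end KZaux

open KZaux

theorem specKZ : SpecKZ := by
  intro N E _ _ I hI A hA B hB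
  refine ⟨fun s _ => UU_one hI A B s, fun s hs t ht => UU_deriv hI hA hB hs ht,
    fun r hr s hs t ht => UU_mul hI hA hB hr hs ht, _, fun s hs t ht => UU_bound N A B hs ht⟩

end MP446S
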