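import Pool.Agent.Lib.MP_446dfa_ag.sig.Basic

set_option linter.all false

/-!
# LIM: the regularized transport is given by a universal polynomial
-/

noncomputable section

namespace MP446S

open MP446 MP446Y MP446Z Set

universe u v w

attribute [local instance 100] LieRing.ofAssociativeRing

/-! ## Exponentials of nilpotent elements -/

lemma exp_nil {E : Type*} [NormedRing E] [NormedAlgebra ℝ E] {N : ℕ} {x : E} (h : x ^ N = 0) :
    NormedSpace.exp x = ∑ j ∈ Finset.range N, ((j.factorial : ℝ)⁻¹) • x ^ j := by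
  rw [NormedSpace.exp_eq_tsum ℝ]
  apply tsum_eq_sum
  intro j hj
  rw [Finset.mem_range, not_lt] at hj
  rw [← Nat.sub_add_cancel hj, pow_add, h, mul_zero, smul_zero]

/-- the truncated exponential of a multiple of a letter -/
def ey (N : ℕ) (c : ℝ) (i : Fin 2) : AA ℝ :=
  ∑ j ∈ Finset.range N, (c ^ j / (j.factorial : ℝ)) • (lt ℝ i) ^ j

lemma pw_eq {E : Type*} [NormedRing E] [NormedAlgebra ℝ E] {N : ℕ} {A : E} (h : A ^ N = 0)
    (c : ℝ) : NormedSpace.exp (c • A) =
      ∑ j ∈ Finset.range N, (c ^ j / (j.factorial : ℝ)) • A ^ j := by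
  have h2 : (c • A) ^ N = 0 := by rw [smul_pow, h, smul_zero]
  rw [exp_nil h2]
  refine Finset.sum_congr rfl (fun j _ => ?_)
  rw [smul_pow, smul_smul, div_eq_inv_mul]

/-- the universal polynomial of the regularized transport from `a` to `1 - b` -/
def PP (N : ℕ) (a b : ℝ) : AA ℝ :=
  ey N (-Real.log b) 1 * UP N a (1 - b) * ey N (Real.log a) 0

lemma EV_PP {E : Type*} [NormedRing E] [NormedAlgebra ℝ E] {N : ℕ} {A B : E} (hA : A ^ N = 0)
    (hB : B ^ N = 0) (a b : ℝ) :
    EV A B (PP N a b) = pw (-B) b * UU N A B a (1 - b) * pw A a := by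
  unfold PP UU pw
  rw [map_mul, map_mul]
  have h1 : EV A B (ey N (-Real.log b) 1) = NormedSpace.exp (Real.log b • (-B)) := by
    rw [smul_neg, ← neg_smul, pw_eq hB]
    unfold ey
    rw [map_sum]
    refine Finset.sum_congr rfl (fun j _ => ?_)
    rw [map_smul, map_pow, EV_letter_one]
  have h2 : EV A B (ey N (Real.log a) 0) = NormedSpace.exp (Real.log a • A) := by
    rw [pw_eq hA]
    unfold ey
    rw [map_sum]
    refine Finset.sum_congr rfl (fun j _ => ?_)
    rw [map_smul, map_pow, EV_letter_zero]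
  rw [h1, h2]

/-! ## The universal model -/

section Mod

variable (N : ℕ)

/-- the matrices over the words of length `< N` -/
abbrev WM : Type := Matrix (wl N) (wl N) ℝ

/-- left multiplication by the letter `i` -/
def LM (i : Fin 2) : WM N := Matrix.of fun u v => if (u : List (Fin 2)) = i :: (v : List (Fin 2)) then 1 else 0

/-- `M u v` vanishes unless `u` is longer than `v` by at least `k` -/
def IM (k : ℕ) : Submodule ℝ (WM N) where
  carrier := {M | ∀ u v : wl N, u.1.length < v.1.length + k → M u v = 0}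
  add_mem' := fun {M M'} h h' u v huv => by
    rw [Matrix.add_apply, h u v huv, h' u v huv, add_zero]
  zero_mem' := fun u v huv => rfl
  smul_mem' := fun c M h u v huv => by
    rw [Matrix.smul_apply, h u v huv, smul_zero]

lemma mem_IM {k : ℕ} {M : WM N} : M ∈ IM N k ↔
    ∀ u v : wl N, u.1.length < v.1.length + k → M u v = 0 := Iff.rfl

lemma IM_mul {k l : ℕ} {M M' : WM N} (h : M ∈ IM N k) (h' : M' ∈ IM N l) :
    M * M' ∈ IM N (k + l) := by
  intro u v huv
  rw [Matrix.mul_apply]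
  refine Finset.sum_eq_zero (fun r _ => ?_)
  by_cases h1 : u.1.length < r.1.length + k
  · rw [h u r h1, zero_mul]
  · rw [h' r v (by omega), mul_zero]

lemma IM_mono {k l : ℕ} (hkl : k ≤ l) {M : WM N} (h : M ∈ IM N l) : M ∈ IM N k :=
  fun u v huv => h u v (by omega)

lemma IM_prod (l : List (WM N)) (hl : ∀ x ∈ l, x ∈ IM N 1) : l.prod ∈ IM N l.length := by
  induction l with
  | nil =>
    intro u v huv
    rw [List.prod_nil, Matrix.one_apply_ne]
    rintro rfl
    simp at huv
  | cons a l ih =>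
    rw [List.prod_cons, List.length_cons, add_comm]
    exact IM_mul N (hl a (by simp)) (ih (fun x hx => hl x (by simp [hx])))

lemma IM_nil : Nil N (IM N 1) := by
  refine ⟨fun x hx y hy => IM_mono N (by omega) (IM_mul N hx hy), fun l hl hN => ?_⟩
  ext u v
  rw [Matrix.zero_apply]
  apply IM_prod N l hl
  have := (mem_wl N u.1).1 u.2
  omega

lemma LM_mem (i : Fin 2) : LM N i ∈ IM N 1 := by
  intro u v huv
  unfold LM
  rw [Matrix.of_apply, if_neg]
  intro h
  rw [h, List.length_cons] at huv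
  omega

lemma LM_prod (w : List (Fin 2)) (p q : wl N) :
    (w.map ![LM N 0, LM N 1]).prod p q = if (p : List (Fin 2)) = w ++ q then 1 else 0 := by
  have hv : ∀ i : Fin 2, ![LM N 0, LM N 1] i = LM N i := by
    intro i; fin_cases i <;> rfl
  induction w generalizing p with
  | nil =>
    rw [List.map_nil, List.prod_nil, Matrix.one_apply, List.nil_append]
    by_cases h : p = q
    · rw [if_pos h, if_pos (by rw [h])]
    · rw [if_neg h, if_neg (fun h2 => h (Subtype.ext h2))]
  | cons i w ih =>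
    rw [List.map_cons, List.prod_cons, Matrix.mul_apply, hv]
    by_cases h : (p : List (Fin 2)) = i :: w ++ q
    · rw [if_pos h]
      have hm : w ++ (q : List (Fin 2)) ∈ wl N := by
        rw [mem_wl]
        have := (mem_wl N p.1).1 p.2
        rw [h] at this
        simp only [List.cons_append, List.length_cons] at this
        omega
      rw [Finset.sum_eq_single (⟨w ++ (q : List (Fin 2)), hm⟩ : wl N)]
      · rw [ih]
        unfold LM
        rw [Matrix.of_apply, if_pos, if_pos, one_mul]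
        · rfl
        · rw [h]; rfl
      · intro r _ hr
        rw [ih, if_neg, mul_zero]
        intro h2
        exact hr (Subtype.ext h2)
      · intro h2
        exact absurd (Finset.mem_univ _) h2
    · rw [if_neg h]
      refine Finset.sum_eq_zero (fun r _ => ?_)
      rw [ih]
      unfold LM
      rw [Matrix.of_apply]
      by_cases h2 : (p : List (Fin 2)) = i :: (r : List (Fin 2))
      · rw [if_pos h2, if_neg, mul_zero]
        intro h3
        exact h (by rw [h2, h3]; rfl)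
      · rw [if_neg h2, zero_mul]

lemma EV_LM (X : AA ℝ) (p q : wl N) : EV (LM N 0) (LM N 1) X p q =
    ∑ w ∈ wl N, if (p : List (Fin 2)) = w ++ q then cf X w else 0 := by
  rw [(IM_nil N).EV_wl (LM_mem N 0) (LM_mem N 1), Matrix.sum_apply]
  refine Finset.sum_congr rfl (fun w _ => ?_)
  rw [Matrix.smul_apply, LM_prod]
  split_ifs <;> simp

variable (hN : 1 ≤ N)
include hN

lemma nil_mem : ([] : List (Fin 2)) ∈ wl N := (mem_wl N []).2 (by rw [List.length_nil]; omega)

lemma EV_LM_nil (X : AA ℝ) (w : List (Fin 2)) (hw : w.length < N) :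
    EV (LM N 0) (LM N 1) X ⟨w, (mem_wl N w).2 hw⟩ ⟨[], nil_mem N hN⟩ = cf X w := by
  rw [EV_LM, Finset.sum_eq_single w]
  · simp
  · intro v _ hv
    rw [if_neg]
    intro h
    apply hv
    simpa using h.symm
  · intro h
    exact absurd ((mem_wl N w).2 hw) h

end Mod

section Lims

attribute [local instance] Matrix.linftyOpNormedRing Matrix.linftyOpNormedAlgebra

/-- the entry of a matrix, as a continuous linear map -/
lemma entry_le {N : ℕ} (p q : wl N) (M : WM N) : |M p q| ≤ ‖M‖ := by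
  rw [Matrix.linfty_opNorm_def]
  have h1 : ‖M p q‖₊ ≤ ∑ j : wl N, ‖M p j‖₊ :=
    Finset.single_le_sum (f := fun j => ‖M p j‖₊) (fun _ _ => zero_le) (Finset.mem_univ q)
  have h2 : ∑ j : wl N, ‖M p j‖₊ ≤ Finset.univ.sup fun i : wl N => ∑ j : wl N, ‖M i j‖₊ :=
    Finset.le_sup (f := fun i : wl N => ∑ j : wl N, ‖M i j‖₊) (Finset.mem_univ p)
  have h3 := h1.trans h2
  exact_mod_cast h3

instance (N : ℕ) : CompleteSpace (WM N) := FiniteDimensional.complete ℝ (WM N)

/-- convergence of the coefficients -/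
lemma cf_lim {N : ℕ} (hN : 1 ≤ N) {P : AA ℝ} (h : KZlim N P) : ∃ C : ℝ, ∀ a b : ℝ,
    0 < a → a ≤ 1 / 2 → 0 < b → b ≤ 1 / 2 → ∀ w : List (Fin 2), w.length < N →
      |cf (PP N a b) w - cf P w| ≤ C * (√a + √b) := by
  obtain ⟨C, hC⟩ := h (WM N) (IM N 1) (IM_nil N) (LM N 0) (LM_mem N 0) (LM N 1) (LM_mem N 1)
  refine ⟨C, fun a b ha ha' hb hb' w hw => ?_⟩
  have h1 := hC a b ha ha' hb hb'
  rw [← EV_PP ((IM_nil N).pow_zero (LM_mem N 0)) ((IM_nil N).pow_zero (LM_mem N 1)),
    ← map_sub] at h1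
  have h2 := entry_le ⟨w, (mem_wl N w).2 hw⟩ ⟨[], nil_mem N hN⟩
    (EV (LM N 0) (LM N 1) (PP N a b - P))
  rw [EV_LM_nil N hN _ w hw, cf_sub] at h2
  exact h2.trans h1

theorem specLIM (hR : SpecREG) : SpecLIM := by
  intro N hN
  obtain ⟨Φ, C, hC⟩ := hR N (WM N) (IM N 1) (IM_nil N) (LM N 0) (LM_mem N 0) (LM N 1) (LM_mem N 1)
  obtain ⟨P, hP⟩ := exists_cf (fun w => if h : w ∈ wl N then Φ ⟨w, h⟩ ⟨[], nil_mem N hN⟩ else 0)
    (wl N)
  have hc : ∀ a b : ℝ, 0 < a → a ≤ 1 / 2 → 0 < b → b ≤ 1 / 2 → ∀ w ∈ wl N,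
      |cf (PP N a b) w - cf P w| ≤ C * (√a + √b) := by
    intro a b ha ha' hb hb' w hw
    have h1 := hC a b ha ha' hb hb'
    rw [← EV_PP ((IM_nil N).pow_zero (LM_mem N 0)) ((IM_nil N).pow_zero (LM_mem N 1))] at h1
    have h2 := entry_le ⟨w, hw⟩ ⟨[], nil_mem N hN⟩ (EV (LM N 0) (LM N 1) (PP N a b) - Φ)
    rw [Matrix.sub_apply, EV_LM_nil N hN _ w ((mem_wl N w).1 hw)] at h2
    rw [hP w, if_pos hw, dif_pos hw]
    exact h2.trans h1
  refine ⟨P, ?_, fun w hw => ?_⟩
  · intro E _ _ _ I hI A hA B hB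
    refine ⟨C * ∑ w ∈ wl N, ‖(w.map ![A, B]).prod‖, fun a b ha ha' hb hb' => ?_⟩
    rw [← EV_PP (hI.pow_zero hA) (hI.pow_zero hB), ← map_sub, hI.EV_wl hA hB]
    refine (norm_sum_le _ _).trans ?_
    rw [mul_right_comm, Finset.mul_sum]
    refine Finset.sum_le_sum (fun w hw => ?_)
    rw [norm_smul, cf_sub, Real.norm_eq_abs]
    exact mul_le_mul_of_nonneg_right (hc a b ha ha' hb hb' w hw) (norm_nonneg _)
  · rw [hP w, if_neg]
    rw [mem_wl]
    omega

end Lims

end MP446S

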