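import Pool.Agent.Lib.MP_446dfa_ag.sig.Spec

set_option linter.all false

/-!
# PW: properties of `x ^ A`
-/

noncomputable section

namespace MP446S

open Set NormedSpace

namespace PWaux

variable {E : Type*} [NormedRing E] [NormedAlgebra ℝ E] [CompleteSpace E]

lemma pw_eq_sum {N : ℕ} {A : E} (hA : A ^ N = 0) (x : ℝ) :
    pw A x = ∑ n ∈ Finset.range N, (((n.factorial : ℝ)⁻¹) * Real.log x ^ n) • A ^ n := by
  unfold pw
  rw [congrFun (NormedSpace.exp_eq_tsum (𝔸 := E) ℝ) (Real.log x • A)]
  rw [tsum_eq_sum (s := Finset.range N)]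
  · refine Finset.sum_congr rfl fun n _ => ?_
    rw [smul_pow, smul_smul]
  · intro n hn
    rw [Finset.mem_range, not_lt] at hn
    rw [smul_pow, pow_eq_zero_of_le hn hA, smul_zero, smul_zero]

lemma exp_add' {X Y : E} (h : Commute X Y) : exp (X + Y) = exp X * exp Y := by
  letI : NormedAlgebra ℚ E := NormedAlgebra.restrictScalars ℚ ℝ E
  exact NormedSpace.exp_add_of_commute h

lemma pw_mul (A : E) {x y : ℝ} (hx : 0 < x) (hy : 0 < y) : pw A (x * y) = pw A x * pw A y := by
  unfold pw
  rw [Real.log_mul hx.ne' hy.ne', add_smul]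
  exact exp_add' ((Commute.refl A).smul_left _ |>.smul_right _)

lemma pw_neg_right (A : E) (x : ℝ) : pw A x * pw (-A) x = 1 := by
  unfold pw
  rw [← exp_add' ((Commute.refl A).neg_right.smul_left _ |>.smul_right _), smul_neg,
    add_neg_cancel, NormedSpace.exp_zero]

lemma pw_neg_left (A : E) (x : ℝ) : pw (-A) x * pw A x = 1 := by
  have := pw_neg_right (-A) x
  rwa [neg_neg] at this

lemma pw_add (A B : E) (h : A * B = B * A) (x : ℝ) : pw (A + B) x = pw A x * pw B x := by
  unfold pw
  rw [smul_add]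
  have hc : Commute A B := h
  exact exp_add' (hc.smul_left _ |>.smul_right _)

lemma pw_commute (A B : E) (h : A * B = B * A) (x : ℝ) : pw A x * B = B * pw A x := by
  unfold pw
  have hc : Commute (Real.log x • A) B := by
    have : Commute A B := h
    exact this.smul_left _
  exact hc.exp_left

lemma pw_deriv (A : E) {x : ℝ} (hx : 0 < x) : HasDerivAt (pw A) ((x⁻¹ • A) * pw A x) x := by
  have h1 := (hasDerivAt_exp_smul_const' (𝕂 := ℝ) A (Real.log x)).scomp x
    (Real.hasDerivAt_log hx.ne')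
  have h2 : x⁻¹ • (A * exp (Real.log x • A)) = (x⁻¹ • A) * pw A x := by
    rw [smul_mul_assoc]; rfl
  rw [← h2]
  exact h1

end PWaux

open PWaux

theorem specPW : SpecPW := by
  intro N E _ _ _ A hA
  refine ⟨?_, fun x y hx hy => pw_mul A hx hy, pw_neg_right A, pw_neg_left A,
    fun B h x => pw_commute A B h x, fun B h x => pw_add A B h x, fun x hx => pw_deriv A hx,
    ?_, ?_⟩
  · unfold pw
    rw [Real.log_one, zero_smul, NormedSpace.exp_zero]
  · refine ⟨∑ n ∈ Finset.range N, ‖A ^ n‖, fun x _ => ?_⟩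
    rw [pw_eq_sum hA, Finset.sum_mul]
    refine (norm_sum_le _ _).trans (Finset.sum_le_sum fun n hn => ?_)
    rw [norm_smul, mul_comm]
    refine mul_le_mul_of_nonneg_left ?_ (norm_nonneg _)
    rw [norm_mul, Real.norm_eq_abs, Real.norm_eq_abs, abs_pow]
    have h1 : |((n.factorial : ℝ)⁻¹)| ≤ 1 := by
      rw [abs_of_nonneg (by positivity)]
      apply inv_le_one_of_one_le₀
      exact_mod_cast n.factorial_pos
    have h2 : |Real.log x| ^ n ≤ (1 + |Real.log x|) ^ N := by
      calc |Real.log x| ^ n ≤ (1 + |Real.log x|) ^ n := by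
            gcongr
            linarith
        _ ≤ (1 + |Real.log x|) ^ N := by
            refine pow_le_pow_right₀ ?_ (Finset.mem_range.1 hn).le
            linarith [abs_nonneg (Real.log x)]
    calc |((n.factorial : ℝ)⁻¹)| * |Real.log x| ^ n ≤ 1 * |Real.log x| ^ n := by gcongr
      _ ≤ _ := by rw [one_mul]; exact h2
  · have hA' : A ^ (N + 1) = 0 := by rw [pow_succ, hA, zero_mul]
    refine ⟨∑ n ∈ Finset.range N, ‖A ^ (n + 1)‖, fun x _ hx => ?_⟩
    rw [pw_eq_sum hA', Finset.sum_range_succ']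
    simp only [Nat.factorial_zero, Nat.cast_one, inv_one, pow_zero, mul_one, one_smul,
      add_sub_cancel_right]
    rw [Finset.sum_mul]
    refine (norm_sum_le _ _).trans (Finset.sum_le_sum fun n _ => ?_)
    rw [norm_smul, mul_comm]
    refine mul_le_mul_of_nonneg_left ?_ (norm_nonneg _)
    rw [norm_mul, Real.norm_eq_abs, Real.norm_eq_abs, abs_pow]
    have h1 : |(((n + 1).factorial : ℝ)⁻¹)| ≤ 1 := by
      rw [abs_of_nonneg (by positivity)]
      apply inv_le_one_of_one_le₀
      exact_mod_cast (n + 1).factorial_pos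
    have h2 : |Real.log x| ^ (n + 1) ≤ |Real.log x| := by
      rw [pow_succ]
      have : |Real.log x| ^ n ≤ 1 := pow_le_one₀ (abs_nonneg _) hx
      exact mul_le_of_le_one_left (abs_nonneg _) this
    calc |(((n + 1).factorial : ℝ)⁻¹)| * |Real.log x| ^ (n + 1)
        ≤ 1 * |Real.log x| ^ (n + 1) := by gcongr
      _ ≤ _ := by rw [one_mul]; exact h2

end MP446S
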