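import Pool.Agent.Lib.MP_446dfa_ag.sig.KZ
import Pool.Agent.Lib.MP_446dfa_ag.sig.PW

set_option linter.all false

/-!
# REG: existence of the regularized transport
-/

noncomputable section

namespace MP446S

open MP446 MP446Y MP446Z Set

namespace REGaux

open KZaux PWaux Filter Topology

/-- powers of logarithms are small compared with `1 / √s` -/
lemma polylog (M : ℕ) : ∃ C : ℝ, 0 < C ∧ ∀ s : ℝ, 0 < s → s ≤ 1 →
    (1 + |Real.log s|) ^ M ≤ C / √s := by
  rcases Nat.eq_zero_or_pos M with h | h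
  · refine ⟨1, one_pos, fun s hs hs1 => ?_⟩
    subst h
    rw [pow_zero, le_div_iff₀ (Real.sqrt_pos.2 hs), one_mul]
    exact Real.sqrt_le_one.2 hs1
  · have hM : (0 : ℝ) < M := by exact_mod_cast h
    refine ⟨(1 + 2 * M) ^ M, by positivity, fun s hs hs1 => ?_⟩
    have ht : (0 : ℝ) < 1 / (2 * M) := by positivity
    have h1 := Real.abs_log_mul_self_rpow_lt s _ hs hs1 ht
    have h2 : (0 : ℝ) < s ^ (1 / (2 * (M : ℝ))) := Real.rpow_pos_of_pos hs _
    have h3 : s ^ (1 / (2 * (M : ℝ))) ≤ 1 := Real.rpow_le_one hs.le hs1 ht.le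
    rw [abs_mul, abs_of_pos h2, one_div_one_div] at h1
    have h4 : (1 + |Real.log s|) * s ^ (1 / (2 * (M : ℝ))) ≤ 1 + 2 * M := by
      nlinarith
    have h5 : ((1 + |Real.log s|) * s ^ (1 / (2 * (M : ℝ)))) ^ M ≤ (1 + 2 * M) ^ M :=
      pow_le_pow_left₀ (by positivity) h4 M
    rw [mul_pow] at h5
    have h6 : (s ^ (1 / (2 * (M : ℝ)))) ^ M = √s := by
      rw [← Real.rpow_natCast, ← Real.rpow_mul hs.le, Real.sqrt_eq_rpow]
      congr 1
      field_simp
    rw [h6] at h5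
    rw [le_div_iff₀ (Real.sqrt_pos.2 hs)]
    exact h5

lemma sqrt_lip {E : Type*} [NormedAddCommGroup E] [NormedSpace ℝ E] {W W' : ℝ → E} {K : ℝ}
    (hW : ∀ s, 0 < s → s ≤ 1 / 2 → HasDerivAt W (W' s) s)
    (hb : ∀ s, 0 < s → s ≤ 1 / 2 → ‖W' s‖ ≤ K / (2 * √s)) {s s' : ℝ} (hs : 0 < s)
    (hss : s ≤ s') (hs' : s' ≤ 1 / 2) : ‖W s' - W s‖ ≤ K * (√s' - √s) := by
  have key := image_norm_le_of_norm_deriv_right_le_deriv_boundary' (a := s) (b := s')
    (f := fun x => W x - W s) (f' := W') (B := fun x => K * (√x - √s))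
    (B' := fun x => K / (2 * √x)) ?_ ?_ ?_ ?_ ?_ ?_
  · exact key ⟨hss, le_refl _⟩
  · intro x hx
    exact (((hW x (by linarith [hx.1]) (by linarith [hx.2])).sub_const _).continuousAt).continuousWithinAt
  · intro x hx
    exact ((hW x (by linarith [hx.1]) (by linarith [hx.2])).sub_const _).hasDerivWithinAt
  · simp
  · exact (continuous_const.mul (Real.continuous_sqrt.sub continuous_const)).continuousOn
  · intro x hx
    have hx0 : 0 < x := by linarith [hx.1]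
    have h1 := ((Real.hasDerivAt_sqrt hx0.ne').sub_const (√s)).const_mul K
    have h2 : K * (1 / (2 * √x)) = K / (2 * √x) := by ring
    rw [h2] at h1
    exact h1.hasDerivWithinAt
  · intro x hx
    exact hb x (by linarith [hx.1]) (by linarith [hx.2])

lemma exists_lim {E : Type*} [NormedAddCommGroup E] [CompleteSpace E] {W : ℝ → E}
    {K : ℝ} (hK : 0 ≤ K) (h : ∀ s s' : ℝ, 0 < s → s ≤ s' → s' ≤ 1 / 2 →
      ‖W s' - W s‖ ≤ K * (√s' - √s)) :
    ∃ L : E, ∀ s : ℝ, 0 < s → s ≤ 1 / 2 → ‖W s - L‖ ≤ K * √s := by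
  set u : ℕ → ℝ := fun n => 1 / ((n : ℝ) + 2) with hu
  have hu0 : ∀ n, 0 < u n := fun n => by simp only [hu]; positivity
  have hu1 : ∀ n, u n ≤ 1 / 2 := fun n => by
    simp only [hu]
    apply one_div_le_one_div_of_le (by norm_num)
    have : (0 : ℝ) ≤ n := by positivity
    linarith
  have hmono : ∀ n m, n ≤ m → u m ≤ u n := fun n m hnm => by
    simp only [hu]
    apply one_div_le_one_div_of_le (by positivity)
    have : (n : ℝ) ≤ m := by exact_mod_cast hnm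
    linarith
  have hut : Tendsto u atTop (𝓝 0) := by
    simp only [hu]
    have h1 : Tendsto (fun n : ℕ => (n : ℝ) + 2) atTop atTop :=
      tendsto_atTop_add_const_right _ _ tendsto_natCast_atTop_atTop
    refine (h1.inv_tendsto_atTop).congr fun n => ?_
    simp
  have hgen : ∀ s s' : ℝ, 0 < s → 0 < s' → s ≤ 1 / 2 → s' ≤ 1 / 2 → ∀ r, s ≤ r → s' ≤ r →
      ‖W s' - W s‖ ≤ K * √r := by
    intro s s' hs hs' h1 h2 r hr hr'
    rcases le_total s s' with hle | hle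
    · refine (h s s' hs hle h2).trans ?_
      refine mul_le_mul_of_nonneg_left ?_ hK
      have := Real.sqrt_le_sqrt hr'
      linarith [Real.sqrt_nonneg s]
    · rw [norm_sub_rev]
      refine (h s' s hs' hle h1).trans ?_
      refine mul_le_mul_of_nonneg_left ?_ hK
      have := Real.sqrt_le_sqrt hr
      linarith [Real.sqrt_nonneg s']
  have hc : CauchySeq (fun n => W (u n)) := by
    refine cauchySeq_of_le_tendsto_0 (fun n => K * √(u n)) ?_ ?_
    · intro n m N hn hm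
      rw [dist_eq_norm]
      exact hgen _ _ (hu0 m) (hu0 n) (hu1 m) (hu1 n) _ (hmono _ _ hm) (hmono _ _ hn)
    · have h1 : Tendsto (fun n => K * √(u n)) atTop (𝓝 (K * √0)) :=
        ((Real.continuous_sqrt.tendsto 0).comp hut).const_mul K
      simpa using h1
  obtain ⟨L, hL⟩ := cauchySeq_tendsto_of_complete hc
  refine ⟨L, fun s hs hs1 => ?_⟩
  have h1 : Tendsto (fun n => ‖W s - W (u n)‖) atTop (𝓝 ‖W s - L‖) :=
    (tendsto_const_nhds.sub hL).norm
  refine le_of_tendsto h1 ?_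
  have h2 : ∀ᶠ n in atTop, u n < s := hut.eventually (gt_mem_nhds hs)
  filter_upwards [h2] with n hn
  exact hgen _ _ (hu0 n) hs (hu1 n) hs1 s hn.le le_rfl

section
variable {E : Type} [NormedRing E] [NormedAlgebra ℝ E] [CompleteSpace E] {N : ℕ}
  {I : Submodule ℝ E}

lemma half_mem : (1 / 2 : ℝ) ∈ Ioo (0 : ℝ) 1 := by constructor <;> norm_num

/-- derivative with respect to the starting point -/
lemma UU_deriv_left (hI : Nil N I) {A B : E} (hA : A ∈ I) (hB : B ∈ I) {s : ℝ}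
    (hs : s ∈ Ioo (0 : ℝ) 1) :
    HasDerivAt (fun s => UU N A B s (1 / 2)) (-(UU N A B s (1 / 2) * Om A B s)) s := by
  set Z : ℝ → E := fun x => UU N A B (1 / 2) x with hZ
  set Y : ℝ → E := fun x => UU N A B x (1 / 2) with hY
  have hYZ : ∀ x ∈ Ioo (0 : ℝ) 1, Y x * Z x = 1 := by
    intro x hx
    have := UU_mul hI hA hB hx half_mem half_mem
    rw [UU_one hI] at this
    exact this.symm
  have hZY : ∀ x ∈ Ioo (0 : ℝ) 1, Z x * Y x = 1 := by
    intro x hx
    have := UU_mul hI hA hB half_mem hx hx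
    rw [UU_one hI] at this
    exact this.symm
  have hinv : ∀ x ∈ Ioo (0 : ℝ) 1, Ring.inverse (Z x) = Y x := by
    intro x hx
    have : Z x = ((⟨Z x, Y x, hZY x hx, hYZ x hx⟩ : Eˣ) : E) := rfl
    rw [this, Ring.inverse_unit]
    rfl
  have hZd : HasDerivAt Z (Om A B s * Z s) s := UU_deriv hI hA hB half_mem hs
  have h1 := (hasFDerivAt_ringInverse (𝕜 := ℝ) (⟨Z s, Y s, hZY s hs, hYZ s hs⟩ : Eˣ)).comp_hasDerivAt
    s hZd
  have h2 : HasDerivAt (Ring.inverse ∘ Z) (-(Y s * Om A B s)) s := by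
    refine h1.congr_deriv ?_
    simp only [ContinuousLinearMap.neg_apply, ContinuousLinearMap.mulLeftRight_apply,
      Units.inv_mk]
    congr 1
    change Y s * (Om A B s * Z s) * Y s = _
    rw [mul_assoc, mul_assoc, hZY s hs, mul_one]
  refine h2.congr_of_eventuallyEq ?_
  filter_upwards [isOpen_Ioo.mem_nhds hs] with x hx
  exact (hinv x hx).symm

lemma W_deriv (hI : Nil N I) {A B : E} (hA : A ∈ I) (hB : B ∈ I) {s : ℝ}
    (hs : s ∈ Ioo (0 : ℝ) 1) :
    HasDerivAt (fun s => UU N A B s (1 / 2) * pw A s)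
      (-(UU N A B s (1 / 2) * (((s - 1)⁻¹ • B) * pw A s))) s := by
  have h1 := (UU_deriv_left hI hA hB hs).mul (pw_deriv A hs.1)
  refine h1.congr_deriv ?_
  unfold Om
  simp only [mul_add, add_mul, neg_add, neg_mul, mul_assoc]
  abel

lemma V_deriv (hI : Nil N I) {A B : E} (hA : A ∈ I) (hB : B ∈ I) {b : ℝ}
    (hb : b ∈ Ioo (0 : ℝ) 1) :
    HasDerivAt (fun b => pw (-B) b * UU N A B (1 / 2) (1 - b))
      (-(pw (-B) b * (((1 - b)⁻¹ • A) * UU N A B (1 / 2) (1 - b)))) b := by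
  have hb' : 1 - b ∈ Ioo (0 : ℝ) 1 := ⟨by linarith [hb.2], by linarith [hb.1]⟩
  have h0 : HasDerivAt (fun x : ℝ => 1 - x) (-1) b := by
    simpa using (hasDerivAt_id b).const_sub 1
  have h1 : HasDerivAt (fun b => UU N A B (1 / 2) (1 - b))
      ((-1 : ℝ) • (Om A B (1 - b) * UU N A B (1 / 2) (1 - b))) b :=
    (UU_deriv hI hA hB half_mem hb').scomp b h0
  have h2 := (pw_deriv (-B) hb.1).mul h1
  refine h2.congr_deriv ?_
  have h3 : pw (-B) b * B = B * pw (-B) b := pw_commute (-B) B (by simp) b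
  have h4 : (1 - b - 1 : ℝ)⁻¹ = -b⁻¹ := by
    rw [show (1 - b - 1 : ℝ) = -b by ring, inv_neg]
  unfold Om
  rw [h4]
  simp only [smul_neg, neg_smul, one_smul, neg_mul, add_mul, mul_add, smul_mul_assoc,
    mul_smul_comm, mul_neg, neg_add, neg_neg]
  rw [← mul_assoc (pw (-B) b) B, h3, mul_assoc]
  abel

lemma polybound {C₁ C₂ : ℝ} (N : ℕ) : ∃ K : ℝ, 0 ≤ K ∧ ∀ s : ℝ, 0 < s → s ≤ 1 / 2 →
    ∀ x y : ℝ, 0 ≤ x → 0 ≤ y → x ≤ C₁ * (5 * (1 + |Real.log s|)) ^ N →
      y ≤ C₂ * (1 + |Real.log s|) ^ N → x * y ≤ K / (2 * √s) := by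
  obtain ⟨C, hC, hpoly⟩ := polylog (2 * N)
  refine ⟨2 * (|C₁| * 5 ^ N * |C₂| * C), by positivity, ?_⟩
  intro s hs hs1 x y hx hy hx1 hy1
  have hl : 0 ≤ 1 + |Real.log s| := by positivity
  have h1 : x ≤ |C₁| * 5 ^ N * (1 + |Real.log s|) ^ N := by
    refine hx1.trans ?_
    rw [mul_pow, mul_assoc]
    exact mul_le_mul_of_nonneg_right (le_abs_self _) (by positivity)
  have h2 : y ≤ |C₂| * (1 + |Real.log s|) ^ N := by
    refine hy1.trans ?_
    exact mul_le_mul_of_nonneg_right (le_abs_self _) (by positivity)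
  calc x * y ≤ (|C₁| * 5 ^ N * (1 + |Real.log s|) ^ N) * (|C₂| * (1 + |Real.log s|) ^ N) :=
        mul_le_mul h1 h2 hy (by positivity)
    _ = (|C₁| * 5 ^ N * |C₂|) * (1 + |Real.log s|) ^ (2 * N) := by
        rw [two_mul, pow_add]; ring
    _ ≤ (|C₁| * 5 ^ N * |C₂|) * (C / √s) :=
        mul_le_mul_of_nonneg_left (hpoly s hs (by linarith)) (by positivity)
    _ = _ := by
        have := Real.sqrt_pos.2 hs
        field_simp

lemma LL_bound {s : ℝ} (hs : 0 < s) (hs1 : s ≤ 1 / 2) :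
    LL s (1 - s) + LL (1 / 2) (1 - 1 / 2) ≤ 5 * (1 + |Real.log s|) := by
  have h2 : Real.log 2 ≤ 1 := by
    have := Real.log_two_lt_d9
    linarith
  have h20 : 0 ≤ Real.log 2 := Real.log_nonneg (by norm_num)
  have h3 : |Real.log (1 - s)| ≤ 1 := by
    have h4 : Real.log (1 - s) ≤ 0 := Real.log_nonpos (by linarith) (by linarith)
    rw [abs_of_nonpos h4]
    have h5 : Real.log (1 / 2) ≤ Real.log (1 - s) := Real.log_le_log (by norm_num) (by linarith)
    rw [one_div, Real.log_inv] at h5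
    linarith
  have h4 : |Real.log (1 / 2)| ≤ 1 := by
    rw [one_div, Real.log_inv, abs_neg, abs_of_nonneg h20]
    exact h2
  unfold LL
  have h5 : (1 : ℝ) - 1 / 2 = 1 / 2 := by norm_num
  rw [h5]
  have := abs_nonneg (Real.log s)
  linarith

end

end REGaux

open REGaux KZaux PWaux

theorem specREG : SpecREG := by
  intro N E _ _ _ I hI A hA B hB
  obtain ⟨_, _, _, CU, hCU⟩ := specKZ N E I hI A hA B hB
  obtain ⟨_, _, _, _, _, _, _, ⟨CA, hCA⟩, _⟩ := specPW N E A (hI.pow_zero hA)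
  have hnB : (-B) ^ N = 0 := hI.pow_zero (I.neg_mem hB)
  obtain ⟨_, _, _, _, _, _, _, ⟨CB, hCB⟩, _⟩ := specPW N E (-B) hnB
  have hhalf := half_mem
  -- the left factor
  obtain ⟨K₁, hK₁, hb₁⟩ := polybound (C₁ := CU) (C₂ := 2 * ‖B‖ * CA) N
  obtain ⟨K₂, hK₂, hb₂⟩ := polybound (C₁ := CU) (C₂ := 2 * ‖A‖ * CB) N
  have hCU0 : 0 ≤ CU := by
    have h1 := (norm_nonneg _).trans (hCU (1 / 2) half_mem (1 / 2) half_mem)
    have h2 : 0 < (LL (1 / 2) (1 - 1 / 2) + LL (1 / 2) (1 - 1 / 2)) ^ N := by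
      have := one_le_LL (1 / 2) (1 - 1 / 2)
      positivity
    exact nonneg_of_mul_nonneg_left h1 h2
  have hW := exists_lim (W := fun s => UU N A B s (1 / 2) * pw A s) hK₁ (by
    intro s s' h1 h2 h3
    refine sqrt_lip (W := fun s => UU N A B s (1 / 2) * pw A s)
      (W' := fun s => -(UU N A B s (1 / 2) * (((s - 1)⁻¹ • B) * pw A s))) ?_ ?_ h1 h2 h3
    · intro x hx hx1
      exact W_deriv hI hA hB ⟨hx, by linarith⟩
    · intro x hx hx1
      have hx2 : x ∈ Ioo (0 : ℝ) 1 := ⟨hx, by linarith⟩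
      rw [norm_neg]
      refine (norm_mul_le _ _).trans (hb₁ x hx hx1 _ _ (norm_nonneg _) (norm_nonneg _) ?_ ?_)
      · refine (hCU x hx2 (1 / 2) half_mem).trans ?_
        refine mul_le_mul_of_nonneg_left ?_ hCU0
        refine pow_le_pow_left₀ ?_ (LL_bound hx hx1) _
        linarith [one_le_LL x (1 - x), one_le_LL (1 / 2) (1 - 1 / 2)]
      · refine (norm_mul_le _ _).trans ?_
        have h4 : ‖((x - 1)⁻¹ • B : E)‖ ≤ 2 * ‖B‖ := by
          rw [norm_smul]
          refine mul_le_mul_of_nonneg_right ?_ (norm_nonneg _)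
          rw [Real.norm_eq_abs, abs_inv, abs_sub_comm, abs_of_pos (by linarith)]
          rw [inv_le_comm₀ (by linarith) (by norm_num)]
          linarith
        calc ‖((x - 1)⁻¹ • B : E)‖ * ‖pw A x‖
            ≤ (2 * ‖B‖) * (CA * (1 + |Real.log x|) ^ N) :=
              mul_le_mul h4 (hCA x hx) (norm_nonneg _) (by positivity)
          _ = _ := by ring)
  have hV := exists_lim (W := fun b => pw (-B) b * UU N A B (1 / 2) (1 - b)) hK₂ (by
    intro s s' h1 h2 h3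
    refine sqrt_lip (W := fun b => pw (-B) b * UU N A B (1 / 2) (1 - b))
      (W' := fun b => -(pw (-B) b * (((1 - b)⁻¹ • A) * UU N A B (1 / 2) (1 - b)))) ?_ ?_ h1 h2 h3
    · intro x hx hx1
      exact V_deriv hI hA hB ⟨hx, by linarith⟩
    · intro x hx hx1
      have hx2 : x ∈ Ioo (0 : ℝ) 1 := ⟨hx, by linarith⟩
      have hx3 : 1 - x ∈ Ioo (0 : ℝ) 1 := ⟨by linarith, by linarith⟩
      rw [norm_neg, ← mul_assoc]
      refine (norm_mul_le _ _).trans ?_
      rw [mul_comm]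
      refine hb₂ x hx hx1 _ _ (norm_nonneg _) (norm_nonneg _) ?_ ?_
      · refine (hCU (1 / 2) half_mem (1 - x) hx3).trans ?_
        refine mul_le_mul_of_nonneg_left ?_ hCU0
        have h5 : LL (1 / 2) (1 - 1 / 2) + LL (1 - x) (1 - (1 - x)) =
            LL x (1 - x) + LL (1 / 2) (1 - 1 / 2) := by
          unfold LL
          rw [sub_sub_cancel]
          ring
        rw [h5]
        refine pow_le_pow_left₀ ?_ (LL_bound hx hx1) _
        linarith [one_le_LL x (1 - x), one_le_LL (1 / 2) (1 - 1 / 2)]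
      · refine (norm_mul_le _ _).trans ?_
        have h4 : ‖((1 - x)⁻¹ • A : E)‖ ≤ 2 * ‖A‖ := by
          rw [norm_smul]
          refine mul_le_mul_of_nonneg_right ?_ (norm_nonneg _)
          rw [Real.norm_eq_abs, abs_inv, abs_of_pos (by linarith)]
          rw [inv_le_comm₀ (by linarith) (by norm_num)]
          linarith
        calc ‖pw (-B) x‖ * ‖((1 - x)⁻¹ • A : E)‖
            ≤ (CB * (1 + |Real.log x|) ^ N) * (2 * ‖A‖) :=
              mul_le_mul (hCB x hx) h4 (norm_nonneg _)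
                ((norm_nonneg _).trans (hCB x hx))
          _ = _ := by ring)
  obtain ⟨W₀, hW₀⟩ := hW
  obtain ⟨V₀, hV₀⟩ := hV
  refine ⟨V₀ * W₀, K₂ * (‖W₀‖ + K₁) + ‖V₀‖ * K₁, ?_⟩
  intro a b ha ha1 hb hb1
  have ha2 : a ∈ Ioo (0 : ℝ) 1 := ⟨ha, by linarith⟩
  have hb2 : 1 - b ∈ Ioo (0 : ℝ) 1 := ⟨by linarith, by linarith⟩
  rw [UU_mul hI hA hB half_mem ha2 hb2]
  set W := UU N A B a (1 / 2) * pw A a with hWdef
  set V := pw (-B) b * UU N A B (1 / 2) (1 - b) with hVdef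
  have h1 : pw (-B) b * (UU N A B (1 / 2) (1 - b) * UU N A B a (1 / 2)) * pw A a - V₀ * W₀ =
      (V - V₀) * W + V₀ * (W - W₀) := by
    rw [hWdef, hVdef]
    noncomm_ring
  rw [h1]
  have h2 := hW₀ a ha ha1
  have h3 := hV₀ b hb hb1
  have hsa : √a ≤ 1 := Real.sqrt_le_one.2 (by linarith)
  have hW1 : ‖W‖ ≤ ‖W₀‖ + K₁ := by
    have h4 : W = W₀ + (W - W₀) := by abel
    rw [h4]
    refine (norm_add_le _ _).trans ?_
    have : K₁ * √a ≤ K₁ := mul_le_of_le_one_right hK₁ hsa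
    linarith
  have hsa0 := Real.sqrt_nonneg a
  have hsb0 := Real.sqrt_nonneg b
  calc ‖(V - V₀) * W + V₀ * (W - W₀)‖ ≤ ‖V - V₀‖ * ‖W‖ + ‖V₀‖ * ‖W - W₀‖ :=
        (norm_add_le _ _).trans (add_le_add (norm_mul_le _ _) (norm_mul_le _ _))
    _ ≤ (K₂ * √b) * (‖W₀‖ + K₁) + ‖V₀‖ * (K₁ * √a) := by
        refine add_le_add (mul_le_mul h3 hW1 (norm_nonneg _) (by positivity))
          (mul_le_mul_of_nonneg_left h2 (norm_nonneg _))
    _ ≤ (K₂ * (‖W₀‖ + K₁) + ‖V₀‖ * K₁) * (√a + √b) := by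
        have e1 : 0 ≤ K₂ * (‖W₀‖ + K₁) := by positivity
        have e2 : 0 ≤ ‖V₀‖ * K₁ := by positivity
        nlinarith [mul_nonneg e1 hsa0, mul_nonneg e2 hsb0]

end MP446S
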