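import Pool.Agent.Lib.MP_446dfa_ag.sig.Spec

set_option linter.all false

/-!
# TRANSFER: finitely many nilpotent elements generate a finite-dimensional algebra
-/

noncomputable section

namespace MP446S

open MP446 MP446Y MP446Z

universe u v w

lemma adjoin_finite {N : ℕ} {E : Type} [Ring E] [Algebra ℝ E] {I : Submodule ℝ E} (h : Nil N I)
    {ι : Type} [Fintype ι] (x : ι → E) (hx : ∀ i, x i ∈ I) :
    Module.Finite ℝ (Algebra.adjoin ℝ (Set.range x)) := by
  have hfin : {l : List ι | l.length < N}.Finite := List.finite_length_lt ι N
  have hspan : Subalgebra.toSubmodule (Algebra.adjoin ℝ (Set.range x)) ≤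
      Submodule.span ℝ ((fun l : List ι => (l.map x).prod) '' {l : List ι | l.length < N}) := by
    rw [Algebra.adjoin_eq_span, Submodule.span_le]
    intro y hy
    obtain ⟨l, hl, rfl⟩ := Submonoid.exists_list_of_mem_closure hy
    have : ∃ m : List ι, m.map x = l := by
      clear hy
      induction l with
      | nil => exact ⟨[], rfl⟩
      | cons a l ih =>
        obtain ⟨m, hm⟩ := ih (fun y hy => hl y (by simp [hy]))
        obtain ⟨i, hi⟩ := hl a (by simp)
        exact ⟨i :: m, by simp [hm, hi]⟩
    obtain ⟨m, rfl⟩ := this
    by_cases hm : m.length < N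
    · exact Submodule.subset_span ⟨m, hm, rfl⟩
    · have h0 : (m.map x).prod = 0 := by
        rw [← List.take_append_drop N (m.map x), List.prod_append,
          h.prod_zero ((m.map x).take N) (fun y hy => hl y (List.mem_of_mem_take hy)
            |>.elim (fun i hi => hi ▸ hx i)) (by simp; omega), zero_mul]
      rw [h0]
      exact Submodule.zero_mem _
  have hfd : FiniteDimensional ℝ (Submodule.span ℝ
      ((fun l : List ι => (l.map x).prod) '' {l : List ι | l.length < N})) :=
    FiniteDimensional.span_of_finite ℝ (hfin.image _)
  exact Submodule.finiteDimensional_of_le hspan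

theorem specTRANSFER : SpecTRANSFER := by
  intro N E _ _ I h ι _ x hx
  haveI := adjoin_finite h x hx
  let b := Module.finBasis ℝ (Algebra.adjoin ℝ (Set.range x))
  exact ⟨_, Algebra.leftMulMatrix b, Algebra.leftMulMatrix_injective b⟩

end MP446S
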