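import Pool.Agent.Lib.MP_446dfa_ag.sig.Defs

set_option linter.all false

/-!
# Existence of the elements `σ_{2i+3}` of `grt₁`: statements of the modules
-/

noncomputable section

namespace MP446S

open MP446 MP446Y MP446Z Set

universe u v w

attribute [local instance 100] LieRing.ofAssociativeRing

/-! ## Algebra -/

/-- DIFF: the lowest part of the difference of two solutions. -/
def SpecDIFF : Prop :=
  ∀ (N m : ℕ) (P P' Q : AA ℝ), 1 ≤ m → m + 1 ≤ N → cf P [] = 1 → cf P' [] = 1 →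
    GrL N P → GrL N P' → PG N P → PG N P' →
    (∀ w : List (Fin 2), w.length < m → cf P w = cf P' w) →
    (∀ w : List (Fin 2), cf Q w = if w.length = m then cf P' w - cf P w else 0) →
    Prim Q ∧ PLin Q

/-- DSW1: Dynkin's theorem. -/
def SpecDSW1 : Prop :=
  ∀ (n : ℕ) (Q : AA ℝ), Prim Q → Hom n Q → Dyn Q = (n : ℝ) • Q

/-- DSW2 -/
def SpecDSW2 : Prop :=
  ∀ (K : Type u) [Field K] [CharZero K] (n : ℕ) (Q : AA K), 1 ≤ n → Dyn Q = (n : K) • Q →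
    ∃ ψ : F2 K, assoc K ψ = Q

/-- MODEL: the operators `ee` satisfy the infinitesimal braid relations. -/
def SpecMODEL : Prop := ∀ (K : Type u) [Field K], Braid (ee K)

/-- INJ: the free Lie algebra on three generators embeds into the free associative algebra. -/
def SpecINJ : Prop :=
  ∀ (K : Type u) [Field K] [CharZero K],
    Function.Injective (FreeLieAlgebra.lift K (letter K : Fin 3 → FA K (Fin 3)))

/-- S4: the family `ee` detects the pentagon equation. -/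
def SpecS4 : Prop :=
  ∀ (K : Type u) [Field K] [CharZero K] (n : ℕ) (ψ : F2 K), 2 ≤ n → Hom n (assoc K ψ) →
    PLt (ee K) (assoc K ψ) → Pentagon ψ

/-- F1: antisymmetry. -/
def SpecF1 : Prop :=
  ∀ (K : Type u) [Field K] [CharZero K] (n : ℕ) (ψ : F2 K), 2 ≤ n → Hom n (assoc K ψ) →
    Pentagon ψ → ev (gB K) (gA K) ψ = -ψ

/-- F2: the cycle relation. -/
def SpecF2 : Prop :=
  ∀ (K : Type u) [Field K] [CharZero K] (n : ℕ) (ψ : F2 K), 3 ≤ n → Hom n (assoc K ψ) →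
    Pentagon ψ → ψ + ev (gB K) (gC K) ψ + ev (gC K) (gA K) ψ = 0

/-- F3: the hexagon relation. -/
def SpecF3 : Prop :=
  ∀ (K : Type u) [Field K] [CharZero K] (n : ℕ) (ψ : F2 K), 3 ≤ n → Hom n (assoc K ψ) →
    Pentagon ψ → ⁅gB K, ψ⁆ + ⁅gC K, ev (gA K) (gC K) ψ⁆ = 0

/-- DEF: the deformation `t + ε d` satisfies the infinitesimal braid relations, and the faces are
deformed by inner derivations. (`Q` is the polynomial of an element of `grt₁`.) -/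
def SpecDEF : Prop :=
  ∀ (n : ℕ) (ψ : F2 ℝ) (Q : AA ℝ), 2 ≤ n → assoc ℝ ψ = Q → Hom n Q → IsGRT ψ →
    ∀ (E : Type) [Ring E] [Algebra ℝ E] (t d : Fin 4 → Fin 4 → E), Braid t → Defo Q t d →
      DefoFaces Q t d

/-- FLOWG: the flow of a primitive element preserves group-like elements. -/
def SpecFLOWG : Prop :=
  ∀ (N n : ℕ) (P Q : AA ℝ), 1 ≤ n → Hom n Q → Prim Q → GrL N P → GrL N (flow N Q P)

/-- FLOWP: the flow of an element of `grt₁` preserves the pentagon equation. -/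
def SpecFLOWP : Prop :=
  ∀ (N n : ℕ) (P Q : AA ℝ) (ψ : F2 ℝ), 2 ≤ n → Hom n Q → assoc ℝ ψ = Q → IsGRT ψ →
    PG N P → PG N (flow N Q P)

/-- FLOWC: the coefficients of the flow. -/
def SpecFLOWC : Prop :=
  ∀ (N n : ℕ) (P Q : AA ℝ), 2 ≤ n → n < N → Hom n Q → cf Q (List.replicate n 0) = 0 →
    Norm1 N P →
    Norm1 N (flow N Q P) ∧
    (∀ w : List (Fin 2), w.length < n → cf (flow N Q P) w = cf P w) ∧
    (∀ w : List (Fin 2), w.length = n → cf (flow N Q P) w = cf P w + cf Q w) ∧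
    (∀ k, k + 1 < N → cf (flow N Q P) (xny k) = cf P (xny k) + cf Q (xny k))

/-- DESC: descent from `ℝ` to an arbitrary field of characteristic zero. -/
def SpecDESC : Prop :=
  ∀ (n : ℕ) (Q : AA ℝ), 1 ≤ n → Hom n Q → Dyn Q = (n : ℝ) • Q → PLt (ee ℝ) Q →
    cf Q (xny (n - 1)) ≠ 0 →
    ∀ (K : Type u) [Field K] [CharZero K], ∃ Q' : AA K, Hom n Q' ∧ Dyn Q' = (n : K) • Q' ∧
      PLt (ee K) Q' ∧ cf Q' (xny (n - 1)) ≠ 0

/-- TRANSFER: the algebra generated by finitely many nilpotent elements embeds into an algebra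
of matrices. -/
def SpecTRANSFER : Prop :=
  ∀ (N : ℕ) (E : Type) [Ring E] [Algebra ℝ E] (I : Submodule ℝ E), Nil N I →
    ∀ (ι : Type) [Fintype ι] (x : ι → E), (∀ i, x i ∈ I) →
      ∃ (d : ℕ) (ρ : Algebra.adjoin ℝ (Set.range x) →ₐ[ℝ] Matrix (Fin d) (Fin d) ℝ),
        Function.Injective ρ

/-! ## Analysis -/

/-- UNIQ: uniqueness for linear differential equations. -/
def SpecUNIQ : Prop :=
  ∀ (E : Type) [NormedRing E] [NormedAlgebra ℝ E] (a b c : ℝ) (Ω Z Z' : ℝ → E),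
    a ≤ c → c ≤ b → ContinuousOn Ω (Icc a b) →
    (∀ x ∈ Icc a b, HasDerivAt Z (Ω x * Z x) x) → (∀ x ∈ Icc a b, HasDerivAt Z' (Ω x * Z' x) x) →
    Z c = Z' c → ∀ x ∈ Icc a b, Z x = Z' x

/-- KZ: the transport. -/
def SpecKZ : Prop :=
  ∀ (N : ℕ) (E : Type) [NormedRing E] [NormedAlgebra ℝ E] (I : Submodule ℝ E), Nil N I →
    ∀ A ∈ I, ∀ B ∈ I,
    (∀ s ∈ Ioo (0 : ℝ) 1, UU N A B s s = 1) ∧
    (∀ s ∈ Ioo (0 : ℝ) 1, ∀ t ∈ Ioo (0 : ℝ) 1,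
      HasDerivAt (fun t => UU N A B s t) (Om A B t * UU N A B s t) t) ∧
    (∀ r ∈ Ioo (0 : ℝ) 1, ∀ s ∈ Ioo (0 : ℝ) 1, ∀ t ∈ Ioo (0 : ℝ) 1,
      UU N A B s t = UU N A B r t * UU N A B s r) ∧
    ∃ C : ℝ, ∀ s ∈ Ioo (0 : ℝ) 1, ∀ t ∈ Ioo (0 : ℝ) 1,
      ‖UU N A B s t‖ ≤ C * (LL s (1 - s) + LL t (1 - t)) ^ N

/-- PW: properties of `x ^ A`. -/
def SpecPW : Prop :=
  ∀ (N : ℕ) (E : Type) [NormedRing E] [NormedAlgebra ℝ E] [CompleteSpace E] (A : E),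
    A ^ N = 0 →
    (pw A 1 = 1) ∧ (∀ x y : ℝ, 0 < x → 0 < y → pw A (x * y) = pw A x * pw A y) ∧
    (∀ x : ℝ, pw A x * pw (-A) x = 1) ∧ (∀ x : ℝ, pw (-A) x * pw A x = 1) ∧
    (∀ B : E, A * B = B * A → ∀ x : ℝ, pw A x * B = B * pw A x) ∧
    (∀ B : E, A * B = B * A → ∀ x : ℝ, pw (A + B) x = pw A x * pw B x) ∧
    (∀ x : ℝ, 0 < x → HasDerivAt (pw A) ((x⁻¹ • A) * pw A x) x) ∧
    (∃ C : ℝ, ∀ x : ℝ, 0 < x → ‖pw A x‖ ≤ C * (1 + |Real.log x|) ^ N) ∧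
    (∃ C : ℝ, ∀ x : ℝ, 0 < x → |Real.log x| ≤ 1 → ‖pw A x - 1‖ ≤ C * |Real.log x|)

/-- REG: existence of the regularized transport, in a fixed algebra. -/
def SpecREG : Prop :=
  ∀ (N : ℕ) (E : Type) [NormedRing E] [NormedAlgebra ℝ E] [CompleteSpace E] (I : Submodule ℝ E),
    Nil N I → ∀ A ∈ I, ∀ B ∈ I, ∃ (Φ : E) (C : ℝ), ∀ a b : ℝ, 0 < a → a ≤ 1 / 2 → 0 < b →
      b ≤ 1 / 2 → ‖pw (-B) b * UU N A B a (1 - b) * pw A a - Φ‖ ≤ C * (√a + √b)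

/-- LIM: the regularized transport is given by a universal polynomial. -/
def SpecLIM : Prop := ∀ N : ℕ, 1 ≤ N → ∃ P : AA ℝ, KZlim N P ∧ ∀ w : List (Fin 2), N ≤ w.length → cf P w = 0

/-- COEF: the coefficients of the polynomial `P`. -/
def SpecCOEF : Prop :=
  ∀ (N : ℕ) (P : AA ℝ), 1 ≤ N → KZlim N P → Norm1 N P ∧ (1 < N → cf P [1] = 0) ∧
    ∀ k, 1 ≤ k → k + 1 < N → cf P (xny k) < 0

/-- KGL: the polynomial `P` is group-like. -/
def SpecKGL : Prop := ∀ (N : ℕ) (P : AA ℝ), KZlim N P → GrLN N P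

/-- EDGE: the transport of a perturbed equation. -/
def SpecEDGE : Prop :=
  ∀ (N : ℕ) (P : AA ℝ), KZlim N P →
    ∀ (E : Type) [NormedRing E] [NormedAlgebra ℝ E] [CompleteSpace E] (I : Submodule ℝ E), Nil N I →
      ∀ A ∈ I, ∀ B ∈ I, ∀ T : E, ∃ (C : ℝ) (M : ℕ), ∀ (a b ρ : ℝ) (g : ℝ → ℝ) (Z : ℝ → E),
        0 < a → a ≤ 1 / 2 → 0 < b → b ≤ 1 / 2 → 0 ≤ ρ → ContinuousOn g (Icc a (1 - b)) →
        (∫ x in a..(1 - b), |g x|) ≤ ρ → ρ * (C * LL a b ^ M) ≤ 1 →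
        (∀ x ∈ Icc a (1 - b), HasDerivAt Z ((Om A B x + g x • T) * Z x) x) →
        ‖Z (1 - b) - pw B b * EV A B P * pw (-A) a * Z a‖ ≤
          C * LL a b ^ M * (√a + √b + ρ) * ‖Z a‖

/-- FLAT: solutions of the equation in two variables. -/
def SpecFLAT : Prop :=
  ∀ (N : ℕ) (E : Type) [NormedRing E] [NormedAlgebra ℝ E] [CompleteSpace E] (I : Submodule ℝ E),
    Nil N I → ∀ t : Fin 4 → Fin 4 → E, Braid t → (∀ i j, t i j ∈ I) →
    ∀ α ∈ Ioo (0 : ℝ) 1, ∀ β ∈ Ioo (0 : ℝ) 1, ∃ F : ℝ → ℝ → E, F α β = 1 ∧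
      ∀ x ∈ Ioo (0 : ℝ) 1, ∀ y ∈ Ioo (0 : ℝ) 1,
        HasDerivAt (fun x => F x y) (Ox t x y * F x y) x ∧
        HasDerivAt (fun y => F x y) (Oy t x y * F x y) y

/-- KPG: the polynomial `P` satisfies the pentagon equation. -/
def SpecKPG : Prop := ∀ (N : ℕ) (P : AA ℝ), 1 ≤ N → Norm1 N P → KZlim N P → PGN N P

/-! ## The result -/

def SpecSIGMA : Prop :=
  ∀ (K : Type u) [Field K] [CharZero K] (i : ℕ), ∃ ψ : F2 K, IsGRT ψ ∧
    (∀ w : List (Fin 2), w.length ≠ 2 * i + 3 → coef ψ w = 0) ∧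
    coef ψ (List.replicate (2 * i + 2) 0 ++ [1]) ≠ 0

end MP446S
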