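import Pool.Agent.Lib.MP_446dfa_ag.sig.Spec

set_option linter.all false

/-!
# Existence of the elements `σ_{2i+3}` of `grt₁`: solutions of the flat equation in two variables
-/

noncomputable section

namespace MP446S

open MP446 MP446Y MP446Z Set

namespace FlatM

variable {E : Type} [NormedRing E] [NormedAlgebra ℝ E]

/-- the open square -/
def sq : Set (ℝ × ℝ) := Ioo (0 : ℝ) 1 ×ˢ Ioo (0 : ℝ) 1

theorem sq_open : IsOpen sq := isOpen_Ioo.prod isOpen_Ioo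

theorem sq_convex : Convex ℝ sq := (convex_Ioo 0 1).prod (convex_Ioo 0 1)

theorem sq_pos {p : ℝ × ℝ} (hp : p ∈ sq) :
    p.1 ≠ 0 ∧ p.1 - 1 ≠ 0 ∧ p.2 ≠ 0 ∧ p.2 - 1 ≠ 0 ∧ 1 - p.1 * p.2 ≠ 0 := by
  obtain ⟨⟨h1, h2⟩, ⟨h3, h4⟩⟩ := hp
  have h5 : p.1 * p.2 < 1 := by nlinarith
  refine ⟨h1.ne', by linarith [h2], h3.ne', by linarith [h4], by linarith⟩

/-- the one-form `A dx + B dy` -/
def fm (a b : E) : ℝ × ℝ →L[ℝ] E :=
  (ContinuousLinearMap.fst ℝ ℝ ℝ).smulRight a + (ContinuousLinearMap.snd ℝ ℝ ℝ).smulRight b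

theorem fm_apply (a b : E) (v : ℝ × ℝ) : fm a b v = v.1 • a + v.2 • b := rfl

theorem fm_add (a b a' b' : E) : fm a b + fm a' b' = fm (a + a') (b + b') := by
  apply ContinuousLinearMap.ext
  intro v
  rw [ContinuousLinearMap.add_apply, fm_apply, fm_apply, fm_apply]
  module

theorem fm_zero : fm (0 : E) 0 = 0 := by
  apply ContinuousLinearMap.ext
  intro v
  rw [fm_apply]
  simp

theorem hasFDerivAt_fm {P Q : ℝ × ℝ → E} {P' Q' : ℝ × ℝ →L[ℝ] E} {p : ℝ × ℝ}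
    (hP : HasFDerivAt P P' p) (hQ : HasFDerivAt Q Q' p) :
    HasFDerivAt (fun p => fm (P p) (Q p))
      ((ContinuousLinearMap.smulRightL ℝ (ℝ × ℝ) E (ContinuousLinearMap.fst ℝ ℝ ℝ)).comp P' +
        (ContinuousLinearMap.smulRightL ℝ (ℝ × ℝ) E (ContinuousLinearMap.snd ℝ ℝ ℝ)).comp Q') p := by
  have h1 := (ContinuousLinearMap.smulRightL ℝ (ℝ × ℝ) E
    (ContinuousLinearMap.fst ℝ ℝ ℝ)).hasFDerivAt.comp p hP
  have h2 := (ContinuousLinearMap.smulRightL ℝ (ℝ × ℝ) E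
    (ContinuousLinearMap.snd ℝ ℝ ℝ)).hasFDerivAt.comp p hQ
  exact h1.add h2

/-- the Poincare lemma on the square -/
theorem primitive [CompleteSpace E] {P Q : ℝ × ℝ → E} {P' Q' : ℝ × ℝ → (ℝ × ℝ →L[ℝ] E)}
    (hP : ∀ p ∈ sq, HasFDerivAt P (P' p) p) (hQ : ∀ p ∈ sq, HasFDerivAt Q (Q' p) p)
    (hs : ∀ p ∈ sq, P' p (0, 1) = Q' p (1, 0)) :
    ∃ f : ℝ × ℝ → E, ∀ p ∈ sq, HasFDerivAt f (fm (P p) (Q p)) p := by
  refine sq_convex.exists_forall_hasFDerivAt_of_fderiv_symmetric (𝕜 := ℝ) sq_open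
    (ω := fun p => fm (P p) (Q p))
    (fun p hp => (hasFDerivAt_fm (hP p hp) (hQ p hp)).differentiableAt.differentiableWithinAt) ?_
  intro p hp x y
  rw [(hasFDerivAt_fm (hP p hp) (hQ p hp)).fderiv]
  have e1 : ∀ z : ℝ × ℝ, P' p z = z.1 • P' p (1, 0) + z.2 • P' p (0, 1) := by
    intro z
    rw [← map_smul, ← map_smul, ← map_add]
    congr 1
    ext <;> simp
  have e2 : ∀ z : ℝ × ℝ, Q' p z = z.1 • Q' p (1, 0) + z.2 • Q' p (0, 1) := by
    intro z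
    rw [← map_smul, ← map_smul, ← map_add]
    congr 1
    ext <;> simp
  have e3 : ∀ z w : ℝ × ℝ, ((ContinuousLinearMap.smulRightL ℝ (ℝ × ℝ) E
      (ContinuousLinearMap.fst ℝ ℝ ℝ)).comp (P' p) +
      (ContinuousLinearMap.smulRightL ℝ (ℝ × ℝ) E (ContinuousLinearMap.snd ℝ ℝ ℝ)).comp (Q' p)) z w
      = w.1 • P' p z + w.2 • Q' p z := by
    intro z w
    simp
  rw [e3, e3, e1 x, e1 y, e2 x, e2 y, hs p hp]
  module

/-- the derivatives of the coefficients -/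
theorem hasFDerivAt_inv {p : ℝ × ℝ} (h : 1 - p.1 * p.2 ≠ 0) :
    HasFDerivAt (fun p : ℝ × ℝ => (1 - p.1 * p.2)⁻¹)
      ((-((1 - p.1 * p.2) ^ 2)⁻¹) • (0 - (p.1 • ContinuousLinearMap.snd ℝ ℝ ℝ +
        p.2 • ContinuousLinearMap.fst ℝ ℝ ℝ))) p := by
  have h1 : HasFDerivAt (fun p : ℝ × ℝ => 1 - p.1 * p.2)
      (0 - (p.1 • ContinuousLinearMap.snd ℝ ℝ ℝ + p.2 • ContinuousLinearMap.fst ℝ ℝ ℝ)) p :=
    (hasFDerivAt_const (1 : ℝ) p).sub (hasFDerivAt_fst.mul hasFDerivAt_snd)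
  exact (hasDerivAt_inv h).comp_hasFDerivAt p h1

theorem exists_Ox (t : Fin 4 → Fin 4 → E) {p : ℝ × ℝ} (hp : p ∈ sq) :
    ∃ L : ℝ × ℝ →L[ℝ] E, HasFDerivAt (fun p : ℝ × ℝ => Ox t p.1 p.2) L p ∧
      L (0, 1) = (-((1 - p.1 * p.2) ^ 2)⁻¹) • t 1 3 := by
  obtain ⟨h1, h2, h3, h4, h5⟩ := sq_pos hp
  have a0 : HasFDerivAt (fun p : ℝ × ℝ => p.1) (ContinuousLinearMap.fst ℝ ℝ ℝ) p := hasFDerivAt_fst
  have a1 : HasFDerivAt (fun p : ℝ × ℝ => p.1⁻¹)
      ((-(p.1 ^ 2)⁻¹) • ContinuousLinearMap.fst ℝ ℝ ℝ) p :=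
    (hasDerivAt_inv h1).comp_hasFDerivAt p a0
  have a2 : HasFDerivAt (fun p : ℝ × ℝ => (p.1 - 1)⁻¹)
      ((-((p.1 - 1) ^ 2)⁻¹) • ContinuousLinearMap.fst ℝ ℝ ℝ) p :=
    (hasDerivAt_inv h2).comp_hasFDerivAt p (a0.sub_const (1 : ℝ))
  have b0 : HasFDerivAt (fun p : ℝ × ℝ => p.2) (ContinuousLinearMap.snd ℝ ℝ ℝ) p := hasFDerivAt_snd
  have a3 := b0.mul (hasFDerivAt_inv h5)
  refine ⟨_, ((a1.smul_const (t 0 1)).add (a2.smul_const (t 1 2))).sub (a3.smul_const (t 1 3)), ?_⟩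
  simp
  congr 1
  field_simp
  ring

theorem exists_Oy (t : Fin 4 → Fin 4 → E) {p : ℝ × ℝ} (hp : p ∈ sq) :
    ∃ L : ℝ × ℝ →L[ℝ] E, HasFDerivAt (fun p : ℝ × ℝ => Oy t p.1 p.2) L p ∧
      L (1, 0) = (-((1 - p.1 * p.2) ^ 2)⁻¹) • t 1 3 := by
  obtain ⟨h1, h2, h3, h4, h5⟩ := sq_pos hp
  have a0 : HasFDerivAt (fun p : ℝ × ℝ => p.2) (ContinuousLinearMap.snd ℝ ℝ ℝ) p := hasFDerivAt_snd
  have a1 : HasFDerivAt (fun p : ℝ × ℝ => p.2⁻¹)
      ((-(p.2 ^ 2)⁻¹) • ContinuousLinearMap.snd ℝ ℝ ℝ) p :=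
    (hasDerivAt_inv h3).comp_hasFDerivAt p a0
  have a2 : HasFDerivAt (fun p : ℝ × ℝ => (p.2 - 1)⁻¹)
      ((-((p.2 - 1) ^ 2)⁻¹) • ContinuousLinearMap.snd ℝ ℝ ℝ) p :=
    (hasDerivAt_inv h4).comp_hasFDerivAt p (a0.sub_const (1 : ℝ))
  have b0 : HasFDerivAt (fun p : ℝ × ℝ => p.1) (ContinuousLinearMap.fst ℝ ℝ ℝ) p := hasFDerivAt_fst
  have a3 := b0.mul (hasFDerivAt_inv h5)
  refine ⟨_, ((a1.smul_const (t 0 1 + t 0 2 + t 1 2)).add (a2.smul_const (t 2 3))).sub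
    (a3.smul_const (t 1 3)), ?_⟩
  simp
  congr 1
  field_simp
  ring

theorem comm_Oxy {t : Fin 4 → Fin 4 → E} (ht : Braid t) {p : ℝ × ℝ} (hp : p ∈ sq) :
    Ox t p.1 p.2 * Oy t p.1 p.2 = Oy t p.1 p.2 * Ox t p.1 p.2 := by
  obtain ⟨h1, h2, h3, h4, h5⟩ := sq_pos hp
  obtain ⟨x, y⟩ := p
  simp only at h1 h2 h3 h4 h5 ⊢
  have r1 : t 0 1 * (t 0 2 + t 1 2) = (t 0 2 + t 1 2) * t 0 1 :=
    ht.rel 0 1 2 (by decide) (by decide) (by decide)
  have r2 : t 1 2 * (t 0 1 + t 0 2) = (t 0 1 + t 0 2) * t 1 2 := by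
    have := ht.rel 1 2 0 (by decide) (by decide) (by decide)
    rwa [ht.symm 1 0, ht.symm 2 0] at this
  have r3 : t 1 2 * (t 1 3 + t 2 3) = (t 1 3 + t 2 3) * t 1 2 :=
    ht.rel 1 2 3 (by decide) (by decide) (by decide)
  have r4 : t 1 3 * (t 1 2 + t 2 3) = (t 1 2 + t 2 3) * t 1 3 := by
    have := ht.rel 1 3 2 (by decide) (by decide) (by decide)
    rwa [ht.symm 3 2] at this
  have c1 : t 0 1 * t 2 3 = t 2 3 * t 0 1 :=
    ht.comm 0 1 2 3 (by decide) (by decide) (by decide) (by decide) (by decide) (by decide)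
  have c2 : t 0 2 * t 1 3 = t 1 3 * t 0 2 :=
    ht.comm 0 2 1 3 (by decide) (by decide) (by decide) (by decide) (by decide) (by decide)
  rw [mul_add, add_mul] at r1 r2 r3 r4
  unfold Ox Oy
  simp only [mul_add, add_mul, sub_mul, mul_sub, smul_mul_assoc, mul_smul_comm, smul_add, smul_sub]
  linear_combination (norm := skip) (x⁻¹ * y⁻¹) • r1 + (x⁻¹ * (y - 1)⁻¹) • c1 +
    ((x - 1)⁻¹ * y⁻¹) • r2 + ((1 - x * y)⁻¹) • c2 +
    ((x - 1)⁻¹ * (y - 1)⁻¹) • r3 - (y / (1 - x * y) * (y - 1)⁻¹) • r4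
  match_scalars
  all_goals
    try field_simp
    try ring_nf
  linear_combination -(mul_inv_cancel₀ h5)

/-- the one-form `Omega v` -/
def W (t : Fin 4 → Fin 4 → E) (p : ℝ × ℝ) (v : E) : ℝ × ℝ →L[ℝ] E :=
  fm (Ox t p.1 p.2 * v) (Oy t p.1 p.2 * v)

theorem W_add (t : Fin 4 → Fin 4 → E) (p : ℝ × ℝ) (v w : E) : W t p (v + w) = W t p v + W t p w := by
  unfold W
  rw [fm_add, mul_add, mul_add]

theorem W_zero (t : Fin 4 → Fin 4 → E) (p : ℝ × ℝ) : W t p (0 : E) = 0 := by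
  unfold W
  rw [mul_zero, mul_zero, fm_zero]

/-- one step of the iteration -/
theorem step [CompleteSpace E] {t : Fin 4 → Fin 4 → E} (ht : Braid t) {F G : ℝ × ℝ → E}
    (h : ∀ p ∈ sq, HasFDerivAt F (W t p (G p)) p) :
    ∃ H : ℝ × ℝ → E, ∀ p ∈ sq, HasFDerivAt H (W t p (F p)) p := by
  choose! LX hX hX' using fun p (hp : p ∈ sq) => exists_Ox t hp
  choose! LY hY hY' using fun p (hp : p ∈ sq) => exists_Oy t hp
  have hP : ∀ p ∈ sq, HasFDerivAt (fun p => Ox t p.1 p.2 * F p) _ p :=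
    fun p hp => (hX p hp).mul' (h p hp)
  have hQ : ∀ p ∈ sq, HasFDerivAt (fun p => Oy t p.1 p.2 * F p) _ p :=
    fun p hp => (hY p hp).mul' (h p hp)
  refine primitive hP hQ ?_
  intro p hp
  simp [W, fm_apply, hX' p hp, hY' p hp]
  rw [← mul_assoc, ← mul_assoc, comm_Oxy ht hp]

theorem Ox_mem {t : Fin 4 → Fin 4 → E} {I : Submodule ℝ E} (ht : ∀ i j, t i j ∈ I) (x y : ℝ) :
    Ox t x y ∈ I :=
  I.sub_mem (I.add_mem (I.smul_mem _ (ht _ _)) (I.smul_mem _ (ht _ _))) (I.smul_mem _ (ht _ _))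

theorem Oy_mem {t : Fin 4 → Fin 4 → E} {I : Submodule ℝ E} (ht : ∀ i j, t i j ∈ I) (x y : ℝ) :
    Oy t x y ∈ I :=
  I.sub_mem (I.add_mem (I.smul_mem _ (I.add_mem (I.add_mem (ht _ _) (ht _ _)) (ht _ _)))
    (I.smul_mem _ (ht _ _))) (I.smul_mem _ (ht _ _))

/-- a function with zero derivative on the square -/
theorem const_of_zero {f : ℝ × ℝ → E} (h : ∀ p ∈ sq, HasFDerivAt f (0 : ℝ × ℝ →L[ℝ] E) p)
    {p q : ℝ × ℝ} (hp : p ∈ sq) (hq : q ∈ sq) : f p = f q := by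
  refine sq_convex.is_const_of_fderivWithin_eq_zero (𝕜 := ℝ)
    (fun p hp => (h p hp).differentiableAt.differentiableWithinAt) ?_ hp hq
  intro p hp
  rw [fderivWithin_of_isOpen sq_open hp, (h p hp).fderiv]

theorem seq [CompleteSpace E] {N : ℕ} {I : Submodule ℝ E} (hI : Nil N I)
    {t : Fin 4 → Fin 4 → E} (ht : Braid t) (hm : ∀ i j, t i j ∈ I) {q : ℝ × ℝ} (hq : q ∈ sq)
    (n : ℕ) : ∃ S F G : ℝ × ℝ → E, (∀ p ∈ sq, HasFDerivAt F (W t p (G p)) p) ∧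
      (∀ p ∈ sq, HasFDerivAt S (W t p (S p - F p)) p) ∧ S q = 1 ∧
      (∀ l : List E, (∀ x ∈ l, x ∈ I) → l.length + n = N → ∀ p ∈ sq, l.prod * F p = 0) := by
  induction n with
  | zero =>
    refine ⟨fun _ => 1, fun _ => 1, fun _ => 0, ?_, ?_, rfl, ?_⟩
    · intro p hp
      rw [W_zero]
      exact hasFDerivAt_const _ _
    · intro p hp
      simp only [sub_self, W_zero]
      exact hasFDerivAt_const _ _
    · intro l hl hN p hp
      rw [hI.prod_zero l hl hN, zero_mul]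
  | succ n ih =>
    obtain ⟨S, F, G, h1, h2, h3, h4⟩ := ih
    obtain ⟨H, hH⟩ := step ht h1
    have hH' : ∀ p ∈ sq, HasFDerivAt (fun p => H p - H q) (W t p (F p)) p :=
      fun p hp => (hH p hp).sub_const (H q)
    refine ⟨fun p => S p + (H p - H q), fun p => H p - H q, F, hH', ?_, ?_, ?_⟩
    · intro p hp
      have := (h2 p hp).add (hH' p hp)
      rw [← W_add] at this
      have e : S p - F p + F p = S p + (H p - H q) - (H p - H q) := by abel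
      rw [e] at this
      exact this
    · simp [h3]
    · intro l hl hN p hp
      have hz : ∀ p ∈ sq, HasFDerivAt (fun p => l.prod * (H p - H q)) (0 : ℝ × ℝ →L[ℝ] E) p := by
        intro p hp
        have := (hH' p hp).const_mul l.prod
        have e : l.prod • W t p (F p) = 0 := by
          apply ContinuousLinearMap.ext
          intro v
          have k1 := h4 (l ++ [Ox t p.1 p.2]) (by
            intro x hx
            rcases List.mem_append.1 hx with hx | hx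
            · exact hl x hx
            · rw [List.mem_singleton.1 hx]; exact Ox_mem hm _ _) (by simp; omega) p hp
          have k2 := h4 (l ++ [Oy t p.1 p.2]) (by
            intro x hx
            rcases List.mem_append.1 hx with hx | hx
            · exact hl x hx
            · rw [List.mem_singleton.1 hx]; exact Oy_mem hm _ _) (by simp; omega) p hp
          rw [List.prod_append, List.prod_singleton, mul_assoc] at k1 k2
          rw [ContinuousLinearMap.smul_apply, W, fm_apply, smul_eq_mul, mul_add, mul_smul_comm,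
            mul_smul_comm, k1, k2]
          simp
        rw [e] at this
        exact this
      have := const_of_zero hz hp hq
      rw [this]
      simp

end FlatM

/-- FLAT -/
theorem specFLAT : SpecFLAT := by
  intro N E _ _ _ I hI t ht hm α hα β hβ
  have hq : ((α, β) : ℝ × ℝ) ∈ FlatM.sq := ⟨hα, hβ⟩
  rcases Nat.eq_zero_or_pos N with hN | hN
  · subst hN
    have h10 : (1 : E) = 0 := by
      have := hI.prod_zero [] (by simp) rfl
      simpa using this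
    have hz : ∀ z : E, z = 0 := fun z => by rw [← one_mul z, h10, zero_mul]
    refine ⟨fun _ _ => 0, (hz 1).symm, ?_⟩
    intro x _ y _
    refine ⟨?_, ?_⟩
    · rw [mul_zero]; exact hasDerivAt_const _ _
    · rw [mul_zero]; exact hasDerivAt_const _ _
  obtain ⟨S, F, G, h1, h2, h3, h4⟩ := FlatM.seq hI ht hm hq (N - 1)
  refine ⟨fun x y => S (x, y), h3, ?_⟩
  intro x hx y hy
  have hp : ((x, y) : ℝ × ℝ) ∈ FlatM.sq := ⟨hx, hy⟩
  have kx : Ox t x y * F (x, y) = 0 := by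
    have := h4 [Ox t x y] (by
      intro z hz
      rw [List.mem_singleton.1 hz]
      exact FlatM.Ox_mem hm _ _) (by simp; omega) _ hp
    simpa using this
  have ky : Oy t x y * F (x, y) = 0 := by
    have := h4 [Oy t x y] (by
      intro z hz
      rw [List.mem_singleton.1 hz]
      exact FlatM.Oy_mem hm _ _) (by simp; omega) _ hp
    simpa using this
  have hS := h2 _ hp
  refine ⟨?_, ?_⟩
  · have e : HasDerivAt (fun x : ℝ => ((x, y) : ℝ × ℝ)) (1, 0) x :=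
      (hasDerivAt_id x).prodMk (hasDerivAt_const x y)
    have := hS.comp_hasDerivAt x e
    simp only [FlatM.W, FlatM.fm_apply, mul_sub, kx, ky, sub_zero, one_smul, zero_smul,
      add_zero] at this
    exact this
  · have e : HasDerivAt (fun y : ℝ => ((x, y) : ℝ × ℝ)) (0, 1) y :=
      (hasDerivAt_const y x).prodMk (hasDerivAt_id y)
    have := hS.comp_hasDerivAt y e
    simp only [FlatM.W, FlatM.fm_apply, mul_sub, kx, ky, sub_zero, one_smul, zero_smul,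
      zero_add] at this
    exact this

end MP446S
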