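import Pool.Agent.Lib.MP_446dfa_ag.sig.Basic

set_option linter.all false

/-!
# FLOWC: the coefficients of the flow
-/

noncomputable section

namespace MP446S

open MP446 MP446Y MP446Z

attribute [local instance 100] LieRing.ofAssociativeRing

/-- all words of `X` have length at least `l` and at least `d` letters `y` -/
def GeLD (l d : ℕ) (X : AA ℝ) : Prop :=
  ∀ w : List (Fin 2), (w.length < l ∨ w.count 1 < d) → cf X w = 0

lemma GeLD.mono {l d l' d' : ℕ} {X : AA ℝ} (h : GeLD l d X) (hl : l' ≤ l) (hd : d' ≤ d) :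
    GeLD l' d' X := by
  intro w hw
  apply h
  omega

lemma GeLD.add {l d : ℕ} {X Y : AA ℝ} (hX : GeLD l d X) (hY : GeLD l d Y) :
    GeLD l d (X + Y) := by
  intro w hw
  rw [cf_add, hX w hw, hY w hw, add_zero]

lemma GeLD.sub {l d : ℕ} {X Y : AA ℝ} (hX : GeLD l d X) (hY : GeLD l d Y) :
    GeLD l d (X - Y) := by
  intro w hw
  rw [cf_sub, hX w hw, hY w hw, sub_zero]

lemma GeLD.zero (l d : ℕ) : GeLD l d 0 := by
  intro w hw
  rw [cf_zero]

lemma GeLD.mul {l d l' d' : ℕ} {X Y : AA ℝ} (hX : GeLD l d X) (hY : GeLD l' d' Y) :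
    GeLD (l + l') (d + d') (X * Y) := by
  intro w hw
  rw [cf_mul]
  refine Finset.sum_eq_zero (fun i hi => ?_)
  have h1 : (w.take i).length + (w.drop i).length = w.length := by
    rw [← List.length_append, List.take_append_drop]
  have h2 : (w.take i).count 1 + (w.drop i).count 1 = w.count 1 := by
    rw [← List.count_append, List.take_append_drop]
  by_cases h3 : (w.take i).length < l ∨ (w.take i).count 1 < d
  · rw [hX _ h3, zero_mul]
  · rw [hY _ (by omega), mul_zero]

lemma GeLD.ow' (w : List (Fin 2)) : GeLD w.length (w.count 1) (ow ℝ w) := by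
  intro v hv
  rw [cf_ow, if_neg]
  rintro rfl
  omega

lemma GeLD.Q {n : ℕ} {Q : AA ℝ} (hQ : Hom n Q) (hQ0 : cf Q (List.replicate n 0) = 0) :
    GeLD n 1 Q := by
  intro w hw
  by_cases h : w.length = n
  · have h1 : w.count 1 = 0 := by omega
    have h2 : w = List.replicate n 0 := by
      rw [List.eq_replicate_iff]
      refine ⟨h, fun b hb => ?_⟩
      have h3 : (1 : Fin 2) ∉ w := List.count_eq_zero.1 h1
      fin_cases b
      · rfl
      · exact absurd hb h3
    rw [h2, hQ0]
  · exact hQ w h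

lemma GeLD.DQ_ow {n : ℕ} {Q : AA ℝ} (hQ : GeLD n 1 Q) (w : List (Fin 2)) :
    GeLD (w.length + n) (w.count 1 + 1) (DQ Q (ow ℝ w)) := by
  induction w with
  | nil =>
    rw [ow_nil, DQ_one]
    exact GeLD.zero _ _
  | cons i w ih =>
    have h1 : ow ℝ (i :: w) = ow ℝ [i] * ow ℝ w := by
      rw [← ow_append]; rfl
    rw [h1, DQ_mul]
    refine GeLD.add ?_ ?_
    · have := (GeLD.ow' [i]).mul ih
      refine this.mono ?_ ?_
      · simp only [List.length_cons, List.length_nil]; omega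
      · rw [show i :: w = [i] ++ w from rfl, List.count_append]; omega
    · fin_cases i
      · change GeLD _ _ (DQ Q (lt ℝ 0) * ow ℝ w)
        rw [DQ_lt_zero]
        have hx : GeLD 1 0 (lt ℝ 0) := by
          have := GeLD.ow' [0]
          simpa [lt] using this
        have h2 : GeLD (n + 1) 1 (Q * lt ℝ 0 - lt ℝ 0 * Q) := by
          refine GeLD.sub ?_ ?_
          · exact (hQ.mul hx)
          · exact (hx.mul hQ).mono (by omega) (by omega)
        refine (h2.mul (GeLD.ow' w)).mono ?_ ?_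
        · simp only [List.length_cons]; omega
        · simp
      · change GeLD _ _ (DQ Q (lt ℝ 1) * ow ℝ w)
        rw [DQ_lt_one, zero_mul]
        exact GeLD.zero _ _

lemma GeLD.LQ_ow {n : ℕ} {Q : AA ℝ} (hQ : GeLD n 1 Q) (w : List (Fin 2)) :
    GeLD (w.length + n) (w.count 1 + 1) (LQ Q (ow ℝ w)) := by
  rw [LQ_apply]
  exact (hQ.DQ_ow w).add ((GeLD.ow' w).mul hQ)

/-- the coefficients of `L_Q X` at `v` only depend on the coefficients of `X` at shorter words
with less letters `y` -/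
lemma LQ_cf_zero {n : ℕ} {Q : AA ℝ} (hQ : GeLD n 1 Q) (X : AA ℝ) (v : List (Fin 2))
    (h : ∀ w : List (Fin 2), w.length + n ≤ v.length → w.count 1 + 1 ≤ v.count 1 → cf X w = 0) :
    cf (LQ Q X) v = 0 := by
  rw [AA_expand X, Finsupp.sum, map_sum, cf_sum]
  refine Finset.sum_eq_zero (fun w hw => ?_)
  rw [map_smul, cf_smul]
  by_cases h2 : (FreeMonoid.toList w).length + n ≤ v.length ∧
      (FreeMonoid.toList w).count 1 + 1 ≤ v.count 1
  · have h3 : X.coeff w = 0 := h (FreeMonoid.toList w) h2.1 h2.2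
    rw [h3, zero_mul]
  · rw [hQ.LQ_ow (FreeMonoid.toList w) v (by omega), mul_zero]

lemma LQ_pow_cf_zero {n : ℕ} {Q : AA ℝ} (hQ : GeLD n 1 Q) (X : AA ℝ) (j : ℕ) :
    ∀ v : List (Fin 2), (v.length < j * n ∨ v.count 1 < j) → cf ((LQ Q ^ j) X) v = 0 := by
  induction j with
  | zero =>
    intro v hv
    omega
  | succ j ih =>
    intro v hv
    rw [pow_succ']
    change cf (LQ Q ((LQ Q ^ j) X)) v = 0
    refine LQ_cf_zero hQ _ v (fun w h1 h2 => ih w ?_)
    rw [Nat.add_mul, one_mul] at hv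
    omega

lemma LQ_one_cf (Q : AA ℝ) : LQ Q 1 = Q := by
  rw [LQ_apply, DQ_one, zero_add, one_mul]

/-- only the first two terms of the flow contribute -/
lemma flow_cf_two {N : ℕ} {Q P : AA ℝ} {v : List (Fin 2)} (hN : 2 ≤ N)
    (h : ∀ j, 2 ≤ j → cf ((LQ Q ^ j) P) v = 0) :
    cf (flow N Q P) v = cf P v + cf (LQ Q P) v := by
  obtain ⟨M, rfl⟩ : ∃ M, N = M + 2 := ⟨N - 2, by omega⟩
  unfold flow
  rw [cf_sum, Finset.sum_range_succ', Finset.sum_range_succ']
  have h0 : ∑ k ∈ Finset.range M, cf (((k + 1 + 1).factorial : ℝ)⁻¹ •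
      (LQ Q ^ (k + 1 + 1)) P) v = 0 := by
    refine Finset.sum_eq_zero (fun k _ => ?_)
    rw [cf_smul, h _ (by omega), mul_zero]
  rw [h0]
  simp [add_comm]

lemma flow_cf_one {N : ℕ} {Q P : AA ℝ} {v : List (Fin 2)} (hN : 1 ≤ N)
    (h : ∀ j, 1 ≤ j → cf ((LQ Q ^ j) P) v = 0) :
    cf (flow N Q P) v = cf P v := by
  obtain ⟨M, rfl⟩ : ∃ M, N = M + 1 := ⟨N - 1, by omega⟩
  unfold flow
  rw [cf_sum, Finset.sum_range_succ']
  have h0 : ∑ k ∈ Finset.range M, cf (((k + 1).factorial : ℝ)⁻¹ •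
      (LQ Q ^ (k + 1)) P) v = 0 := by
    refine Finset.sum_eq_zero (fun k _ => ?_)
    rw [cf_smul, h _ (by omega), mul_zero]
  rw [h0]
  simp

/-- the first term, when the words of `P - 1` do not contribute -/
lemma LQ_cf_one {n : ℕ} {Q P : AA ℝ} (hQ : GeLD n 1 Q) (hP : cf P [] = 1) (v : List (Fin 2))
    (h : ∀ w : List (Fin 2), w ≠ [] → w.length + n ≤ v.length → w.count 1 + 1 ≤ v.count 1 →
      cf P w = 0) : cf (LQ Q P) v = cf Q v := by
  have h1 : LQ Q P = LQ Q 1 + LQ Q (P - 1) := by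
    rw [← map_add]
    congr 1
    abel
  rw [h1, cf_add, LQ_one_cf, LQ_cf_zero hQ (P - 1) v, add_zero]
  intro w hw1 hw2
  rw [cf_sub, cf_one]
  by_cases hw : w = []
  · rw [if_pos hw, hw, hP, sub_self]
  · rw [if_neg hw, h w hw hw1 hw2, sub_zero]

/-- FLOWC: the coefficients of the flow. -/
theorem specFLOWC : SpecFLOWC := by
  intro N n P Q hn hnN hQ hQ0 hP
  have hG : GeLD n 1 Q := GeLD.Q hQ hQ0
  have hj : ∀ j, 1 ≤ j → n ≤ j * n := fun j hj => Nat.le_mul_of_pos_left n hj
  have hj2 : ∀ j, 2 ≤ j → 2 * n ≤ j * n := fun j hj => Nat.mul_le_mul_right n hj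
  refine ⟨⟨?_, ?_⟩, ?_, ?_, ?_⟩
  · rw [flow_cf_one (by omega) (fun j h1 => LQ_pow_cf_zero hG P j [] (Or.inr (by simp; omega)))]
    exact hP.1
  · intro k hk hkN
    rw [flow_cf_one (by omega) (fun j h1 => LQ_pow_cf_zero hG P j _ (Or.inr ?_))]
    · exact hP.2 k hk hkN
    · rw [List.count_eq_zero.2]
      · exact h1
      · intro h2
        exact absurd (List.eq_of_mem_replicate h2) (by decide)
  · intro w hw
    exact flow_cf_one (by omega) (fun j h1 => LQ_pow_cf_zero hG P j w (Or.inl (by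
      have := hj j h1
      omega)))
  · intro w hw
    rw [flow_cf_two (by omega) (fun j h1 => LQ_pow_cf_zero hG P j w (Or.inl (by
      have := hj2 j h1
      omega))), LQ_cf_one hG hP.1]
    intro v hv h1 _
    exact absurd (List.length_eq_zero_iff.1 (by omega)) hv
  · intro k hk
    have hc : (xny k).count 1 = 1 := by
      unfold xny
      rw [List.count_append, List.count_eq_zero.2]
      · simp
      · intro h2
        exact absurd (List.eq_of_mem_replicate h2) (by decide)
    have hl : (xny k).length = k + 1 := by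
      unfold xny
      simp
    rw [flow_cf_two (by omega) (fun j h1 => LQ_pow_cf_zero hG P j _ (Or.inr (by omega))),
      LQ_cf_one hG hP.1]
    intro v hv h1 h2
    have h3 : v.count 1 = 0 := by omega
    have h4 : v = List.replicate v.length 0 := by
      rw [List.eq_replicate_iff]
      refine ⟨rfl, fun b hb => ?_⟩
      have h3 : (1 : Fin 2) ∉ v := List.count_eq_zero.1 h3
      fin_cases b
      · rfl
      · exact absurd hb h3
    rw [h4]
    refine hP.2 _ ?_ (by omega)
    exact List.length_pos_iff.2 hv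

end MP446S
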