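import Pool.Agent.Lib.MP_446dfa_ag.sig.Spec

set_option linter.all false

/-!
# The free Lie algebra embeds into the free associative algebra (characteristic zero)
-/

noncomputable section

namespace MP446S

open MP446 MP446Y MP446Z

universe u v w

attribute [local instance 100] LieRing.ofAssociativeRing

namespace InjM

variable {K : Type u} [Field K] {A : Type w}

/-- induction principle for the free Lie algebra -/
lemma FL_induction {p : FreeLieAlgebra K A → Prop} (hof : ∀ i, p (FreeLieAlgebra.of K i))
    (hadd : ∀ x y, p x → p y → p (x + y)) (hsmul : ∀ (c : K) x, p x → p (c • x))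
    (hlie : ∀ x y, p x → p y → p ⁅x, y⁆) (h0 : p 0) (x : FreeLieAlgebra K A) : p x := by
  let S : LieSubalgebra K (FreeLieAlgebra K A) :=
    { carrier := {x | p x}
      add_mem' := fun {a b} ha hb => hadd a b ha hb
      zero_mem' := h0
      smul_mem' := fun c {x} hx => hsmul c x hx
      lie_mem' := fun {a b} ha hb => hlie a b ha hb }
  let f : FreeLieAlgebra K A →ₗ⁅K⁆ S := FreeLieAlgebra.lift K
    (fun i => (⟨FreeLieAlgebra.of K i, hof i⟩ : S))
  have h : S.incl.comp f = LieHom.id := by
    apply FreeLieAlgebra.hom_ext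
    intro i
    simp only [f, LieHom.comp_apply, FreeLieAlgebra.lift_of_apply]
    rfl
  have h2 : ((f x : S) : FreeLieAlgebra K A) = x := LieHom.congr_fun h x
  have h3 := (f x).2
  rw [h2] at h3
  exact h3

/-- the embedding of the free Lie algebra in the non-commutative polynomials -/
def emb (K : Type u) [Field K] (A : Type w) : FreeLieAlgebra K A →ₗ⁅K⁆ FA K A :=
  FreeLieAlgebra.lift K (letter K : A → FA K A)

lemma emb_of (i : A) : emb K A (FreeLieAlgebra.of K i) = letter K i := by
  unfold emb
  rw [FreeLieAlgebra.lift_of_apply]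

lemma emb_lie (x y : FreeLieAlgebra K A) :
    emb K A ⁅x, y⁆ = emb K A x * emb K A y - emb K A y * emb K A x := by
  rw [LieHom.map_lie, LieRing.of_associative_ring_bracket]

/-- auxiliary operator -/
def aux (z : FreeLieAlgebra K A) : Module.End K (FreeLieAlgebra K A × K) where
  toFun p := (⁅z, p.1⁆ + p.2 • z, 0)
  map_add' p q := by
    ext <;> simp [add_smul]; abel
  map_smul' c p := by
    ext <;> simp [mul_smul]

/-- auxiliary representation -/
def auxH : FA K A →ₐ[K] Module.End K (FreeLieAlgebra K A × K) :=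
  EVn (fun i => aux (FreeLieAlgebra.of K i))

lemma auxH_emb (P : FreeLieAlgebra K A) : ∃ E : FreeLieAlgebra K A,
    ∀ p : FreeLieAlgebra K A × K, auxH (emb K A P) p = (⁅P, p.1⁆ + p.2 • E, 0) := by
  induction P using FL_induction with
  | hof i =>
    refine ⟨FreeLieAlgebra.of K i, fun p => ?_⟩
    rw [emb_of, auxH, EVn_letter]
    rfl
  | hadd x y hx hy =>
    obtain ⟨E, hE⟩ := hx
    obtain ⟨F, hF⟩ := hy
    refine ⟨E + F, fun p => ?_⟩
    rw [map_add, map_add, LinearMap.add_apply, hE, hF]
    ext <;> simp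
    abel
  | hsmul c x hx =>
    obtain ⟨E, hE⟩ := hx
    refine ⟨c • E, fun p => ?_⟩
    rw [map_smul, map_smul, LinearMap.smul_apply, hE]
    ext <;> simp
    rw [smul_comm]
  | hlie x y hx hy =>
    obtain ⟨E, hE⟩ := hx
    obtain ⟨F, hF⟩ := hy
    refine ⟨⁅x, F⁆ - ⁅y, E⁆, fun p => ?_⟩
    rw [emb_lie, map_sub, map_mul, map_mul,
      LinearMap.sub_apply, Module.End.mul_apply, Module.End.mul_apply, hE, hF, hE, hF]
    ext
    · simp only [Prod.fst_sub, zero_smul, add_zero, lie_add, lie_smul, smul_sub]
      rw [leibniz_lie x y p.1]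
      abel
    · simp
  | h0 =>
    refine ⟨0, fun p => ?_⟩
    rw [map_zero, map_zero]
    ext <;> simp

/-- The derivation of degree. -/
def eul : FreeLieAlgebra K A →ₗ[K] FreeLieAlgebra K A where
  toFun P := (auxH (emb K A P) (0, 1)).1
  map_add' x y := by rw [map_add, map_add]; rfl
  map_smul' c x := by rw [map_smul, map_smul]; rfl

lemma eul_lie (x y : FreeLieAlgebra K A) : eul ⁅x, y⁆ = ⁅x, eul y⁆ + ⁅eul x, y⁆ := by
  obtain ⟨E, hE⟩ := auxH_emb x
  obtain ⟨F, hF⟩ := auxH_emb y
  have e1 : eul x = E := by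
    change (auxH (emb K A x) (0, 1)).1 = E
    rw [hE]; simp
  have e2 : eul y = F := by
    change (auxH (emb K A y) (0, 1)).1 = F
    rw [hF]; simp
  change (auxH (emb K A ⁅x, y⁆) (0, 1)).1 = _
  rw [emb_lie, map_sub, map_mul, map_mul,
      LinearMap.sub_apply, Module.End.mul_apply, Module.End.mul_apply, hE, hF, hE, hF, e1, e2]
  simp only [Prod.fst_sub, zero_smul, add_zero, lie_zero, zero_add, one_smul]
  rw [← lie_skew E y]
  abel

lemma eul_of (i : A) : eul (FreeLieAlgebra.of K i) = FreeLieAlgebra.of K i := by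
  change (auxH (emb K A (FreeLieAlgebra.of K i)) (0, 1)).1 = _
  rw [emb_of, auxH, EVn_letter]
  simp [aux]

lemma eul_top [CharZero K] :
    (⨆ (μ : K) (_ : μ ≠ 0), Module.End.eigenspace
      (eul : Module.End K (FreeLieAlgebra K A)) μ) = ⊤ := by
  have key : ∀ x : FreeLieAlgebra K A, x ∈ Submodule.span K
      {y : FreeLieAlgebra K A | ∃ n : ℕ, eul y = ((n + 1 : ℕ) : K) • y} := by
    intro x
    induction x using FL_induction with
    | hof i => exact Submodule.subset_span ⟨0, by simp [eul_of]⟩
    | hadd x y hx hy => exact Submodule.add_mem _ hx hy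
    | hsmul c x hx => exact Submodule.smul_mem _ _ hx
    | h0 => exact Submodule.zero_mem _
    | hlie x y hx hy =>
      refine Submodule.span_induction (p := fun a _ => ⁅a, y⁆ ∈ Submodule.span K
        {y : FreeLieAlgebra K A | ∃ n : ℕ, eul y = ((n + 1 : ℕ) : K) • y}) ?_ ?_ ?_ ?_ hx
      · rintro x ⟨n, hn⟩
        refine Submodule.span_induction (p := fun b _ => ⁅x, b⁆ ∈ Submodule.span K
          {y : FreeLieAlgebra K A | ∃ n : ℕ, eul y = ((n + 1 : ℕ) : K) • y}) ?_ ?_ ?_ ?_ hy
        · rintro y ⟨m, hm⟩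
          refine Submodule.subset_span ⟨n + m + 1, ?_⟩
          rw [eul_lie, hn, hm, lie_smul, smul_lie, ← add_smul]
          congr 1
          push_cast
          ring
        · simp
        · intro a b _ _ ha hb
          rw [lie_add]; exact Submodule.add_mem _ ha hb
        · intro c a _ ha
          rw [lie_smul]; exact Submodule.smul_mem _ _ ha
      · simp
      · intro a b _ _ ha hb
        rw [add_lie]; exact Submodule.add_mem _ ha hb
      · intro c a _ ha
        rw [smul_lie]; exact Submodule.smul_mem _ _ ha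
  rw [eq_top_iff]
  rintro x -
  refine (Submodule.span_le.2 ?_) (key x)
  rintro y ⟨n, hn⟩
  have hne : ((n + 1 : ℕ) : K) ≠ 0 := by exact_mod_cast Nat.succ_ne_zero n
  exact Submodule.mem_iSup_of_mem _ (Submodule.mem_iSup_of_mem hne
    (Module.End.mem_eigenspace_iff.2 hn))

/-- The free Lie algebra embeds into the algebra of non-commutative polynomials. -/
theorem emb_injective [CharZero K] : Function.Injective (emb K A) := by
  rw [injective_iff_map_eq_zero]
  intro P hP
  have h1 : eul P = 0 := by
    change (auxH (emb K A P) (0, 1)).1 = 0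
    rw [hP]
    change (auxH (0 : FA K A) (0, 1)).1 = 0
    rw [map_zero]; rfl
  have h2 := Module.End.eigenspaces_iSupIndep (eul : Module.End K (FreeLieAlgebra K A))
  have h3 := h2 0
  rw [eul_top] at h3
  have h4 : P ∈ Module.End.eigenspace (eul : Module.End K (FreeLieAlgebra K A)) 0 := by
    rw [Module.End.mem_eigenspace_iff, h1, zero_smul]
  rw [disjoint_top] at h3
  rw [h3] at h4
  exact (Submodule.mem_bot K).1 h4

end InjM

/-- INJ -/
theorem specINJ : SpecINJ.{u} := by
  intro K _ _
  exact InjM.emb_injective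

end MP446S
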