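import Pool.Agent.Lib.MP_446dfa_ag.sig.Basic
import Pool.Agent.Lib.MP_446dfa_ag.sig.INJ
import Pool.Agent.Lib.MP_446dfa_ag.sig.MODEL

set_option linter.all false

/-!
# The family `ee` detects the pentagon equation
-/

noncomputable section

namespace MP446S

open MP446 MP446Y MP446Z

universe u v w

attribute [local instance 100] LieRing.ofAssociativeRing

namespace S4M

variable {K : Type u} [Field K]

/-- change of the arguments modulo a subalgebra -/
lemma ev_mod {M : Type u} [LieRing M] [LieAlgebra K M] (H : LieSubalgebra K M) {a b a' b' : M}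
    (ha : ∀ h ∈ H, ⁅a, h⁆ ∈ H) (hb : ∀ h ∈ H, ⁅b, h⁆ ∈ H) (ha' : a' - a ∈ H) (hb' : b' - b ∈ H)
    (ψ : F2 K) : ev a' b' ψ - ev a b ψ ∈ H ∧ ∀ h ∈ H, ⁅ev a b ψ, h⁆ ∈ H := by
  induction ψ using F2_induction with
  | hA => rw [ev_gA, ev_gA]; exact ⟨ha', ha⟩
  | hB => rw [ev_gB, ev_gB]; exact ⟨hb', hb⟩
  | hadd x y hx hy =>
    rw [map_add, map_add]
    refine ⟨?_, fun h hh => ?_⟩
    · have := H.add_mem hx.1 hy.1
      rwa [sub_add_sub_comm] at this
    · rw [add_lie]
      exact H.add_mem (hx.2 h hh) (hy.2 h hh)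
  | hsmul c x hx =>
    rw [map_smul, map_smul]
    refine ⟨?_, fun h hh => ?_⟩
    · rw [← smul_sub]
      exact H.smul_mem c hx.1
    · rw [smul_lie]
      exact H.smul_mem c (hx.2 h hh)
  | hlie x y hx hy =>
    rw [LieHom.map_lie, LieHom.map_lie]
    refine ⟨?_, fun h hh => ?_⟩
    · have e : ⁅ev a' b' x, ev a' b' y⁆ - ⁅ev a b x, ev a b y⁆ =
          ⁅ev a' b' x - ev a b x, ev a' b' y - ev a b y⁆ +
            (⁅ev a b x, ev a' b' y - ev a b y⁆ - ⁅ev a b y, ev a' b' x - ev a b x⁆) := by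
        simp only [lie_sub, sub_lie]
        rw [← lie_skew (ev a b y) (ev a' b' x), ← lie_skew (ev a b y) (ev a b x)]
        abel
      rw [e]
      exact H.add_mem (H.lie_mem hx.1 hy.1) (H.sub_mem (hx.2 _ hy.1) (hy.2 _ hx.1))
    · rw [lie_lie]
      exact H.sub_mem (hx.2 _ (hy.2 h hh)) (hy.2 _ (hx.2 h hh))

section Fam

variable {L : Type u} [LieRing L] [LieAlgebra K L]

/-- the product of the family `t` and of the family `ee` -/
def tau (t : Fin 4 → Fin 4 → L) (i j : Fin 4) : L × Module.End K (FA K (Fin 3)) :=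
  (t i j, ee K i j)

lemma tau_braid {t : Fin 4 → Fin 4 → L} (ht : InfBraid t) (he : Braid (ee K)) :
    InfBraid (tau (K := K) t) := by
  have he' := (braid_iff _).1 he
  refine ⟨fun i j => ?_, fun i j k l h1 h2 h3 h4 h5 h6 => ?_, fun i j k h1 h2 h3 => ?_⟩
  · exact Prod.ext (ht.symm i j) (he'.symm i j)
  · exact Prod.ext (ht.comm i j k l h1 h2 h3 h4 h5 h6) (he'.comm i j k l h1 h2 h3 h4 h5 h6)
  · exact Prod.ext (ht.rel i j k h1 h2 h3) (he'.rel i j k h1 h2 h3)

/-- the map of the free Lie algebra on three generators -/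
def Th (t : Fin 4 → Fin 4 → L) :
    FreeLieAlgebra K (Fin 3) →ₗ⁅K⁆ L × Module.End K (FA K (Fin 3)) :=
  FreeLieAlgebra.lift K (fun i : Fin 3 => tau (K := K) t i.castSucc 3)

lemma Th_of (t : Fin 4 → Fin 4 → L) (i : Fin 3) :
    Th (K := K) t (FreeLieAlgebra.of K i) = tau t i.castSucc 3 := by
  unfold Th
  rw [FreeLieAlgebra.lift_of_apply]

lemma ee_castSucc (i : Fin 3) : ee K i.castSucc 3 = Lx K (letter K i) := by
  fin_cases i <;> rfl

lemma Th_snd (t : Fin 4 → Fin 4 → L) (P : FreeLieAlgebra K (Fin 3)) :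
    (Th (K := K) t P).2 = Lx K (InjM.emb K (Fin 3) P) := by
  induction P using InjM.FL_induction with
  | hof i =>
    rw [Th_of, InjM.emb_of, ← ee_castSucc]
    rfl
  | hadd x y hx hy =>
    rw [map_add, map_add, ModM.Lx_add, ← hx, ← hy]; rfl
  | hsmul c x hx =>
    rw [map_smul, map_smul]
    change c • (Th (K := K) t x).2 = _
    rw [hx]
    apply LinearMap.ext
    intro Y
    rw [LinearMap.smul_apply, ModM.Lx_apply, ModM.Lx_apply, smul_mul_assoc]
  | hlie x y hx hy =>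
    rw [LieHom.map_lie, InjM.emb_lie, ModM.Lx_sub, ModM.Lx_mul, ModM.Lx_mul, ← hx, ← hy]
    rfl
  | h0 =>
    rw [map_zero, map_zero, ModM.Lx_zero]; rfl

lemma mem_H (t : Fin 4 → Fin 4 → L) (i : Fin 3) :
    tau (K := K) t i.castSucc 3 ∈ (Th (K := K) t).range := by
  rw [LieHom.mem_range]
  exact ⟨_, Th_of t i⟩

lemma normalize {t : Fin 4 → Fin 4 → L} (ht : InfBraid t) (he : Braid (ee K)) (i j : Fin 3)
    (hij : i ≠ j) : ∀ h ∈ (Th (K := K) t).range,
      ⁅tau (K := K) t i.castSucc j.castSucc, h⁆ ∈ (Th (K := K) t).range := by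
  intro h hh
  obtain ⟨P, rfl⟩ := (LieHom.mem_range _ _).1 hh
  clear hh
  have hb := tau_braid (K := K) ht he
  have hc3 : ∀ l : Fin 3, l.castSucc ≠ (3 : Fin 4) := by
    intro l; fin_cases l <;> decide
  have hci : ∀ l m : Fin 3, l ≠ m → l.castSucc ≠ m.castSucc := by
    intro l m h h'
    exact h (Fin.castSucc_injective 3 h')
  have key : ∀ a b : Fin 3, a ≠ b →
      ⁅tau (K := K) t a.castSucc b.castSucc, tau (K := K) t a.castSucc 3⁆ ∈
        (Th (K := K) t).range := by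
    intro a b hab
    have h1 := hb.rel a.castSucc 3 b.castSucc (hc3 a) (hci a b hab) (hc3 b).symm
    rw [lie_add, add_eq_zero_iff_eq_neg] at h1
    rw [← lie_skew, h1, neg_neg, hb.symm 3 b.castSucc]
    exact LieSubalgebra.lie_mem _ (mem_H t a) (mem_H t b)
  induction P using InjM.FL_induction with
  | hof l =>
    rw [Th_of]
    by_cases h1 : l = i
    · subst h1
      exact key l j hij
    · by_cases h2 : l = j
      · subst h2
        rw [hb.symm i.castSucc l.castSucc]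
        exact key l i hij.symm
      · rw [hb.comm i.castSucc j.castSucc l.castSucc 3 (hci _ _ hij) (hci _ _ (Ne.symm h1))
          (hc3 i) (hci _ _ (Ne.symm h2)) (hc3 j) (hc3 l)]
        exact LieSubalgebra.zero_mem _
  | hadd x y hx hy => rw [map_add, lie_add]; exact LieSubalgebra.add_mem _ hx hy
  | hsmul c x hx =>
    rw [map_smul]
    have e : ⁅tau (K := K) t i.castSucc j.castSucc, c • (Th (K := K) t x)⁆ =
        c • ⁅tau (K := K) t i.castSucc j.castSucc, (Th (K := K) t x)⁆ :=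
      LieAlgebra.lie_smul c _ _
    rw [e]
    exact LieSubalgebra.smul_mem _ c hx
  | hlie x y hx hy =>
    rw [LieHom.map_lie, leibniz_lie]
    exact LieSubalgebra.add_mem _ (LieSubalgebra.lie_mem _ hx (LieHom.mem_range_self _ _))
      (LieSubalgebra.lie_mem _ (LieHom.mem_range_self _ _) hy)
  | h0 => rw [map_zero, lie_zero]; exact LieSubalgebra.zero_mem _

end Fam

end S4M

open S4M in
/-- S4 -/
theorem specS4_of (hM : SpecMODEL.{u}) (hI : SpecINJ.{u}) : SpecS4.{u} := by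
  intro K _ _ n ψ hn hψ hP L _ _ t ht
  have he := hM K
  have hb := tau_braid (K := K) ht he
  set H := (Th (K := K) t).range with hH
  have n01 : ∀ h ∈ H, ⁅tau (K := K) t 0 1, h⁆ ∈ H := normalize ht he 0 1 (by decide)
  have n02 : ∀ h ∈ H, ⁅tau (K := K) t 0 2, h⁆ ∈ H := normalize ht he 0 2 (by decide)
  have n12 : ∀ h ∈ H, ⁅tau (K := K) t 1 2, h⁆ ∈ H := normalize ht he 1 2 (by decide)
  have n0 : ∀ h ∈ H, ⁅(0 : L × Module.End K (FA K (Fin 3))), h⁆ ∈ H := by
    intro h hh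
    rw [zero_lie]
    exact H.zero_mem
  have nadd : ∀ x y : L × Module.End K (FA K (Fin 3)), (∀ h ∈ H, ⁅x, h⁆ ∈ H) →
      (∀ h ∈ H, ⁅y, h⁆ ∈ H) → ∀ h ∈ H, ⁅x + y, h⁆ ∈ H := by
    intro x y hx hy h hh
    rw [add_lie]
    exact H.add_mem (hx h hh) (hy h hh)
  have m0 : tau (K := K) t 0 3 ∈ H := mem_H t 0
  have m1 : tau (K := K) t 1 3 ∈ H := mem_H t 1
  have m2 : tau (K := K) t 2 3 ∈ H := mem_H t 2
  have mz : ∀ x : L × Module.End K (FA K (Fin 3)), x - x ∈ H := by
    intro x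
    rw [sub_self]
    exact H.zero_mem
  have hz : ∀ x : L × Module.End K (FA K (Fin 3)),
      ev x (0 : L × Module.End K (FA K (Fin 3))) ψ = 0 := by
    intro x
    exact ev_of_comm hn hψ (lie_zero x)
  -- the five terms modulo `H`
  have d1 : ev (tau (K := K) t 0 1) (tau t 1 2 + tau t 1 3) ψ - ev (tau t 0 1) (tau t 1 2) ψ ∈ H :=
    (ev_mod H n01 n12 (mz _) (by rw [add_sub_cancel_left]; exact m1) ψ).1
  have d2 : ev (tau (K := K) t 0 2 + tau t 1 2) (tau t 2 3) ψ ∈ H := by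
    have := (ev_mod H (nadd _ _ n02 n12) n0 (mz _) (b' := tau (K := K) t 2 3)
      (by rw [sub_zero]; exact m2) ψ).1
    rwa [hz, sub_zero] at this
  have d3 : ev (tau (K := K) t 1 2) (tau t 2 3) ψ ∈ H := by
    have := (ev_mod H n12 n0 (mz _) (b' := tau (K := K) t 2 3)
      (by rw [sub_zero]; exact m2) ψ).1
    rwa [hz, sub_zero] at this
  have d4 : ev (tau (K := K) t 0 1 + tau t 0 2) (tau t 1 3 + tau t 2 3) ψ ∈ H := by
    have := (ev_mod H (nadd _ _ n01 n02) n0 (mz _) (b' := tau (K := K) t 1 3 + tau t 2 3)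
      (by rw [sub_zero]; exact H.add_mem m1 m2) ψ).1
    rwa [hz, sub_zero] at this
  have hD := H.sub_mem (H.sub_mem (H.add_mem d1 d2) d3) d4
  obtain ⟨P, hP2⟩ := (LieHom.mem_range _ _).1 hD
  -- the second component vanishes
  have hsnd : (Th (K := K) t P).2 = 0 := by
    rw [hP2]
    have h5 := (PLt_assoc (ee K) ψ).1 hP
    have e : ∀ x y : L × Module.End K (FA K (Fin 3)), (ev x y ψ).2 = ev x.2 y.2 ψ := by
      intro x y
      exact map_ev (LieHom.snd K L (Module.End K (FA K (Fin 3)))) x y ψ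
    simp only [Prod.snd_sub, Prod.snd_add, e]
    change ev (ee K 0 1) (ee K 1 2 + ee K 1 3) ψ - ev (ee K 0 1) (ee K 1 2) ψ +
      ev (ee K 0 2 + ee K 1 2) (ee K 2 3) ψ - ev (ee K 1 2) (ee K 2 3) ψ -
        ev (ee K 0 1 + ee K 0 2) (ee K 1 3 + ee K 2 3) ψ = 0
    rw [sub_add_eq_add_sub, h5]
    abel
  have hP0 : P = 0 := by
    apply hI K
    change InjM.emb K (Fin 3) P = InjM.emb K (Fin 3) 0
    rw [map_zero]
    rw [Th_snd] at hsnd
    have := DFunLike.congr_fun hsnd 1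
    rw [ModM.Lx_apply, mul_one] at this
    exact this
  rw [hP0, map_zero] at hP2
  have hfst := congrArg Prod.fst hP2
  have e : ∀ x y : L × Module.End K (FA K (Fin 3)), (ev x y ψ).1 = ev x.1 y.1 ψ := by
    intro x y
    exact map_ev (LieHom.fst K L (Module.End K (FA K (Fin 3)))) x y ψ
  simp only [Prod.fst_sub, Prod.fst_add, e] at hfst
  change 0 = ev (t 0 1) (t 1 2 + t 1 3) ψ - ev (t 0 1) (t 1 2) ψ +
      ev (t 0 2 + t 1 2) (t 2 3) ψ - ev (t 1 2) (t 2 3) ψ -
        ev (t 0 1 + t 0 2) (t 1 3 + t 2 3) ψ at hfst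
  rw [eq_comm, sub_eq_zero, sub_eq_iff_eq_add, sub_add_eq_add_sub, sub_eq_iff_eq_add] at hfst
  rw [hfst]
  abel

/-- S4 -/
theorem specS4 : SpecS4.{u} := specS4_of specMODEL specINJ

end MP446S
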