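import Pool.Agent.Lib.MP_446dfa_ag.sig.Asm
import Pool.Agent.Lib.MP_446dfa_ag.sig.DIFF
import Pool.Agent.Lib.MP_446dfa_ag.sig.DSW
import Pool.Agent.Lib.MP_446dfa_ag.sig.MODEL
import Pool.Agent.Lib.MP_446dfa_ag.sig.S4
import Pool.Agent.Lib.MP_446dfa_ag.sig.F3
import Pool.Agent.Lib.MP_446dfa_ag.sig.F12
import Pool.Agent.Lib.MP_446dfa_ag.sig.FLOWG
import Pool.Agent.Lib.MP_446dfa_ag.sig.FLOWP
import Pool.Agent.Lib.MP_446dfa_ag.sig.FLOWC
import Pool.Agent.Lib.MP_446dfa_ag.sig.DEF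
import Pool.Agent.Lib.MP_446dfa_ag.sig.Lim
import Pool.Agent.Lib.MP_446dfa_ag.sig.Coef
import Pool.Agent.Lib.MP_446dfa_ag.sig.KGL
import Pool.Agent.Lib.MP_446dfa_ag.sig.KPG
import Pool.Agent.Lib.MP_446dfa_ag.sig.UNIQ
import Pool.Agent.Lib.MP_446dfa_ag.sig.PW
import Pool.Agent.Lib.MP_446dfa_ag.sig.KZ
import Pool.Agent.Lib.MP_446dfa_ag.sig.REG
import Pool.Agent.Lib.MP_446dfa_ag.sig.EDGE
import Pool.Agent.Lib.MP_446dfa_ag.sig.FLAT
import Pool.Agent.Lib.MP_446dfa_ag.sig.TRANSFER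
import Pool.Agent.Lib.MP_446dfa_ag.sig.Desc

set_option linter.all false

/-!
# Existence of the elements `σ_{2i+3}` of `grt₁` (over every field of characteristic zero)
-/

noncomputable section

namespace MP446S

open MP446 MP446Y MP446Z

universe u

theorem exists_sigma_of (hF1 : SpecF1.{0}) (hF2 : SpecF2.{0}) (hF1' : SpecF1.{u})
    (hF2' : SpecF2.{u}) : SpecSIGMA.{u} :=
  specSIGMA specDIFF specDSW1 specDSW2 specMODEL specS4 hF1 hF2
    (specF3 specMODEL hF1 hF2) specFLOWG (specFLOWP specDEF) specFLOWC (specLIM specREG)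
    specCOEF (specKGL specUNIQ specKZ specPW)
    (specKPG (specEDGE specKZ specPW) specFLAT (specKGL specUNIQ specKZ specPW) specPW)
    specTRANSFER specDESC specDSW2 specS4 hF1' hF2' (specF3 specMODEL hF1' hF2')

/-- **Existence of `σ_{2i+3}`.**  For every field `K` of characteristic zero and every `i` there is
an element of `grt₁(K)`, homogeneous of degree `2 i + 3`, whose coefficient at the word
`A ^ (2 i + 2) B` is not zero. -/
theorem exists_sigma : SpecSIGMA.{u} :=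
  exists_sigma_of specF1 (specF2 specF1 specMODEL) specF1 (specF2 specF1 specMODEL)

end MP446S
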