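import Pool.Agent.Lib.MP_446dfa_ag.sig.Spec

set_option linter.all false

/-!
# Functions of polylogarithmic growth and small functions near `0`
-/

noncomputable section

namespace MP446S.KP

open Set Filter Asymptotics Topology

/-- gauge -/
def lg (e : ℝ) : ℝ := 1 + |Real.log e|

lemma one_le_lg (e : ℝ) : 1 ≤ lg e := by
  unfold lg
  have := abs_nonneg (Real.log e)
  linarith

lemma lg_pos (e : ℝ) : 0 < lg e := lt_of_lt_of_le one_pos (one_le_lg e)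

section

variable {E : Type*} [NormedRing E]

/-- polylogarithmic growth at `0+` -/
def PL (f : ℝ → E) : Prop := ∃ M : ℕ, f =O[𝓝[>] (0 : ℝ)] fun e => lg e ^ M

/-- small at `0+` -/
def Sm (f : ℝ → E) : Prop := ∃ M : ℕ, f =O[𝓝[>] (0 : ℝ)] fun e => √e * lg e ^ M

lemma ev_pos : ∀ᶠ e : ℝ in 𝓝[>] (0 : ℝ), 0 < e := eventually_mem_nhdsWithin

lemma ev_le {c : ℝ} (hc : 0 < c) : ∀ᶠ e : ℝ in 𝓝[>] (0 : ℝ), e ≤ c :=
  (eventually_le_nhds hc).filter_mono nhdsWithin_le_nhds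

lemma lg_pow_mono {M M' : ℕ} (h : M ≤ M') (e : ℝ) : lg e ^ M ≤ lg e ^ M' :=
  pow_le_pow_right₀ (one_le_lg e) h

lemma PL.mk' {f : ℝ → E} (M : ℕ) (C : ℝ) (h : ∀ᶠ e in 𝓝[>] (0 : ℝ), ‖f e‖ ≤ C * lg e ^ M) :
    PL f := by
  refine ⟨M, IsBigO.of_bound C ?_⟩
  filter_upwards [h] with e he
  rwa [Real.norm_of_nonneg (pow_nonneg (lg_pos e).le M)]

lemma Sm.mk' {f : ℝ → E} (M : ℕ) (C : ℝ)
    (h : ∀ᶠ e in 𝓝[>] (0 : ℝ), ‖f e‖ ≤ C * (√e * lg e ^ M)) : Sm f := by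
  refine ⟨M, IsBigO.of_bound C ?_⟩
  filter_upwards [h] with e he
  rwa [Real.norm_of_nonneg (mul_nonneg (Real.sqrt_nonneg e) (pow_nonneg (lg_pos e).le M))]

lemma PL.raise {f : ℝ → E} {M M' : ℕ} (h : M ≤ M') (hf : f =O[𝓝[>] (0 : ℝ)] fun e => lg e ^ M) :
    f =O[𝓝[>] (0 : ℝ)] fun e => lg e ^ M' := by
  refine hf.trans (IsBigO.of_bound 1 (Eventually.of_forall fun e => ?_))
  rw [one_mul, Real.norm_of_nonneg (pow_nonneg (lg_pos e).le _),
    Real.norm_of_nonneg (pow_nonneg (lg_pos e).le _)]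
  exact lg_pow_mono h e

lemma Sm.raise {f : ℝ → E} {M M' : ℕ} (h : M ≤ M')
    (hf : f =O[𝓝[>] (0 : ℝ)] fun e => √e * lg e ^ M) :
    f =O[𝓝[>] (0 : ℝ)] fun e => √e * lg e ^ M' := by
  refine hf.trans (IsBigO.of_bound 1 (Eventually.of_forall fun e => ?_))
  rw [one_mul, Real.norm_of_nonneg (mul_nonneg (Real.sqrt_nonneg e) (pow_nonneg (lg_pos e).le _)),
    Real.norm_of_nonneg (mul_nonneg (Real.sqrt_nonneg e) (pow_nonneg (lg_pos e).le _))]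
  exact mul_le_mul_of_nonneg_left (lg_pow_mono h e) (Real.sqrt_nonneg e)

lemma PL.const (c : E) : PL (fun _ : ℝ => c) :=
  ⟨0, by simpa using isBigO_const_const c (one_ne_zero : (1 : ℝ) ≠ 0) _⟩

lemma PL.mul {f g : ℝ → E} (hf : PL f) (hg : PL g) : PL (fun e => f e * g e) := by
  obtain ⟨M, hM⟩ := hf
  obtain ⟨M', hM'⟩ := hg
  refine ⟨M + M', ?_⟩
  have := hM.mul hM'
  simpa only [pow_add] using this

lemma PL.add {f g : ℝ → E} (hf : PL f) (hg : PL g) : PL (fun e => f e + g e) := by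
  obtain ⟨M, hM⟩ := hf
  obtain ⟨M', hM'⟩ := hg
  exact ⟨M + M', (PL.raise (Nat.le_add_right _ _) hM).add (PL.raise (Nat.le_add_left _ _) hM')⟩

lemma Sm.add {f g : ℝ → E} (hf : Sm f) (hg : Sm g) : Sm (fun e => f e + g e) := by
  obtain ⟨M, hM⟩ := hf
  obtain ⟨M', hM'⟩ := hg
  exact ⟨M + M', (Sm.raise (Nat.le_add_right _ _) hM).add (Sm.raise (Nat.le_add_left _ _) hM')⟩

lemma Sm.neg {f : ℝ → E} (hf : Sm f) : Sm (fun e => - f e) := by
  obtain ⟨M, hM⟩ := hf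
  exact ⟨M, hM.neg_left⟩

lemma Sm.sub {f g : ℝ → E} (hf : Sm f) (hg : Sm g) : Sm (fun e => f e - g e) := by
  simpa only [sub_eq_add_neg] using hf.add hg.neg

lemma Sm.mul_PL {f g : ℝ → E} (hf : Sm f) (hg : PL g) : Sm (fun e => f e * g e) := by
  obtain ⟨M, hM⟩ := hf
  obtain ⟨M', hM'⟩ := hg
  refine ⟨M + M', ?_⟩
  have := hM.mul hM'
  simpa only [pow_add, mul_assoc] using this

lemma PL.mul_Sm {f g : ℝ → E} (hf : PL f) (hg : Sm g) : Sm (fun e => f e * g e) := by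
  obtain ⟨M, hM⟩ := hf
  obtain ⟨M', hM'⟩ := hg
  refine ⟨M + M', ?_⟩
  have := hM.mul hM'
  refine this.congr_right fun e => ?_
  ring

lemma Sm.PL {f : ℝ → E} (hf : Sm f) : PL f := by
  obtain ⟨M, hM⟩ := hf
  refine ⟨M, hM.trans (IsBigO.of_bound 1 ?_)⟩
  filter_upwards [ev_pos, ev_le one_pos] with e h0 h1
  rw [one_mul, Real.norm_of_nonneg (mul_nonneg (Real.sqrt_nonneg e) (pow_nonneg (lg_pos e).le _)),
    Real.norm_of_nonneg (pow_nonneg (lg_pos e).le _)]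
  have : √e ≤ 1 := Real.sqrt_le_one.2 h1
  exact mul_le_of_le_one_left (pow_nonneg (lg_pos e).le _) this

lemma Sm.congr {f g : ℝ → E} (hf : Sm f) (h : ∀ᶠ e in 𝓝[>] (0 : ℝ), f e = g e) : Sm g := by
  obtain ⟨M, hM⟩ := hf
  exact ⟨M, hM.congr' h EventuallyEq.rfl⟩

lemma PL.congr {f g : ℝ → E} (hf : PL f) (h : ∀ᶠ e in 𝓝[>] (0 : ℝ), f e = g e) : PL g := by
  obtain ⟨M, hM⟩ := hf
  exact ⟨M, hM.congr' h EventuallyEq.rfl⟩

end

lemma tendsto_sqrt_lg (M : ℕ) : Tendsto (fun e : ℝ => √e * lg e ^ M) (𝓝[>] (0 : ℝ)) (𝓝 0) := by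
  have h1 : (fun e : ℝ => lg e ^ M) =O[𝓝[>] (0 : ℝ)] fun e => |Real.log e| ^ (M : ℝ) := by
    refine IsBigO.of_bound (2 ^ M) ?_
    filter_upwards [ev_pos, ev_le (Real.exp_pos (-1))] with e h0 h1
    have h2 : Real.log e ≤ -1 := by
      have := Real.log_le_log h0 h1
      rwa [Real.log_exp] at this
    have h3 : 1 ≤ |Real.log e| := by
      rw [abs_of_neg (by linarith)]
      linarith
    rw [Real.norm_of_nonneg (pow_nonneg (lg_pos e).le _), Real.rpow_natCast,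
      Real.norm_of_nonneg (pow_nonneg (abs_nonneg _) _), ← mul_pow]
    refine pow_le_pow_left₀ (lg_pos e).le ?_ M
    unfold lg
    linarith
  have h2 := isLittleO_abs_log_rpow_rpow_nhdsGT_zero (s := -(1 / 2)) (M : ℝ) (by norm_num)
  have h3 := h1.trans_isLittleO h2
  have h4 : (fun e : ℝ => √e * lg e ^ M) =o[𝓝[>] (0 : ℝ)] fun e => √e * e ^ (-(1 / 2) : ℝ) :=
    (isBigO_refl _ _).mul_isLittleO h3
  have h5 : (fun e : ℝ => √e * e ^ (-(1 / 2) : ℝ)) =ᶠ[𝓝[>] (0 : ℝ)] fun _ => (1 : ℝ) := by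
    filter_upwards [ev_pos] with e h0
    rw [Real.sqrt_eq_rpow, ← Real.rpow_add h0]
    norm_num
  have h6 := h4.trans_eventuallyEq h5
  exact (isLittleO_one_iff ℝ).1 h6

lemma Sm.tendsto {E : Type*} [NormedRing E] {f : ℝ → E} (hf : Sm f) :
    Tendsto f (𝓝[>] (0 : ℝ)) (𝓝 0) := by
  obtain ⟨M, hM⟩ := hf
  exact hM.trans_tendsto (tendsto_sqrt_lg M)

lemma Sm.const_zero {E : Type*} [NormedRing E] {c : E} (hf : Sm (fun _ : ℝ => c)) : c = 0 := by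
  have h := hf.tendsto
  exact tendsto_nhds_unique tendsto_const_nhds h

end MP446S.KP
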