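import Pool.Agent.Lib.MP_446dfa_ag.ddi.FAlg

set_option linter.all false

/-!
# Existence of the elements `σ_{2i+3}` of `grt₁`: definitions
-/

noncomputable section

namespace MP446S

open MP446 MP446Y MP446Z

universe u v w

attribute [local instance 100] LieRing.ofAssociativeRing

/-! ## Algebra -/

/-- coefficient of a word in a non-commutative polynomial -/
def cf {k : Type v} [CommRing k] (X : AA k) (w : List (Fin 2)) : k :=
  X.coeff (FreeMonoid.ofList w)

/-- the word `x ^ n y` -/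
def xny (n : ℕ) : List (Fin 2) := List.replicate n 0 ++ [1]

/-- `X` is homogeneous of degree `n` -/
def Hom {k : Type v} [CommRing k] (n : ℕ) (X : AA k) : Prop :=
  ∀ w : List (Fin 2), w.length ≠ n → cf X w = 0

/-- the infinitesimal braid relations for elements of an associative ring -/
structure Braid {E : Type*} [Ring E] (t : Fin 4 → Fin 4 → E) : Prop where
  symm : ∀ i j, t i j = t j i
  comm : ∀ i j k l, i ≠ j → i ≠ k → i ≠ l → j ≠ k → j ≠ l → k ≠ l → t i j * t k l = t k l * t i j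
  rel : ∀ i j k, i ≠ j → i ≠ k → j ≠ k → t i j * (t i k + t j k) = (t i k + t j k) * t i j

/-- `I` is closed under products, and all products of `N` elements of `I` vanish -/
structure Nil {E : Type*} [Ring E] [Algebra ℝ E] (N : ℕ) (I : Submodule ℝ E) : Prop where
  mul_mem : ∀ x ∈ I, ∀ y ∈ I, x * y ∈ I
  prod_zero : ∀ l : List E, (∀ x ∈ l, x ∈ I) → l.length = N → l.prod = 0

/-- `(a, b)` commutes with `(a', b')` -/
structure Com2 {E : Type*} [Ring E] (a b a' b' : E) : Prop where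
  h1 : a * a' = a' * a
  h2 : a * b' = b' * a
  h3 : b * a' = a' * b
  h4 : b * b' = b' * b

/-- `P` is group-like, for `N`-nilpotent elements -/
def GrL (N : ℕ) (P : AA ℝ) : Prop :=
  ∀ (E : Type) [Ring E] [Algebra ℝ E] (I : Submodule ℝ E), Nil N I →
    ∀ a b a' b' : E, a ∈ I → b ∈ I → a' ∈ I → b' ∈ I → Com2 a b a' b' →
      EV (a + a') (b + b') P = EV a b P * EV a' b' P

/-- `P` satisfies the pentagon equation, for `N`-nilpotent elements -/
def PG (N : ℕ) (P : AA ℝ) : Prop :=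
  ∀ (E : Type) [Ring E] [Algebra ℝ E] (I : Submodule ℝ E), Nil N I →
    ∀ t : Fin 4 → Fin 4 → E, Braid t → (∀ i j, t i j ∈ I) →
      EV (t 0 1) (t 1 2 + t 1 3) P * EV (t 0 2 + t 1 2) (t 2 3) P =
        EV (t 1 2) (t 2 3) P * EV (t 0 1 + t 0 2) (t 1 3 + t 2 3) P * EV (t 0 1) (t 1 2) P

/-- `Q` is primitive -/
def Prim (Q : AA ℝ) : Prop :=
  ∀ (E : Type) [Ring E] [Algebra ℝ E] (a b a' b' : E), Com2 a b a' b' →
    EV (a + a') (b + b') Q = EV a b Q + EV a' b' Q

/-- the linear pentagon equation in one family -/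
def PLt {k : Type v} [CommRing k] {E : Type*} [Ring E] [Algebra k E] (t : Fin 4 → Fin 4 → E)
    (Q : AA k) : Prop :=
  EV (t 0 1) (t 1 2 + t 1 3) Q + EV (t 0 2 + t 1 2) (t 2 3) Q =
    EV (t 1 2) (t 2 3) Q + EV (t 0 1 + t 0 2) (t 1 3 + t 2 3) Q + EV (t 0 1) (t 1 2) Q

/-- `Q` satisfies the linear pentagon equation in all associative algebras -/
def PLin (Q : AA ℝ) : Prop :=
  ∀ (E : Type) [Ring E] [Algebra ℝ E] (t : Fin 4 → Fin 4 → E), Braid t → PLt t Q

/-- the coefficients of `P` at the words `1, x, x², …` (of length `< N`) are `1, 0, 0, …` -/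
def Norm1 (N : ℕ) (P : AA ℝ) : Prop :=
  cf P [] = 1 ∧ ∀ k, 1 ≤ k → k < N → cf P (List.replicate k 0) = 0

/-- a solution of all the equations, for `N`-nilpotent elements -/
structure Good (N : ℕ) (P : AA ℝ) : Prop where
  norm : Norm1 N P
  gl : GrL N P
  pg : PG N P

/-! ### The faithful family of operators -/

section Model

variable (k : Type v) [CommRing k]

/-- the value at the letter `l` of the derivation `x_i ↦ [x_i, x_j]`, `x_j ↦ [x_j, x_i]` -/
def dij (i j l : Fin 3) : FA k (Fin 3) :=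
  if l = i then letter k i * letter k j - letter k j * letter k i
  else if l = j then letter k j * letter k i - letter k i * letter k j
  else 0

/-- the derivation `x_i ↦ [x_i, x_j]`, `x_j ↦ [x_j, x_i]` -/
def Dij (i j : Fin 3) : Module.End k (FA k (Fin 3)) := derF (dij k i j)

/-- the multiplication on the left -/
def Lx (X : FA k (Fin 3)) : Module.End k (FA k (Fin 3)) := LinearMap.mulLeft k X

/-- the faithful family: `t_{ij}` is the derivation `D_{ij}` for `i, j < 3`, and `t_{i3}` is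
the multiplication on the left by `x_i` -/
def ee : Fin 4 → Fin 4 → Module.End k (FA k (Fin 3)) :=
  ![![0, Dij k 0 1, Dij k 0 2, Lx k (letter k 0)],
    ![Dij k 0 1, 0, Dij k 1 2, Lx k (letter k 1)],
    ![Dij k 0 2, Dij k 1 2, 0, Lx k (letter k 2)],
    ![Lx k (letter k 0), Lx k (letter k 1), Lx k (letter k 2), 0]]

end Model

/-! ### The Dynkin operator -/

/-- right normed bracket of the letters of a word -/
def rnb (k : Type v) [CommRing k] : List (Fin 2) → AA k
  | [] => 0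
  | [i] => lt k i
  | i :: j :: w => lt k i * rnb k (j :: w) - rnb k (j :: w) * lt k i

/-- the Dynkin operator -/
def Dyn {k : Type v} [CommRing k] (X : AA k) : AA k :=
  X.coeff.sum (fun w c => c • rnb k (FreeMonoid.toList w))

/-! ### The flow -/

/-- the derivation `x ↦ [Q, x]`, `y ↦ 0` -/
def DQ {k : Type v} [CommRing k] (Q : AA k) : AA k →ₗ[k] AA k :=
  derF (![Q * lt k 0 - lt k 0 * Q, 0] : Fin 2 → AA k)

/-- `P ↦ D_Q P + P Q` -/
def LQ {k : Type v} [CommRing k] (Q : AA k) : AA k →ₗ[k] AA k :=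
  DQ Q + LinearMap.mulRight k Q

/-- `∑_{j < N} L_Q ^ j P / j!` -/
def flow (N : ℕ) (Q P : AA ℝ) : AA ℝ :=
  ∑ j ∈ Finset.range N, ((j.factorial : ℝ)⁻¹) • ((LQ Q) ^ j) P

/-- commutator -/
def cm {E : Type*} [Ring E] (x y : E) : E := x * y - y * x

/-- the first order deformation `t + ε d` of a family `t` attached to `Q` -/
structure Defo {E : Type*} [Ring E] [Algebra ℝ E] (Q : AA ℝ) (t d : Fin 4 → Fin 4 → E) :
    Prop where
  symm : ∀ i j, d i j = d j i
  diag : ∀ i, d i i = 0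
  d01 : d 0 1 = cm (EV (t 0 1) (t 1 2 + t 1 3) Q) (t 0 1)
  d12 : d 1 2 = cm (EV (t 1 2) (t 2 3) Q) (t 1 2)
  d23 : d 2 3 = 0
  d13 : d 1 3 = -d 1 2
  d02 : d 0 2 = cm (EV (t 0 1) (t 1 2 + t 1 3) Q + EV (t 0 2 + t 1 2) (t 2 3) Q)
    (t 0 2 + t 1 2) - d 1 2
  d03 : d 0 3 = -(d 0 1 + d 0 2 + d 1 2 + d 1 3 + d 2 3)

/-- the properties of the deformation -/
structure DefoFaces {E : Type*} [Ring E] [Algebra ℝ E] (Q : AA ℝ) (t d : Fin 4 → Fin 4 → E) :
    Prop where
  braid : Braid (fun i j => TrivSqZeroExt.inl (t i j) + TrivSqZeroExt.inr (d i j) :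
    Fin 4 → Fin 4 → TrivSqZeroExt E E)
  f2 : cm (EV (t 0 1) (t 1 2 + t 1 3) Q) (t 2 3) = 0
  f4a : cm (EV (t 1 2) (t 2 3) Q + EV (t 0 1 + t 0 2) (t 1 3 + t 2 3) Q) (t 0 1 + t 0 2) =
    d 0 1 + d 0 2
  f4b : cm (EV (t 1 2) (t 2 3) Q) (t 1 3 + t 2 3) = d 1 3 + d 2 3
  f5a : cm (EV (t 1 2) (t 2 3) Q + EV (t 0 1 + t 0 2) (t 1 3 + t 2 3) Q +
    EV (t 0 1) (t 1 2) Q) (t 0 1) = d 0 1
  f5b : cm (EV (t 1 2) (t 2 3) Q + EV (t 0 1 + t 0 2) (t 1 3 + t 2 3) Q) (t 1 2) = d 1 2

/-! ## Analysis -/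

/-- the two differential forms `dx / x`, `dx / (x - 1)` -/
def om (i : Fin 2) (x : ℝ) : ℝ := if i = 0 then x⁻¹ else (x - 1)⁻¹

/-- iterated integrals; the first letter is the outermost one -/
def II : List (Fin 2) → ℝ → ℝ → ℝ
  | [], _, _ => 1
  | i :: w, s, t => ∫ r in s..t, om i r * II w s r

/-- the words of length `< N` -/
def wl : ℕ → Finset (List (Fin 2))
  | 0 => ∅
  | N + 1 => insert [] ((Finset.univ ×ˢ wl N).image (fun p => p.1 :: p.2))

/-- the truncated universal transport from `s` to `t` -/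
def UP (N : ℕ) (s t : ℝ) : AA ℝ := ∑ w ∈ wl N, II w s t • ow ℝ w

/-- the transport from `s` to `t` of the equation `Z' = (A / x + B / (x - 1)) Z` -/
def UU {E : Type*} [Ring E] [Algebra ℝ E] (N : ℕ) (A B : E) (s t : ℝ) : E := EV A B (UP N s t)

section Norm

variable {E : Type*} [NormedRing E] [NormedAlgebra ℝ E]

/-- `x ^ A` -/
def pw (A : E) (x : ℝ) : E := NormedSpace.exp (Real.log x • A)

/-- the connection in one variable -/
def Om (A B : E) (x : ℝ) : E := x⁻¹ • A + (x - 1)⁻¹ • B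

/-- the components of the connection in two variables -/
def Ox (t : Fin 4 → Fin 4 → E) (x y : ℝ) : E :=
  x⁻¹ • t 0 1 + (x - 1)⁻¹ • t 1 2 - (y / (1 - x * y)) • t 1 3

/-- the components of the connection in two variables -/
def Oy (t : Fin 4 → Fin 4 → E) (x y : ℝ) : E :=
  y⁻¹ • (t 0 1 + t 0 2 + t 1 2) + (y - 1)⁻¹ • t 2 3 - (x / (1 - x * y)) • t 1 3

end Norm

/-- `1 + |log a| + |log b|` -/
def LL (a b : ℝ) : ℝ := 1 + |Real.log a| + |Real.log b|

/-- `P` gives the regularized transport from `0` to `1`, for `N`-nilpotent elements -/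
def KZlim (N : ℕ) (P : AA ℝ) : Prop :=
  ∀ (E : Type) [NormedRing E] [NormedAlgebra ℝ E] [CompleteSpace E] (I : Submodule ℝ E),
    Nil N I → ∀ A ∈ I, ∀ B ∈ I, ∃ C : ℝ, ∀ a b : ℝ, 0 < a → a ≤ 1 / 2 → 0 < b → b ≤ 1 / 2 →
      ‖pw (-B) b * UU N A B a (1 - b) * pw A a - EV A B P‖ ≤ C * (√a + √b)

/-- `P` is group-like, for `N`-nilpotent elements of Banach algebras -/
def GrLN (N : ℕ) (P : AA ℝ) : Prop :=
  ∀ (E : Type) [NormedRing E] [NormedAlgebra ℝ E] [CompleteSpace E] (I : Submodule ℝ E), Nil N I →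
    ∀ a b a' b' : E, a ∈ I → b ∈ I → a' ∈ I → b' ∈ I → Com2 a b a' b' →
      EV (a + a') (b + b') P = EV a b P * EV a' b' P

/-- `P` satisfies the pentagon equation, for `N`-nilpotent elements of Banach algebras -/
def PGN (N : ℕ) (P : AA ℝ) : Prop :=
  ∀ (E : Type) [NormedRing E] [NormedAlgebra ℝ E] [CompleteSpace E] (I : Submodule ℝ E), Nil N I →
    ∀ t : Fin 4 → Fin 4 → E, Braid t → (∀ i j, t i j ∈ I) →
      EV (t 0 1) (t 1 2 + t 1 3) P * EV (t 0 2 + t 1 2) (t 2 3) P =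
        EV (t 1 2) (t 2 3) P * EV (t 0 1 + t 0 2) (t 1 3 + t 2 3) P * EV (t 0 1) (t 1 2) P

end MP446S
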