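import Pool.Agent.Lib.MP_446dfa_ag.sig.Asym

set_option linter.all false

/-!
# The pentagon for the transport: powers and edges
-/

noncomputable section

namespace MP446S.KP

open MP446 MP446Y MP446Z Set Filter Asymptotics Topology

/-- a function of size between `e ^ 5` and `e` -/
def Bd (a : ℝ → ℝ) : Prop := ∀ᶠ e in 𝓝[>] (0 : ℝ), e ^ 5 ≤ a e ∧ a e ≤ e

lemma abs_log_le_of_between {e a : ℝ} (h0 : 0 < e) (h1 : e ≤ 1) (ha : e ^ 5 ≤ a) (ha' : a ≤ e) :
    |Real.log a| ≤ 5 * |Real.log e| := by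
  have h2 : Real.log e ≤ 0 := Real.log_nonpos h0.le h1
  have h5 : (0 : ℝ) < e ^ 5 := pow_pos h0 5
  have h3 : Real.log (e ^ 5) ≤ Real.log a := Real.log_le_log h5 ha
  have h4 : Real.log a ≤ Real.log e := Real.log_le_log (lt_of_lt_of_le h5 ha) ha'
  rw [Real.log_pow] at h3
  push_cast at h3
  rw [abs_of_nonpos h2, abs_of_nonpos (h4.trans h2)]
  linarith

section PW

variable {N : ℕ} {E : Type} [NormedRing E] [NormedAlgebra ℝ E] [CompleteSpace E]
  (hPW : SpecPW) {A : E} (hA : A ^ N = 0)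

include hPW hA

lemma pw_one : pw A 1 = 1 := (hPW N E A hA).1

lemma pw_mul {x y : ℝ} (hx : 0 < x) (hy : 0 < y) : pw A (x * y) = pw A x * pw A y :=
  (hPW N E A hA).2.1 x y hx hy

lemma pw_mul_neg (x : ℝ) : pw A x * pw (-A) x = 1 := (hPW N E A hA).2.2.1 x

lemma pw_neg_mul (x : ℝ) : pw (-A) x * pw A x = 1 := (hPW N E A hA).2.2.2.1 x

lemma pw_comm {B : E} (h : A * B = B * A) (x : ℝ) : pw A x * B = B * pw A x :=
  (hPW N E A hA).2.2.2.2.1 B h x

lemma pw_add {B : E} (h : A * B = B * A) (x : ℝ) : pw (A + B) x = pw A x * pw B x :=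
  (hPW N E A hA).2.2.2.2.2.1 B h x

lemma pw_PL {a : ℝ → ℝ} (ha : Bd a) : PL (fun e => pw A (a e)) := by
  obtain ⟨C, hC⟩ := (hPW N E A hA).2.2.2.2.2.2.2.1
  refine PL.mk' N (|C| * 5 ^ N) ?_
  filter_upwards [ha, ev_pos, ev_le one_pos] with e he h0 h1
  have h5 : (0 : ℝ) < e ^ 5 := pow_pos h0 5
  refine (hC (a e) (lt_of_lt_of_le h5 he.1)).trans ?_
  have h2 := abs_log_le_of_between h0 h1 he.1 he.2
  have h3 : (1 + |Real.log (a e)|) ^ N ≤ (5 * lg e) ^ N := by
    refine pow_le_pow_left₀ (by positivity) ?_ N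
    unfold lg
    linarith
  calc C * (1 + |Real.log (a e)|) ^ N ≤ |C| * (1 + |Real.log (a e)|) ^ N :=
        mul_le_mul_of_nonneg_right (le_abs_self C) (by positivity)
    _ ≤ |C| * (5 * lg e) ^ N := mul_le_mul_of_nonneg_left h3 (abs_nonneg C)
    _ = |C| * 5 ^ N * lg e ^ N := by rw [mul_pow]; ring

lemma pw_sub_one {a : ℝ → ℝ} {K : ℝ} (ha : ∀ᶠ e in 𝓝[>] (0 : ℝ), 0 < a e)
    (hK : ∀ᶠ e in 𝓝[>] (0 : ℝ), |Real.log (a e)| ≤ K * e) : Sm (fun e => pw A (a e) - 1) := by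
  obtain ⟨C, hC⟩ := (hPW N E A hA).2.2.2.2.2.2.2.2
  refine Sm.mk' 0 (|C| * |K|) ?_
  have hK1 : 0 < (|K| + 1)⁻¹ := by positivity
  filter_upwards [ha, hK, ev_pos, ev_le one_pos, ev_le hK1] with e ha hK h0 h1 h2
  have h3 : |Real.log (a e)| ≤ |K| * e := hK.trans (mul_le_mul_of_nonneg_right (le_abs_self K) h0.le)
  have h4 : |K| * e ≤ 1 := by
    have : (|K| + 1) * e ≤ (|K| + 1) * (|K| + 1)⁻¹ := mul_le_mul_of_nonneg_left h2 (by positivity)
    rw [mul_inv_cancel₀ (by positivity)] at this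
    nlinarith
  have h5 := hC (a e) ha (h3.trans h4)
  have h6 : e ≤ √e := by
    have h7 : √e * √e = e := Real.mul_self_sqrt h0.le
    have h8 : √e ≤ 1 := Real.sqrt_le_one.2 h1
    nlinarith [Real.sqrt_nonneg e]
  calc ‖pw A (a e) - 1‖ ≤ C * |Real.log (a e)| := h5
    _ ≤ |C| * |Real.log (a e)| := mul_le_mul_of_nonneg_right (le_abs_self C) (abs_nonneg _)
    _ ≤ |C| * (|K| * e) := mul_le_mul_of_nonneg_left h3 (abs_nonneg C)
    _ ≤ |C| * (|K| * √e) := by gcongr
    _ = |C| * |K| * (√e * lg e ^ 0) := by rw [pow_zero]; ring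

end PW

section Nil

variable {N : ℕ} {E : Type} [Ring E] [Algebra ℝ E] {I : Submodule ℝ E}

lemma Nil.pow {A : E} (hI : Nil N I) (hA : A ∈ I) : A ^ N = 0 := by
  have := hI.prod_zero (List.replicate N A) (by
    intro x hx
    rw [List.eq_of_mem_replicate hx]
    exact hA) (List.length_replicate ..)
  rwa [List.prod_replicate] at this

end Nil

section Edge

variable {N : ℕ} {P : AA ℝ} {E : Type} [NormedRing E] [NormedAlgebra ℝ E] [CompleteSpace E]
  {I : Submodule ℝ E}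

/-- transport along an edge -/
lemma edge_step (hE : SpecEDGE) (hP : KZlim N P) (hI : Nil N I) {A B : E} (hA : A ∈ I) (hB : B ∈ I)
    (T : E) {a b : ℝ → ℝ} (ha : Bd a) (hb : Bd b) (g : ℝ → ℝ → ℝ) (Z : ℝ → ℝ → E)
    (hg : ∀ᶠ e in 𝓝[>] (0 : ℝ), ContinuousOn (g e) (Icc (a e) (1 - b e)) ∧
      (∫ x in (a e)..(1 - b e), |g e x|) ≤ 4 * e)
    (hZ : ∀ᶠ e in 𝓝[>] (0 : ℝ), ∀ x ∈ Icc (a e) (1 - b e),
      HasDerivAt (Z e) ((Om A B x + g e x • T) * Z e x) x)
    (hZa : PL (fun e => Z e (a e))) :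
    Sm (fun e => Z e (1 - b e) - pw B (b e) * EV A B P * pw (-A) (a e) * Z e (a e)) := by
  obtain ⟨C, M, hC⟩ := hE N P hP E I hI A hA B hB T
  have hsm : Sm (fun e => C * LL (a e) (b e) ^ M * (√(a e) + √(b e) + 4 * e)) := by
    refine Sm.mk' M (|C| * 11 ^ M * 6) ?_
    filter_upwards [ha, hb, ev_pos, ev_le one_pos] with e ha hb h0 h1
    have h2 := abs_log_le_of_between h0 h1 ha.1 ha.2
    have h3 := abs_log_le_of_between h0 h1 hb.1 hb.2
    have h4 : LL (a e) (b e) ≤ 11 * lg e := by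
      unfold LL lg
      linarith [abs_nonneg (Real.log e)]
    have h5 : 0 ≤ LL (a e) (b e) := by
      unfold LL
      positivity
    have h6 : √(a e) ≤ √e := Real.sqrt_le_sqrt ha.2
    have h7 : √(b e) ≤ √e := Real.sqrt_le_sqrt hb.2
    have h8 : e ≤ √e := by
      have h7 : √e * √e = e := Real.mul_self_sqrt h0.le
      have h8 : √e ≤ 1 := Real.sqrt_le_one.2 h1
      nlinarith [Real.sqrt_nonneg e]
    have h9 : √(a e) + √(b e) + 4 * e ≤ 6 * √e := by linarith
    rw [norm_mul, norm_mul, norm_pow, Real.norm_eq_abs, Real.norm_of_nonneg h5,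
      Real.norm_of_nonneg (by positivity : 0 ≤ √(a e) + √(b e) + 4 * e)]
    have h10 : 0 ≤ |C| * (11 * lg e) ^ M :=
      mul_nonneg (abs_nonneg C) (pow_nonneg (mul_nonneg (by norm_num) (lg_pos e).le) M)
    calc |C| * LL (a e) (b e) ^ M * (√(a e) + √(b e) + 4 * e)
        ≤ |C| * (11 * lg e) ^ M * (6 * √e) := by
          refine mul_le_mul ?_ h9 (by positivity) h10
          exact mul_le_mul_of_nonneg_left (pow_le_pow_left₀ h5 h4 M) (abs_nonneg C)
      _ = |C| * 11 ^ M * 6 * (√e * lg e ^ M) := by rw [mul_pow]; ring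
  have hsm2 : Sm (fun e => 4 * e * (C * LL (a e) (b e) ^ M)) := by
    obtain ⟨M', hM'⟩ := hsm
    refine ⟨M', (IsBigO.of_bound 1 ?_).trans hM'⟩
    filter_upwards [ev_pos] with e h0
    have h5 : 0 ≤ LL (a e) (b e) := by
      unfold LL
      positivity
    rw [one_mul, norm_mul, norm_mul _ (√(a e) + √(b e) + 4 * e), mul_comm]
    refine mul_le_mul_of_nonneg_left ?_ (norm_nonneg _)
    rw [Real.norm_of_nonneg (by positivity), Real.norm_of_nonneg (by positivity)]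
    have := Real.sqrt_nonneg (a e)
    have := Real.sqrt_nonneg (b e)
    linarith
  have hev : ∀ᶠ e in 𝓝[>] (0 : ℝ), 4 * e * (C * LL (a e) (b e) ^ M) ≤ 1 := by
    have := hsm2.tendsto.eventually (gt_mem_nhds one_pos)
    filter_upwards [this] with e he
    exact he.le
  obtain ⟨M1, h1⟩ := hsm
  obtain ⟨M2, h2⟩ := hZa
  have h3 := h1.mul h2.norm_left
  refine ⟨M1 + M2, (IsBigO.of_bound 1 ?_).trans (h3.congr_right fun e => ?_)⟩
  · filter_upwards [ha, hb, hg, hZ, hev, ev_pos, ev_le (by norm_num : (0 : ℝ) < 1 / 2)] with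
      e ha hb hg hZ hev h0 h1
    have h5 : (0 : ℝ) < e ^ 5 := pow_pos h0 5
    have := hC (a e) (b e) (4 * e) (g e) (Z e) (lt_of_lt_of_le h5 ha.1) (ha.2.trans h1)
      (lt_of_lt_of_le h5 hb.1) (hb.2.trans h1) (by linarith) hg.1 hg.2 hev hZ
    rw [one_mul]
    exact this.trans (le_abs_self _)
  · rw [pow_add]
    ring

end Edge

/-! ### Asymptotic equality -/

section App

variable {E : Type*} [NormedRing E]

/-- asymptotic equality -/
def App (f g : ℝ → E) : Prop := Sm (fun e => f e - g e)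

lemma App.symm {f g : ℝ → E} (h : App f g) : App g f := by
  have := Sm.neg h
  unfold App
  simpa only [neg_sub] using this

lemma App.trans {f g k : ℝ → E} (h : App f g) (h' : App g k) : App f k := by
  have := Sm.add h h'
  unfold App
  simpa only [sub_add_sub_cancel] using this

lemma App.pl {f g : ℝ → E} (h : App f g) (hg : PL g) : PL f := by
  have := PL.add (Sm.PL h) hg
  simpa only [sub_add_cancel] using this

lemma App.mul_left {f g k : ℝ → E} (hk : PL k) (h : App f g) :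
    App (fun e => k e * f e) (fun e => k e * g e) := by
  have := PL.mul_Sm hk h
  unfold App
  simpa only [mul_sub] using this

lemma App.mul_right {f g k : ℝ → E} (hk : PL k) (h : App f g) :
    App (fun e => f e * k e) (fun e => g e * k e) := by
  have := Sm.mul_PL h hk
  unfold App
  simpa only [sub_mul] using this

lemma App.congr {f g f' g' : ℝ → E} (h : App f g) (hf : ∀ᶠ e in 𝓝[>] (0 : ℝ), f e = f' e)
    (hg : ∀ᶠ e in 𝓝[>] (0 : ℝ), g e = g' e) : App f' g' := by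
  refine Sm.congr h ?_
  filter_upwards [hf, hg] with e h1 h2
  rw [h1, h2]

end App

/-! ### Integrals -/

lemma int_inv_sq {a b : ℝ} (ha : 0 < a) (hb : 0 < b) (hab : a ≤ 1 - b) :
    ∫ x in a..(1 - b), (x ^ 2)⁻¹ ≤ a⁻¹ := by
  have h : ∀ x ∈ uIcc a (1 - b), HasDerivAt (fun x : ℝ => -x⁻¹) ((x ^ 2)⁻¹) x := by
    intro x hx
    rw [uIcc_of_le hab] at hx
    have hx0 : x ≠ 0 := (lt_of_lt_of_le ha hx.1).ne'
    have := (hasDerivAt_inv hx0).fun_neg
    rwa [neg_neg] at this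
  rw [intervalIntegral.integral_eq_sub_of_hasDerivAt h]
  · have : 0 ≤ (1 - b)⁻¹ := inv_nonneg.2 (ha.le.trans hab)
    linarith
  · apply ContinuousOn.intervalIntegrable
    intro x hx
    rw [uIcc_of_le hab] at hx
    have hx0 : x ≠ 0 := (lt_of_lt_of_le ha hx.1).ne'
    exact ((continuousAt_id.pow 2).inv₀ (pow_ne_zero 2 hx0)).continuousWithinAt

lemma int_inv_sq' {a b : ℝ} (ha : 0 < a) (hb : 0 < b) (hab : a ≤ 1 - b) :
    ∫ x in a..(1 - b), ((1 - x) ^ 2)⁻¹ ≤ b⁻¹ := by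
  have h := intervalIntegral.integral_comp_sub_left (fun x : ℝ => (x ^ 2)⁻¹) (1 : ℝ)
    (a := a) (b := 1 - b)
  rw [h]
  have h2 : (1 : ℝ) - (1 - b) = b := by ring
  rw [h2]
  exact int_inv_sq hb ha (by linarith)

lemma int_le {a c : ℝ} (hac : a ≤ c) {g f : ℝ → ℝ} (hg : ContinuousOn g (Icc a c))
    (hf : ContinuousOn f (Icc a c)) {K L : ℝ} (hK : 0 ≤ K) (h : ∀ x ∈ Icc a c, |g x| ≤ K * f x)
    (hL : ∫ x in a..c, f x ≤ L) : ∫ x in a..c, |g x| ≤ K * L := by
  have h1 : ∫ x in a..c, |g x| ≤ ∫ x in a..c, K * f x := by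
    apply intervalIntegral.integral_mono_on hac
    · apply ContinuousOn.intervalIntegrable
      rw [uIcc_of_le hac]
      exact hg.abs
    · apply ContinuousOn.intervalIntegrable
      rw [uIcc_of_le hac]
      exact continuousOn_const.mul hf
    · exact h
  rw [intervalIntegral.integral_const_mul] at h1
  exact h1.trans (mul_le_mul_of_nonneg_left hL hK)

lemma int_le_const {a c : ℝ} (hac : a ≤ c) (ha : 0 ≤ a) (hc : c ≤ 1) {g : ℝ → ℝ}
    (hg : ContinuousOn g (Icc a c)) {K : ℝ} (hK : 0 ≤ K) (h : ∀ x ∈ Icc a c, |g x| ≤ K) :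
    ∫ x in a..c, |g x| ≤ K := by
  have h1 := int_le hac hg (f := fun _ => 1) continuousOn_const hK (by simpa using h)
    (L := 1) (by simp; linarith)
  simpa using h1

end MP446S.KP
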