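import Pool.Agent.Lib.MP_446dfa_ag.sig.KPGa

set_option linter.all false

/-!
# The pentagon for the transport: the five edges
-/

noncomputable section

namespace MP446S.KP

open MP446 MP446Y MP446Z Set Filter Asymptotics Topology

/-- a family of solutions of the equation in two variables -/
structure Sol {E : Type} [NormedRing E] [NormedAlgebra ℝ E] (t : Fin 4 → Fin 4 → E)
    (G : ℝ → ℝ → ℝ → E) : Prop where
  h1 : ∀ e ∈ Ioo (0 : ℝ) 1, G e e e = 1
  hx : ∀ e ∈ Ioo (0 : ℝ) 1, ∀ x ∈ Ioo (0 : ℝ) 1, ∀ y ∈ Ioo (0 : ℝ) 1,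
    HasDerivAt (fun x => G e x y) (Ox t x y * G e x y) x
  hy : ∀ e ∈ Ioo (0 : ℝ) 1, ∀ x ∈ Ioo (0 : ℝ) 1, ∀ y ∈ Ioo (0 : ℝ) 1,
    HasDerivAt (fun y => G e x y) (Oy t x y * G e x y) y

/-- the distance of the right vertical edge to `1` -/
def th (e : ℝ) : ℝ := e ^ 2 / (1 + e ^ 2)

/-- the start of the reparametrised right edge -/
def r0 (e : ℝ) : ℝ := e / (1 + e)

lemma th_pos {e : ℝ} (h : 0 < e) : 0 < th e := by unfold th; positivity

lemma th_le {e : ℝ} (h : 0 < e) (h' : e ≤ 1) : th e ≤ e := by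
  unfold th
  rw [div_le_iff₀ (by positivity)]
  nlinarith [pow_pos h 3]

lemma le_th {e : ℝ} (h : 0 < e) (h' : e ≤ 1 / 2) : e ^ 5 ≤ th e := by
  unfold th
  rw [le_div_iff₀ (by positivity)]
  have h2 : e ^ 3 ≤ (1 / 2) ^ 3 := pow_le_pow_left₀ h.le h' 3
  have h3 : e ^ 2 ≤ (1 / 2) ^ 2 := pow_le_pow_left₀ h.le h' 2
  have h4 : e ^ 3 * (1 + e ^ 2) ≤ 1 := by
    have : e ^ 3 * (1 + e ^ 2) ≤ (1 / 2) ^ 3 * (1 + (1 / 2) ^ 2) := by gcongr
    norm_num at this ⊢
    linarith
  calc e ^ 5 * (1 + e ^ 2) = e ^ 2 * (e ^ 3 * (1 + e ^ 2)) := by ring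
    _ ≤ e ^ 2 * 1 := by gcongr
    _ = e ^ 2 := mul_one _

lemma r0_pos {e : ℝ} (h : 0 < e) : 0 < r0 e := by unfold r0; positivity

lemma r0_le {e : ℝ} (h : 0 < e) : r0 e ≤ e := by
  unfold r0
  rw [div_le_iff₀ (by positivity)]
  nlinarith

lemma le_r0 {e : ℝ} (h : 0 < e) (h' : e ≤ 1 / 2) : e ^ 5 ≤ r0 e := by
  unfold r0
  rw [le_div_iff₀ (by positivity)]
  have h2 : e ^ 4 ≤ (1 / 2) ^ 4 := pow_le_pow_left₀ h.le h' 4
  have h4 : e ^ 4 * (1 + e) ≤ 1 := by
    have : e ^ 4 * (1 + e) ≤ (1 / 2) ^ 4 * (1 + (1 / 2)) := by gcongr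
    norm_num at this ⊢
    linarith
  calc e ^ 5 * (1 + e) = e * (e ^ 4 * (1 + e)) := by ring
    _ ≤ e * 1 := by gcongr
    _ = e := mul_one _

lemma Bd_id : Bd (fun e => e) := by
  filter_upwards [ev_pos, ev_le one_pos] with e h0 h1
  refine ⟨?_, le_rfl⟩
  calc e ^ 5 ≤ e ^ 1 := pow_le_pow_of_le_one h0.le h1 (by norm_num)
    _ = e := pow_one e

lemma Bd_th : Bd th := by
  filter_upwards [ev_pos, ev_le (by norm_num : (0 : ℝ) < 1 / 2)] with e h0 h1
  exact ⟨le_th h0 h1, th_le h0 (by linarith)⟩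

lemma Bd_r0 : Bd r0 := by
  filter_upwards [ev_pos, ev_le (by norm_num : (0 : ℝ) < 1 / 2)] with e h0 h1
  exact ⟨le_r0 h0 h1, r0_le h0⟩

lemma Bd_p4 : Bd (fun e => e ^ 4) := by
  filter_upwards [ev_pos, ev_le one_pos] with e h0 h1
  refine ⟨pow_le_pow_of_le_one h0.le h1 (by norm_num), ?_⟩
  calc e ^ 4 ≤ e ^ 1 := pow_le_pow_of_le_one h0.le h1 (by norm_num)
    _ = e := pow_one e

section Edges

variable {N : ℕ} {P : AA ℝ} {E : Type} [NormedRing E] [NormedAlgebra ℝ E] [CompleteSpace E]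
  {I : Submodule ℝ E} {t : Fin 4 → Fin 4 → E} {G : ℝ → ℝ → ℝ → E}

lemma PL_one (G : ℝ → ℝ → ℝ → E) (hG : Sol t G) : PL (fun e => G e e e) := by
  refine PL.congr (PL.const (1 : E)) ?_
  filter_upwards [ev_pos, ev_le (by norm_num : (0 : ℝ) < 1 / 2)] with e h0 h1
  rw [hG.h1 e ⟨h0, by linarith⟩]

/-- the bottom edge -/
lemma edge_bottom (hE : SpecEDGE) (hP : KZlim N P) (hI : Nil N I) (htI : ∀ i j, t i j ∈ I)
    (hG : Sol t G) :
    Sm (fun e => G e (1 - th e) e -
      pw (t 1 2) (th e) * EV (t 0 1) (t 1 2) P * pw (-t 0 1) e * G e e e) := by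
  refine edge_step hE hP hI (htI 0 1) (htI 1 2) (t 1 3) Bd_id Bd_th
    (fun e x => -(e / (1 - x * e))) (fun e x => G e x e) ?_ ?_ (PL_one G hG)
  · filter_upwards [ev_pos, ev_le (by norm_num : (0 : ℝ) < 1 / 2)] with e h0 h1
    have hth0 := th_pos h0
    have hth1 := th_le h0 (by linarith)
    have hd : ∀ x ∈ Icc e (1 - th e), 1 / 2 ≤ 1 - x * e := by
      intro x hx
      have : x * e ≤ 1 * (1 / 2) := by
        apply mul_le_mul _ h1 h0.le zero_le_one
        linarith [hx.2]
      linarith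
    have hc : ContinuousOn (fun x : ℝ => -(e / (1 - x * e))) (Icc e (1 - th e)) := by
      apply ContinuousOn.neg
      apply ContinuousOn.div continuousOn_const
      · exact continuousOn_const.sub (continuousOn_id.mul continuousOn_const)
      · intro x hx
        have := hd x hx
        linarith
    refine ⟨hc, ?_⟩
    have := int_le_const (by linarith : e ≤ 1 - th e) h0.le (by linarith) hc
      (K := 2 * e) (by positivity) (by
        intro x hx
        have h2 := hd x hx
        rw [abs_neg, abs_of_nonneg (by positivity), div_le_iff₀ (by linarith)]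
        nlinarith)
    linarith
  · filter_upwards [ev_pos, ev_le (by norm_num : (0 : ℝ) < 1 / 2)] with e h0 h1 x hx
    have hth0 := th_pos h0
    have h := hG.hx e ⟨h0, by linarith⟩ x ⟨h0.trans_le hx.1, by linarith [hx.2]⟩ e
      ⟨h0, by linarith⟩
    have e1 : Ox t x e = Om (t 0 1) (t 1 2) x + (-(e / (1 - x * e))) • t 1 3 := by
      unfold Ox Om
      rw [neg_smul, ← sub_eq_add_neg]
    rw [e1] at h
    exact h

/-- the left edge -/
lemma edge_left (hE : SpecEDGE) (hP : KZlim N P) (hI : Nil N I) (htI : ∀ i j, t i j ∈ I)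
    (hG : Sol t G) :
    Sm (fun e => G e e (1 - e ^ 4) -
      pw (t 2 3) (e ^ 4) * EV (t 0 1 + t 0 2 + t 1 2) (t 2 3) P *
        pw (-(t 0 1 + t 0 2 + t 1 2)) e * G e e e) := by
  refine edge_step hE hP hI (I.add_mem (I.add_mem (htI 0 1) (htI 0 2)) (htI 1 2)) (htI 2 3) (t 1 3)
    Bd_id Bd_p4
    (fun e y => -(e / (1 - e * y))) (fun e y => G e e y) ?_ ?_ (PL_one G hG)
  · filter_upwards [ev_pos, ev_le (by norm_num : (0 : ℝ) < 1 / 2)] with e h0 h1
    have h4 : 0 < e ^ 4 := pow_pos h0 4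
    have h4' : e ^ 4 ≤ 1 / 2 := by
      calc e ^ 4 ≤ e ^ 1 := pow_le_pow_of_le_one h0.le (by linarith) (by norm_num)
        _ = e := pow_one e
        _ ≤ 1 / 2 := h1
    have hd : ∀ x ∈ Icc e (1 - e ^ 4), 1 / 2 ≤ 1 - e * x := by
      intro x hx
      have : e * x ≤ (1 / 2) * 1 := by
        apply mul_le_mul h1 _ (h0.le.trans hx.1) (by norm_num)
        linarith [hx.2]
      linarith
    have hc : ContinuousOn (fun x : ℝ => -(e / (1 - e * x))) (Icc e (1 - e ^ 4)) := by
      apply ContinuousOn.neg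
      apply ContinuousOn.div continuousOn_const
      · exact continuousOn_const.sub (continuousOn_const.mul continuousOn_id)
      · intro x hx
        have := hd x hx
        linarith
    refine ⟨hc, ?_⟩
    have := int_le_const (by linarith : e ≤ 1 - e ^ 4) h0.le (by linarith) hc
      (K := 2 * e) (by positivity) (by
        intro x hx
        have h2 := hd x hx
        rw [abs_neg, abs_of_nonneg (by positivity), div_le_iff₀ (by linarith)]
        nlinarith)
    linarith
  · filter_upwards [ev_pos, ev_le (by norm_num : (0 : ℝ) < 1 / 2)] with e h0 h1 x hx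
    have h4 : 0 < e ^ 4 := pow_pos h0 4
    have h := hG.hy e ⟨h0, by linarith⟩ e ⟨h0, by linarith⟩ x
      ⟨h0.trans_le hx.1, by linarith [hx.2]⟩
    have e1 : Oy t e x = Om (t 0 1 + t 0 2 + t 1 2) (t 2 3) x + (-(e / (1 - e * x))) • t 1 3 := by
      unfold Oy Om
      rw [neg_smul, ← sub_eq_add_neg]
    rw [e1] at h
    exact h

/-- the lower part of the right edge -/
lemma edge_right1 (hE : SpecEDGE) (hP : KZlim N P) (hI : Nil N I) (htI : ∀ i j, t i j ∈ I)
    (hG : Sol t G) (hpl : PL (fun e => G e (1 - th e) e)) :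
    Sm (fun e => G e (1 - th e) (1 - e) -
      pw (t 1 3 + t 2 3) e * EV (t 0 1 + t 0 2 + t 1 2) (t 1 3 + t 2 3) P *
        pw (-(t 0 1 + t 0 2 + t 1 2)) e * G e (1 - th e) e) := by
  refine edge_step hE hP hI (I.add_mem (I.add_mem (htI 0 1) (htI 0 2)) (htI 1 2))
    (I.add_mem (htI 1 3) (htI 2 3)) (t 1 3) Bd_id Bd_id
    (fun e y => th e / ((1 - (1 - th e) * y) * (1 - y))) (fun e y => G e (1 - th e) y) ?_ ?_ hpl
  · filter_upwards [ev_pos, ev_le (by norm_num : (0 : ℝ) < 1 / 2)] with e h0 h1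
    have hth0 := th_pos h0
    have hth1 := th_le h0 (by linarith)
    have hd : ∀ x ∈ Icc e (1 - e), 1 - x ≤ 1 - (1 - th e) * x := by
      intro x hx
      have : 0 ≤ th e * x := mul_nonneg hth0.le (h0.le.trans hx.1)
      linarith
    have hd' : ∀ x ∈ Icc e (1 - e), 0 < 1 - x := by
      intro x hx
      linarith [hx.2]
    have hc : ContinuousOn (fun y : ℝ => th e / ((1 - (1 - th e) * y) * (1 - y)))
        (Icc e (1 - e)) := by
      apply ContinuousOn.div continuousOn_const
      · fun_prop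
      · intro x hx
        have := hd x hx
        have := hd' x hx
        exact mul_ne_zero (by linarith) (by linarith)
    refine ⟨hc, ?_⟩
    have hf : ContinuousOn (fun x : ℝ => ((1 - x) ^ 2)⁻¹) (Icc e (1 - e)) := by
      apply ContinuousOn.inv₀
      · fun_prop
      · intro x hx
        have := hd' x hx
        exact pow_ne_zero 2 (by linarith)
    have := int_le (by linarith : e ≤ 1 - e) hc hf hth0.le (by
        intro x hx
        have h2 := hd x hx
        have h3 := hd' x hx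
        have h4 : 0 < 1 - (1 - th e) * x := by linarith
        rw [abs_of_nonneg (by positivity), ← div_eq_mul_inv]
        apply div_le_div_of_nonneg_left hth0.le (by positivity)
        rw [sq]
        exact mul_le_mul_of_nonneg_right h2 h3.le) (int_inv_sq' h0 h0 (by linarith))
    have h5 : th e * e⁻¹ ≤ e := by
      rw [← div_eq_mul_inv, div_le_iff₀ h0]
      unfold th
      rw [div_le_iff₀ (by positivity)]
      nlinarith [pow_pos h0 2]
    linarith
  · filter_upwards [ev_pos, ev_le (by norm_num : (0 : ℝ) < 1 / 2)] with e h0 h1 y hy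
    have hth0 := th_pos h0
    have hth1 := th_le h0 (by linarith)
    have hy0 : 0 < y := h0.trans_le hy.1
    have hy1 : y < 1 := by linarith [hy.2]
    have h := hG.hy e ⟨h0, by linarith⟩ (1 - th e) ⟨by linarith, by linarith⟩ y ⟨hy0, hy1⟩
    have h2 : 0 < 1 - (1 - th e) * y := by
      have : 0 ≤ th e * y := mul_nonneg hth0.le hy0.le
      linarith
    have h3 : 0 < 1 - y := by linarith
    have hc : -((1 - th e) / (1 - (1 - th e) * y)) =
        (y - 1)⁻¹ + th e / ((1 - (1 - th e) * y) * (1 - y)) := by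
      have h4 : y - 1 ≠ 0 := by linarith
      have h4' : 1 - y ≠ 0 := by linarith
      have h5 : 1 - (1 - th e) * y ≠ 0 := h2.ne'
      have e6 : (y - 1)⁻¹ = - (1 - y)⁻¹ := by rw [← neg_sub, inv_neg]
      rw [e6]
      field_simp
      ring
    have e1 : Oy t (1 - th e) y = Om (t 0 1 + t 0 2 + t 1 2) (t 1 3 + t 2 3) y +
        (th e / ((1 - (1 - th e) * y) * (1 - y))) • t 1 3 := by
      have e2 : Oy t (1 - th e) y = y⁻¹ • (t 0 1 + t 0 2 + t 1 2) + (y - 1)⁻¹ • t 2 3 +
          (-((1 - th e) / (1 - (1 - th e) * y))) • t 1 3 := by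
        unfold Oy
        rw [neg_smul, ← sub_eq_add_neg]
      rw [e2, hc]
      unfold Om
      module
    rw [e1] at h
    exact h

/-- the top edge -/
lemma edge_top (hE : SpecEDGE) (hP : KZlim N P) (hI : Nil N I) (htI : ∀ i j, t i j ∈ I)
    (hG : Sol t G) (hpl : PL (fun e => G e e (1 - e ^ 4))) :
    Sm (fun e => G e (1 - th e) (1 - e ^ 4) -
      pw (t 1 2 + t 1 3) (th e) * EV (t 0 1) (t 1 2 + t 1 3) P * pw (-t 0 1) e *
        G e e (1 - e ^ 4)) := by
  refine edge_step hE hP hI (htI 0 1) (I.add_mem (htI 1 2) (htI 1 3)) (t 1 3) Bd_id Bd_th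
    (fun e x => e ^ 4 / ((1 - x * (1 - e ^ 4)) * (1 - x))) (fun e x => G e x (1 - e ^ 4)) ?_ ?_ hpl
  · filter_upwards [ev_pos, ev_le (by norm_num : (0 : ℝ) < 1 / 2)] with e h0 h1
    have hth0 := th_pos h0
    have hth1 := th_le h0 (by linarith)
    have h4 : 0 < e ^ 4 := pow_pos h0 4
    have hd' : ∀ x ∈ Icc e (1 - th e), 0 < 1 - x := by
      intro x hx
      linarith [hx.2]
    have hd : ∀ x ∈ Icc e (1 - th e), 1 - x ≤ 1 - x * (1 - e ^ 4) := by
      intro x hx
      have : 0 ≤ x * e ^ 4 := mul_nonneg (h0.le.trans hx.1) h4.le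
      linarith
    have hc : ContinuousOn (fun x : ℝ => e ^ 4 / ((1 - x * (1 - e ^ 4)) * (1 - x)))
        (Icc e (1 - th e)) := by
      apply ContinuousOn.div continuousOn_const
      · fun_prop
      · intro x hx
        have := hd x hx
        have := hd' x hx
        exact mul_ne_zero (by linarith) (by linarith)
    refine ⟨hc, ?_⟩
    have hf : ContinuousOn (fun x : ℝ => ((1 - x) ^ 2)⁻¹) (Icc e (1 - th e)) := by
      apply ContinuousOn.inv₀
      · fun_prop
      · intro x hx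
        have := hd' x hx
        exact pow_ne_zero 2 (by linarith)
    have := int_le (by linarith : e ≤ 1 - th e) hc hf h4.le (by
        intro x hx
        have h2 := hd x hx
        have h3 := hd' x hx
        have h4 : 0 < 1 - x * (1 - e ^ 4) := by linarith
        rw [abs_of_nonneg (by positivity), ← div_eq_mul_inv]
        apply div_le_div_of_nonneg_left (by positivity) (by positivity)
        rw [sq]
        exact mul_le_mul_of_nonneg_right h2 h3.le) (int_inv_sq' h0 hth0 (by linarith))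
    have h5 : e ^ 4 * (th e)⁻¹ ≤ 4 * e := by
      rw [← div_eq_mul_inv, div_le_iff₀ hth0]
      unfold th
      rw [mul_div_assoc', le_div_iff₀ (by positivity)]
      have h6 : e ^ 2 ≤ (1 / 2) ^ 2 := pow_le_pow_left₀ h0.le h1 2
      have h7 : e * (1 + e ^ 2) ≤ 4 := by nlinarith
      calc e ^ 4 * (1 + e ^ 2) = e ^ 3 * (e * (1 + e ^ 2)) := by ring
        _ ≤ e ^ 3 * 4 := by gcongr
        _ = 4 * e * e ^ 2 := by ring
    exact this.trans h5
  · filter_upwards [ev_pos, ev_le (by norm_num : (0 : ℝ) < 1 / 2)] with e h0 h1 x hx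
    have hth0 := th_pos h0
    have hth1 := th_le h0 (by linarith)
    have h4 : 0 < e ^ 4 := pow_pos h0 4
    have h4' : e ^ 4 ≤ 1 / 2 := by
      calc e ^ 4 ≤ e ^ 1 := pow_le_pow_of_le_one h0.le (by linarith) (by norm_num)
        _ = e := pow_one e
        _ ≤ 1 / 2 := h1
    have hx0 : 0 < x := h0.trans_le hx.1
    have hx1 : x < 1 := by linarith [hx.2]
    have h := hG.hx e ⟨h0, by linarith⟩ x ⟨hx0, hx1⟩ (1 - e ^ 4) ⟨by linarith, by linarith⟩
    have h2 : 0 < 1 - x * (1 - e ^ 4) := by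
      have : 0 ≤ x * e ^ 4 := mul_nonneg hx0.le h4.le
      linarith
    have hc : -((1 - e ^ 4) / (1 - x * (1 - e ^ 4))) =
        (x - 1)⁻¹ + e ^ 4 / ((1 - x * (1 - e ^ 4)) * (1 - x)) := by
      have h4' : 1 - x ≠ 0 := by linarith
      have h5 : 1 - x * (1 - e ^ 4) ≠ 0 := h2.ne'
      have e6 : (x - 1)⁻¹ = - (1 - x)⁻¹ := by rw [← neg_sub, inv_neg]
      rw [e6]
      generalize e ^ 4 = q at h5 ⊢
      obtain ⟨D, hD⟩ : ∃ D, D = 1 - x * (1 - q) := ⟨_, rfl⟩
      rw [← hD] at h5 ⊢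
      field_simp
      rw [hD]
      ring
    have e1 : Ox t x (1 - e ^ 4) = Om (t 0 1) (t 1 2 + t 1 3) x +
        (e ^ 4 / ((1 - x * (1 - e ^ 4)) * (1 - x))) • t 1 3 := by
      have e2 : Ox t x (1 - e ^ 4) = x⁻¹ • t 0 1 + (x - 1)⁻¹ • t 1 2 +
          (-((1 - e ^ 4) / (1 - x * (1 - e ^ 4)))) • t 1 3 := by
        unfold Ox
        rw [neg_smul, ← sub_eq_add_neg]
      rw [e2, hc]
      unfold Om
      module
    rw [e1] at h
    exact h

/-- the height on the upper part of the right edge -/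
def vv (e r : ℝ) : ℝ := e ^ 2 * (1 - r) / r

lemma vv_r0 {e : ℝ} (h : 0 < e) : vv e (r0 e) = e := by
  unfold vv r0
  field_simp
  ring

lemma vv_th {e : ℝ} (h : 0 < e) : vv e (1 - th e) = e ^ 4 := by
  unfold vv th
  field_simp
  ring

/-- the upper part of the right edge -/
lemma edge_right2 (hE : SpecEDGE) (hP : KZlim N P) (hI : Nil N I) (htI : ∀ i j, t i j ∈ I)
    (hG : Sol t G) (hpl : PL (fun e => G e (1 - th e) (1 - e))) :
    Sm (fun e => G e (1 - th e) (1 - e ^ 4) -
      pw (t 2 3) (th e) * EV (-(t 1 3 + t 2 3)) (t 2 3) P *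
        pw (-(-(t 1 3 + t 2 3))) (r0 e) * G e (1 - th e) (1 - e)) := by
  have key := edge_step hE hP hI (A := -(t 1 3 + t 2 3)) (B := t 2 3)
    (I.neg_mem (I.add_mem (htI 1 3) (htI 2 3))) (htI 2 3) (t 0 1 + t 0 2 + t 1 2) Bd_r0 Bd_th
    (fun e r => e ^ 2 / (r ^ 2 * (1 - vv e r))) (fun e r => G e (1 - th e) (1 - vv e r)) ?_ ?_ ?_
  · refine Sm.congr key ?_
    filter_upwards [ev_pos] with e h0
    rw [vv_r0 h0, vv_th h0]
  · filter_upwards [ev_pos, ev_le (by norm_num : (0 : ℝ) < 1 / 2)] with e h0 h1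
    have hth0 := th_pos h0
    have hth1 := th_le h0 (by linarith)
    have hr0 := r0_pos h0
    have hr1 := r0_le h0
    have hv : ∀ r ∈ Icc (r0 e) (1 - th e), vv e r ≤ 1 / 2 := by
      intro r hr
      have hr0' : 0 < r := hr0.trans_le hr.1
      have : vv e r ≤ vv e (r0 e) := by
        unfold vv
        rw [div_le_div_iff₀ hr0' hr0]
        nlinarith [hr.1, pow_pos h0 2]
      rw [vv_r0 h0] at this
      linarith
    have hc : ContinuousOn (fun r : ℝ => e ^ 2 / (r ^ 2 * (1 - vv e r)))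
        (Icc (r0 e) (1 - th e)) := by
      apply ContinuousOn.div continuousOn_const
      · apply ContinuousOn.mul (by fun_prop)
        apply ContinuousOn.sub continuousOn_const
        unfold vv
        apply ContinuousOn.div (by fun_prop) continuousOn_id
        intro x hx
        exact (hr0.trans_le hx.1).ne'
      · intro x hx
        have := hv x hx
        exact mul_ne_zero (pow_ne_zero 2 (hr0.trans_le hx.1).ne') (by linarith)
    refine ⟨hc, ?_⟩
    have hf : ContinuousOn (fun x : ℝ => (x ^ 2)⁻¹) (Icc (r0 e) (1 - th e)) := by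
      apply ContinuousOn.inv₀
      · fun_prop
      · intro x hx
        exact pow_ne_zero 2 (hr0.trans_le hx.1).ne'
    have := int_le (by linarith : r0 e ≤ 1 - th e) hc hf (K := 2 * e ^ 2) (by positivity) (by
        intro x hx
        have h2 := hv x hx
        have h3 : 0 < x := hr0.trans_le hx.1
        have h4 : 0 < 1 - vv e x := by linarith
        rw [abs_of_nonneg (by positivity), ← div_eq_mul_inv, div_le_div_iff₀ (by positivity)
          (by positivity)]
        have h5 : 1 ≤ 2 * (1 - vv e x) := by linarith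
        have h6 : 0 ≤ e ^ 2 * x ^ 2 := by positivity
        nlinarith) (int_inv_sq hr0 hth0 (by linarith))
    have h5 : 2 * e ^ 2 * (r0 e)⁻¹ ≤ 4 * e := by
      rw [← div_eq_mul_inv, div_le_iff₀ hr0]
      unfold r0
      rw [mul_div_assoc', le_div_iff₀ (by positivity)]
      nlinarith [pow_pos h0 2]
    exact this.trans h5
  · filter_upwards [ev_pos, ev_le (by norm_num : (0 : ℝ) < 1 / 2)] with e h0 h1 r hr
    have hth0 := th_pos h0
    have hth1 := th_le h0 (by linarith)
    have hr0 := r0_pos h0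
    have hr1 := r0_le h0
    have hr0' : 0 < r := hr0.trans_le hr.1
    have hr1' : r < 1 := by linarith [hr.2]
    have hv1 : vv e r < 1 := by
      have : vv e r ≤ vv e (r0 e) := by
        unfold vv
        rw [div_le_div_iff₀ hr0' hr0]
        nlinarith [hr.1, pow_pos h0 2]
      rw [vv_r0 h0] at this
      linarith
    have hv0 : 0 < vv e r := by
      unfold vv
      have : 0 < 1 - r := by linarith
      positivity
    have hd : HasDerivAt (fun r => 1 - vv e r) (e ^ 2 / r ^ 2) r := by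
      have h2 : HasDerivAt (fun r : ℝ => 1 - r) (-1) r := by
        simpa using (hasDerivAt_id r).const_sub (1 : ℝ)
      have h3 := ((h2.const_mul (e ^ 2)).div (hasDerivAt_id r) hr0'.ne').const_sub 1
      have e3 : -((e ^ 2 * -1 * id r - e ^ 2 * (1 - r) * 1) / id r ^ 2) = e ^ 2 / r ^ 2 := by
        simp only [id]
        field_simp
        ring
      rw [e3] at h3
      exact h3
    have h := hG.hy e ⟨h0, by linarith⟩ (1 - th e) ⟨by linarith, by linarith⟩ (1 - vv e r)
      ⟨by linarith, by linarith⟩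
    have h' := HasDerivAt.scomp r h hd
    have hc2 : e ^ 2 / r ^ 2 * ((1 - vv e r) - 1)⁻¹ = -r⁻¹ + (r - 1)⁻¹ := by
      have h3 : (1 - vv e r) - 1 = e ^ 2 * (r - 1) / r := by
        unfold vv
        ring
      have h4 : r - 1 ≠ 0 := by linarith
      rw [h3]
      field_simp
      ring
    have hc3 : e ^ 2 / r ^ 2 * ((1 - th e) / (1 - (1 - th e) * (1 - vv e r))) = r⁻¹ := by
      have h3 : 1 - th e = 1 / (1 + e ^ 2) := by
        unfold th
        field_simp
        ring
      have h4 : 1 - (1 - th e) * (1 - vv e r) = e ^ 2 / (r * (1 + e ^ 2)) := by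
        rw [h3]
        unfold vv
        field_simp
        ring
      rw [h4, h3]
      field_simp
    have hc1 : e ^ 2 / r ^ 2 * (1 - vv e r)⁻¹ = e ^ 2 / (r ^ 2 * (1 - vv e r)) := by
      rw [← div_eq_mul_inv, div_div]
    have e1 : (e ^ 2 / r ^ 2) • Oy t (1 - th e) (1 - vv e r) =
        Om (-(t 1 3 + t 2 3)) (t 2 3) r +
          (e ^ 2 / (r ^ 2 * (1 - vv e r))) • (t 0 1 + t 0 2 + t 1 2) := by
      unfold Oy Om
      rw [smul_sub, smul_add, smul_smul, smul_smul, smul_smul, hc1, hc2, hc3]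
      module
    rw [← smul_mul_assoc, e1] at h'
    exact h'
  · refine PL.congr hpl ?_
    filter_upwards [ev_pos] with e h0
    rw [vv_r0 h0]

end Edges

end MP446S.KP
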